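import Pool.Agent.WSQ.Defs

/-!
# Module F2: the sine eigenbasis of the box
-/

open scoped BigOperators

namespace Pool.Agent.WSQ

/-- Principal Dirichlet eigenvalue of the box `[1,n]²`. -/
noncomputable def lamBox (n : ℕ) : ℝ := 4 - 4 * Real.cos (Real.pi / ((n : ℝ) + 1))

/-- Normalised principal eigenfunction of the box. -/
noncomputable def phiBox (n : ℕ) (z : Z2) : ℝ :=
  2 / ((n : ℝ) + 1) * (Real.sin (Real.pi * z.1 / ((n : ℝ) + 1)) *
    Real.sin (Real.pi * z.2 / ((n : ℝ) + 1)))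

/-! ### One-dimensional sines -/

/-- One-dimensional sine. -/
noncomputable def sn (n : ℕ) (k i : ℤ) : ℝ := Real.sin (Real.pi * k * i / ((n : ℝ) + 1))

theorem sn_comm (n : ℕ) (k i : ℤ) : sn n k i = sn n i k := by
  unfold sn; congr 1; ring

theorem sn_zero (n : ℕ) (k : ℤ) : sn n k 0 = 0 := by simp [sn]

theorem sn_top (n : ℕ) (k : ℤ) : sn n k ((n : ℤ) + 1) = 0 := by
  unfold sn
  have h1 : (n : ℝ) + 1 ≠ 0 := by positivity
  have h : Real.pi * k * (((n : ℤ) + 1 : ℤ) : ℝ) / ((n : ℝ) + 1) = k * Real.pi := by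
    push_cast; field_simp
  rw [h]; exact Real.sin_int_mul_pi k

theorem sn_step (n : ℕ) (k i : ℤ) :
    sn n k (i + 1) + sn n k (i - 1) = 2 * Real.cos (Real.pi * k / ((n : ℝ) + 1)) * sn n k i := by
  unfold sn
  have h1 : (n : ℝ) + 1 ≠ 0 := by positivity
  have e1 : Real.pi * k * ((i + 1 : ℤ) : ℝ) / ((n : ℝ) + 1) =
      Real.pi * k * i / ((n : ℝ) + 1) + Real.pi * k / ((n : ℝ) + 1) := by
    push_cast; field_simp
  have e2 : Real.pi * k * ((i - 1 : ℤ) : ℝ) / ((n : ℝ) + 1) =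
      Real.pi * k * i / ((n : ℝ) + 1) - Real.pi * k / ((n : ℝ) + 1) := by
    push_cast; field_simp
  rw [e1, e2, Real.sin_add, Real.sin_sub]; ring

theorem sum_Icc_int (F : ℤ → ℝ) (n : ℕ) :
    ∑ i ∈ Finset.Icc (1 : ℤ) n, F i = ∑ j ∈ Finset.range n, F ((j : ℤ) + 1) := by
  refine Finset.sum_nbij' (fun i => (i - 1).toNat) (fun j => (j : ℤ) + 1) ?_ ?_ ?_ ?_ ?_
  · intro i hi
    simp only [Finset.mem_Icc] at hi
    simp only [Finset.mem_range]; omega
  · intro j hj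
    simp only [Finset.mem_range] at hj
    simp only [Finset.mem_Icc]; omega
  · intro i hi
    simp only [Finset.mem_Icc] at hi
    omega
  · intro j hj
    omega
  · intro i hi
    simp only [Finset.mem_Icc] at hi
    congr 1; omega

theorem cos_sum (n : ℕ) (m : ℤ) (hm : Real.sin (Real.pi * m / ((n : ℝ) + 1) / 2) ≠ 0) :
    ∑ i ∈ Finset.Icc (1 : ℤ) n, Real.cos (Real.pi * m * i / ((n : ℝ) + 1)) =
      -(1 + Real.cos (Real.pi * m)) / 2 := by
  have h1 : (n : ℝ) + 1 ≠ 0 := by positivity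
  set θ := Real.pi * m / ((n : ℝ) + 1) with hθ
  rw [sum_Icc_int]
  have hc : ∀ j : ℕ, Real.cos (Real.pi * m * (((j : ℤ) + 1 : ℤ) : ℝ) / ((n : ℝ) + 1)) =
      Real.cos (((j : ℝ) + 1) * θ) := by
    intro j; congr 1; rw [hθ]; push_cast; field_simp
  have key : ∀ N : ℕ, 2 * Real.sin (θ / 2) * ∑ j ∈ Finset.range N,
      Real.cos (((j : ℝ) + 1) * θ) = Real.sin ((N + 1 / 2) * θ) - Real.sin (θ / 2) := by
    intro N
    induction N with
    | zero => simp; ring_nf
    | succ N ih =>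
      rw [Finset.sum_range_succ, mul_add, ih]
      have e1 : ((N : ℝ) + 1 / 2) * θ = ((N : ℝ) + 1) * θ - θ / 2 := by ring
      have e2 : (((N + 1 : ℕ) : ℝ) + 1 / 2) * θ = ((N : ℝ) + 1) * θ + θ / 2 := by
        push_cast; ring
      rw [e1, e2, Real.sin_sub, Real.sin_add]; ring
  have h2 := key n
  have h3 : ((n : ℝ) + 1 / 2) * θ = Real.pi * m - θ / 2 := by
    rw [hθ]; field_simp; ring
  have h4 : Real.sin (Real.pi * m) = 0 := by
    rw [mul_comm]; exact Real.sin_int_mul_pi m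
  rw [h3, Real.sin_sub, h4] at h2
  rw [Finset.sum_congr rfl (fun j _ => hc j)]
  have h5 : Real.sin (θ / 2) * (2 * (∑ j ∈ Finset.range n, Real.cos (((j : ℝ) + 1) * θ)) +
      (1 + Real.cos (Real.pi * m))) = 0 := by linarith
  rcases mul_eq_zero.mp h5 with h | h
  · exact absurd h hm
  · linarith

theorem sin_half_ne (n : ℕ) (m : ℤ) (h0 : m ≠ 0) (h1 : |m| < 2 * ((n : ℤ) + 1)) :
    Real.sin (Real.pi * m / ((n : ℝ) + 1) / 2) ≠ 0 := by
  have hM : (0 : ℝ) < (n : ℝ) + 1 := by positivity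
  have hpi := Real.pi_pos
  have ha : (|m| : ℝ) < 2 * ((n : ℝ) + 1) := by
    have : ((|m| : ℤ) : ℝ) < ((2 * ((n : ℤ) + 1) : ℤ) : ℝ) := by exact_mod_cast h1
    push_cast at this; exact this
  rcases lt_or_gt_of_ne h0 with h | h
  · have hm : (m : ℝ) < 0 := by exact_mod_cast h
    rw [abs_of_neg hm] at ha
    have hneg : Real.sin (Real.pi * m / ((n : ℝ) + 1) / 2) < 0 := by
      apply Real.sin_neg_of_neg_of_neg_pi_lt
      · have : Real.pi * m / ((n : ℝ) + 1) / 2 = (Real.pi * m) / (2 * ((n : ℝ) + 1)) := by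
          field_simp
        rw [this]
        apply div_neg_of_neg_of_pos
        · nlinarith
        · positivity
      · have : Real.pi * m / ((n : ℝ) + 1) / 2 = (Real.pi * m) / (2 * ((n : ℝ) + 1)) := by
          field_simp
        rw [this, lt_div_iff₀ (by positivity)]
        nlinarith
    exact hneg.ne
  · have hm : (0 : ℝ) < m := by exact_mod_cast h
    rw [abs_of_pos hm] at ha
    have hpos : 0 < Real.sin (Real.pi * m / ((n : ℝ) + 1) / 2) := by
      apply Real.sin_pos_of_pos_of_lt_pi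
      · positivity
      · have : Real.pi * m / ((n : ℝ) + 1) / 2 = (Real.pi * m) / (2 * ((n : ℝ) + 1)) := by
          field_simp
        rw [this, div_lt_iff₀ (by positivity)]
        nlinarith
    exact hpos.ne'

theorem sn_orth (n : ℕ) (k l : ℤ) (hk : k ∈ Finset.Icc (1 : ℤ) n) (hl : l ∈ Finset.Icc (1 : ℤ) n) :
    ∑ i ∈ Finset.Icc (1 : ℤ) n, sn n k i * sn n l i =
      if k = l then ((n : ℝ) + 1) / 2 else 0 := by
  simp only [Finset.mem_Icc] at hk hl
  have h1 : (n : ℝ) + 1 ≠ 0 := by positivity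
  have hprod : ∀ i : ℤ, sn n k i * sn n l i =
      (Real.cos (Real.pi * ((k - l : ℤ) : ℝ) * i / ((n : ℝ) + 1)) -
        Real.cos (Real.pi * ((k + l : ℤ) : ℝ) * i / ((n : ℝ) + 1))) / 2 := by
    intro i
    have e1 : Real.pi * ((k - l : ℤ) : ℝ) * i / ((n : ℝ) + 1) =
        Real.pi * k * i / ((n : ℝ) + 1) - Real.pi * l * i / ((n : ℝ) + 1) := by
      push_cast; field_simp
    have e2 : Real.pi * ((k + l : ℤ) : ℝ) * i / ((n : ℝ) + 1) =
        Real.pi * k * i / ((n : ℝ) + 1) + Real.pi * l * i / ((n : ℝ) + 1) := by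
      push_cast; field_simp
    rw [e1, e2, Real.cos_sub, Real.cos_add]; unfold sn; ring
  rw [Finset.sum_congr rfl (fun i _ => hprod i), ← Finset.sum_div, Finset.sum_sub_distrib]
  have hsk : Real.sin (Real.pi * k) = 0 := by rw [mul_comm]; exact Real.sin_int_mul_pi k
  have hsum : ∑ i ∈ Finset.Icc (1 : ℤ) n, Real.cos (Real.pi * ((k + l : ℤ) : ℝ) * i / ((n : ℝ) + 1))
      = -(1 + Real.cos (Real.pi * k) * Real.cos (Real.pi * l)) / 2 := by
    rw [cos_sum n (k + l) (sin_half_ne n (k + l) (by omega) (by rw [abs_lt]; omega))]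
    have : Real.pi * ((k + l : ℤ) : ℝ) = Real.pi * k + Real.pi * l := by push_cast; ring
    rw [this, Real.cos_add, hsk]; ring
  rw [hsum]
  split_ifs with hkl
  · subst hkl
    have hcc : Real.cos (Real.pi * k) * Real.cos (Real.pi * k) = 1 := by
      have := Real.sin_sq_add_cos_sq (Real.pi * k)
      rw [hsk] at this; nlinarith
    rw [hcc]
    simp
  · rw [cos_sum n (k - l) (sin_half_ne n (k - l) (by omega) (by rw [abs_lt]; omega))]
    have : Real.pi * ((k - l : ℤ) : ℝ) = Real.pi * k - Real.pi * l := by push_cast; ring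
    rw [this, Real.cos_sub, hsk]; ring

/-! ### Two-dimensional eigenfunctions -/

/-- Two-dimensional normalised eigenfunctions. -/
noncomputable def ef (n : ℕ) (p x : Z2) : ℝ := 2 / ((n : ℝ) + 1) * (sn n p.1 x.1 * sn n p.2 x.2)

theorem ef_comm (n : ℕ) (p x : Z2) : ef n p x = ef n x p := by
  unfold ef; rw [sn_comm n p.1, sn_comm n p.2]

theorem phiBox_eq (n : ℕ) (x : Z2) : phiBox n x = ef n (1, 1) x := by
  unfold phiBox ef sn; simp

theorem mem_box (n : ℕ) (x : Z2) :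
    x ∈ box n ↔ x.1 ∈ Finset.Icc (1 : ℤ) n ∧ x.2 ∈ Finset.Icc (1 : ℤ) n := by
  simp only [box, Finset.mem_product]

theorem ef_orth (n : ℕ) (p q : Z2) (hp : p ∈ box n) (hq : q ∈ box n) :
    ∑ x ∈ box n, ef n p x * ef n q x = if p = q then 1 else 0 := by
  rw [mem_box] at hp hq
  have h1 : (n : ℝ) + 1 ≠ 0 := by positivity
  have h2 : ∑ x ∈ box n, ef n p x * ef n q x = (2 / ((n : ℝ) + 1)) ^ 2 *
      ((∑ i ∈ Finset.Icc (1 : ℤ) n, sn n p.1 i * sn n q.1 i) *
        ∑ i ∈ Finset.Icc (1 : ℤ) n, sn n p.2 i * sn n q.2 i) := by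
    rw [Finset.sum_mul_sum, Finset.mul_sum]
    unfold box
    rw [Finset.sum_product]
    refine Finset.sum_congr rfl fun i _ => ?_
    rw [Finset.mul_sum]
    refine Finset.sum_congr rfl fun j _ => ?_
    unfold ef; ring
  rw [h2, sn_orth n _ _ hp.1 hq.1, sn_orth n _ _ hp.2 hq.2]
  by_cases h : p = q
  · subst h; simp; field_simp
  · rw [if_neg h]
    by_cases h3 : p.1 = q.1
    · have h4 : p.2 ≠ q.2 := fun h4 => h (Prod.ext h3 h4)
      rw [if_neg h4]; ring
    · rw [if_neg h3]; ring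

theorem ef_compl (n : ℕ) (x y : Z2) (hx : x ∈ box n) (hy : y ∈ box n) :
    ∑ p ∈ box n, ef n p x * ef n p y = if x = y then 1 else 0 := by
  rw [← ef_orth n x y hx hy]
  refine Finset.sum_congr rfl fun p _ => ?_
  rw [ef_comm n p x, ef_comm n p y]

/-- Fourier coefficient. -/
noncomputable def hat (n : ℕ) (g : Z2 → ℝ) (p : Z2) : ℝ := ∑ x ∈ box n, ef n p x * g x

/-- Eigenvalue. -/
noncomputable def muB (n : ℕ) (p : Z2) : ℝ :=
  4 - 2 * Real.cos (Real.pi * p.1 / ((n : ℝ) + 1)) - 2 * Real.cos (Real.pi * p.2 / ((n : ℝ) + 1))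

theorem muB_one (n : ℕ) : muB n (1, 1) = lamBox n := by
  unfold muB lamBox; simp; ring

theorem hat_inv (n : ℕ) (g : Z2 → ℝ) (x : Z2) (hx : x ∈ box n) :
    g x = ∑ p ∈ box n, hat n g p * ef n p x := by
  unfold hat
  have h1 : ∑ p ∈ box n, (∑ y ∈ box n, ef n p y * g y) * ef n p x =
      ∑ y ∈ box n, g y * ∑ p ∈ box n, ef n p y * ef n p x := by
    simp_rw [Finset.sum_mul, Finset.mul_sum]
    rw [Finset.sum_comm]
    refine Finset.sum_congr rfl fun y _ => Finset.sum_congr rfl fun p _ => ?_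
    ring
  rw [h1]
  have h2 : ∀ y ∈ box n, g y * ∑ p ∈ box n, ef n p y * ef n p x = if y = x then g y else 0 := by
    intro y hy
    rw [ef_compl n y x hy hx]; split_ifs <;> simp
  rw [Finset.sum_congr rfl h2, Finset.sum_ite_eq' (box n) x g, if_pos hx]

theorem sum_hat (n : ℕ) (g : Z2 → ℝ) (c : Z2 → ℝ) :
    ∑ x ∈ box n, g x * ∑ p ∈ box n, c p * ef n p x = ∑ p ∈ box n, c p * hat n g p := by
  unfold hat
  simp_rw [Finset.mul_sum]
  rw [Finset.sum_comm]
  refine Finset.sum_congr rfl fun y _ => Finset.sum_congr rfl fun p _ => ?_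
  ring

theorem nsq_eq (n : ℕ) (g : Z2 → ℝ) : nsq (box n) g = ∑ p ∈ box n, hat n g p ^ 2 := by
  unfold nsq
  have h1 : ∑ x ∈ box n, g x ^ 2 = ∑ x ∈ box n, g x * ∑ p ∈ box n, hat n g p * ef n p x := by
    refine Finset.sum_congr rfl fun x hx => ?_
    rw [← hat_inv n g x hx]; ring
  rw [h1, sum_hat]
  refine Finset.sum_congr rfl fun p _ => ?_
  ring

/-- The Fourier extension vanishes at the outer neighbours of the box. -/
theorem ext_eq (n : ℕ) (g : Z2 → ℝ) (x : Z2) (hx : x ∈ box n) (e : Fin 4) :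
    (if x + step e ∈ box n then g (x + step e) else 0) =
      ∑ p ∈ box n, hat n g p * ef n p (x + step e) := by
  split_ifs with h
  · exact hat_inv n g _ h
  · symm
    apply Finset.sum_eq_zero
    intro p _
    have hz : ef n p (x + step e) = 0 := by
      rw [mem_box] at hx h
      simp only [Finset.mem_Icc] at hx h
      unfold ef
      fin_cases e
      · simp [step] at h ⊢
        have : x.1 = n := by by_contra hne; omega
        right; left; rw [this]; exact sn_top n _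
      · simp [step] at h ⊢
        have : x.1 = 1 := by by_contra hne; omega
        right; left; rw [this]; exact sn_zero n _
      · simp [step] at h ⊢
        have : x.2 = n := by by_contra hne; omega
        right; right; rw [this]; exact sn_top n _
      · simp [step] at h ⊢
        have : x.2 = 1 := by by_contra hne; omega
        right; right; rw [this]; exact sn_zero n _
    rw [hz, mul_zero]

theorem ef_sum (n : ℕ) (p x : Z2) :
    ∑ e : Fin 4, ef n p (x + step e) = (4 - muB n p) * ef n p x := by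
  have h1 := sn_step n p.1 x.1
  have h2 := sn_step n p.2 x.2
  simp only [Fin.sum_univ_four, step, ef, muB]
  simp
  have h3 : sn n p.1 (x.1 + -1) = sn n p.1 (x.1 - 1) := rfl
  have h4 : sn n p.2 (x.2 + -1) = sn n p.2 (x.2 - 1) := rfl
  rw [h3, h4]
  linear_combination (2 / ((n : ℝ) + 1)) * sn n p.2 x.2 * h1 +
    (2 / ((n : ℝ) + 1)) * sn n p.1 x.1 * h2

theorem opA_eq (n : ℕ) (g : Z2 → ℝ) (x : Z2) (hx : x ∈ box n) :
    opA (box n) (fun _ => 0) g x = ∑ p ∈ box n, (-(muB n p * hat n g p)) * ef n p x := by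
  unfold opA
  rw [Finset.sum_congr rfl (fun e _ => ext_eq n g x hx e), Finset.sum_comm]
  have h1 : ∀ p ∈ box n, ∑ e : Fin 4, hat n g p * ef n p (x + step e) =
      hat n g p * ((4 - muB n p) * ef n p x) := by
    intro p _
    rw [← Finset.mul_sum, ef_sum]
  rw [Finset.sum_congr rfl h1]
  have h2 : 4 * g x = ∑ p ∈ box n, hat n g p * (4 * ef n p x) := by
    rw [hat_inv n g x hx, Finset.mul_sum]
    refine Finset.sum_congr rfl fun p _ => ?_
    ring
  rw [h2, zero_mul, add_zero, ← Finset.sum_sub_distrib]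
  refine Finset.sum_congr rfl fun p _ => ?_
  ring

theorem Q_eq (n : ℕ) (g : Z2 → ℝ) :
    Q (box n) (fun _ => 0) g = -∑ p ∈ box n, muB n p * hat n g p ^ 2 := by
  unfold Q
  rw [Finset.sum_congr rfl (fun x hx => by rw [opA_eq n g x hx]), sum_hat, ← Finset.sum_neg_distrib]
  refine Finset.sum_congr rfl fun p _ => ?_
  ring

theorem one_mem_box (n : ℕ) (hn : 1 ≤ n) : ((1, 1) : Z2) ∈ box n := by
  rw [mem_box]; simp only [Finset.mem_Icc]; omega

theorem phiBox_norm (n : ℕ) (hn : 1 ≤ n) : nsq (box n) (phiBox n) = 1 := by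
  have h := ef_orth n (1, 1) (1, 1) (one_mem_box n hn) (one_mem_box n hn)
  rw [if_pos rfl] at h
  rw [← h]; unfold nsq
  refine Finset.sum_congr rfl fun x _ => ?_
  rw [phiBox_eq]; ring

theorem hat_phi (n : ℕ) (hn : 1 ≤ n) (p : Z2) (hp : p ∈ box n) :
    hat n (phiBox n) p = if p = (1, 1) then 1 else 0 := by
  unfold hat
  rw [← ef_orth n p (1, 1) hp (one_mem_box n hn)]
  refine Finset.sum_congr rfl fun x _ => ?_
  rw [phiBox_eq]

theorem phiBox_eig (n : ℕ) (hn : 1 ≤ n) (x : Z2) (hx : x ∈ box n) :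
    opA (box n) (fun _ => 0) (phiBox n) x = -lamBox n * phiBox n x := by
  rw [opA_eq n _ x hx]
  have h1 : ∀ p ∈ box n, -(muB n p * hat n (phiBox n) p) * ef n p x =
      if p = (1, 1) then -lamBox n * phiBox n x else 0 := by
    intro p hp
    rw [hat_phi n hn p hp]
    split_ifs with h
    · subst h; rw [muB_one, phiBox_eq]; ring
    · ring
  rw [Finset.sum_congr rfl h1, Finset.sum_ite_eq' (box n), if_pos (one_mem_box n hn)]

/-! ### The eigenvalue gap -/

theorem cos_gap (n : ℕ) (hn : 1 ≤ n) (k : ℤ) (hk : k ∈ Finset.Icc (1 : ℤ) n) :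
    2 * ((k : ℝ) ^ 2 - 1) / ((n : ℝ) + 1) ^ 2 ≤
      Real.cos (Real.pi / ((n : ℝ) + 1)) - Real.cos (Real.pi * k / ((n : ℝ) + 1)) := by
  simp only [Finset.mem_Icc] at hk
  have hM : (0 : ℝ) < (n : ℝ) + 1 := by positivity
  have hk1 : (1 : ℝ) ≤ k := by exact_mod_cast hk.1
  have hk2 : (k : ℝ) ≤ n := by exact_mod_cast hk.2
  have hpi := Real.pi_pos
  rw [Real.cos_sub_cos]
  set a := (Real.pi / ((n : ℝ) + 1) + Real.pi * k / ((n : ℝ) + 1)) / 2 with ha
  set b := (Real.pi / ((n : ℝ) + 1) - Real.pi * k / ((n : ℝ) + 1)) / 2 with hb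
  have ea : a = Real.pi / 2 * (((k : ℝ) + 1) / ((n : ℝ) + 1)) := by rw [ha]; field_simp; ring
  have eb : b = -(Real.pi / 2 * (((k : ℝ) - 1) / ((n : ℝ) + 1))) := by rw [hb]; field_simp; ring
  have q1 : ((k : ℝ) + 1) / ((n : ℝ) + 1) ≤ 1 := by rw [div_le_one hM]; linarith
  have q2 : ((k : ℝ) - 1) / ((n : ℝ) + 1) ≤ 1 := by rw [div_le_one hM]; linarith
  have q1' : 0 ≤ ((k : ℝ) + 1) / ((n : ℝ) + 1) := by positivity
  have q2' : 0 ≤ ((k : ℝ) - 1) / ((n : ℝ) + 1) := div_nonneg (by linarith) hM.le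
  have s1 : ((k : ℝ) + 1) / ((n : ℝ) + 1) ≤ Real.sin a := by
    have := Real.mul_le_sin (x := a) (by rw [ea]; positivity) (by rw [ea]; nlinarith)
    rw [ea] at this ⊢
    have e : 2 / Real.pi * (Real.pi / 2 * (((k : ℝ) + 1) / ((n : ℝ) + 1))) =
      ((k : ℝ) + 1) / ((n : ℝ) + 1) := by field_simp
    rwa [e] at this
  have s2 : ((k : ℝ) - 1) / ((n : ℝ) + 1) ≤ Real.sin (-b) := by
    have := Real.mul_le_sin (x := -b) (by rw [eb, neg_neg]; positivity)
      (by rw [eb, neg_neg]; nlinarith)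
    rw [eb, neg_neg] at this ⊢
    have e : 2 / Real.pi * (Real.pi / 2 * (((k : ℝ) - 1) / ((n : ℝ) + 1))) =
      ((k : ℝ) - 1) / ((n : ℝ) + 1) := by field_simp
    rwa [e] at this
  rw [Real.sin_neg] at s2
  have h3 : ((k : ℝ) + 1) / ((n : ℝ) + 1) * (((k : ℝ) - 1) / ((n : ℝ) + 1)) ≤
      Real.sin a * -Real.sin b := mul_le_mul s1 s2 q2' (q1'.trans s1)
  have h4 : 2 * ((k : ℝ) ^ 2 - 1) / ((n : ℝ) + 1) ^ 2 =
      2 * (((k : ℝ) + 1) / ((n : ℝ) + 1) * (((k : ℝ) - 1) / ((n : ℝ) + 1))) := by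
    field_simp; ring
  rw [h4]; linarith

theorem muB_gap (n : ℕ) (hn : 1 ≤ n) (p : Z2) (hp : p ∈ box n) :
    4 * ((p.1 : ℝ) ^ 2 + (p.2 : ℝ) ^ 2 - 2) / ((n : ℝ) + 1) ^ 2 ≤ muB n p - lamBox n := by
  rw [mem_box] at hp
  have h1 := cos_gap n hn p.1 hp.1
  have h2 := cos_gap n hn p.2 hp.2
  have h3 : 4 * ((p.1 : ℝ) ^ 2 + (p.2 : ℝ) ^ 2 - 2) / ((n : ℝ) + 1) ^ 2 =
      2 * (2 * ((p.1 : ℝ) ^ 2 - 1) / ((n : ℝ) + 1) ^ 2) +
      2 * (2 * ((p.2 : ℝ) ^ 2 - 1) / ((n : ℝ) + 1) ^ 2) := by ring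
  unfold muB lamBox
  rw [h3]; linarith

theorem sq_sum_ge (p : Z2) (n : ℕ) (hp : p ∈ box n) (h : p ≠ (1, 1)) :
    (5 : ℝ) ≤ (p.1 : ℝ) ^ 2 + (p.2 : ℝ) ^ 2 := by
  rw [mem_box] at hp
  simp only [Finset.mem_Icc] at hp
  have h1 : 3 ≤ p.1 + p.2 := by
    by_contra hlt
    apply h
    apply Prod.ext
    · show p.1 = 1; omega
    · show p.2 = 1; omega
  have h2 : (5 : ℤ) ≤ p.1 ^ 2 + p.2 ^ 2 := by
    by_cases h3 : p.1 = 1
    · rw [h3] at h1 ⊢
      nlinarith
    · have h4 : 2 ≤ p.1 := by omega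
      nlinarith
  exact_mod_cast h2

/-- The excess energy is the sum of the excess eigenvalues. -/
theorem excess_eq (n : ℕ) (g : Z2 → ℝ) :
    -Q (box n) (fun _ => 0) g - lamBox n * nsq (box n) g =
      ∑ p ∈ box n, (muB n p - lamBox n) * hat n g p ^ 2 := by
  rw [Q_eq, nsq_eq, neg_neg, Finset.mul_sum, ← Finset.sum_sub_distrib]
  refine Finset.sum_congr rfl fun p _ => ?_
  ring

theorem hat_one_of_orth (n : ℕ) (g : Z2 → ℝ) (hg : ∑ x ∈ box n, phiBox n x * g x = 0) :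
    hat n g (1, 1) = 0 := by
  unfold hat; rw [← hg]
  refine Finset.sum_congr rfl fun x _ => ?_
  rw [phiBox_eq]

theorem gap_explicit (n : ℕ) (hn : 1 ≤ n) (g : Z2 → ℝ)
    (hg : ∑ x ∈ box n, phiBox n x * g x = 0) :
    3 / (n : ℝ) ^ 2 * nsq (box n) g ≤
      -Q (box n) (fun _ => 0) g - lamBox n * nsq (box n) g := by
  rw [excess_eq, nsq_eq, Finset.mul_sum]
  refine Finset.sum_le_sum fun p hp => ?_
  by_cases h : p = (1, 1)
  · rw [h, hat_one_of_orth n g hg]; simp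
  · apply mul_le_mul_of_nonneg_right _ (sq_nonneg _)
    refine le_trans ?_ (muB_gap n hn p hp)
    have h5 := sq_sum_ge p n hp h
    have hn1 : (1 : ℝ) ≤ n := by exact_mod_cast hn
    rw [div_le_div_iff₀ (by positivity) (by positivity)]
    nlinarith [mul_nonneg (sub_nonneg.mpr h5) (sq_nonneg (n : ℝ))]

/-- Spectral gap of the box. -/
theorem box_gap : ∃ c : ℝ, 0 < c ∧ ∀ n : ℕ, 1 ≤ n → ∀ g : Z2 → ℝ,
    ∑ x ∈ box n, phiBox n x * g x = 0 →
      Q (box n) (fun _ => 0) g ≤ -(lamBox n + c / (n : ℝ) ^ 2) * nsq (box n) g := by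
  refine ⟨3, by norm_num, fun n hn g hg => ?_⟩
  have := gap_explicit n hn g hg
  linarith

theorem sum_inv_le (n : ℕ) :
    ∑ i ∈ Finset.Icc (1 : ℤ) n, (1 : ℝ) / i ≤ 1 + Real.log n := by
  rw [sum_Icc_int]
  have h := harmonic_le_one_add_log n
  have h2 : ((harmonic n : ℚ) : ℝ) = ∑ j ∈ Finset.range n, (1 : ℝ) / (((j : ℤ) + 1 : ℤ) : ℝ) := by
    unfold harmonic; push_cast
    refine Finset.sum_congr rfl fun j _ => ?_
    rw [one_div]
  rw [← h2]; exact h

theorem sn_sq_le (n : ℕ) (k i : ℤ) : sn n k i ^ 2 ≤ 1 := Real.sin_sq_le_one _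

theorem ef_sq_le (n : ℕ) (p x : Z2) : ef n p x ^ 2 ≤ 4 / ((n : ℝ) + 1) ^ 2 := by
  unfold ef
  have h1 := sn_sq_le n p.1 x.1
  have h2 := sn_sq_le n p.2 x.2
  have h3 : sn n p.1 x.1 ^ 2 * sn n p.2 x.2 ^ 2 ≤ 1 := by
    calc _ ≤ (1 : ℝ) * 1 := mul_le_mul h1 h2 (sq_nonneg _) zero_le_one
      _ = 1 := one_mul 1
  have h4 : (2 / ((n : ℝ) + 1) * (sn n p.1 x.1 * sn n p.2 x.2)) ^ 2 =
      4 / ((n : ℝ) + 1) ^ 2 * (sn n p.1 x.1 ^ 2 * sn n p.2 x.2 ^ 2) := by
    rw [mul_pow, mul_pow, div_pow]; norm_num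
  rw [h4]
  calc _ ≤ 4 / ((n : ℝ) + 1) ^ 2 * 1 := mul_le_mul_of_nonneg_left h3 (by positivity)
    _ = _ := mul_one _

theorem point_explicit (n : ℕ) (hn : 1 ≤ n) (g : Z2 → ℝ)
    (hg : ∑ x ∈ box n, phiBox n x * g x = 0) (x : Z2) (hx : x ∈ box n) :
    g x ^ 2 ≤ 1 * (1 + Real.log n) ^ 2 *
        (-Q (box n) (fun _ => 0) g - lamBox n * nsq (box n) g) := by
  have hn1 : (1 : ℝ) ≤ n := by exact_mod_cast hn
  rw [excess_eq]
  -- weights
  have hgap : ∀ p ∈ box n, p ≠ (1, 1) →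
      24 / 5 * ((p.1 : ℝ) * p.2) / ((n : ℝ) + 1) ^ 2 ≤ muB n p - lamBox n := by
    intro p hp h
    refine le_trans ?_ (muB_gap n hn p hp)
    have h5 := sq_sum_ge p n hp h
    apply div_le_div_of_nonneg_right _ (by positivity)
    nlinarith [sq_nonneg ((p.1 : ℝ) - p.2)]
  have hpos : ∀ p ∈ box n, (1 : ℝ) ≤ p.1 ∧ (1 : ℝ) ≤ p.2 := by
    intro p hp
    rw [mem_box] at hp
    simp only [Finset.mem_Icc] at hp
    exact ⟨by exact_mod_cast hp.1.1, by exact_mod_cast hp.2.1⟩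
  set B := (box n).filter (fun p => p ≠ (1, 1)) with hB
  have hinv : g x = ∑ p ∈ B, hat n g p * ef n p x := by
    rw [hat_inv n g x hx, hB, Finset.sum_filter]
    refine Finset.sum_congr rfl fun p _ => ?_
    by_cases h : p = (1, 1)
    · rw [h, hat_one_of_orth n g hg]; simp
    · simp [h]
  have hexc : ∑ p ∈ box n, (muB n p - lamBox n) * hat n g p ^ 2 =
      ∑ p ∈ B, (muB n p - lamBox n) * hat n g p ^ 2 := by
    rw [hB, Finset.sum_filter]
    refine Finset.sum_congr rfl fun p _ => ?_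
    by_cases h : p = (1, 1)
    · rw [h, hat_one_of_orth n g hg]; simp
    · simp [h]
  rw [hexc, hinv]
  have hBm : ∀ p ∈ B, p ∈ box n ∧ p ≠ (1, 1) := by
    intro p hp; rw [hB, Finset.mem_filter] at hp; exact hp
  have hw : ∀ p ∈ B, 0 < muB n p - lamBox n := by
    intro p hp
    obtain ⟨h1, h2⟩ := hBm p hp
    have := hgap p h1 h2
    obtain ⟨h3, h4⟩ := hpos p h1
    have h5 : 0 < 24 / 5 * ((p.1 : ℝ) * p.2) / ((n : ℝ) + 1) ^ 2 := by positivity
    linarith
  have hCS := Finset.sum_sq_le_sum_mul_sum_of_sq_le_mul B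
    (r := fun p => hat n g p * ef n p x)
    (f := fun p => ef n p x ^ 2 / (muB n p - lamBox n))
    (g := fun p => (muB n p - lamBox n) * hat n g p ^ 2)
    (fun p hp => div_nonneg (sq_nonneg _) (hw p hp).le)
    (fun p hp => mul_nonneg (hw p hp).le (sq_nonneg _))
    (fun p hp => by
      have := (hw p hp).ne'
      apply le_of_eq
      field_simp)
  refine hCS.trans ?_
  apply mul_le_mul_of_nonneg_right _
    (Finset.sum_nonneg fun p hp => mul_nonneg (hw p hp).le (sq_nonneg _))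
  -- sum of weights
  have hterm : ∀ p ∈ B, ef n p x ^ 2 / (muB n p - lamBox n) ≤ (1 : ℝ) / p.1 * (1 / p.2) := by
    intro p hp
    obtain ⟨h1, h2⟩ := hBm p hp
    obtain ⟨h3, h4⟩ := hpos p h1
    rw [div_le_iff₀ (hw p hp)]
    have h5 := hgap p h1 h2
    have h6 := ef_sq_le n p x
    have h7 : (1 : ℝ) / p.1 * (1 / p.2) * (24 / 5 * ((p.1 : ℝ) * p.2) / ((n : ℝ) + 1) ^ 2) =
        24 / 5 / ((n : ℝ) + 1) ^ 2 := by field_simp
    have h8 : (1 : ℝ) / p.1 * (1 / p.2) * (24 / 5 * ((p.1 : ℝ) * p.2) / ((n : ℝ) + 1) ^ 2) ≤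
        (1 : ℝ) / p.1 * (1 / p.2) * (muB n p - lamBox n) :=
      mul_le_mul_of_nonneg_left h5 (by positivity)
    rw [h7] at h8
    refine h6.trans (le_trans ?_ h8)
    apply div_le_div_of_nonneg_right _ (by positivity)
    norm_num
  calc ∑ p ∈ B, ef n p x ^ 2 / (muB n p - lamBox n)
      ≤ ∑ p ∈ B, (1 : ℝ) / p.1 * (1 / p.2) := Finset.sum_le_sum hterm
    _ ≤ ∑ p ∈ box n, (1 : ℝ) / p.1 * (1 / p.2) := by
        apply Finset.sum_le_sum_of_subset_of_nonneg (Finset.filter_subset _ _)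
        intro p hp _
        obtain ⟨h3, h4⟩ := hpos p hp
        positivity
    _ = (∑ i ∈ Finset.Icc (1 : ℤ) n, (1 : ℝ) / i) * ∑ j ∈ Finset.Icc (1 : ℤ) n, (1 : ℝ) / j := by
        rw [Finset.sum_mul_sum]; unfold box; rw [Finset.sum_product]
    _ ≤ (1 + Real.log n) * (1 + Real.log n) := by
        have h1 := sum_inv_le n
        have h0 : 0 ≤ ∑ i ∈ Finset.Icc (1 : ℤ) n, (1 : ℝ) / i := by
          apply Finset.sum_nonneg
          intro i hi
          simp only [Finset.mem_Icc] at hi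
          have : (0 : ℝ) < i := by exact_mod_cast (by omega : 0 < i)
          positivity
        exact mul_le_mul h1 h1 h0 (h0.trans h1)
    _ = 1 * (1 + Real.log n) ^ 2 := by ring

/-- Pointwise bound on the orthogonal complement of the principal eigenfunction. -/
theorem box_point : ∃ C : ℝ, 0 < C ∧ ∀ n : ℕ, 1 ≤ n → ∀ g : Z2 → ℝ,
    ∑ x ∈ box n, phiBox n x * g x = 0 → ∀ x ∈ box n,
      g x ^ 2 ≤ C * (1 + Real.log n) ^ 2 *
        (-Q (box n) (fun _ => 0) g - lamBox n * nsq (box n) g) :=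
  ⟨1, one_pos, fun n hn g hg x hx => point_explicit n hn g hg x hx⟩

theorem hat_sub (n : ℕ) (g h : Z2 → ℝ) (α : ℝ) (p : Z2) :
    hat n (fun x => g x - α * h x) p = hat n g p - α * hat n h p := by
  unfold hat
  rw [Finset.mul_sum, ← Finset.sum_sub_distrib]
  refine Finset.sum_congr rfl fun x _ => ?_
  ring

theorem kill_alg (A y L : ℝ) (hL1 : 1 ≤ L) :
    1 / 3 * A ^ 2 ≤ y ^ 2 / 2 + L ^ 2 * (A + y) ^ 2 := by
  have h1 : 1 ≤ L ^ 2 := by nlinarith
  have b5 : 1 * (A + y) ^ 2 ≤ L ^ 2 * (A + y) ^ 2 := mul_le_mul_of_nonneg_right h1 (sq_nonneg _)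
  nlinarith [sq_nonneg (2 * A + 3 * y)]

/-- The bound for the killed-at-`x` eigenvalue: potential `-1` at the site `x`. -/
theorem box_kill : ∃ c : ℝ, 0 < c ∧ ∀ n : ℕ, 1 ≤ n → ∀ x ∈ box n, ∀ g : Z2 → ℝ,
    Q (box n) (fun z => if z = x then -1 else 0) g ≤
      -(lamBox n + c * phiBox n x ^ 2 / (1 + Real.log n) ^ 2) * nsq (box n) g := by
  refine ⟨1 / 3, by norm_num, fun n hn x hx g => ?_⟩
  have hn1 : (1 : ℝ) ≤ n := by exact_mod_cast hn
  set L := 1 + Real.log n with hL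
  have hL1 : 1 ≤ L := by rw [hL]; linarith [Real.log_nonneg hn1]
  set α := hat n g (1, 1) with hα
  set h : Z2 → ℝ := fun y => g y - α * phiBox n y with hh
  have hone := one_mem_box n hn
  have hhat : ∀ p ∈ box n, hat n h p = if p = (1, 1) then 0 else hat n g p := by
    intro p hp
    rw [hh, hat_sub, hat_phi n hn p hp]
    split_ifs with e
    · rw [e, ← hα]; ring
    · ring
  have horth : ∑ y ∈ box n, phiBox n y * h y = 0 := by
    have h1 := hhat (1, 1) hone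
    rw [if_pos rfl] at h1
    rw [← h1]; unfold hat
    refine Finset.sum_congr rfl fun y _ => ?_
    rw [phiBox_eq]
  -- energies
  have hQ : Q (box n) (fun z => if z = x then -1 else 0) g = Q (box n) (fun _ => 0) g - g x ^ 2 := by
    unfold Q opA
    have : ∀ y ∈ box n, g y * ((∑ e : Fin 4, if y + step e ∈ box n then g (y + step e) else 0) -
        4 * g y + (if y = x then -1 else 0) * g y) =
        g y * ((∑ e : Fin 4, if y + step e ∈ box n then g (y + step e) else 0) -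
        4 * g y + 0 * g y) + (if y = x then -(g y ^ 2) else 0) := by
      intro y _
      split_ifs <;> ring
    rw [Finset.sum_congr rfl this, Finset.sum_add_distrib,
      Finset.sum_ite_eq' (box n) x (fun y => -(g y ^ 2)), if_pos hx]
    ring
  have hE : -Q (box n) (fun _ => 0) g - lamBox n * nsq (box n) g =
      -Q (box n) (fun _ => 0) h - lamBox n * nsq (box n) h := by
    rw [excess_eq, excess_eq]
    refine Finset.sum_congr rfl fun p hp => ?_
    rw [hhat p hp]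
    split_ifs with e
    · rw [e, muB_one]; ring
    · rfl
  have hN : nsq (box n) g = α ^ 2 + nsq (box n) h := by
    rw [nsq_eq, nsq_eq]
    have h1 : ∑ p ∈ box n, hat n h p ^ 2 =
        ∑ p ∈ box n, (hat n g p ^ 2 - if p = (1, 1) then α ^ 2 else 0) := by
      refine Finset.sum_congr rfl fun p hp => ?_
      rw [hhat p hp]
      split_ifs with e
      · rw [e, ← hα]; ring
      · ring
    rw [h1, Finset.sum_sub_distrib, Finset.sum_ite_eq' (box n), if_pos hone]; ring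
  set D := -Q (box n) (fun _ => 0) h - lamBox n * nsq (box n) h with hD
  have hD1 := gap_explicit n hn h horth
  have hD2 := point_explicit n hn h horth x hx
  rw [← hD] at hD1 hD2
  have hgx : g x = α * phiBox n x + h x := by rw [hh]; ring
  have hnn : 0 ≤ nsq (box n) h := Finset.sum_nonneg fun _ _ => sq_nonneg _
  set φ := phiBox n x with hφ
  have hφ2 : φ ^ 2 ≤ 4 / (n : ℝ) ^ 2 := by
    rw [hφ, phiBox_eq]
    refine (ef_sq_le n (1, 1) x).trans ?_
    apply div_le_div_of_nonneg_left (by norm_num) (by positivity)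
    nlinarith
  have hφL : φ ^ 2 / L ^ 2 ≤ φ ^ 2 := div_le_self (sq_nonneg _) (by nlinarith)
  have key : 1 / 3 * φ ^ 2 / L ^ 2 * nsq (box n) g ≤ D + g x ^ 2 := by
    rw [hN, hgx]
    have t1 : 1 / 3 * φ ^ 2 / L ^ 2 * nsq (box n) h ≤ D / 2 := by
      have a1 : 1 / 3 * φ ^ 2 / L ^ 2 ≤ 3 / 2 / (n : ℝ) ^ 2 := by
        have a2 : 1 / 3 * φ ^ 2 / L ^ 2 = 1 / 3 * (φ ^ 2 / L ^ 2) := by ring
        have a3 : (3 : ℝ) / 2 / (n : ℝ) ^ 2 = 3 / 8 * (4 / (n : ℝ) ^ 2) := by ring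
        rw [a2, a3]
        have a4 : 0 ≤ 4 / (n : ℝ) ^ 2 := by positivity
        nlinarith
      have a5 := mul_le_mul_of_nonneg_right a1 hnn
      have a6 : 3 / 2 / (n : ℝ) ^ 2 * nsq (box n) h = (3 / (n : ℝ) ^ 2 * nsq (box n) h) / 2 := by
        ring
      rw [a6] at a5
      linarith
    have t2 : 1 / 3 * φ ^ 2 / L ^ 2 * α ^ 2 ≤ D / 2 + (α * φ + h x) ^ 2 := by
      have b1 : h x ^ 2 / (2 * L ^ 2) ≤ D / 2 := by
        rw [div_le_iff₀ (by positivity)]
        nlinarith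
      have b2 : 1 / 3 * φ ^ 2 / L ^ 2 * α ^ 2 ≤ h x ^ 2 / (2 * L ^ 2) + (α * φ + h x) ^ 2 := by
        have b3 : 1 / 3 * φ ^ 2 / L ^ 2 * α ^ 2 = (1 / 3 * (α * φ) ^ 2) / L ^ 2 := by ring
        have b4 : h x ^ 2 / (2 * L ^ 2) + (α * φ + h x) ^ 2 =
            (h x ^ 2 / 2 + L ^ 2 * (α * φ + h x) ^ 2) / L ^ 2 := by field_simp
        rw [b3, b4]
        apply div_le_div_of_nonneg_right _ (by positivity)
        exact kill_alg (α * φ) (h x) L hL1
      linarith
    have t3 : 1 / 3 * φ ^ 2 / L ^ 2 * (α ^ 2 + nsq (box n) h) =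
        1 / 3 * φ ^ 2 / L ^ 2 * α ^ 2 + 1 / 3 * φ ^ 2 / L ^ 2 * nsq (box n) h := by ring
    rw [t3]; linarith
  rw [hQ]
  have := hE
  linarith

end Pool.Agent.WSQ
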