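import Pool.Agent.WSQ.Defs

/-!
# Module A3: concatenation and lattice symmetries
-/

open MeasureTheory ProbabilityTheory Filter Topology
open scoped ENNReal BigOperators

namespace Pool.Agent.WSQ

theorem W_mono (n : ℕ) : ∀ (x : Z2) (t : ℝ) (F F' : Pth → ℝ≥0∞), (∀ l, F l ≤ F' l) →
    W n x t F ≤ W n x t F' := by
  induction n with
  | zero => intro x t F F' h; exact h _
  | succ n ih =>
    intro x t F F' h
    simp only [W]
    refine Finset.sum_le_sum fun e _ => lintegral_mono fun s => ?_
    exact ih _ _ _ _ fun l => h _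

theorem K_mono (x : Z2) (t : ℝ) {F F' : Pth → ℝ≥0∞} (h : ∀ l, F l ≤ F' l) :
    K x t F ≤ K x t F' := by
  unfold K
  gcongr with n
  exact W_mono n x t F F' h

theorem W_mono' (n : ℕ) : ∀ (x : Z2) (t : ℝ) (_ : 0 ≤ t) (F F' : Pth → ℝ≥0∞),
    (∀ l : Pth, (∀ p ∈ l, 0 ≤ p.2) → (l.map Prod.snd).sum = t →
      (l.head?.map Prod.fst) = some x → F l ≤ F' l) →
    W n x t F ≤ W n x t F' := by
  induction n with
  | zero =>
    intro x t ht F F' h
    simp only [W]
    refine h _ ?_ ?_ ?_
    · intro p hp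
      simp only [List.mem_singleton] at hp
      rw [hp]; exact ht
    · simp
    · simp
  | succ n ih =>
    intro x t ht F F' h
    simp only [W]
    refine Finset.sum_le_sum fun e _ => setLIntegral_mono' measurableSet_Icc fun s hs => ?_
    refine ih _ _ (by linarith [hs.2]) _ _ fun l hl hsum _ => ?_
    refine h _ ?_ ?_ ?_
    · intro p hp
      rcases List.mem_cons.1 hp with rfl | hp
      · exact hs.1
      · exact hl p hp
    · simp only [List.map_cons, List.sum_cons, hsum]; ring
    · simp

/-- Monotonicity of `K` when the functionals are only compared on genuine paths (started at `x`,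
nonnegative holding times). -/
theorem K_mono' (x : Z2) (t : ℝ) (ht : 0 ≤ t) {F F' : Pth → ℝ≥0∞}
    (h : ∀ l : Pth, (∀ p ∈ l, 0 ≤ p.2) → (l.map Prod.snd).sum = t →
      (l.head?.map Prod.fst) = some x → F l ≤ F' l) :
    K x t F ≤ K x t F' := by
  unfold K
  gcongr with n
  exact W_mono' n x t ht F F' h

theorem W_const_mul (c : ℝ≥0∞) (hc : c ≠ ⊤) (n : ℕ) : ∀ (x : Z2) (t : ℝ) (F : Pth → ℝ≥0∞),
    W n x t (fun l => c * F l) = c * W n x t F := by
  induction n with
  | zero => intro x t F; rfl
  | succ n ih =>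
    intro x t F
    simp only [W]
    rw [Finset.mul_sum]
    refine Finset.sum_congr rfl fun e _ => ?_
    rw [← lintegral_const_mul' _ _ hc]
    refine lintegral_congr fun s => ?_
    exact ih _ _ _

theorem K_const_mul (x : Z2) (t : ℝ) (c : ℝ≥0∞) (hc : c ≠ ⊤) (F : Pth → ℝ≥0∞) :
    K x t (fun l => c * F l) = c * K x t F := by
  unfold K
  simp only [W_const_mul c hc]
  rw [ENNReal.tsum_mul_left]
  ring

theorem W_const_mul_le (c : ℝ≥0∞) (n : ℕ) : ∀ (x : Z2) (t : ℝ) (F : Pth → ℝ≥0∞),
    c * W n x t F ≤ W n x t (fun l => c * F l) := by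
  induction n with
  | zero => intro x t F; exact le_rfl
  | succ n ih =>
    intro x t F
    simp only [W]
    rw [Finset.mul_sum]
    refine Finset.sum_le_sum fun e _ => ?_
    refine (lintegral_const_mul_le _ _).trans ?_
    refine lintegral_mono fun s => ?_
    exact ih _ _ _

/-- Merge two paths, the second one starting where the first one ends. -/
def merge : Pth → Pth → Pth
  | [], l => l
  | [p], [] => [p]
  | [p], q :: l => (p.1, p.2 + q.2) :: l
  | p :: p' :: l, l' => p :: merge (p' :: l) l'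

theorem shift_lintegral (t s : ℝ) (H : ℝ → ℝ≥0∞) :
    ∫⁻ r in Set.Icc (0 : ℝ) s, H (t + r) = ∫⁻ r in Set.Icc t (t + s), H r := by
  rw [← lintegral_indicator measurableSet_Icc, ← lintegral_indicator measurableSet_Icc]
  rw [← lintegral_add_left_eq_self (μ := volume) (Set.indicator (Set.Icc t (t + s)) H) t]
  refine lintegral_congr fun r => ?_
  by_cases hr : r ∈ Set.Icc (0 : ℝ) s
  · rw [Set.indicator_of_mem hr, Set.indicator_of_mem]
    exact ⟨by linarith [hr.1], by linarith [hr.2]⟩
  · rw [Set.indicator_of_notMem hr, Set.indicator_of_notMem]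
    intro h
    exact hr ⟨by linarith [h.1], by linarith [h.2]⟩

theorem glue_lintegral (t s : ℝ) (ht : 0 ≤ t) (hs : 0 ≤ s) (H : ℝ → ℝ≥0∞) :
    (∫⁻ r in Set.Icc (0 : ℝ) t, H r) + ∫⁻ r in Set.Icc t (t + s), H r =
      ∫⁻ r in Set.Icc (0 : ℝ) (t + s), H r := by
  rw [← setLIntegral_congr (Ico_ae_eq_Icc (μ := volume) (a := (0 : ℝ)) (b := t))]
  rw [← lintegral_union measurableSet_Icc]
  · rw [Set.Ico_union_Icc_eq_Icc ht (by linarith)]
  · rw [Set.disjoint_left]
    intro a ha hb
    exact absurd ha.2 (not_lt.2 hb.1)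

/-- Super-additivity of the lower integral over a finite sum, without measurability. -/
theorem sum_lintegral_le {ι : Type*} (A : Finset ι) (μ : Measure ℝ) (f : ι → ℝ → ℝ≥0∞) :
    ∑ i ∈ A, ∫⁻ r, f i r ∂μ ≤ ∫⁻ r, ∑ i ∈ A, f i r ∂μ := by
  classical
  induction A using Finset.induction_on with
  | empty => simp
  | insert a A ha ih =>
    simp only [Finset.sum_insert ha]
    exact (add_le_add le_rfl ih).trans (le_lintegral_add _ _)

theorem W_concat (y : Z2) (s : ℝ) (hs : 0 ≤ s) (F' : Pth → ℝ≥0∞) (k : ℕ) :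
    ∀ (x : Z2) (t : ℝ) (_ : 0 ≤ t) (F F'' : Pth → ℝ≥0∞)
    (_ : ∀ l : Pth, l ≠ [] → (l.getLast?.map Prod.fst) ≠ some y → F l = 0)
    (_ : ∀ l l' : Pth, (∀ p ∈ l, 0 ≤ p.2) → (∀ p ∈ l', 0 ≤ p.2) →
      (l.getLast?.map Prod.fst) = some y → (l'.head?.map Prod.fst) = some y →
      F l * F' l' ≤ F'' (merge l l')),
    ∑ n ∈ Finset.range (k + 1), W n x t F * W (k - n) y s F' ≤ W k x (t + s) F'' := by
  induction k with
  | zero =>
    intro x t ht F F'' hF h
    simp only [zero_add, Finset.sum_range_one, W, Nat.sub_self]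
    by_cases hxy : x = y
    · have := h [(x, t)] [(y, s)] (by simpa using ht) (by simpa using hs) (by simp [hxy])
        (by simp)
      simpa [merge] using this
    · rw [hF [(x, t)] (by simp) (by simpa using hxy), zero_mul]
      exact zero_le
  | succ k ih =>
    intro x t ht F F'' hF h
    rw [Finset.sum_range_succ']
    have h1 : ∑ n ∈ Finset.range (k + 1), W (n + 1) x t F * W (k + 1 - (n + 1)) y s F' ≤
        ∑ e : Fin 4, ∫⁻ r in Set.Icc (0 : ℝ) t,
          W k (x + step e) (t + s - r) (fun l => F'' ((x, r) :: l)) := by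
      have h2 : ∀ n ∈ Finset.range (k + 1), W (n + 1) x t F * W (k + 1 - (n + 1)) y s F' ≤
          ∑ e : Fin 4, ∫⁻ r in Set.Icc (0 : ℝ) t,
            W n (x + step e) (t - r) (fun l => F ((x, r) :: l)) * W (k - n) y s F' := by
        intro n _
        rw [Nat.add_sub_add_right]
        simp only [W]
        rw [Finset.sum_mul]
        exact Finset.sum_le_sum fun e _ => lintegral_mul_const_le _ _
      refine (Finset.sum_le_sum h2).trans ?_
      rw [Finset.sum_comm]
      refine Finset.sum_le_sum fun e _ => ?_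
      refine (sum_lintegral_le _ _ _).trans ?_
      refine setLIntegral_mono' measurableSet_Icc fun r hr => ?_
      have h3 := ih (x + step e) (t - r) (by linarith [hr.2]) (fun l => F ((x, r) :: l))
        (fun l => F'' ((x, r) :: l)) ?_ ?_
      · have h4 : t - r + s = t + s - r := by ring
        rw [h4] at h3
        exact h3
      · intro l hl hlast
        refine hF _ (by simp) ?_
        rcases l with _ | ⟨p, l⟩
        · exact absurd rfl hl
        · simpa [List.getLast?_cons_cons] using hlast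
      · intro l l' hl hl' hlast hhead
        rcases l with _ | ⟨p, l⟩
        · simp at hlast
        · have h5 := h ((x, r) :: p :: l) l' ?_ hl' ?_ hhead
          · simpa [merge] using h5
          · intro q hq
            rcases List.mem_cons.1 hq with rfl | hq
            · exact hr.1
            · exact hl q hq
          · simpa [List.getLast?_cons_cons] using hlast
    have h2 : W 0 x t F * W (k + 1 - 0) y s F' ≤
        ∑ e : Fin 4, ∫⁻ r in Set.Icc t (t + s),
          W k (x + step e) (t + s - r) (fun l => F'' ((x, r) :: l)) := by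
      by_cases hxy : x = y
      · subst hxy
        simp only [W, Nat.sub_zero]
        rw [Finset.mul_sum]
        refine Finset.sum_le_sum fun e _ => ?_
        rw [← shift_lintegral]
        refine (lintegral_const_mul_le _ _).trans ?_
        refine setLIntegral_mono' measurableSet_Icc fun r hr => ?_
        refine (W_const_mul_le _ _ _ _ _).trans ?_
        have h4 : t + s - (t + r) = s - r := by ring
        rw [h4]
        refine W_mono' k _ _ (by linarith [hr.2]) _ _ fun l hl _ _ => ?_
        have h5 := h [(x, t)] ((x, r) :: l) (by simpa using ht) ?_ (by simp) (by simp)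
        · simpa [merge] using h5
        · intro q hq
          rcases List.mem_cons.1 hq with rfl | hq
          · exact hr.1
          · exact hl q hq
      · simp only [W]
        rw [hF [(x, t)] (by simp) (by simpa using hxy), zero_mul]
        exact zero_le
    refine (add_le_add h1 h2).trans ?_
    rw [← Finset.sum_add_distrib]
    simp only [W]
    refine Finset.sum_le_sum fun e _ => ?_
    rw [glue_lintegral t s ht hs
      (fun r => W k (x + step e) (t + s - r) (fun l => F'' ((x, r) :: l)))]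

/-- Cauchy product in the extended nonnegative reals. -/
theorem tsum_mul_tsum_cauchy (a b : ℕ → ℝ≥0∞) :
    (∑' n, a n) * (∑' m, b m) = ∑' k, ∑ n ∈ Finset.range (k + 1), a n * b (k - n) := by
  have h1 : (∑' n, a n) * (∑' m, b m) = ∑' p : ℕ × ℕ, a p.1 * b p.2 := by
    rw [ENNReal.tsum_prod (f := fun n m => a n * b m)]
    rw [← ENNReal.tsum_mul_right]
    refine tsum_congr fun n => ?_
    rw [ENNReal.tsum_mul_left]
  rw [h1, ← Equiv.tsum_eq Finset.HasAntidiagonal.sigmaAntidiagonalEquivProd (fun p : ℕ × ℕ => a p.1 * b p.2)]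
  rw [ENNReal.tsum_sigma']
  refine tsum_congr fun k => ?_
  rw [← Finset.Nat.sum_antidiagonal_eq_sum_range_succ (fun n m => a n * b m) k]
  rw [tsum_fintype]
  rw [← Finset.sum_coe_sort (Finset.HasAntidiagonal.antidiagonal k) (fun p => a p.1 * b p.2)]
  rfl

/-- Concatenation inequality (Markov property at a fixed time). -/
theorem K_concat (x y : Z2) (t s : ℝ) (ht : 0 ≤ t) (hs : 0 ≤ s) (F F' F'' : Pth → ℝ≥0∞)
    (hF : ∀ l : Pth, (l.getLast?.map Prod.fst) ≠ some y → F l = 0)
    (h : ∀ l l' : Pth, (∀ p ∈ l, 0 ≤ p.2) → (∀ p ∈ l', 0 ≤ p.2) →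
      (l.getLast?.map Prod.fst) = some y → (l'.head?.map Prod.fst) = some y →
      F l * F' l' ≤ F'' (merge l l')) :
    K x t F * K y s F' ≤ K x (t + s) F'' := by
  unfold K
  have h1 : ENNReal.ofReal (Real.exp (-4 * (t + s))) =
      ENNReal.ofReal (Real.exp (-4 * t)) * ENNReal.ofReal (Real.exp (-4 * s)) := by
    rw [← ENNReal.ofReal_mul (Real.exp_pos _).le, ← Real.exp_add]
    congr 2
    ring
  rw [h1, mul_mul_mul_comm]
  refine mul_le_mul_right ?_ _
  rw [tsum_mul_tsum_cauchy]
  refine ENNReal.tsum_le_tsum fun k => ?_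
  exact W_concat y s hs F' k x t ht F F'' (fun l _ => hF l) h

theorem ind_le_ind {p q : Pth → Prop} {l l' : Pth} (h : p l → q l') : ind p l ≤ ind q l' := by
  unfold ind
  by_cases hp : p l
  · rw [if_pos hp, if_pos (h hp)]
  · rw [if_neg hp]
    exact zero_le

theorem ind_mul_ind_le {p q r : Pth → Prop} {l l' l'' : Pth} (h : p l → q l' → r l'') :
    ind p l * ind q l' ≤ ind r l'' := by
  unfold ind
  by_cases hp : p l
  · by_cases hq : q l'
    · rw [if_pos hp, if_pos hq, if_pos (h hp hq), one_mul]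
    · rw [if_neg hq, mul_zero]
      exact zero_le
  · rw [if_neg hp, zero_mul]
    exact zero_le

theorem occ_cons (p : Z2 × ℝ) (l : Pth) (z : Z2) :
    occ (p :: l) z = (if p.1 = z then p.2 else 0) + occ l z := by
  simp [occ]

theorem occ_nonneg {l : Pth} (h : ∀ p ∈ l, 0 ≤ p.2) (z : Z2) : 0 ≤ occ l z := by
  induction l with
  | nil => simp [occ]
  | cons p l ih =>
    rw [occ_cons]
    have h1 : 0 ≤ occ l z := ih fun q hq => h q (List.mem_cons_of_mem _ hq)
    have h2 : 0 ≤ p.2 := h p List.mem_cons_self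
    split_ifs <;> linarith

/-- The properties of a merged path. -/
theorem merge_props (y : Z2) (l' : Pth) (hhead : (l'.head?.map Prod.fst) = some y) :
    ∀ l : Pth, (l.getLast?.map Prod.fst) = some y →
    (∀ z, occ (merge l l') z = occ l z + occ l' z) ∧
    ((merge l l').getLast?.map Prod.fst) = (l'.getLast?.map Prod.fst) ∧
    (∀ P : Z2 → Prop, (∀ p ∈ l, P p.1) → (∀ p ∈ l', P p.1) → ∀ p ∈ merge l l', P p.1) ∧
    merge l l' ≠ [] := by
  intro l
  induction l with
  | nil => intro h; simp at h
  | cons p l ih =>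
    intro hlast
    rcases l with _ | ⟨p', l⟩
    · rcases l' with _ | ⟨q, l'⟩
      · simp at hhead
      · have hp : p.1 = y := by simpa using hlast
        have hq : q.1 = y := by simpa using hhead
        refine ⟨?_, ?_, ?_, ?_⟩
        · intro z
          simp only [merge, occ_cons, hp, hq]
          split_ifs <;> simp [occ]
          ring
        · rcases l' with _ | ⟨q', l'⟩
          · simp [merge, hp, hq]
          · simp [merge, List.getLast?_cons_cons]
        · intro P hP hP' r hr
          simp only [merge, List.mem_cons] at hr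
          rcases hr with rfl | hr
          · exact hP p (by simp)
          · exact hP' r (List.mem_cons_of_mem _ hr)
        · simp [merge]
    · have h1 := ih (by simpa [List.getLast?_cons_cons] using hlast)
      obtain ⟨ha, hb, hc, hd⟩ := h1
      refine ⟨?_, ?_, ?_, ?_⟩
      · intro z
        simp only [merge]
        rw [occ_cons, ha z, occ_cons p]
        ring
      · simp only [merge]
        rw [← hb]
        obtain ⟨r, L, hL⟩ := List.exists_cons_of_ne_nil hd
        rw [hL, List.getLast?_cons_cons]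
      · intro P hP hP' r hr
        simp only [merge, List.mem_cons] at hr
        rcases hr with rfl | hr
        · exact hP _ (by simp)
        · exact hc P (fun q hq => hP q (List.mem_cons_of_mem _ hq)) hP' r hr
      · simp [merge]

theorem Reach.comp {G : Finset Z2} {a b c : Z2} {T T' : ℝ} {g g' : Z2 → ℝ} {C C' : ℝ}
    (hT : 0 ≤ T) (hT' : 0 ≤ T') (h : Reach G a b T g C) (h' : Reach G b c T' g' C') :
    Reach G a c (T + T') (fun z => g z + g' z) (C + C') := by
  unfold Reach at h h' ⊢
  have h1 : ENNReal.ofReal (Real.exp (-(C + C'))) =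
      ENNReal.ofReal (Real.exp (-C)) * ENNReal.ofReal (Real.exp (-C')) := by
    rw [← ENNReal.ofReal_mul (Real.exp_pos _).le, ← Real.exp_add]
    congr 2
    ring
  rw [h1]
  refine (mul_le_mul' h h').trans ?_
  refine K_concat a b T T' hT hT' _ _ _ ?_ ?_
  · intro l hl
    unfold ind
    rw [if_neg]
    rintro ⟨_, h2, _⟩
    exact hl h2
  · intro l l' hl hl' hlast hhead
    refine ind_mul_ind_le ?_
    rintro ⟨h2, _, h3⟩ ⟨h4, h5, h6⟩
    obtain ⟨ha, hb, hc, -⟩ := merge_props b l' hhead l hlast
    refine ⟨hc (fun z => z ∈ G) h2 h4, hb.trans h5, fun z => ?_⟩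
    rw [ha z]
    exact add_le_add (h3 z) (h6 z)

theorem Reach.mono {G G' : Finset Z2} {a b : Z2} {T : ℝ} {g g' : Z2 → ℝ} {C C' : ℝ}
    (hG : G ⊆ G') (hg : ∀ z, g' z ≤ g z) (hC : C ≤ C') (h : Reach G a b T g C) :
    Reach G' a b T g' C' := by
  unfold Reach at h ⊢
  refine le_trans ?_ (h.trans (K_mono a T fun l => ind_le_ind ?_))
  · exact ENNReal.ofReal_le_ofReal (Real.exp_le_exp.2 (by linarith))
  · rintro ⟨h1, h2, h3⟩
    exact ⟨fun p hp => hG (h1 p hp), h2, fun z => (hg z).trans (h3 z)⟩

/-- Doing nothing: `Reach G a a 0 0 0`. -/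
theorem Reach.refl {G : Finset Z2} {a : Z2} (ha : a ∈ G) : Reach G a a 0 (fun _ => 0) 0 := by
  unfold Reach K
  have h1 : W 0 a 0 (ind fun l => (∀ p ∈ l, p.1 ∈ G) ∧ (l.getLast?.map Prod.fst) = some a ∧
      ∀ z, (fun _ : Z2 => (0 : ℝ)) z ≤ occ l z) = 1 := by
    simp only [W]
    unfold ind
    rw [if_pos]
    refine ⟨by simpa using ha, by simp, fun z => ?_⟩
    exact occ_nonneg (by simp) z
  have h2 := ENNReal.le_tsum (f := fun n => W n a 0 (ind fun l => (∀ p ∈ l, p.1 ∈ G) ∧
    (l.getLast?.map Prod.fst) = some a ∧ ∀ z, (fun _ : Z2 => (0 : ℝ)) z ≤ occ l z)) 0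
  rw [h1] at h2
  simpa using h2

/-- Invariance of the path weights under a lattice symmetry. -/
theorem W_map (σ : Z2 → Z2) (π : Equiv.Perm (Fin 4))
    (hσ : ∀ x e, σ (x + step e) = σ x + step (π e)) (n : ℕ) :
    ∀ (x : Z2) (t : ℝ) (F : Pth → ℝ≥0∞),
    W n (σ x) t F = W n x t (fun l => F (l.map fun p => (σ p.1, p.2))) := by
  induction n with
  | zero => intro x t F; simp [W]
  | succ n ih =>
    intro x t F
    simp only [W]
    rw [← Equiv.sum_comp π]
    refine Finset.sum_congr rfl fun e _ => ?_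
    refine lintegral_congr fun s => ?_
    rw [← hσ, ih]
    simp

theorem K_map (σ : Z2 → Z2) (π : Equiv.Perm (Fin 4))
    (hσ : ∀ x e, σ (x + step e) = σ x + step (π e))
    (x : Z2) (t : ℝ) (F : Pth → ℝ≥0∞) :
    K (σ x) t F = K x t (fun l => F (l.map fun p => (σ p.1, p.2))) := by
  unfold K
  simp only [W_map σ π hσ]

theorem occ_map (σ τ : Z2 → Z2) (h1 : ∀ x, τ (σ x) = x) (h2 : ∀ x, σ (τ x) = x) (l : Pth)
    (z : Z2) : occ (l.map fun p => (σ p.1, p.2)) z = occ l (τ z) := by
  unfold occ
  rw [List.map_map]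
  congr 2
  funext p
  simp only [Function.comp]
  have : (σ p.1 = z) ↔ (p.1 = τ z) := by
    constructor
    · rintro rfl; exact (h1 _).symm
    · intro h; rw [h, h2]
  simp only [this]

theorem Reach.map {G G' : Finset Z2} {a b : Z2} {T : ℝ} {g : Z2 → ℝ} {C : ℝ} (σ τ : Z2 → Z2)
    (π : Equiv.Perm (Fin 4)) (hσ : ∀ x e, σ (x + step e) = σ x + step (π e))
    (h1 : ∀ x, τ (σ x) = x) (h2 : ∀ x, σ (τ x) = x) (hG : ∀ x ∈ G, σ x ∈ G')
    (h : Reach G a b T g C) :
    Reach G' (σ a) (σ b) T (fun z => g (τ z)) C := by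
  unfold Reach at h ⊢
  rw [K_map σ π hσ]
  refine h.trans (K_mono a T fun l => ?_)
  refine ind_le_ind (l := l) (l' := l.map fun p => (σ p.1, p.2)) ?_
  rintro ⟨h3, h4, h5⟩
  refine ⟨?_, ?_, fun z => ?_⟩
  · intro p hp
    obtain ⟨q, hq, rfl⟩ := List.mem_map.1 hp
    exact hG _ (h3 q hq)
  · rw [List.getLast?_map]
    rcases hl : l.getLast? with _ | q
    · rw [hl] at h4; simp at h4
    · rw [hl] at h4
      simp only [Option.map_some, Option.some.injEq] at h4 ⊢
      rw [h4]
  · rw [occ_map σ τ h1 h2]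
    exact h5 _

/-- Translation invariance. -/
theorem Reach.translate {G : Finset Z2} {a b : Z2} {T : ℝ} {g : Z2 → ℝ} {C : ℝ} (v : Z2)
    (h : Reach G a b T g C) :
    Reach (G.image fun z => z + v) (a + v) (b + v) T (fun z => g (z - v)) C := by
  refine Reach.map (fun z => z + v) (fun z => z - v) (Equiv.refl _) ?_ ?_ ?_ ?_ h
  · intro x e
    simp only [Equiv.refl_apply]
    abel
  · intro x; simp
  · intro x; simp
  · intro x hx
    exact Finset.mem_image_of_mem _ hx

/-- Rotation of the box `[1,m]²` by a quarter turn: `(u,v) ↦ (m+1-v, u)`. -/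
def rot (m : ℕ) (z : Z2) : Z2 := ((m : ℤ) + 1 - z.2, z.1)

/-- Inverse rotation: `(u,v) ↦ (v, m+1-u)`. -/
def rotInv (m : ℕ) (z : Z2) : Z2 := (z.2, (m : ℤ) + 1 - z.1)

/-- The permutation of the directions induced by the rotation. -/
def rotPerm : Equiv.Perm (Fin 4) where
  toFun := ![2, 3, 1, 0]
  invFun := ![3, 2, 0, 1]
  left_inv := by decide
  right_inv := by decide

/-- Rotation invariance for the box. -/
theorem Reach.rotate {m : ℕ} {a b : Z2} {T : ℝ} {g : Z2 → ℝ} {C : ℝ}
    (h : Reach (box m) a b T g C) :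
    Reach (box m) (rot m a) (rot m b) T (fun z => g (rotInv m z)) C := by
  refine Reach.map (rot m) (rotInv m) rotPerm ?_ ?_ ?_ ?_ h
  · intro x e
    fin_cases e <;> simp [rot, step, rotPerm, Prod.ext_iff] <;> ring_nf
  · intro x; simp [rot, rotInv]
  · intro x; simp [rot, rotInv]
  · intro x hx
    simp only [box, Finset.mem_product, Finset.mem_Icc, rot] at hx ⊢
    omega

end Pool.Agent.WSQ
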