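import Pool.Agent.WSQ.FK
import Pool.Agent.WSQ.Super
import Pool.Agent.WSQ.Sine

/-!
# Module F3: covering lemma for a box
-/

open MeasureTheory ProbabilityTheory Filter Topology
open scoped ENNReal BigOperators

namespace Pool.Agent.WSQ

open Classical in
/-- Covering lemma: if the time `T` is large enough for every site of `S`, then with probability
at least `exp (-(λ T + 6 log (n+1)))` the walk stays in the box, ends at `b` and gives local time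
at least `β` to every site of `S`. -/
theorem box_reach : ∃ c C : ℝ, 0 < c ∧ 0 < C ∧ ∀ n : ℕ, 1 ≤ n → ∀ β T : ℝ, 0 ≤ β → 0 ≤ T →
    ∀ S : Finset Z2, S ⊆ box n → ∀ a ∈ box n, ∀ b ∈ box n,
      C * (n : ℝ) ^ 2 * (1 + Real.log n) ≤ T →
      (∀ x ∈ S, β + C * (1 + Real.log n) ≤ c * phiBox n x ^ 2 / (1 + Real.log n) ^ 2 * T) →
      Reach (box n) a b T (fun z => if z ∈ S then β else 0)
        (lamBox n * T + 6 * Real.log ((n : ℝ) + 1)) := by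
  sorry

/-- Small boxes: all sites of the central part, polynomial cost. -/
theorem box_small : ∃ C : ℝ, 0 < C ∧ ∀ r : ℕ, 1 ≤ r → ∀ β : ℝ, 0 ≤ β →
    ∀ a ∈ box (8 * r), ∀ b ∈ box (8 * r),
      ReachE (box (8 * r)) a b (C * (1 + β) * (r : ℝ) ^ (9 / 4 : ℝ))
        (fun z => if (2 * (r : ℤ) ≤ z.1 ∧ z.1 ≤ 6 * r + 1) ∧ 2 * (r : ℤ) ≤ z.2 ∧ z.2 ≤ 6 * r + 1
          then β else 0)
        (C * (1 + β) * (r : ℝ) ^ (1 / 4 : ℝ)) := by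
  sorry

/-- The bulk of a large box. -/
theorem box_bulk (β c0 : ℝ) (hβ : 0 ≤ β) (hc0 : 0 < c0) : ∃ m0 : ℕ, ∀ m : ℕ, m0 ≤ m → ∀ T : ℝ,
    c0 * (m : ℝ) ^ 3 ≤ T → ∀ a ∈ box m, ∀ b ∈ box m,
      Reach (box m) a b T
        (fun z => if (m : ℝ) ^ (4 / 5 : ℝ) ≤ z.1 ∧ (z.1 : ℝ) ≤ m + 1 - (m : ℝ) ^ (4 / 5 : ℝ) ∧
          (m : ℝ) ^ (4 / 5 : ℝ) ≤ z.2 ∧ (z.2 : ℝ) ≤ m + 1 - (m : ℝ) ^ (4 / 5 : ℝ) then β else 0)
        (lamBox m * T + 6 * Real.log ((m : ℝ) + 1)) := by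
  sorry

end Pool.Agent.WSQ
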