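import Pool.Agent.WSQ.BridgeB

/-!
# Module A1: from the canonical process to the kernel `K`
-/

open MeasureTheory ProbabilityTheory Filter Topology
open scoped ENNReal BigOperators

namespace Pool.Agent.WSQ

instance law_prob : IsProbabilityMeasure law := by
  unfold law; infer_instance

theorem val_ind (n : ℕ) (x : Z2) (t : ℝ) (p : Pth → Prop) (ω : Om) :
    val n x t (ind p) ω = Set.indicator {ω | Ex n t ω ∧ p (pathL n x t ω)} 1 ω := by
  classical
  unfold val ind
  by_cases h1 : Ex n t ω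
  · by_cases h2 : p (pathL n x t ω)
    · simp [h1, h2]
    · simp [h2]
  · simp [h1]

theorem measurableSet_path {p : Pth → Prop} (hp : MeasF (ind p)) (n : ℕ) (x : Z2) (t : ℝ) :
    MeasurableSet {ω | Ex n t ω ∧ p (pathL n x t ω)} := by
  have h := hp.val n x t
  have h2 : {ω | Ex n t ω ∧ p (pathL n x t ω)} = (val n x t (ind p)) ⁻¹' {1} := by
    ext ω
    rw [Set.mem_preimage, val_ind]
    by_cases hω : ω ∈ {ω | Ex n t ω ∧ p (pathL n x t ω)}
    · simp [Set.indicator_of_mem hω, hω]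
    · simp [Set.indicator_of_notMem hω, hω]
  rw [h2]
  exact h (measurableSet_singleton _)

theorem law_path {p : Pth → Prop} (hp : MeasF (ind p)) (x : Z2) (t : ℝ) (ht : 0 ≤ t) :
    law (⋃ n, {ω | Ex n t ω ∧ p (pathL n x t ω)}) = K x t (ind p) := by
  rw [measure_iUnion]
  · unfold K
    rw [← ENNReal.tsum_mul_left]
    refine tsum_congr fun n => ?_
    rw [← lintegral_val n hp x t ht]
    simp_rw [val_ind]
    rw [lintegral_indicator_one (measurableSet_path hp n x t)]
  · intro n m hnm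
    rw [Function.onFun, Set.disjoint_left]
    intro ω h1 h2
    exact hnm (Ex_disj h1.1 h2.1)
  · exact fun n => measurableSet_path hp n x t

theorem ind_true : ind (fun _ => True) = fun _ => 1 := by
  funext l; simp [ind]

theorem Ex_ae (t : ℝ) (ht : 0 ≤ t) : ∀ᵐ ω ∂law, ∃ n, Ex n t ω := by
  have hp : MeasF (ind fun _ => True) := by rw [ind_true]; exact MeasF.const 1
  have h := law_path hp 0 t ht
  rw [ind_true, K_one 0 t ht] at h
  have hm : MeasurableSet (⋃ n, {ω : Om | Ex n t ω ∧ True}) :=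
    MeasurableSet.iUnion fun n => measurableSet_path hp n 0 t
  have h2 : law (⋃ n, {ω : Om | Ex n t ω ∧ True})ᶜ = 0 := by
    rw [prob_compl_eq_one_sub hm, h]; simp
  refine measure_mono_null ?_ h2
  intro ω hω
  simp only [Set.mem_compl_iff, Set.mem_setOf_eq] at hω ⊢
  intro h3
  rw [Set.mem_iUnion] at h3
  obtain ⟨n, hn⟩ := h3
  exact hω ⟨n, hn.1⟩

theorem jump_ne_ae (n : ℕ) (t : ℝ) (ht : 0 < t) : ∀ᵐ ω ∂law, jumpTime ω n ≠ t := by
  cases n with
  | zero => exact Eventually.of_forall fun ω => by rw [jumpTime_zero]; exact ht.ne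
  | succ n =>
    have hjm : ∀ m, Measurable fun ω : Om => jumpTime ω m := by
      intro m; unfold jumpTime
      exact Finset.measurable_sum _ fun k _ => by fun_prop
    have hm : MeasurableSet {ω : Om | jumpTime ω (n + 1) = t} :=
      measurableSet_eq_fun (hjm _) measurable_const
    have h1 : law {ω : Om | jumpTime ω (n + 1) = t} = 0 := by
      rw [← map_consO, Measure.map_apply measurable_consO hm]
      rw [Measure.prod_apply_symm (measurable_consO hm)]
      rw [lintegral_eq_zero_iff' ?_]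
      · refine Eventually.of_forall fun ω => ?_
        have : (fun a : Fin 4 × ℝ => (a, ω)) ⁻¹' (consO ⁻¹' {ω | jumpTime ω (n + 1) = t}) =
            {a | a.2 = t - jumpTime ω n} := by
          ext a
          simp only [Set.mem_preimage, Set.mem_setOf_eq, jumpTime_succ', shift_consO, consO_zero]
          constructor <;> intro h <;> linarith
        simp only [Pi.zero_apply]
        rw [this]
        exact law1_eq _
      · exact (measurable_measure_prodMk_right (measurable_consO hm)).aemeasurable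
    rw [ae_iff]
    simpa using h1

/-- The almost sure facts used below. -/
theorem good_ae (t : ℝ) (ht : 0 < t) :
    ∀ᵐ ω ∂law, HP ω ∧ ∃ n, Ex n t ω ∧ jumpTime ω n ≠ t := by
  filter_upwards [HP_ae, Ex_ae t ht.le, ae_all_iff.2 fun n => jump_ne_ae n t ht] with ω h1 h2 h3
  obtain ⟨n, hn⟩ := h2
  exact ⟨h1, n, hn, h3 n⟩

/-- Probability that the range stays in `S` and local times dominate `f` on `S`. -/
theorem law_event (S : Finset Z2) (f : Z2 → ℝ) (t : ℝ) (ht : 0 ≤ t) :
    law {ω | (∀ z ∈ visited ω t, z ∈ S) ∧ ∀ z ∈ S, f z ≤ localTime ω t z} =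
      K 0 t (ind fun l => (∀ p ∈ l, p.1 ∈ S) ∧ ∀ z ∈ S, f z ≤ occ l z) := by
  have hp : MeasF (ind fun l => (∀ p ∈ l, p.1 ∈ S) ∧ ∀ z ∈ S, f z ≤ occ l z) := by
    have h := MeasF.ind_occ (fun zs => ∀ z ∈ zs, z ∈ S) (fun g => ∀ z ∈ S, f z ≤ g z) (by
      have : {g : Z2 → ℝ | ∀ z ∈ S, f z ≤ g z} = ⋂ z ∈ S, {g | f z ≤ g z} := by
        ext g; simp
      rw [this]
      exact Finset.measurableSet_biInter S fun z _ =>
        measurableSet_le measurable_const (measurable_pi_apply z))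
    have h2 : (ind fun l : Pth => (∀ p ∈ l, p.1 ∈ S) ∧ ∀ z ∈ S, f z ≤ occ l z) =
        ind fun l : Pth => (∀ z ∈ l.map Prod.fst, z ∈ S) ∧ ∀ z ∈ S, f z ≤ occ l z := by
      funext l
      unfold ind
      congr 1
      simp
    rw [h2]
    exact h
  rw [← law_path hp 0 t ht]
  refine measure_congr ?_
  filter_upwards [HP_ae, Ex_ae t ht] with ω h1 h2
  obtain ⟨n, hn⟩ := h2
  refine propext ?_
  change ((∀ z ∈ visited ω t, z ∈ S) ∧ ∀ z ∈ S, f z ≤ localTime ω t z) ↔
    ω ∈ (⋃ n, {ω | Ex n t ω ∧ ((∀ p ∈ pathL n 0 t ω, p.1 ∈ S) ∧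
      ∀ z ∈ S, f z ≤ occ (pathL n 0 t ω) z)})
  rw [Set.mem_iUnion, visited_eq h1 ht hn]
  simp only [localTime_eq h1 ht hn]
  constructor
  · rintro ⟨h3, h4⟩
    exact ⟨n, hn, fun p hp => h3 p.1 ⟨p, hp, rfl⟩, h4⟩
  · rintro ⟨m, hm, h3, h4⟩
    obtain rfl := Ex_disj hn hm
    exact ⟨fun z ⟨p, hp, hz⟩ => hz ▸ h3 p hp, h4⟩

/-- Almost surely the range is finite, connected and contains the origin, and local times are
positive exactly on the range. -/
theorem visited_ae (t : ℝ) (ht : 0 < t) :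
    ∀ᵐ ω ∂law, (visited ω t).Finite ∧ Conn (visited ω t) ∧ (0 : Z2) ∈ visited ω t ∧
      (∀ z, 0 < localTime ω t z ↔ z ∈ visited ω t) := by
  filter_upwards [good_ae t ht] with ω h
  obtain ⟨h1, n, hn, hj⟩ := h
  rw [visited_eq h1 ht.le hn]
  refine ⟨?_, ?_, start_mem n 0 t ω, ?_⟩
  · have : {z | ∃ p ∈ pathL n 0 t ω, p.1 = z} = ((pathL n 0 t ω).map Prod.fst).toFinset := by
      ext z; simp
    rw [this]
    exact Finset.finite_toSet _
  · rintro x ⟨p, hp, hx⟩ y ⟨q, hq, hy⟩
    have hc := path_conn (0 : Z2) {z | ∃ p ∈ pathL n 0 t ω, p.1 = z}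
      (fun p hp => ⟨p, hp, rfl⟩)
    rw [← hx, ← hy]
    exact (hc p hp).2.trans (hc q hq).1
  · intro z
    rw [localTime_eq h1 ht.le hn]
    constructor
    · intro h3
      by_contra h4
      rw [occ_zero_of_not_mem _ z h4] at h3
      exact lt_irrefl _ h3
    · exact occ_pos h1 ht.le hn hj 0 z

/-- The conditioning event is measurable up to a null set. -/
theorem nullMeasurable_EvE (β t : ℝ) (ht : 0 < t) : NullMeasurableSet (EvE β t) law := by
  have hp : MeasF (ind fun l => ∀ p ∈ l, β ≤ occ l p.1) := by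
    classical
    intro n z
    unfold ind
    refine Measurable.ite ?_ measurable_const measurable_const
    have : {h : Fin n → ℝ | ∀ p ∈ (List.ofFn fun i => (z i, h i)),
        β ≤ occ (List.ofFn fun i => (z i, h i)) p.1} =
        ⋂ i : Fin n, {h : Fin n → ℝ | β ≤ occ (List.ofFn fun i => (z i, h i)) (z i)} := by
      ext h
      simp only [Set.mem_setOf_eq, Set.mem_iInter, List.mem_ofFn]
      constructor
      · intro h1 i; exact h1 _ ⟨i, rfl⟩
      · rintro h1 p ⟨i, rfl⟩; exact h1 i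
    rw [this]
    exact MeasurableSet.iInter fun i => measurableSet_le measurable_const (measurable_occ n z (z i))
  have hm : MeasurableSet (⋃ n, {ω | Ex n t ω ∧ ∀ p ∈ pathL n 0 t ω,
      β ≤ occ (pathL n 0 t ω) p.1}) :=
    MeasurableSet.iUnion fun n => measurableSet_path hp n 0 t
  refine hm.nullMeasurableSet.congr ?_
  filter_upwards [good_ae t ht] with ω h
  obtain ⟨h1, n, hn, hj⟩ := h
  refine propext ?_
  change ω ∈ (⋃ n, {ω | Ex n t ω ∧ ∀ p ∈ pathL n 0 t ω, β ≤ occ (pathL n 0 t ω) p.1}) ↔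
    ∀ x ∈ visited ω t, β ≤ localTime ω t x
  rw [Set.mem_iUnion, visited_eq h1 ht.le hn]
  simp only [localTime_eq h1 ht.le hn]
  constructor
  · rintro ⟨m, hm, h3⟩
    obtain rfl := Ex_disj hn hm
    rintro x ⟨p, hp, rfl⟩
    exact h3 p hp
  · intro h3
    exact ⟨n, hn, fun p hp => h3 p.1 ⟨p, hp, rfl⟩⟩

end Pool.Agent.WSQ
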