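import Pool.Agent.WSQ.Meas

/-!
# Helper for module A1: the law of the i.i.d. sequence, first-step decomposition
-/

open MeasureTheory ProbabilityTheory Filter Topology
open scoped ENNReal BigOperators

namespace Pool.Agent.WSQ

instance exp_prob : IsProbabilityMeasure (expMeasure 4) :=
  isProbabilityMeasure_expMeasure (by norm_num)

instance unif_prob : IsProbabilityMeasure (uniformOn (Set.univ : Set (Fin 4))) :=
  uniformOn_isProbabilityMeasure Set.finite_univ Set.univ_nonempty

instance law1_prob : IsProbabilityMeasure law1 := by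
  unfold law1; infer_instance

instance law_prob' : IsProbabilityMeasure law := by
  unfold law; infer_instance

/-- Shifted sequence. -/
def shift (ω : Om) : Om := fun k => ω (k + 1)

/-- Prepend a coordinate. -/
def consO (p : (Fin 4 × ℝ) × Om) : Om := fun k => Nat.casesOn k p.1 p.2

@[simp] theorem consO_zero (p : (Fin 4 × ℝ) × Om) : consO p 0 = p.1 := rfl
@[simp] theorem consO_succ (p : (Fin 4 × ℝ) × Om) (k : ℕ) : consO p (k + 1) = p.2 k := rfl
@[simp] theorem shift_consO (p : (Fin 4 × ℝ) × Om) : shift (consO p) = p.2 := rfl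

theorem measurable_shift : Measurable shift :=
  measurable_pi_lambda _ fun k => measurable_pi_apply (k + 1)

theorem measurable_consO : Measurable consO := by
  refine measurable_pi_lambda _ fun k => ?_
  cases k with
  | zero => exact measurable_fst
  | succ k => exact (measurable_pi_apply k).comp measurable_snd

theorem map_consO_range (n : ℕ) (t : ℕ → Set (Fin 4 × ℝ)) (ht : ∀ i, MeasurableSet (t i)) :
    ((law1.prod law).map consO) (Set.pi (Finset.range (n + 1) : Finset ℕ) t) =
      ∏ i ∈ Finset.range (n + 1), law1 (t i) := by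
  rw [Measure.map_apply measurable_consO
    (MeasurableSet.pi (Finset.countable_toSet _) fun i _ => ht i)]
  have h1 : consO ⁻¹' (Set.pi (Finset.range (n + 1) : Finset ℕ) t) =
      (t 0) ×ˢ (Set.pi (Finset.range n : Finset ℕ) fun i => t (i + 1)) := by
    ext p
    simp only [Set.mem_preimage, Set.mem_pi, Finset.coe_range, Set.mem_Iio, Set.mem_prod]
    constructor
    · intro h
      exact ⟨h 0 (by omega), fun i hi => h (i + 1) (by omega)⟩
    · rintro ⟨h0, h⟩ i hi
      cases i with
      | zero => exact h0
      | succ i => exact h i (by omega)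
  rw [h1, Measure.prod_prod]
  unfold law
  rw [Measure.infinitePi_pi (μ := fun _ : ℕ => law1) (fun i _ => ht (i + 1)),
    Finset.prod_range_succ']
  ring

theorem map_consO : (law1.prod law).map consO = law := by
  conv_rhs => unfold law
  refine Measure.eq_infinitePi (μ := fun _ : ℕ => law1) ?_
  intro s t ht
  -- general finite set
  obtain ⟨n, hn⟩ : ∃ n : ℕ, s ⊆ Finset.range (n + 1) :=
    ⟨s.sup id, fun i hi => Finset.mem_range.2 (Nat.lt_succ_of_le (Finset.le_sup (f := id) hi))⟩
  classical
  let t' : ℕ → Set (Fin 4 × ℝ) := fun i => if i ∈ s then t i else Set.univ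
  have ht' : ∀ i, MeasurableSet (t' i) := by
    intro i; by_cases h : i ∈ s <;> simp [t', h, ht]
  have e1 : Set.pi (s : Set ℕ) t = Set.pi (Finset.range (n + 1) : Finset ℕ) t' := by
    ext ω
    simp only [Set.mem_pi, Finset.mem_coe]
    constructor
    · intro h i _
      by_cases hi : i ∈ s
      · simpa [t', hi] using h i hi
      · simp [t', hi]
    · intro h i hi
      have := h i (hn hi)
      simpa [t', hi] using this
  rw [e1, map_consO_range n t' ht']
  rw [← Finset.prod_subset hn]
  · exact Finset.prod_congr rfl fun i hi => by simp [t', hi]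
  · intro i _ hi
    simp [t', hi]

/-- Integration against the law: first-step decomposition. -/
theorem lintegral_law {f : Om → ℝ≥0∞} (hf : Measurable f) :
    ∫⁻ ω, f ω ∂law = ∫⁻ a, ∫⁻ ω, f (consO (a, ω)) ∂law ∂law1 := by
  conv_lhs => rw [← map_consO]
  rw [lintegral_map hf measurable_consO]
  have h : Measurable fun a => f (consO a) := hf.comp measurable_consO
  rw [lintegral_prod _ h.aemeasurable]

/-- Integration against `law1`. -/
theorem lintegral_law1 {f : Fin 4 × ℝ → ℝ≥0∞} (hf : Measurable f) :
    ∫⁻ a, f a ∂law1 = ∑ e : Fin 4, ∫⁻ s in Set.Ici (0 : ℝ),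
      ENNReal.ofReal (Real.exp (-4 * s)) * f (e, s) := by
  unfold law1
  rw [lintegral_prod _ hf.aemeasurable]
  have h1 : ∀ e : Fin 4, ∫⁻ s, f (e, s) ∂(expMeasure 4) =
      4 * ∫⁻ s in Set.Ici (0 : ℝ), ENNReal.ofReal (Real.exp (-4 * s)) * f (e, s) := by
    intro e
    unfold expMeasure gammaMeasure
    have hfe : Measurable fun s => f (e, s) := hf.comp (by fun_prop)
    rw [lintegral_withDensity_eq_lintegral_mul _ (by exact (measurable_exponentialPDFReal 4).ennreal_ofReal) hfe]
    rw [← lintegral_const_mul _ (by fun_prop), ← lintegral_indicator measurableSet_Ici]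
    refine lintegral_congr fun s => ?_
    have : gammaPDF 1 4 s = exponentialPDF 4 s := rfl
    simp only [Pi.mul_apply, this, Set.indicator, Set.mem_Ici, exponentialPDF_eq]
    split_ifs with hs
    · rw [ENNReal.ofReal_mul (by norm_num)]
      simp [mul_assoc]
    · simp
  simp_rw [h1]
  rw [lintegral_const_mul _ (measurable_of_finite _), lintegral_fintype]
  have h2 : ∀ e : Fin 4, uniformOn (Set.univ : Set (Fin 4)) {e} = 1 / 4 := by
    intro e
    rw [uniformOn_univ]
    simp
  simp_rw [h2]
  rw [← Finset.sum_mul, mul_comm, mul_assoc]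
  rw [one_div, ENNReal.inv_mul_cancel (by norm_num) (by norm_num), mul_one]

theorem law1_snd (c : Set ℝ) (hc : MeasurableSet c) :
    law1 {a | a.2 ∈ c} = expMeasure 4 c := by
  have h : law1.map Prod.snd = expMeasure 4 := by
    unfold law1
    rw [Measure.map_snd_prod]
    simp
  rw [← h, Measure.map_apply measurable_snd hc]
  rfl

theorem law1_eq (c : ℝ) : law1 {a | a.2 = c} = 0 := by
  have := law1_snd {c} (measurableSet_singleton c)
  simp only [Set.mem_singleton_iff] at this
  rw [this]
  unfold expMeasure gammaMeasure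
  exact (withDensity_absolutelyContinuous _ _) (by simp)

theorem law1_gt (t : ℝ) (ht : 0 ≤ t) :
    law1 {a | t < a.2} = ENNReal.ofReal (Real.exp (-4 * t)) := by
  have h1 := law1_snd (Set.Iic t) measurableSet_Iic
  have h2 : expMeasure 4 (Set.Iic t) = ENNReal.ofReal (1 - Real.exp (-(4 * t))) := by
    unfold expMeasure gammaMeasure
    rw [withDensity_apply _ measurableSet_Iic]
    have := lintegral_exponentialPDF_eq_antiDeriv (r := 4) (by norm_num) t
    rw [if_pos ht] at this
    exact this
  have h3 : {a : Fin 4 × ℝ | t < a.2} = {a | a.2 ∈ Set.Iic t}ᶜ := by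
    ext a; simp
  have hm : MeasurableSet {a : Fin 4 × ℝ | a.2 ∈ Set.Iic t} := measurable_snd measurableSet_Iic
  rw [h3, prob_compl_eq_one_sub hm, h1, h2]
  rw [show (1 : ℝ≥0∞) = ENNReal.ofReal 1 by simp,
    ← ENNReal.ofReal_sub _ (by
      have : Real.exp (-(4 * t)) ≤ 1 := Real.exp_le_one_iff.2 (by linarith)
      linarith)]
  congr 1
  rw [neg_mul]
  ring

theorem law1_pos : ∀ᵐ a ∂law1, 0 < a.2 := by
  have h := law1_gt 0 le_rfl
  simp at h
  have h2 : law1 {a | 0 < a.2}ᶜ = 0 := by
    rw [prob_compl_eq_one_sub (measurableSet_lt measurable_const measurable_snd), h]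
    simp
  exact h2

/-- All holding times positive. -/
def HP (ω : Om) : Prop := ∀ k, 0 < (ω k).2

theorem HP.shift {ω : Om} (h : HP ω) : HP (shift ω) := fun k => h (k + 1)

theorem HP_ae : ∀ᵐ ω ∂law, HP ω := by
  unfold HP
  rw [ae_all_iff]
  intro k
  have h := measurePreserving_eval_infinitePi (μ := fun _ : ℕ => law1) k
  exact h.quasiMeasurePreserving.ae law1_pos

/-- The finite path with exactly `n` jumps up to time `t`, started at `x`. -/
noncomputable def pathL : ℕ → Z2 → ℝ → Om → Pth
  | 0, x, t, _ => [(x, t)]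
  | n + 1, x, t, ω => (x, (ω 0).2) :: pathL n (x + step (ω 0).1) (t - (ω 0).2) (shift ω)

/-- Exactly `n` jumps up to time `t`. -/
def Ex : ℕ → ℝ → Om → Prop
  | 0, t, ω => t < (ω 0).2
  | n + 1, t, ω => (ω 0).2 ≤ t ∧ Ex n (t - (ω 0).2) (shift ω)

theorem measurableSet_Ex (n : ℕ) : MeasurableSet {q : ℝ × Om | Ex n q.1 q.2} := by
  induction n with
  | zero =>
    unfold Ex
    exact measurableSet_lt measurable_fst (by fun_prop)
  | succ n ih =>
    have h1 : MeasurableSet {q : ℝ × Om | (q.2 0).2 ≤ q.1} :=
      measurableSet_le (by fun_prop) measurable_fst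
    have h2 : Measurable fun q : ℝ × Om => (q.1 - (q.2 0).2, shift q.2) :=
      Measurable.prodMk (by fun_prop) (measurable_shift.comp measurable_snd)
    exact h1.inter (h2 ih)

theorem Ex_disj : ∀ {n m : ℕ} {t : ℝ} {ω : Om}, Ex n t ω → Ex m t ω → n = m
  | 0, 0, _, _, _, _ => rfl
  | 0, m + 1, t, ω, h, h' => by
    exact absurd h'.1 (not_le.2 h)
  | n + 1, 0, t, ω, h, h' => by
    exact absurd h.1 (not_le.2 h')
  | n + 1, m + 1, t, ω, h, h' => by
    rw [Ex_disj h.2 h'.2]

/-- Joint measurability along paths. -/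
theorem MeasFam.pathL {n : ℕ} : ∀ {P : Type} [MeasurableSpace P] {F : P → Pth → ℝ≥0∞},
    MeasFam F → ∀ x : Z2, Measurable fun q : P × ℝ × Om => F q.1 (pathL n x q.2.1 q.2.2) := by
  induction n with
  | zero =>
    intro P _ F hF x
    have h := hF 1 (fun _ => x)
    have hg : Measurable fun q : P × ℝ × Om => (q.1, (fun _ : Fin 1 => q.2.1)) := by
      refine Measurable.prodMk (by fun_prop) ?_
      exact measurable_pi_lambda _ fun i => by fun_prop
    have h2 := h.comp hg
    have : (fun q : P × ℝ × Om => F q.1 (WSQ.pathL 0 x q.2.1 q.2.2)) =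
        (fun q : P × (Fin 1 → ℝ) =>
        F q.1 (List.ofFn fun i => ((fun _ => x) i, q.2 i))) ∘
        fun q : P × ℝ × Om => (q.1, (fun _ : Fin 1 => q.2.1)) := by
      funext q
      simp [Function.comp, WSQ.pathL]
    rw [this]
    exact h2
  | succ n ih =>
    intro P _ F hF x
    have h1 : Measurable fun r : Fin 4 × ((P × ℝ) × ℝ × Om) =>
        F r.2.1.1 ((x, r.2.1.2) :: WSQ.pathL n (x + step r.1) r.2.2.1 r.2.2.2) := by
      refine measurable_from_prod_countable_right fun e => ?_
      exact ih (hF.cons x) (x + step e)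
    have h2 : Measurable fun q : P × ℝ × Om =>
        ((q.2.2 0).1, ((q.1, (q.2.2 0).2), (q.2.1 - (q.2.2 0).2, shift q.2.2))) := by
      refine Measurable.prodMk (by fun_prop) (Measurable.prodMk (by fun_prop)
        (Measurable.prodMk (by fun_prop) (measurable_shift.comp (by fun_prop))))
    exact h1.comp h2

open Classical in
/-- The functional on the event of exactly `n` jumps. -/
noncomputable def val (n : ℕ) (x : Z2) (t : ℝ) (F : Pth → ℝ≥0∞) (ω : Om) : ℝ≥0∞ :=
  if Ex n t ω then F (pathL n x t ω) else 0

theorem MeasFam.val {P : Type} [MeasurableSpace P] {F : P → Pth → ℝ≥0∞}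
    (hF : MeasFam F) (n : ℕ) (x : Z2) :
    Measurable fun q : P × ℝ × Om => WSQ.val n x q.2.1 (F q.1) q.2.2 := by
  unfold WSQ.val
  refine Measurable.ite ?_ (hF.pathL x) measurable_const
  exact measurable_snd (measurableSet_Ex n)

theorem MeasF.val {F : Pth → ℝ≥0∞} (hF : MeasF F) (n : ℕ) (x : Z2) (t : ℝ) :
    Measurable (WSQ.val n x t F) :=
  ((hF.fam (P := Unit)).val n x).comp (f := fun ω : Om => ((), t, ω)) (by fun_prop)

/-- Main claim: expectation on the event of exactly `n` jumps. -/
theorem lintegral_val (n : ℕ) : ∀ {F : Pth → ℝ≥0∞}, MeasF F → ∀ (x : Z2) (t : ℝ), 0 ≤ t →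
    ∫⁻ ω, val n x t F ω ∂law = ENNReal.ofReal (Real.exp (-4 * t)) * W n x t F := by
  induction n with
  | zero =>
    intro F hF x t ht
    rw [lintegral_law (hF.val 0 x t)]
    have h1 : ∀ a : Fin 4 × ℝ, ∫⁻ ω, val 0 x t F (consO (a, ω)) ∂law =
        Set.indicator {a : Fin 4 × ℝ | t < a.2} (fun _ => F [(x, t)]) a := by
      intro a
      by_cases h : t < a.2
      · simp [val, Ex, pathL, h]
      · simp [val, Ex, h]
    simp_rw [h1]
    rw [lintegral_indicator_const (measurableSet_lt measurable_const measurable_snd), law1_gt t ht,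
      W, mul_comm]
  | succ n ih =>
    intro F hF x t ht
    rw [lintegral_law (hF.val (n + 1) x t)]
    have h1 : ∀ a : Fin 4 × ℝ, ∫⁻ ω, val (n + 1) x t F (consO (a, ω)) ∂law =
        if a.2 ≤ t then ENNReal.ofReal (Real.exp (-4 * (t - a.2))) *
          W n (x + step a.1) (t - a.2) (fun l => F ((x, a.2) :: l)) else 0 := by
      intro a
      split_ifs with h
      · rw [← ih (hF.cons x a.2) (x + step a.1) (t - a.2) (by linarith)]
        refine lintegral_congr fun ω => ?_
        by_cases hE : Ex n (t - a.2) ω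
        · simp [val, Ex, pathL, h, hE]
        · simp [val, Ex, hE]
      · simp [val, Ex, h]
    simp_rw [h1]
    have hm : Measurable fun a : Fin 4 × ℝ => if a.2 ≤ t then
        ENNReal.ofReal (Real.exp (-4 * (t - a.2))) *
          W n (x + step a.1) (t - a.2) (fun l => F ((x, a.2) :: l)) else 0 := by
      refine measurable_from_prod_countable_right fun e => ?_
      refine Measurable.ite (measurableSet_le measurable_id measurable_const) ?_ measurable_const
      exact Measurable.mul (by fun_prop) (hF.W_cons n x (x + step e) t)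
    rw [lintegral_law1 hm, W, Finset.mul_sum]
    refine Finset.sum_congr rfl fun e _ => ?_
    rw [← lintegral_const_mul _ (hF.W_cons n x (x + step e) t)]
    rw [← lintegral_indicator measurableSet_Ici, ← lintegral_indicator measurableSet_Icc]
    refine lintegral_congr fun s => ?_
    simp only [Set.indicator, Set.mem_Ici, Set.mem_Icc]
    by_cases h0 : 0 ≤ s
    · by_cases h2 : s ≤ t
      · simp only [h0, h2, and_self, if_true]
        rw [← mul_assoc, ← ENNReal.ofReal_mul (Real.exp_pos _).le, ← Real.exp_add]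
        congr 3
        ring
      · simp [h0, h2]
    · simp [h0]

/-- Total mass of `W`. -/
theorem W_one (n : ℕ) : ∀ (x : Z2) (t : ℝ), 0 ≤ t →
    W n x t (fun _ => 1) = ENNReal.ofReal ((4 * t) ^ n / n.factorial) := by
  induction n with
  | zero => intro x t _; simp [W]
  | succ n ih =>
    intro x t ht
    simp only [W]
    have h1 : ∫⁻ s in Set.Icc (0 : ℝ) t, W n x (t - s) (fun _ => 1) =
        ENNReal.ofReal ((4 * t) ^ (n + 1) / (n + 1).factorial / 4) := by
      rw [setLIntegral_congr_fun measurableSet_Icc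
        (g := fun s => ENNReal.ofReal ((4 * (t - s)) ^ n / n.factorial))
        (fun s hs => ih x (t - s) (by linarith [hs.2]))]
      rw [← ofReal_integral_eq_lintegral_ofReal]
      · congr 1
        rw [integral_Icc_eq_integral_Ioc, ← intervalIntegral.integral_of_le ht]
        have : ∀ s : ℝ, (4 * (t - s)) ^ n / n.factorial =
            (4 ^ n / n.factorial) * (t - s) ^ n := by intro s; rw [mul_pow]; ring
        simp_rw [this]
        rw [intervalIntegral.integral_const_mul]
        rw [intervalIntegral.integral_comp_sub_left (fun s => s ^ n) t]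
        simp [Nat.factorial_succ]
        field_simp
        ring
      · exact (Continuous.integrableOn_Icc (by fun_prop))
      · refine (ae_restrict_iff' measurableSet_Icc).2 (Eventually.of_forall fun s hs => ?_)
        have : 0 ≤ t - s := by linarith [hs.2]
        positivity
    have h2 : ∀ e : Fin 4, ∫⁻ s in Set.Icc (0 : ℝ) t, W n (x + step e) (t - s) (fun _ => 1) =
        ENNReal.ofReal ((4 * t) ^ (n + 1) / (n + 1).factorial / 4) := by
      intro e
      rw [← h1]
      refine setLIntegral_congr_fun measurableSet_Icc fun s hs => ?_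
      have : 0 ≤ t - s := by linarith [hs.2]
      simp only [ih _ _ this]
    simp_rw [h2]
    rw [Finset.sum_const, Finset.card_univ, Fintype.card_fin, nsmul_eq_mul,
      show ((4 : ℕ) : ℝ≥0∞) = ENNReal.ofReal 4 by simp, ← ENNReal.ofReal_mul (by norm_num)]
    congr 1
    ring

theorem K_one (x : Z2) (t : ℝ) (ht : 0 ≤ t) : K x t (fun _ => 1) = 1 := by
  unfold K
  simp_rw [W_one _ x t ht]
  have h : HasSum (fun n : ℕ => (4 * t) ^ n / n.factorial) (Real.exp (4 * t)) := by
    have := NormedSpace.expSeries_div_hasSum_exp (𝔸 := ℝ) (4 * t)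
    rw [← Real.exp_eq_exp_ℝ] at this
    exact this
  rw [← ENNReal.ofReal_tsum_of_nonneg (fun n => by positivity) h.summable, h.tsum_eq,
    ← ENNReal.ofReal_mul (Real.exp_pos _).le, ← Real.exp_add]
  simp

end Pool.Agent.WSQ
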