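import Pool.Agent.WSQ.BridgeA

/-!
# Helper for module A1: deterministic facts on paths
-/

open MeasureTheory ProbabilityTheory Filter Topology
open scoped ENNReal BigOperators

namespace Pool.Agent.WSQ

theorem jumpTime_succ' (ω : Om) (n : ℕ) :
    jumpTime ω (n + 1) = (ω 0).2 + jumpTime (shift ω) n := by
  unfold jumpTime shift
  rw [Finset.sum_range_succ', add_comm]

theorem pos_succ' (ω : Om) (n : ℕ) : pos ω (n + 1) = step (ω 0).1 + pos (shift ω) n := by
  unfold pos shift
  rw [Finset.sum_range_succ', add_comm]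

theorem jumpTime_zero (ω : Om) : jumpTime ω 0 = 0 := by simp [jumpTime]

theorem pos_zero (ω : Om) : pos ω 0 = 0 := by simp [pos]

theorem jumpTime_one (ω : Om) : jumpTime ω 1 = (ω 0).2 := by simp [jumpTime]

theorem jumpTime_strictMono {ω : Om} (h : HP ω) : StrictMono (jumpTime ω) := by
  refine strictMono_nat_of_lt_succ fun n => ?_
  unfold jumpTime
  rw [Finset.sum_range_succ]
  linarith [h n]

theorem jumpTime_nonneg {ω : Om} (h : HP ω) (n : ℕ) : 0 ≤ jumpTime ω n := by
  rw [← jumpTime_zero ω]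
  exact (jumpTime_strictMono h).monotone (Nat.zero_le n)

theorem numJumps_eq {ω : Om} (h : HP ω) {s : ℝ} {n : ℕ} (h1 : jumpTime ω n ≤ s)
    (h2 : s < jumpTime ω (n + 1)) : numJumps ω s = n := by
  unfold numJumps
  refine le_antisymm (Nat.sInf_le h2) ?_
  by_contra hlt
  push Not at hlt
  have hne : {n : ℕ | s < jumpTime ω (n + 1)}.Nonempty := ⟨n, h2⟩
  have hmem := Nat.sInf_mem hne
  set m := sInf {n : ℕ | s < jumpTime ω (n + 1)}
  have h3 : s < jumpTime ω (m + 1) := hmem
  have h4 : jumpTime ω (m + 1) ≤ jumpTime ω n := (jumpTime_strictMono h).monotone (by omega)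
  linarith

theorem Ex.jump : ∀ {n : ℕ} {t : ℝ} {ω : Om}, HP ω → 0 ≤ t → Ex n t ω →
    jumpTime ω n ≤ t ∧ t < jumpTime ω (n + 1)
  | 0, t, ω, h, ht, hE => by
    rw [jumpTime_zero, jumpTime_one]
    exact ⟨ht, hE⟩
  | n + 1, t, ω, h, ht, hE => by
    obtain ⟨h1, h2⟩ := Ex.jump (n := n) h.shift (by linarith [hE.1]) hE.2
    rw [jumpTime_succ', jumpTime_succ']
    constructor <;> linarith

theorem walk_lt {ω : Om} (h : HP ω) {s : ℝ} (h0 : 0 ≤ s) (h1 : s < (ω 0).2) : walk ω s = 0 := by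
  unfold walk
  rw [numJumps_eq (n := 0) h (by rw [jumpTime_zero]; exact h0) (by rw [jumpTime_one]; exact h1),
    pos_zero]

theorem exists_jump {ω : Om} (h : HP ω) {s : ℝ} (hs : 0 ≤ s) {n : ℕ} (hn : s < jumpTime ω (n + 1)) :
    ∃ m, jumpTime ω m ≤ s ∧ s < jumpTime ω (m + 1) := by
  classical
  have hne : ∃ n : ℕ, s < jumpTime ω (n + 1) := ⟨n, hn⟩
  refine ⟨Nat.find hne, ?_, Nat.find_spec hne⟩
  rcases Nat.eq_zero_or_pos (Nat.find hne) with h0 | h0
  · rw [h0, jumpTime_zero]; exact hs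
  · have := Nat.find_min hne (m := Nat.find hne - 1) (by omega)
    rw [Nat.sub_add_cancel h0] at this
    exact not_lt.1 this

theorem walk_ge {ω : Om} (h : HP ω) {s : ℝ} (h1 : (ω 0).2 ≤ s) {n : ℕ}
    (hn : s - (ω 0).2 < jumpTime (shift ω) (n + 1)) :
    walk ω s = step (ω 0).1 + walk (shift ω) (s - (ω 0).2) := by
  obtain ⟨m, hm1, hm2⟩ := exists_jump h.shift (by linarith) hn
  unfold walk
  rw [numJumps_eq (n := m) h.shift hm1 hm2,
    numJumps_eq (n := m + 1) h (by rw [jumpTime_succ']; linarith)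
      (by rw [jumpTime_succ']; linarith), pos_succ']

/-- Times up to `t` spent at `z`, for the walk started at `x`. -/
def tms (ω : Om) (x : Z2) (t : ℝ) (z : Z2) : Set ℝ := {s | 0 ≤ s ∧ s ≤ t ∧ x + walk ω s = z}

theorem tms_zero {ω : Om} (h : HP ω) (x : Z2) {t : ℝ} (hE : t < (ω 0).2) (z : Z2) :
    tms ω x t z = if x = z then Set.Icc 0 t else ∅ := by
  ext s
  unfold tms
  split_ifs with hx
  · simp only [Set.mem_setOf_eq, Set.mem_Icc]
    constructor
    · rintro ⟨h1, h2, _⟩; exact ⟨h1, h2⟩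
    · rintro ⟨h1, h2⟩
      exact ⟨h1, h2, by rw [walk_lt h h1 (by linarith), add_zero, hx]⟩
  · simp only [Set.mem_setOf_eq, Set.mem_empty_iff_false, iff_false]
    rintro ⟨h1, h2, h3⟩
    rw [walk_lt h h1 (by linarith), add_zero] at h3
    exact hx h3

theorem tms_succ {ω : Om} (h : HP ω) (x : Z2) {n : ℕ} {t : ℝ} (hE : Ex (n + 1) t ω) (z : Z2) :
    tms ω x t z = (if x = z then Set.Ico 0 (ω 0).2 else ∅) ∪
      (fun s => s - (ω 0).2) ⁻¹' tms (shift ω) (x + step (ω 0).1) (t - (ω 0).2) z := by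
  have h0 : 0 < (ω 0).2 := h 0
  have hj := Ex.jump (n := n) h.shift (by linarith [hE.1]) hE.2
  ext s
  rw [Set.mem_union, Set.mem_preimage]
  unfold tms
  simp only [Set.mem_setOf_eq]
  rcases lt_or_ge s (ω 0).2 with hs | hs
  · constructor
    · rintro ⟨h1, h2, h3⟩
      left
      rw [walk_lt h h1 hs, add_zero] at h3
      rw [if_pos h3]
      exact ⟨h1, hs⟩
    · rintro (h1 | h1)
      · split_ifs at h1 with hx
        · exact ⟨h1.1, by linarith [hE.1], by rw [walk_lt h h1.1 hs, add_zero, hx]⟩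
        · exact absurd h1 (Set.notMem_empty _)
      · linarith [h1.1]
  · constructor
    · rintro ⟨h1, h2, h3⟩
      right
      refine ⟨by linarith, by linarith, ?_⟩
      rw [walk_ge h hs (n := n) (by linarith [hj.2])] at h3
      rw [add_assoc]; exact h3
    · rintro (h1 | ⟨h1, h2, h3⟩)
      · split_ifs at h1 with hx
        · linarith [h1.2]
        · exact absurd h1 (Set.notMem_empty _)
      · refine ⟨by linarith, by linarith, ?_⟩
        rw [walk_ge h hs (n := n) (by linarith [hj.2]), ← add_assoc]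
        exact h3

theorem tms_nonempty_iff : ∀ {n : ℕ} {t : ℝ} {ω : Om}, HP ω → 0 ≤ t → Ex n t ω → ∀ x z,
    (tms ω x t z).Nonempty ↔ ∃ p ∈ pathL n x t ω, p.1 = z
  | 0, t, ω, h, ht, hE, x, z => by
    rw [tms_zero h x hE]
    by_cases hx : x = z
    · simp [pathL, hx, ht]
    · simp [pathL, hx]
  | n + 1, t, ω, h, ht, hE, x, z => by
    have ih := tms_nonempty_iff (n := n) h.shift (by linarith [hE.1]) hE.2 (x + step (ω 0).1) z
    rw [tms_succ h x hE, Set.union_nonempty]
    have hsurj : Function.Surjective (fun s : ℝ => s - (ω 0).2) := fun s => ⟨s + (ω 0).2, by simp⟩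
    rw [hsurj.nonempty_preimage, ih]
    by_cases hx : x = z
    · simp [pathL, hx, h 0]
    · simp [pathL, hx]

theorem occ_nil (z : Z2) : occ [] z = 0 := by simp [occ]

theorem occ_cons (p : Z2 × ℝ) (l : Pth) (z : Z2) :
    occ (p :: l) z = (if p.1 = z then p.2 else 0) + occ l z := by simp [occ]

theorem occ_pathL_nonneg : ∀ {n : ℕ} {t : ℝ} {ω : Om}, HP ω → 0 ≤ t → Ex n t ω → ∀ x z,
    0 ≤ occ (pathL n x t ω) z
  | 0, t, ω, h, ht, hE, x, z => by
    rw [pathL, occ_cons, occ_nil]
    split_ifs <;> simp [ht]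
  | n + 1, t, ω, h, ht, hE, x, z => by
    have ih := occ_pathL_nonneg (n := n) h.shift (by linarith [hE.1]) hE.2 (x + step (ω 0).1) z
    rw [pathL, occ_cons]
    have h0 := (h 0).le
    split_ifs
    · simp only; linarith
    · linarith

theorem measurableSet_tms : ∀ {n : ℕ} {t : ℝ} {ω : Om}, HP ω → 0 ≤ t → Ex n t ω → ∀ x z,
    MeasurableSet (tms ω x t z)
  | 0, t, ω, h, ht, hE, x, z => by
    rw [tms_zero h x hE]
    split_ifs
    · exact measurableSet_Icc
    · exact MeasurableSet.empty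
  | n + 1, t, ω, h, ht, hE, x, z => by
    have ih := measurableSet_tms (n := n) h.shift (by linarith [hE.1]) hE.2 (x + step (ω 0).1) z
    rw [tms_succ h x hE]
    refine MeasurableSet.union ?_ ((measurable_id.sub_const _) ih)
    split_ifs
    · exact measurableSet_Ico
    · exact MeasurableSet.empty

theorem volume_tms : ∀ {n : ℕ} {t : ℝ} {ω : Om}, HP ω → 0 ≤ t → Ex n t ω → ∀ x z,
    volume (tms ω x t z) = ENNReal.ofReal (occ (pathL n x t ω) z)
  | 0, t, ω, h, ht, hE, x, z => by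
    rw [tms_zero h x hE, pathL, occ_cons, occ_nil]
    split_ifs <;> simp
  | n + 1, t, ω, h, ht, hE, x, z => by
    have h0 : 0 < (ω 0).2 := h 0
    have ih := volume_tms (n := n) h.shift (by linarith [hE.1]) hE.2 (x + step (ω 0).1) z
    have hm := measurableSet_tms (n := n) h.shift (by linarith [hE.1]) hE.2 (x + step (ω 0).1) z
    rw [tms_succ h x hE, pathL, occ_cons]
    have hm2 : MeasurableSet ((fun s => s - (ω 0).2) ⁻¹'
          tms (shift ω) (x + step (ω 0).1) (t - (ω 0).2) z) := (measurable_id.sub_const _) hm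
    rw [measure_union ?_ hm2]
    · have h1 : volume ((fun s => s - (ω 0).2) ⁻¹'
          tms (shift ω) (x + step (ω 0).1) (t - (ω 0).2) z) =
          volume (tms (shift ω) (x + step (ω 0).1) (t - (ω 0).2) z) := by
        simp_rw [sub_eq_add_neg]
        exact measure_preimage_add_right volume _ _
      rw [ENNReal.ofReal_add (by split_ifs <;> simp [h0.le])
        (occ_pathL_nonneg h.shift (by linarith [hE.1]) hE.2 _ _), ← ih, ← h1]
      congr 1
      split_ifs <;> simp
    · rw [Set.disjoint_left]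
      intro s hs hs2
      split_ifs at hs with hx
      · have h3 : 0 ≤ s - (ω 0).2 := hs2.1
        linarith [hs.2]
      · exact hs

theorem visited_eq {n : ℕ} {t : ℝ} {ω : Om} (h : HP ω) (ht : 0 ≤ t) (hE : Ex n t ω) :
    visited ω t = {z | ∃ p ∈ pathL n 0 t ω, p.1 = z} := by
  ext z
  have := tms_nonempty_iff h ht hE 0 z
  rw [Set.mem_setOf_eq, ← this]
  unfold visited tms
  simp only [zero_add]
  rfl

theorem localTime_eq {n : ℕ} {t : ℝ} {ω : Om} (h : HP ω) (ht : 0 ≤ t) (hE : Ex n t ω) (z : Z2) :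
    localTime ω t z = occ (pathL n 0 t ω) z := by
  have := volume_tms h ht hE 0 z
  unfold tms at this
  simp only [zero_add] at this
  unfold localTime
  rw [this, ENNReal.toReal_ofReal (occ_pathL_nonneg h ht hE 0 z)]

/-- If the last holding time is positive, occupation is positive on the visited sites. -/
theorem occ_pos : ∀ {n : ℕ} {t : ℝ} {ω : Om}, HP ω → 0 ≤ t → Ex n t ω → jumpTime ω n ≠ t →
    ∀ x z, (∃ p ∈ pathL n x t ω, p.1 = z) → 0 < occ (pathL n x t ω) z
  | 0, t, ω, h, ht, hE, hj, x, z => by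
    rw [jumpTime_zero] at hj
    intro hp
    simp [pathL] at hp
    rw [pathL, occ_cons, occ_nil, if_pos hp, add_zero]
    exact lt_of_le_of_ne ht hj
  | n + 1, t, ω, h, ht, hE, hj, x, z => by
    have h0 : 0 < (ω 0).2 := h 0
    have hn := occ_pathL_nonneg (n := n) h.shift (by linarith [hE.1]) hE.2 (x + step (ω 0).1) z
    rw [pathL, occ_cons]
    rintro ⟨p, hp, hpz⟩
    rw [List.mem_cons] at hp
    rcases hp with hp | hp
    · rw [hp] at hpz
      rw [if_pos hpz]
      simp only
      linarith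
    · have ih := occ_pos (n := n) h.shift (by linarith [hE.1]) hE.2
        (by rw [jumpTime_succ'] at hj; intro hh; apply hj; linarith) (x + step (ω 0).1) z
        ⟨p, hp, hpz⟩
      have : 0 ≤ (if x = z then (ω 0).2 else 0) := by split_ifs <;> simp [h0.le]
      simp only
      linarith

theorem occ_zero_of_not_mem (l : Pth) (z : Z2) (h : ¬ ∃ p ∈ l, p.1 = z) : occ l z = 0 := by
  induction l with
  | nil => exact occ_nil z
  | cons a l ih =>
    rw [occ_cons, if_neg (fun ha => h ⟨a, by simp, ha⟩), zero_add]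
    exact ih fun ⟨p, hp, hz⟩ => h ⟨p, by simp [hp], hz⟩

/-- Steps are symmetric. -/
theorem step_symm (e : Fin 4) : ∃ e', step e + step e' = 0 := by
  fin_cases e
  · exact ⟨1, by decide⟩
  · exact ⟨0, by decide⟩
  · exact ⟨3, by decide⟩
  · exact ⟨2, by decide⟩

theorem path_conn : ∀ {n : ℕ} {t : ℝ} {ω : Om} (x : Z2) (S : Set Z2),
    (∀ p ∈ pathL n x t ω, p.1 ∈ S) → ∀ p ∈ pathL n x t ω,
    Relation.ReflTransGen (fun u v => (∃ e, v = u + step e) ∧ v ∈ S) x p.1 ∧
    Relation.ReflTransGen (fun u v => (∃ e, v = u + step e) ∧ v ∈ S) p.1 x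
  | 0, t, ω, x, S, hS, p, hp => by
    simp [pathL] at hp
    rw [hp]
    exact ⟨Relation.ReflTransGen.refl, Relation.ReflTransGen.refl⟩
  | n + 1, t, ω, x, S, hS, p, hp => by
    rw [pathL, List.mem_cons] at hp
    rcases hp with hp | hp
    · rw [hp]
      exact ⟨Relation.ReflTransGen.refl, Relation.ReflTransGen.refl⟩
    · have hx : x ∈ S := hS (x, (ω 0).2) (by rw [pathL]; exact List.mem_cons_self)
      have hS' : ∀ p ∈ pathL n (x + step (ω 0).1) (t - (ω 0).2) (shift ω), p.1 ∈ S :=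
        fun p hp => hS p (by rw [pathL]; exact List.mem_cons_of_mem _ hp)
      obtain ⟨h1, h2⟩ := path_conn (n := n) (x + step (ω 0).1) S hS' p hp
      have hx' : x + step (ω 0).1 ∈ S := by
        cases n with
        | zero => exact hS' (x + step (ω 0).1, t - (ω 0).2) (by simp [pathL])
        | succ m => exact hS' (x + step (ω 0).1, (shift ω 0).2) (by simp [pathL])
      refine ⟨Relation.ReflTransGen.head ⟨⟨_, rfl⟩, hx'⟩ h1, h2.tail ⟨?_, hx⟩⟩
      obtain ⟨e', he'⟩ := step_symm (ω 0).1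
      exact ⟨e', by rw [add_assoc, he', add_zero]⟩

theorem start_mem (n : ℕ) (x : Z2) (t : ℝ) (ω : Om) : ∃ p ∈ pathL n x t ω, p.1 = x := by
  cases n with
  | zero => exact ⟨(x, t), by simp [pathL], rfl⟩
  | succ m => exact ⟨(x, (ω 0).2), by simp [pathL], rfl⟩

end Pool.Agent.WSQ
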