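import Pool.Agent.WSQ.Defs

/-!
# Module D1: counting connected, co-connected sets by their edge boundary
-/

open scoped BigOperators

namespace Pool.Agent.WSQ

namespace Contour

/-- Edges of the square lattice: `(x, false)` is `{x, x + (1,0)}`, `(x, true)` is
`{x, x + (0,1)}`. -/
abbrev Edge := Z2 × Bool

/-- direction of an edge -/
def dir : Bool → Z2
  | false => (1, 0)
  | true => (0, 1)

/-- the four edges of the unit square with lower left corner `y` -/
def sqE (y : Z2) : Finset Edge :=
  {(y, false), (y, true), (y + (0, 1), false), (y + (1, 0), true)}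

/-- the two unit squares containing an edge -/
def sqs : Edge → Finset Z2
  | (x, false) => {x, x - (0, 1)}
  | (x, true) => {x, x - (1, 0)}

theorem mem_sqE_iff (e : Edge) (y : Z2) : e ∈ sqE y ↔ y ∈ sqs e := by
  obtain ⟨⟨x1, x2⟩, d⟩ := e
  obtain ⟨y1, y2⟩ := y
  cases d <;> simp [sqE, sqs, Prod.ext_iff] <;> omega

/-- neighbours of an edge (itself included) -/
def nbrs (e : Edge) : Finset Edge := (sqs e).biUnion sqE

theorem mem_nbrs {e e' : Edge} : e' ∈ nbrs e ↔ ∃ y, e ∈ sqE y ∧ e' ∈ sqE y := by
  simp only [nbrs, Finset.mem_biUnion, mem_sqE_iff]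

theorem nbrs_symm {e e' : Edge} (h : e' ∈ nbrs e) : e ∈ nbrs e' := by
  rw [mem_nbrs] at *
  obtain ⟨y, h1, h2⟩ := h
  exact ⟨y, h2, h1⟩

theorem self_mem_nbrs (e : Edge) : e ∈ nbrs e := by
  rw [mem_nbrs]
  obtain ⟨x, d⟩ := e
  refine ⟨x, ?_, ?_⟩ <;> cases d <;> simp [sqE]

theorem card_nbrs (e : Edge) : (nbrs e).card ≤ 8 := by
  have h1 : (sqs e).card ≤ 2 := by
    obtain ⟨x, d⟩ := e
    cases d <;> exact Finset.card_le_two
  have h2 : ∀ y ∈ sqs e, (sqE y).card ≤ 4 := fun y _ => Finset.card_le_four
  calc (nbrs e).card ≤ ∑ y ∈ sqs e, (sqE y).card := Finset.card_biUnion_le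
    _ ≤ ∑ y ∈ sqs e, 4 := Finset.sum_le_sum h2
    _ = (sqs e).card * 4 := by rw [Finset.sum_const, smul_eq_mul]
    _ ≤ 8 := by omega

/-- chains of `n+1` edges starting at `e` -/
def chains : Edge → ℕ → Finset (List Edge)
  | e, 0 => {[e]}
  | e, n + 1 => (nbrs e).biUnion fun e' => (chains e' n).image (List.cons e)

theorem card_chains (n : ℕ) : ∀ e, (chains e n).card ≤ 8 ^ n := by
  induction n with
  | zero => intro e; simp [chains]
  | succ n ih =>
    intro e
    calc (chains e (n + 1)).card
        ≤ ∑ e' ∈ nbrs e, ((chains e' n).image (List.cons e)).card := by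
          rw [chains]; exact Finset.card_biUnion_le
      _ ≤ ∑ e' ∈ nbrs e, 8 ^ n :=
          Finset.sum_le_sum fun e' _ => Finset.card_image_le.trans (ih e')
      _ = (nbrs e).card * 8 ^ n := by rw [Finset.sum_const, smul_eq_mul]
      _ ≤ 8 * 8 ^ n := Nat.mul_le_mul_right _ (card_nbrs e)
      _ = 8 ^ (n + 1) := by ring

/-- the chain condition -/
abbrev Ch (L : List Edge) : Prop := L.IsChain fun a b => b ∈ nbrs a

theorem mem_chains (n : ℕ) : ∀ (e : Edge) (L : List Edge), Ch (e :: L) → L.length = n →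
    (e :: L) ∈ chains e n := by
  induction n with
  | zero =>
    intro e L _ hL
    have : L = [] := List.length_eq_zero_iff.mp hL
    subst this
    simp [chains]
  | succ n ih =>
    intro e L hch hL
    obtain _ | ⟨e', L'⟩ := L
    · simp at hL
    · simp only [Ch, List.isChain_cons_cons] at hch
      rw [chains, Finset.mem_biUnion]
      exact ⟨e', hch.1, Finset.mem_image.mpr ⟨e' :: L', ih e' L' hch.2 (by simpa using hL), rfl⟩⟩

/-- the edge from `u` to `u + step e` -/
def edgeOf (u : Z2) (e : Fin 4) : Edge :=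
  match e with
  | 0 => (u, false)
  | 1 => (u + step 1, false)
  | 2 => (u, true)
  | 3 => (u + step 3, true)

/-- the boundary edges -/
noncomputable def Bd (G : Finset Z2) : Finset Edge :=
  ((G ×ˢ (Finset.univ : Finset (Fin 4))).filter fun p => p.1 + step p.2 ∉ G).image
    fun p => edgeOf p.1 p.2

theorem card_pairs (G : Finset Z2) :
    ((G ×ˢ (Finset.univ : Finset (Fin 4))).filter fun p => p.1 + step p.2 ∉ G).card = bd G := by
  rw [Finset.card_filter, Finset.sum_product, bd]
  refine Finset.sum_congr rfl fun x _ => ?_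
  rw [deg, Finset.card_filter]

theorem card_Bd (G : Finset Z2) : (Bd G).card ≤ bd G := by
  rw [← card_pairs]
  exact Finset.card_image_le

theorem step_zero : step 0 = ((1, 0) : Z2) := rfl
theorem step_one : step 1 = ((-1, 0) : Z2) := rfl
theorem step_two : step 2 = ((0, 1) : Z2) := rfl
theorem step_three : step 3 = ((0, -1) : Z2) := rfl

theorem mem_Bd (G : Finset Z2) (x : Z2) (d : Bool) :
    (x, d) ∈ Bd G ↔ (x ∈ G ∧ x + dir d ∉ G) ∨ (x ∉ G ∧ x + dir d ∈ G) := by
  simp only [Bd, Finset.mem_image, Finset.mem_filter, Finset.mem_product, Finset.mem_univ,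
    and_true]
  constructor
  · rintro ⟨⟨u, e⟩, ⟨hu, hue⟩, h⟩
    fin_cases e
    · simp only [edgeOf, Prod.mk.injEq] at h
      obtain ⟨rfl, rfl⟩ := h
      exact Or.inl ⟨hu, hue⟩
    · simp only [edgeOf, Prod.mk.injEq] at h
      obtain ⟨rfl, rfl⟩ := h
      refine Or.inr ⟨hue, ?_⟩
      have : u + step 1 + dir false = u := by
        obtain ⟨u1, u2⟩ := u
        simp [step_one, dir]
      rw [this]; exact hu
    · simp only [edgeOf, Prod.mk.injEq] at h
      obtain ⟨rfl, rfl⟩ := h
      exact Or.inl ⟨hu, hue⟩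
    · simp only [edgeOf, Prod.mk.injEq] at h
      obtain ⟨rfl, rfl⟩ := h
      refine Or.inr ⟨hue, ?_⟩
      have : u + step 3 + dir true = u := by
        obtain ⟨u1, u2⟩ := u
        simp [step_three, dir]
      rw [this]; exact hu
  · rintro (⟨h1, h2⟩ | ⟨h1, h2⟩)
    · cases d
      · exact ⟨(x, 0), ⟨h1, h2⟩, rfl⟩
      · exact ⟨(x, 2), ⟨h1, h2⟩, rfl⟩
    · cases d
      · have hx : x + dir false + step 1 = x := by
          obtain ⟨u1, u2⟩ := x
          simp [step_one, dir]
        refine ⟨(x + dir false, 1), ⟨h2, by rw [hx]; exact h1⟩, ?_⟩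
        simp only [edgeOf, hx]
      · have hx : x + dir true + step 3 = x := by
          obtain ⟨u1, u2⟩ := x
          simp [step_three, dir]
        refine ⟨(x + dir true, 3), ⟨h2, by rw [hx]; exact h1⟩, ?_⟩
        simp only [edgeOf, hx]

/-- a property of lattice points which propagates along edges in both directions -/
theorem Z2_connected (P : Z2 → Prop) (h : ∀ x d, P x ↔ P (x + dir d)) (p : Z2) (hp : P p) :
    ∀ x, P x := by
  have key : ∀ (a : Z2) (d : Bool), P a → ∀ n : ℤ, P (a + n • dir d) := by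
    intro a d ha n
    induction n using Int.induction_on with
    | zero => simpa using ha
    | succ n ih =>
      have := (h _ d).mp ih
      rwa [add_assoc, ← add_one_zsmul] at this
    | pred n ih =>
      rw [h _ d, add_assoc, ← add_one_zsmul]
      simpa using ih
  intro x
  have h1 := key p false hp (x.1 - p.1)
  have h2 := key _ true h1 (x.2 - p.2)
  convert h2 using 1
  obtain ⟨x1, x2⟩ := x
  obtain ⟨p1, p2⟩ := p
  simp [dir]

theorem Bd_injective {G G' : Finset Z2} {p : Z2} (hp : p ∈ G) (hp' : p ∈ G')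
    (h : Bd G = Bd G') : G = G' := by
  ext x
  refine Z2_connected (fun x => x ∈ G ↔ x ∈ G') ?_ p (by simp [hp, hp']) x
  intro x d
  have h1 := mem_Bd G x d
  have h2 := mem_Bd G' x d
  rw [h, h2] at h1
  by_cases c1 : x ∈ G <;> by_cases c2 : x + dir d ∈ G <;> by_cases c3 : x ∈ G' <;>
    by_cases c4 : x + dir d ∈ G' <;> simp_all

theorem exists_prim {M : Type*} [AddCommGroup M] (f : ℤ → M) :
    ∃ F : ℤ → M, F 0 = 0 ∧ ∀ n, F (n + 1) = F n + f n := by
  let F : ℤ → M := fun n =>
    match n with
    | Int.ofNat k => ∑ i ∈ Finset.range k, f i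
    | Int.negSucc k => - ∑ i ∈ Finset.range (k + 1), f (Int.negSucc i)
  refine ⟨F, by simp [F, ← Int.ofNat_eq_natCast], ?_⟩
  intro n
  obtain k | k := n
  · have : (Int.ofNat k + 1 : ℤ) = Int.ofNat (k + 1) := rfl
    rw [this]
    simp only [F]
    rw [Finset.sum_range_succ]
    rfl
  · obtain _ | k := k
    · have : (Int.negSucc 0 + 1 : ℤ) = Int.ofNat 0 := rfl
      rw [this]
      simp only [F]
      simp
    · have : (Int.negSucc (k + 1) + 1 : ℤ) = Int.negSucc k := by
        rw [Int.negSucc_eq, Int.negSucc_eq]; push_cast; ring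
      rw [this]
      simp only [F]
      rw [Finset.sum_range_succ _ (k + 1)]
      abel

/-- A closed mod 2 cochain is exact. -/
theorem exists_pot (a : Edge → ZMod 2)
    (h : ∀ y : Z2, a (y, false) + a (y + (1, 0), true) = a (y, true) + a (y + (0, 1), false)) :
    ∃ φ : Z2 → ZMod 2, ∀ x d, φ (x + dir d) = φ x + a (x, d) := by
  obtain ⟨H, _, hH⟩ := exists_prim fun m => a ((m, 0), false)
  choose V hV0 hV using fun m : ℤ => exists_prim fun n => a ((m, n), true)
  have key : ∀ m n : ℤ, H (m + 1) + V (m + 1) n = H m + V m n + a ((m, n), false) := by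
    intro m n
    have step : ∀ n, H (m + 1) + V (m + 1) n = H m + V m n + a ((m, n), false) ↔
        H (m + 1) + V (m + 1) (n + 1) = H m + V m (n + 1) + a ((m, n + 1), false) := by
      intro n
      have h1 := h (m, n)
      simp only [Prod.mk_add_mk, add_zero] at h1
      rw [hV, hV]
      constructor
      · intro h2
        linear_combination h2 + h1
      · intro h2
        linear_combination h2 - h1
    induction n using Int.induction_on with
    | zero => rw [hV0, hV0, hH]; ring
    | succ n ih => exact (step _).mp ih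
    | pred n ih => exact (step _).mpr (by simpa using ih)
  refine ⟨fun x => H x.1 + V x.1 x.2, ?_⟩
  rintro ⟨m, n⟩ d
  cases d
  · simpa [dir] using key m n
  · simp only [dir, Prod.mk_add_mk, add_zero]
    rw [hV]; ring

/-- the boundary of a connected and co-connected set is connected -/
theorem Bd_connected {G : Finset Z2} (hG : Conn (G : Set Z2)) (hGc : Conn ((G : Set Z2)ᶜ))
    {A : Finset Edge} (hAB : A ⊆ Bd G) (e0 : Edge) (he0 : e0 ∈ A)
    (hcl : ∀ e ∈ A, ∀ e' ∈ Bd G, e' ∈ nbrs e → e' ∈ A) : A = Bd G := by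
  classical
  let a : Edge → ZMod 2 := fun e => if e ∈ A then 1 else 0
  let b : Edge → ZMod 2 := fun e => if e ∈ Bd G then 1 else 0
  let g : Z2 → ZMod 2 := fun x => if x ∈ G then 1 else 0
  have hb : ∀ x d, b (x, d) = g x + g (x + dir d) := by
    intro x d
    simp only [b, g, mem_Bd]
    by_cases h1 : x ∈ G <;> by_cases h2 : x + dir d ∈ G <;> simp [h1, h2]
    decide
  have hb2 : ∀ y : Z2, b (y, false) + b (y + (1, 0), true) =
      b (y, true) + b (y + (0, 1), false) := by
    intro y
    rw [hb, hb, hb, hb]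
    have h1 : y + (1, 0) + dir true = y + (0, 1) + dir false := by
      obtain ⟨y1, y2⟩ := y
      simp [dir]
    have h2 : y + dir false = y + (1, 0) := rfl
    have h3 : y + dir true = y + (0, 1) := rfl
    rw [h1, h2, h3]
    have h4 : ∀ z : ZMod 2, z + z = 0 := by decide
    linear_combination h4 (g (y + (1, 0))) - h4 (g (y + (0, 1)))
  have ha : ∀ y : Z2, a (y, false) + a (y + (1, 0), true) =
      a (y, true) + a (y + (0, 1), false) := by
    intro y
    by_cases hy : ∃ e ∈ A, e ∈ sqE y
    · obtain ⟨e, heA, hey⟩ := hy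
      have hab : ∀ e' ∈ sqE y, a e' = b e' := by
        intro e' he'
        simp only [a, b]
        by_cases h1 : e' ∈ Bd G
        · have : e' ∈ A := hcl e heA e' h1 (mem_nbrs.mpr ⟨y, hey, he'⟩)
          simp [h1, this]
        · have : e' ∉ A := fun h => h1 (hAB h)
          simp [h1, this]
      rw [hab _ (by simp [sqE]), hab _ (by simp [sqE]), hab _ (by simp [sqE]),
        hab _ (by simp [sqE])]
      exact hb2 y
    · push Not at hy
      have hab : ∀ e' ∈ sqE y, a e' = 0 := by
        intro e' he'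
        simp only [a]
        rw [if_neg fun h => hy e' h he']
      rw [hab _ (by simp [sqE]), hab _ (by simp [sqE]), hab _ (by simp [sqE]),
        hab _ (by simp [sqE])]
  obtain ⟨φ, hφ⟩ := exists_pot a ha
  -- φ does not change along non-boundary edges
  have hstep : ∀ (u : Z2) (e : Fin 4), (u ∈ G ↔ u + step e ∈ G) → φ (u + step e) = φ u := by
    intro u e hu
    have hnb : ∀ x d, (x ∈ G ↔ x + dir d ∈ G) → φ (x + dir d) = φ x := by
      intro x d hx
      rw [hφ]
      have h1 : (x, d) ∉ A := by
        intro h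
        have := (mem_Bd G x d).mp (hAB h)
        tauto
      simp [a, h1]
    fin_cases e
    · exact hnb u false hu
    · have hx : u + step 1 + dir false = u := by
        obtain ⟨u1, u2⟩ := u
        simp [step_one, dir]
      have := hnb (u + step 1) false (by rw [hx]; exact hu.symm)
      rw [hx] at this
      exact this.symm
    · exact hnb u true hu
    · have hx : u + step 3 + dir true = u := by
        obtain ⟨u1, u2⟩ := u
        simp [step_three, dir]
      have := hnb (u + step 3) true (by rw [hx]; exact hu.symm)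
      rw [hx] at this
      exact this.symm
  have hconst : ∀ (S : Set Z2), Conn S →
      (∀ u ∈ S, ∀ e : Fin 4, u + step e ∈ S → φ (u + step e) = φ u) →
      ∀ x ∈ S, ∀ y ∈ S, φ y = φ x := by
    intro S hS h x hx y hy
    have h1 := hS x hx y hy
    have : ∀ z, Relation.ReflTransGen (fun u v => (∃ e, v = u + step e) ∧ v ∈ S) x z →
        z ∈ S ∧ φ z = φ x := by
      intro z hz
      induction hz with
      | refl => exact ⟨hx, rfl⟩
      | tail _ hbc ih =>
        obtain ⟨⟨e, rfl⟩, hc⟩ := hbc
        exact ⟨hc, (h _ ih.1 e hc).trans ih.2⟩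
    exact (this y h1).2
  have hG1 := hconst (G : Set Z2) hG fun u hu e hue => hstep u e (by
    simp only [Finset.mem_coe] at hu hue; simp [hu, hue])
  have hG2 := hconst ((G : Set Z2)ᶜ) hGc fun u hu e hue => hstep u e (by
    simp only [Set.mem_compl_iff, Finset.mem_coe] at hu hue; simp [hu, hue])
  refine Finset.Subset.antisymm hAB ?_
  intro e he
  obtain ⟨x, d⟩ := e
  obtain ⟨x0, d0⟩ := e0
  have hx := (mem_Bd G x d).mp he
  have hx0 := (mem_Bd G x0 d0).mp (hAB he0)
  have e1 : a (x0, d0) = 1 := by simp [a, he0]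
  have e2 := hφ x0 d0
  have e3 := hφ x d
  have h2 : ∀ z : ZMod 2, z + z = 0 := by decide
  have e4 : a (x, d) = 1 := by
    rcases hx with ⟨h1, h1'⟩ | ⟨h1, h1'⟩ <;> rcases hx0 with ⟨h3, h3'⟩ | ⟨h3, h3'⟩
    · have f1 := hG1 x (by simpa using h1) x0 (by simpa using h3)
      have f2 := hG2 (x + dir d) (by simpa using h1') (x0 + dir d0) (by simpa using h3')
      rw [f1, f2, e1] at e2
      linear_combination e2 - e3
    · have f1 := hG1 x (by simpa using h1) (x0 + dir d0) (by simpa using h3')
      have f2 := hG2 (x + dir d) (by simpa using h1') x0 (by simpa using h3)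
      rw [f1, f2, e1] at e2
      linear_combination e2 - e3 - h2 (φ x) + h2 (φ (x + dir d))
    · have f1 := hG1 (x + dir d) (by simpa using h1') x0 (by simpa using h3)
      have f2 := hG2 x (by simpa using h1) (x0 + dir d0) (by simpa using h3')
      rw [f1, f2, e1] at e2
      linear_combination e2 - e3 - h2 (φ x) + h2 (φ (x + dir d))
    · have f1 := hG1 (x + dir d) (by simpa using h1') (x0 + dir d0) (by simpa using h3')
      have f2 := hG2 x (by simpa using h1) x0 (by simpa using h3)
      rw [f1, f2, e1] at e2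
      linear_combination e2 - e3
  by_contra hcon
  have : a (x, d) = 0 := by simp [a, hcon]
  rw [this] at e4
  exact absurd e4 (by decide)

/-- insertion of a detour `e → e' → e` into a chain -/
theorem insert_detour {e e' : Edge} (hee' : e' ∈ nbrs e) (e0 : Edge) (L : List Edge)
    (hL : Ch (e0 :: L)) (he : e ∈ e0 :: L) :
    ∃ L' : List Edge, Ch (e0 :: L') ∧ (e0 :: L').toFinset = insert e' (e0 :: L).toFinset ∧
      L'.length = L.length + 2 := by
  induction L generalizing e0 with
  | nil =>
    have : e = e0 := by simpa using he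
    subst this
    refine ⟨[e', e], ?_, ?_, rfl⟩
    · simp only [Ch, List.isChain_cons_cons, List.isChain_singleton, and_true]
      exact ⟨hee', nbrs_symm hee'⟩
    · ext z; simp
  | cons x L ih =>
    have hL' : x ∈ nbrs e0 ∧ Ch (x :: L) := by
      simpa only [Ch, List.isChain_cons_cons] using hL
    rcases List.mem_cons.mp he with h | h
    · subst h
      refine ⟨e' :: e :: x :: L, ?_, ?_, by simp⟩
      · simp only [Ch, List.isChain_cons_cons]
        exact ⟨hee', nbrs_symm hee', hL'.1, hL'.2⟩
      · ext z; simp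
    · obtain ⟨L', h1, h2, h3⟩ := ih x hL'.2 h
      refine ⟨x :: L', ?_, ?_, by simp [h3]⟩
      · simp only [Ch, List.isChain_cons_cons]
        exact ⟨hL'.1, h1⟩
      · rw [List.toFinset_cons, h2, List.toFinset_cons (a := e0)]
        ext z; simp; tauto

/-- a connected set of edges is covered by a short chain -/
theorem exists_cover {B : Finset Edge} (e0 : Edge) (he0 : e0 ∈ B)
    (hB : ∀ A ⊆ B, e0 ∈ A → (∀ e ∈ A, ∀ e' ∈ B, e' ∈ nbrs e → e' ∈ A) → A = B) (m : ℕ)
    (hm : m + 1 ≤ B.card) :
    ∃ L : List Edge, Ch (e0 :: L) ∧ (e0 :: L).toFinset ⊆ B ∧ (e0 :: L).toFinset.card = m + 1 ∧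
      L.length = 2 * m := by
  induction m with
  | zero => exact ⟨[], by simp [Ch], by simpa using he0, by simp, rfl⟩
  | succ m ih =>
    obtain ⟨L, h1, h2, h3, h4⟩ := ih (by omega)
    have hne : (e0 :: L).toFinset ≠ B := by
      intro h
      rw [h] at h3
      omega
    have : ∃ e ∈ (e0 :: L).toFinset, ∃ e' ∈ B, e' ∈ nbrs e ∧ e' ∉ (e0 :: L).toFinset := by
      by_contra hcon
      push Not at hcon
      exact hne (hB _ h2 (by simp) fun e he e' he' hn => hcon e he e' he' hn)
    obtain ⟨e, he, e', he', hn, hnot⟩ := this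
    obtain ⟨L', h5, h6, h7⟩ := insert_detour hn e0 L h1 (by simpa using he)
    refine ⟨L', h5, ?_, ?_, by omega⟩
    · rw [h6]
      exact Finset.insert_subset he' h2
    · rw [h6, Finset.card_insert_of_notMem hnot, h3]

theorem pad_chain (e0 : Edge) (k : ℕ) (L : List Edge) (hL : Ch (e0 :: L)) :
    ∃ L' : List Edge, Ch (e0 :: L') ∧ (e0 :: L').toFinset = (e0 :: L).toFinset ∧
      L'.length = L.length + k := by
  induction k with
  | zero => exact ⟨L, hL, rfl, rfl⟩
  | succ k ih =>
    obtain ⟨L', h1, h2, h3⟩ := ih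
    refine ⟨e0 :: L', ?_, ?_, by simp [h3]; omega⟩
    · simp only [Ch, List.isChain_cons_cons]
      exact ⟨self_mem_nbrs e0, h1⟩
    · rw [List.toFinset_cons, h2]
      ext z; simp

/-- an extremal point of a finite set in a direction -/
theorem exists_last (G : Finset Z2) (p v : Z2) (hp : p ∈ G) (hv : v ≠ 0) :
    ∃ n : ℕ, (∀ i ≤ n, p + (i : ℤ) • v ∈ G) ∧ p + ((n : ℤ) + 1) • v ∉ G := by
  classical
  have hex : ∃ n : ℕ, p + ((n : ℤ) + 1) • v ∉ G := by
    by_contra hcon
    push Not at hcon
    have hinj : Function.Injective fun n : ℕ => p + ((n : ℤ) + 1) • v := by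
      intro a b hab
      simp only [add_right_inj] at hab
      have h0 : ((a : ℤ) - b) • v = 0 := by
        rw [sub_smul]
        have := hab
        rw [add_smul, add_smul, add_left_inj] at this
        rw [this, sub_self]
      rcases smul_eq_zero.mp h0 with h | h
      · omega
      · exact absurd h hv
    exact Set.infinite_of_injective_forall_mem hinj (s := (G : Set Z2))
      (fun n => by simpa using hcon n) G.finite_toSet
  refine ⟨Nat.find hex, ?_, Nat.find_spec hex⟩
  intro i hi
  obtain _ | i := i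
  · simpa using hp
  · have := Nat.find_min hex (m := i) (by omega)
    rw [not_not] at this
    exact_mod_cast this

/-- the boundary meets the horizontal ray from `p` within distance `bd G` -/
theorem exists_ray {G : Finset Z2} {p : Z2} (hp : p ∈ G) :
    ∃ i < bd G, (p + ((i : ℤ), 0), false) ∈ Bd G := by
  classical
  obtain ⟨n, h1, h2⟩ := exists_last G p (1, 0) hp (by simp)
  have hsm : ∀ k : ℤ, k • ((1, 0) : Z2) = (k, 0) := by intro k; simp
  have hsm2 : ∀ k : ℤ, k • ((0, 1) : Z2) = (0, k) := by intro k; simp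
  simp only [hsm] at h1 h2
  refine ⟨n, ?_, ?_⟩
  · choose! t ht1 ht2 using fun (i : ℕ) (hi : i ≤ n) =>
      exists_last G (p + ((i : ℤ), 0)) (0, 1) (h1 i hi) (by simp)
    simp only [hsm2] at ht1 ht2
    have hinj : Set.InjOn (fun i : ℕ => ((p + ((i : ℤ), 0) + (0, (t i : ℤ)), (2 : Fin 4)) : Z2 × Fin 4))
        (Finset.range (n + 1)) := by
      intro a _ b _ hab
      simp only [Prod.mk.injEq, and_true] at hab
      have := congrArg Prod.fst hab
      simp at this
      exact this
    rw [← card_pairs, ← Nat.succ_le_iff]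
    calc n + 1 = (Finset.range (n + 1)).card := (Finset.card_range _).symm
      _ = ((Finset.range (n + 1)).image fun i : ℕ =>
          ((p + ((i : ℤ), 0) + (0, (t i : ℤ)), (2 : Fin 4)) : Z2 × Fin 4)).card :=
          (Finset.card_image_of_injOn hinj).symm
      _ ≤ _ := by
          refine Finset.card_le_card ?_
          intro z hz
          rw [Finset.mem_image] at hz
          obtain ⟨i, hi, rfl⟩ := hz
          have hi' : i ≤ n := by simpa [Nat.lt_succ_iff] using hi
          simp only [Finset.mem_filter, Finset.mem_product, Finset.mem_univ, and_true]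
          refine ⟨ht1 i hi' (t i) le_rfl, ?_⟩
          have := ht2 i hi'
          rw [step_two]
          convert this using 2
          simp [add_assoc]
  · rw [mem_Bd]
    refine Or.inl ⟨h1 n le_rfl, ?_⟩
    convert h2 using 2
    simp [dir, add_assoc]

end Contour

open Contour in
/-- There are at most `C^ℓ` finite connected sets with connected complement, containing a given
point, whose edge boundary has at most `ℓ` edges. -/
theorem contour_count :
    ∃ C : ℕ, 1 ≤ C ∧ ∀ (ℓ : ℕ) (p : Z2), ∃ S : Finset (Finset Z2), S.card ≤ C ^ ℓ ∧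
      ∀ G : Finset Z2, p ∈ G → Conn (G : Set Z2) → Conn ((G : Set Z2)ᶜ) → bd G ≤ ℓ → G ∈ S := by
  classical
  refine ⟨128, by norm_num, fun ℓ p => ?_⟩
  let cand : Finset (Finset Edge) := (Finset.range ℓ).biUnion fun i =>
    (chains (p + ((i : ℤ), 0), false) (2 * ℓ)).image List.toFinset
  have hcand : cand.card ≤ 128 ^ ℓ := by
    calc cand.card ≤ ∑ i ∈ Finset.range ℓ,
          ((chains (p + ((i : ℤ), 0), false) (2 * ℓ)).image List.toFinset).card :=
          Finset.card_biUnion_le
      _ ≤ ∑ i ∈ Finset.range ℓ, 8 ^ (2 * ℓ) :=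
          Finset.sum_le_sum fun i _ => Finset.card_image_le.trans (card_chains _ _)
      _ = ℓ * 8 ^ (2 * ℓ) := by simp
      _ ≤ 2 ^ ℓ * 8 ^ (2 * ℓ) := Nat.mul_le_mul_right _ Nat.lt_two_pow_self.le
      _ = 128 ^ ℓ := by rw [pow_mul, ← mul_pow]; norm_num
  let f : Finset Edge → Finset Z2 := fun B =>
    if h : ∃ G : Finset Z2, p ∈ G ∧ Bd G = B then h.choose else ∅
  refine ⟨cand.image f, Finset.card_image_le.trans hcand, ?_⟩
  intro G hp hG hGc hbd
  have hf : f (Bd G) = G := by
    have h : ∃ G' : Finset Z2, p ∈ G' ∧ Bd G' = Bd G := ⟨G, hp, rfl⟩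
    simp only [f]
    rw [dif_pos h]
    exact Bd_injective h.choose_spec.1 hp h.choose_spec.2
  rw [Finset.mem_image]
  refine ⟨Bd G, ?_, hf⟩
  obtain ⟨i, hi, hiB⟩ := exists_ray hp
  have hcard := card_Bd G
  have hpos : 0 < (Bd G).card := Finset.card_pos.mpr ⟨_, hiB⟩
  obtain ⟨L, h1, h2, h3, h4⟩ := exists_cover (B := Bd G) _ hiB
    (fun A hA hA0 hcl => Bd_connected hG hGc hA _ hA0 hcl) ((Bd G).card - 1) (by omega)
  obtain ⟨L', h5, h6, h7⟩ := pad_chain _ (2 * ℓ - L.length) L h1
  have h8 : L'.length = 2 * ℓ := by omega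
  have h9 : ((p + ((i : ℤ), 0), false) :: L').toFinset = Bd G := by
    rw [h6]
    exact Finset.eq_of_subset_of_card_le h2 (by omega)
  simp only [cand, Finset.mem_biUnion, Finset.mem_range, Finset.mem_image]
  exact ⟨i, by omega, _, mem_chains _ _ _ h5 h8, h9⟩

end Pool.Agent.WSQ
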