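import Mathlib

/-!
# The walk conditioned on large local times (MP_66e5c9_pr): definitions

Canonical construction of continuous-time simple random walk on the square lattice
(rate one per edge): i.i.d. pairs (direction, holding time), directions uniform on the four
unit steps, holding times exponential of rate 4.
-/

open MeasureTheory ProbabilityTheory Filter Topology
open scoped ENNReal BigOperators

namespace Pool.Agent.WSQ

/-- The square lattice. -/
abbrev Z2 := ℤ × ℤ

/-- The four unit steps. -/
def step : Fin 4 → Z2 := ![(1, 0), (-1, 0), (0, 1), (0, -1)]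

/-- Sample space: the `k`-th coordinate is (direction of jump `k+1`, holding time before it). -/
abbrev Om := ℕ → Fin 4 × ℝ

/-- Law of one coordinate: uniform direction, independent exponential holding time of rate 4. -/
noncomputable def law1 : Measure (Fin 4 × ℝ) :=
  (uniformOn (Set.univ : Set (Fin 4))).prod (expMeasure 4)

/-- Law of the whole sequence: i.i.d. coordinates. -/
noncomputable def law : Measure Om := Measure.infinitePi (fun _ : ℕ => law1)

/-- Position after `n` jumps. -/
def pos (ω : Om) (n : ℕ) : Z2 := ∑ k ∈ Finset.range n, step (ω k).1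

/-- Time of the `n`-th jump. -/
noncomputable def jumpTime (ω : Om) (n : ℕ) : ℝ := ∑ k ∈ Finset.range n, (ω k).2

/-- Number of jumps made by time `s`. -/
noncomputable def numJumps (ω : Om) (s : ℝ) : ℕ := sInf {n : ℕ | s < jumpTime ω (n + 1)}

/-- The walk `X_s`. -/
noncomputable def walk (ω : Om) (s : ℝ) : Z2 := pos ω (numJumps ω s)

/-- The range `R_t = {X_s : 0 ≤ s ≤ t}`. -/
def visited (ω : Om) (t : ℝ) : Set Z2 := {x | ∃ s : ℝ, 0 ≤ s ∧ s ≤ t ∧ walk ω s = x}

/-- The local time `L_t(x)`: Lebesgue measure of the times in `[0,t]` spent at `x`. -/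
noncomputable def localTime (ω : Om) (t : ℝ) (x : Z2) : ℝ :=
  (volume {s : ℝ | 0 ≤ s ∧ s ≤ t ∧ walk ω s = x}).toReal

/-- The event that every visited site has local time at least `β`. -/
def EvE (β t : ℝ) : Set Om := {ω | ∀ x ∈ visited ω t, β ≤ localTime ω t x}

/-- A lattice site as a point of the Euclidean plane. -/
noncomputable def toE (p : Z2) : EuclideanSpace ℝ (Fin 2) := !₂[(p.1 : ℝ), (p.2 : ℝ)]

/-- The axis-parallel square of unit diameter, `[0, 1/√2]²`. -/
noncomputable def unitSq : Set (EuclideanSpace ℝ (Fin 2)) :=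
  {v | ∀ i, 0 ≤ v i ∧ v i ≤ 1 / Real.sqrt 2}

/-- The range as a subset of the Euclidean plane. -/
noncomputable def rangeE (ω : Om) (t : ℝ) : Set (EuclideanSpace ℝ (Fin 2)) := toE '' visited ω t

/-- The rescaled range `R_t / diam R_t` is within Hausdorff distance `ε` of a translate of the
axis-parallel square of unit diameter. -/
def NearSquare (ε t : ℝ) : Set Om :=
  {ω | ∃ z : EuclideanSpace ℝ (Fin 2),
    Metric.hausdorffDist ((fun v => (Metric.diam (rangeE ω t))⁻¹ • v) '' rangeE ω t)
      ((fun v => z + v) '' unitSq) ≤ ε}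

/-! ### Path space on finite lists -/

/-- A finite path: list of (site, time spent there). -/
abbrev Pth := List (Z2 × ℝ)

/-- Total time spent at `z` along a finite path. -/
def occ (l : Pth) (z : Z2) : ℝ := (l.map fun p => if p.1 = z then p.2 else 0).sum

/-- Weight of the paths with exactly `n` jumps during `[0,t]` started at `x` (Lebesgue measure
for the jump times, every edge with rate one, without the factor `e^{-4t}`), with a functional
`F` of the path. -/
noncomputable def W : ℕ → Z2 → ℝ → (Pth → ℝ≥0∞) → ℝ≥0∞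
  | 0, x, t, F => F [(x, t)]
  | n + 1, x, t, F => ∑ e : Fin 4, ∫⁻ s in Set.Icc (0 : ℝ) t,
      W n (x + step e) (t - s) (fun l => F ((x, s) :: l))

/-- Expectation of a functional of the path up to time `t` of the walk started at `x`. -/
noncomputable def K (x : Z2) (t : ℝ) (F : Pth → ℝ≥0∞) : ℝ≥0∞ :=
  ENNReal.ofReal (Real.exp (-4 * t)) * ∑' n, W n x t F

open Classical in
/-- Indicator functional of a property of finite paths. -/
noncomputable def ind (p : Pth → Prop) : Pth → ℝ≥0∞ := fun l => if p l then 1 else 0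

/-- Nearest-neighbour connectivity of a set of sites. -/
def Conn (S : Set Z2) : Prop :=
  ∀ x ∈ S, ∀ y ∈ S, Relation.ReflTransGen (fun u v => (∃ e, v = u + step e) ∧ v ∈ S) x y

/-- Number of edges from `x` to the complement of `G`. -/
def deg (G : Finset Z2) (x : Z2) : ℕ := (Finset.univ.filter fun e : Fin 4 => x + step e ∉ G).card

/-- Number of edges in the edge boundary of `G`. -/
def bd (G : Finset Z2) : ℕ := ∑ x ∈ G, deg G x

/-- The operator `L_G + V` (Dirichlet Laplacian of the walk killed outside `G`, plus a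
potential). -/
def opA (G : Finset Z2) (V : Z2 → ℝ) (f : Z2 → ℝ) (x : Z2) : ℝ :=
  (∑ e : Fin 4, if x + step e ∈ G then f (x + step e) else 0) - 4 * f x + V x * f x

/-- Quadratic form of `L_G + V`. -/
def Q (G : Finset Z2) (V : Z2 → ℝ) (f : Z2 → ℝ) : ℝ := ∑ x ∈ G, f x * opA G V f x

/-- Squared norm on `G`. -/
def nsq (G : Finset Z2) (f : Z2 → ℝ) : ℝ := ∑ x ∈ G, f x ^ 2

/-- The Feynman-Kac functional: stay in `G`, end at `y`, weight `exp ⟨V, occupation⟩`. -/
noncomputable def fk (G : Finset Z2) (V : Z2 → ℝ) (y : Z2) : Pth → ℝ≥0∞ := fun l =>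
  ind (fun l => (∀ p ∈ l, p.1 ∈ G) ∧ (l.getLast?.map Prod.fst) = some y) l *
    ENNReal.ofReal (Real.exp ((l.map fun p => V p.1 * p.2).sum))

/-- The walk from `a` stays in `G`, is at `b` at time `T` and has occupation at least `g`
everywhere, with probability at least `exp (-C)`. -/
def Reach (G : Finset Z2) (a b : Z2) (T : ℝ) (g : Z2 → ℝ) (C : ℝ) : Prop :=
  ENNReal.ofReal (Real.exp (-C)) ≤
    K a T (ind fun l => (∀ p ∈ l, p.1 ∈ G) ∧ (l.getLast?.map Prod.fst) = some b ∧
      ∀ z, g z ≤ occ l z)

/-- `Reach` for some duration in `[0, Tmax]`. -/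
def ReachE (G : Finset Z2) (a b : Z2) (Tmax : ℝ) (g : Z2 → ℝ) (C : ℝ) : Prop :=
  ∃ T, 0 ≤ T ∧ T ≤ Tmax ∧ Reach G a b T g C

/-- The box `[1,m] × [1,m]`. -/
noncomputable def box (m : ℕ) : Finset Z2 := Finset.Icc 1 (m : ℤ) ×ˢ Finset.Icc 1 (m : ℤ)

end Pool.Agent.WSQ
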