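import Pool.Agent.WSQ.Defs

/-!
# Measurable path functionals and additivity of `K`
-/

open MeasureTheory ProbabilityTheory Filter Topology
open scoped ENNReal BigOperators

namespace Pool.Agent.WSQ

/-- Measurability of a path functional: for every list of sites the value is a measurable
function of the holding times. -/
def MeasF (F : Pth → ℝ≥0∞) : Prop :=
  ∀ (n : ℕ) (z : Fin n → Z2), Measurable fun h : Fin n → ℝ => F (List.ofFn fun i => (z i, h i))

/-- Families with a measurable parameter. -/
def MeasFam {P : Type} [MeasurableSpace P] (F : P → Pth → ℝ≥0∞) : Prop :=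
  ∀ (n : ℕ) (z : Fin n → Z2),
    Measurable fun q : P × (Fin n → ℝ) => F q.1 (List.ofFn fun i => (z i, q.2 i))

theorem MeasF.fam {P : Type} [MeasurableSpace P] {F : Pth → ℝ≥0∞} (hF : MeasF F) :
    MeasFam (fun (_ : P) => F) := by
  intro n z
  exact (hF n z).comp measurable_snd

theorem MeasFam.cons {P : Type} [MeasurableSpace P] {F : P → Pth → ℝ≥0∞} (hF : MeasFam F)
    (x : Z2) : MeasFam (fun (q : P × ℝ) l => F q.1 ((x, q.2) :: l)) := by
  intro n z
  have h := hF (n + 1) (Fin.cons x z)
  have hg : Measurable fun q : (P × ℝ) × (Fin n → ℝ) =>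
      (q.1.1, (Fin.cons q.1.2 q.2 : Fin (n + 1) → ℝ)) := by
    refine Measurable.prodMk (by fun_prop) ?_
    refine measurable_pi_lambda _ fun i => ?_
    refine Fin.cases ?_ (fun j => ?_) i
    · simpa using (by fun_prop : Measurable fun q : (P × ℝ) × (Fin n → ℝ) => q.1.2)
    · simpa using (by fun_prop : Measurable fun q : (P × ℝ) × (Fin n → ℝ) => q.2 j)
  have h2 := h.comp hg
  have : (fun q : (P × ℝ) × (Fin n → ℝ) =>
      F q.1.1 ((x, q.1.2) :: List.ofFn fun i => (z i, q.2 i))) =
      (fun q : P × (Fin (n + 1) → ℝ) =>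
        F q.1 (List.ofFn fun i => ((Fin.cons x z : Fin (n + 1) → Z2) i, q.2 i))) ∘
        fun q : (P × ℝ) × (Fin n → ℝ) => (q.1.1, (Fin.cons q.1.2 q.2 : Fin (n + 1) → ℝ)) := by
    funext q
    simp [Function.comp, List.ofFn_succ]
  rw [this]
  exact h2

/-- Joint measurability of the weights in the parameter and in time. -/
theorem MeasFam.W {n : ℕ} : ∀ {P : Type} [MeasurableSpace P] {F : P → Pth → ℝ≥0∞},
    MeasFam F → ∀ x : Z2, Measurable fun q : P × ℝ => WSQ.W n x q.2 (F q.1) := by
  induction n with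
  | zero =>
    intro P _ F hF x
    have h := hF 1 (fun _ => x)
    have hg : Measurable fun q : P × ℝ => (q.1, (fun _ : Fin 1 => q.2)) := by
      refine Measurable.prodMk (by fun_prop) ?_
      exact measurable_pi_lambda _ fun i => by fun_prop
    have h2 := h.comp hg
    have : (fun q : P × ℝ => WSQ.W 0 x q.2 (F q.1)) = (fun q : P × (Fin 1 → ℝ) =>
        F q.1 (List.ofFn fun i => ((fun _ => x) i, q.2 i))) ∘
        fun q : P × ℝ => (q.1, (fun _ : Fin 1 => q.2)) := by
      funext q
      simp [Function.comp, WSQ.W]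
    rw [this]
    exact h2
  | succ n ih =>
    intro P _ F hF x
    simp only [WSQ.W]
    refine Finset.measurable_sum _ fun e _ => ?_
    have h1 := ih (hF.cons x) (x + step e)
    -- function of (q, s)
    have h2 : Measurable fun r : (P × ℝ) × ℝ =>
        (if 0 ≤ r.2 ∧ r.2 ≤ r.1.2 then
          WSQ.W n (x + step e) (r.1.2 - r.2) (fun l => F r.1.1 ((x, r.2) :: l)) else 0) := by
      refine Measurable.ite ?_ ?_ measurable_const
      · refine MeasurableSet.inter ?_ ?_
        · exact measurableSet_le measurable_const measurable_snd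
        · exact measurableSet_le measurable_snd (by fun_prop)
      · have hg : Measurable fun r : (P × ℝ) × ℝ => ((r.1.1, r.2), r.1.2 - r.2) := by fun_prop
        exact h1.comp hg
    have h3 := h2.lintegral_prod_right' (ν := volume)
    have h4 : (fun q : P × ℝ => ∫⁻ s in Set.Icc (0 : ℝ) q.2,
        WSQ.W n (x + step e) (q.2 - s) (fun l => F q.1 ((x, s) :: l))) =
        fun q : P × ℝ => ∫⁻ s, (if 0 ≤ s ∧ s ≤ q.2 then
          WSQ.W n (x + step e) (q.2 - s) (fun l => F q.1 ((x, s) :: l)) else 0) := by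
      funext q
      rw [← lintegral_indicator measurableSet_Icc]
      refine lintegral_congr fun s => ?_
      simp only [Set.indicator, Set.mem_Icc]
    rw [h4]
    exact h3

theorem MeasF.W {F : Pth → ℝ≥0∞} (hF : MeasF F) (n : ℕ) (x : Z2) :
    Measurable fun t : ℝ => WSQ.W n x t F :=
  ((hF.fam (P := Unit)).W (n := n) x).comp (f := fun t : ℝ => ((), t)) (by fun_prop)

theorem MeasF.W_cons {F : Pth → ℝ≥0∞} (hF : MeasF F) (n : ℕ) (x y : Z2) (t : ℝ) :
    Measurable fun s : ℝ => WSQ.W n y (t - s) (fun l => F ((x, s) :: l)) :=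
  (((hF.fam (P := Unit)).cons x).W (n := n) y).comp
    (f := fun s : ℝ => (((), s), t - s)) (by fun_prop)

theorem MeasF.cons {F : Pth → ℝ≥0∞} (hF : MeasF F) (x : Z2) (s : ℝ) :
    MeasF (fun l => F ((x, s) :: l)) := by
  intro n z
  exact ((hF.fam (P := Unit)).cons x n z).comp (f := fun h : Fin n → ℝ => (((), s), h))
    (by fun_prop)

theorem W_add {F F' : Pth → ℝ≥0∞} (hF : MeasF F) (n : ℕ) : ∀ (x : Z2) (t : ℝ),
    WSQ.W n x t (fun l => F l + F' l) = WSQ.W n x t F + WSQ.W n x t F' := by
  induction n generalizing F F' with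
  | zero => intro x t; simp [WSQ.W]
  | succ n ih =>
    intro x t
    simp only [WSQ.W]
    rw [← Finset.sum_add_distrib]
    refine Finset.sum_congr rfl fun e _ => ?_
    rw [← lintegral_add_left (hF.W_cons n x (x + step e) t)]
    refine lintegral_congr fun s => ?_
    exact ih (hF.cons x s) (x + step e) (t - s)

/-- Additivity of `K`. -/
theorem K_add {F F' : Pth → ℝ≥0∞} (hF : MeasF F) (x : Z2) (t : ℝ) :
    K x t (fun l => F l + F' l) = K x t F + K x t F' := by
  unfold K
  rw [← mul_add, ← ENNReal.tsum_add]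
  congr 1
  exact tsum_congr fun n => W_add hF n x t

theorem W_zero_fun (n : ℕ) : ∀ (x : Z2) (t : ℝ), WSQ.W n x t (fun _ => 0) = 0 := by
  induction n with
  | zero => intro x t; simp [WSQ.W]
  | succ n ih => intro x t; simp [WSQ.W, ih]

theorem K_zero_fun (x : Z2) (t : ℝ) : K x t (fun _ => 0) = 0 := by
  simp [K, W_zero_fun]

theorem MeasF.add {F F' : Pth → ℝ≥0∞} (hF : MeasF F) (hF' : MeasF F') :
    MeasF (fun l => F l + F' l) := fun n z => (hF n z).add (hF' n z)

theorem MeasF.mul {F F' : Pth → ℝ≥0∞} (hF : MeasF F) (hF' : MeasF F') :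
    MeasF (fun l => F l * F' l) := fun n z => (hF n z).mul (hF' n z)

theorem MeasF.const (c : ℝ≥0∞) : MeasF (fun _ => c) := fun _ _ => measurable_const

/-- Finite additivity of `K`. -/
theorem K_finsum {ι : Type*} (s : Finset ι) (F : ι → Pth → ℝ≥0∞) (hF : ∀ i ∈ s, MeasF (F i))
    (x : Z2) (t : ℝ) : K x t (fun l => ∑ i ∈ s, F i l) = ∑ i ∈ s, K x t (F i) := by
  classical
  induction s using Finset.induction_on with
  | empty => simp [K_zero_fun]
  | insert a s ha ih =>
    have h1 : (fun l => ∑ i ∈ insert a s, F i l) = fun l => F a l + ∑ i ∈ s, F i l := by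
      funext l; rw [Finset.sum_insert ha]
    rw [h1, K_add (hF a (Finset.mem_insert_self _ _)), Finset.sum_insert ha,
      ih fun i hi => hF i (Finset.mem_insert_of_mem hi)]

/-- Occupation of a fixed-site list is measurable in the holding times. -/
theorem measurable_occ (n : ℕ) (z : Fin n → Z2) (x : Z2) :
    Measurable fun h : Fin n → ℝ => occ (List.ofFn fun i => (z i, h i)) x := by
  have : (fun h : Fin n → ℝ => occ (List.ofFn fun i => (z i, h i)) x) =
      fun h => ∑ i, if z i = x then h i else 0 := by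
    funext h
    simp [occ, List.map_ofFn, List.sum_ofFn]
  rw [this]
  refine Finset.measurable_sum _ fun i _ => ?_
  split_ifs
  · exact measurable_pi_apply i
  · exact measurable_const

/-- Indicators of conditions on (sites visited, occupation). -/
theorem MeasF.ind_occ (p : List Z2 → Prop) (q : (Z2 → ℝ) → Prop)
    (hq : MeasurableSet {g : Z2 → ℝ | q g}) :
    MeasF (ind fun l => p (l.map Prod.fst) ∧ q (occ l)) := by
  classical
  intro n z
  unfold ind
  refine Measurable.ite ?_ measurable_const measurable_const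
  by_cases hp : p (List.ofFn z)
  · have : {h : Fin n → ℝ | p ((List.ofFn fun i => (z i, h i)).map Prod.fst) ∧
        q (occ (List.ofFn fun i => (z i, h i)))} =
        (fun h : Fin n → ℝ => occ (List.ofFn fun i => (z i, h i))) ⁻¹' {g | q g} := by
      ext h
      simp only [Set.mem_setOf_eq, Set.mem_preimage, List.map_ofFn, Function.comp_def]
      exact ⟨fun h => h.2, fun h => ⟨hp, h⟩⟩
    rw [this]
    exact (measurable_pi_lambda _ fun x => measurable_occ n z x) hq
  · have : {h : Fin n → ℝ | p ((List.ofFn fun i => (z i, h i)).map Prod.fst) ∧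
        q (occ (List.ofFn fun i => (z i, h i)))} = ∅ := by
      ext h
      simp only [Set.mem_setOf_eq, List.map_ofFn, Function.comp_def, Set.mem_empty_iff_false,
        iff_false, not_and]
      intro hh; exact absurd hh hp
    rw [this]
    exact MeasurableSet.empty

/-- Exponential weights are measurable. -/
theorem MeasF.expw (V : Z2 → ℝ) :
    MeasF (fun l => ENNReal.ofReal (Real.exp ((l.map fun p => V p.1 * p.2).sum))) := by
  intro n z
  have : (fun h : Fin n → ℝ => ((List.ofFn fun i => (z i, h i)).map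
      fun p : Z2 × ℝ => V p.1 * p.2).sum) = fun h => ∑ i, V (z i) * h i := by
    funext h
    simp [List.map_ofFn, List.sum_ofFn, Function.comp_def]
  refine ENNReal.measurable_ofReal.comp (Real.measurable_exp.comp ?_)
  rw [this]
  fun_prop

theorem MeasF.fk (G : Finset Z2) (V : Z2 → ℝ) (y : Z2) : MeasF (WSQ.fk G V y) := by
  refine MeasF.mul ?_ (MeasF.expw V)
  have h := MeasF.ind_occ (fun zs => (∀ z ∈ zs, z ∈ G) ∧ zs.getLast? = some y) (fun _ => True)
    (by simp)
  have h2 : (ind fun l : Pth => (∀ p ∈ l, p.1 ∈ G) ∧ (l.getLast?.map Prod.fst) = some y) =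
      ind fun l : Pth => ((∀ z ∈ l.map Prod.fst, z ∈ G) ∧
        (l.map Prod.fst).getLast? = some y) ∧ True := by
    funext l
    unfold ind
    congr 1
    simp [List.getLast?_map]
  rw [h2]
  exact h

end Pool.Agent.WSQ
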