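import Pool.Agent.WSQ.Defs
import Pool.Agent.WSQ.Meas

/-!
# Module A2: Feynman-Kac bounds
-/

open MeasureTheory ProbabilityTheory Filter Topology
open scoped ENNReal BigOperators

namespace Pool.Agent.WSQ

namespace FK

/-! ### Manipulation of the weights -/

theorem W_congr {F F' : Pth → ℝ≥0∞} (h : ∀ l, l ≠ [] → F l = F' l) (n : ℕ) :
    ∀ (x : Z2) (t : ℝ), W n x t F = W n x t F' := by
  induction n generalizing F F' with
  | zero => intro x t; simp only [W]; exact h _ (by simp)
  | succ n ih =>
    intro x t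
    simp only [W]
    refine Finset.sum_congr rfl fun e _ => ?_
    refine lintegral_congr fun s => ?_
    exact ih (fun l _ => h _ (by simp)) _ _

theorem W_const_mul {c : ℝ≥0∞} (hc : c ≠ ∞) (n : ℕ) : ∀ (F : Pth → ℝ≥0∞) (x : Z2) (t : ℝ),
    W n x t (fun l => c * F l) = c * W n x t F := by
  induction n with
  | zero => intro F x t; simp only [W]
  | succ n ih =>
    intro F x t
    simp only [W]
    rw [Finset.mul_sum]
    refine Finset.sum_congr rfl fun e _ => ?_
    rw [← lintegral_const_mul' _ _ hc]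
    refine lintegral_congr fun s => ?_
    exact ih _ _ _

/-- The factor of a first visit. -/
noncomputable def cf (G : Finset Z2) (V : Z2 → ℝ) (x : Z2) (s : ℝ) : ℝ≥0∞ :=
  if x ∈ G then ENNReal.ofReal (Real.exp (V x * s)) else 0

theorem cf_ne_top (G : Finset Z2) (V : Z2 → ℝ) (x : Z2) (s : ℝ) : cf G V x s ≠ ∞ := by
  unfold cf
  split_ifs
  · exact ENNReal.ofReal_ne_top
  · exact ENNReal.zero_ne_top

theorem fk_cons (G : Finset Z2) (V : Z2 → ℝ) (y x : Z2) (s : ℝ) (l : Pth) (hl : l ≠ []) :
    fk G V y ((x, s) :: l) = cf G V x s * fk G V y l := by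
  unfold fk ind cf
  obtain ⟨a, l', rfl⟩ := List.exists_cons_of_ne_nil hl
  have h1 : ((x, s) :: a :: l').getLast? = (a :: l').getLast? := by
    simp [List.getLast?_cons_cons]
  by_cases hx : x ∈ G
  · by_cases hp : (∀ p ∈ a :: l', p.1 ∈ G) ∧ Option.map Prod.fst (a :: l').getLast? = some y
    · have hp2 : (∀ p ∈ (x, s) :: a :: l', p.1 ∈ G) ∧
          Option.map Prod.fst ((x, s) :: a :: l').getLast? = some y := by
        refine ⟨?_, by rw [h1]; exact hp.2⟩
        intro p hpm
        rcases List.mem_cons.1 hpm with rfl | h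
        · exact hx
        · exact hp.1 p h
      rw [if_pos hp2, if_pos hx, if_pos hp, one_mul, one_mul, ← ENNReal.ofReal_mul
        (Real.exp_pos _).le, ← Real.exp_add]
      simp
    · have hp2 : ¬ ((∀ p ∈ (x, s) :: a :: l', p.1 ∈ G) ∧
          Option.map Prod.fst ((x, s) :: a :: l').getLast? = some y) := by
        rintro ⟨h2, h3⟩
        exact hp ⟨fun p hpm => h2 p (List.mem_cons_of_mem _ hpm), by rw [← h1]; exact h3⟩
      rw [if_neg hp2, if_neg hp]
      simp
  · have hp2 : ¬ ((∀ p ∈ (x, s) :: a :: l', p.1 ∈ G) ∧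
          Option.map Prod.fst ((x, s) :: a :: l').getLast? = some y) := by
      rintro ⟨h2, _⟩
      exact hx (h2 (x, s) (by simp))
    rw [if_neg hp2, if_neg hx]
    simp

theorem wk_zero (G : Finset Z2) (V : Z2 → ℝ) (y x : Z2) (t : ℝ) :
    W 0 x t (fk G V y) = cf G V x t * (if x = y then 1 else 0) := by
  simp only [W]
  unfold fk ind cf
  by_cases hx : x ∈ G
  · by_cases hxy : x = y
    · subst hxy
      simp [hx]
    · simp [hx, hxy]
  · simp [hx]

theorem wk_succ (G : Finset Z2) (V : Z2 → ℝ) (y x : Z2) (n : ℕ) (t : ℝ) :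
    W (n + 1) x t (fk G V y) = ∑ e : Fin 4, ∫⁻ s in Set.Icc (0 : ℝ) t,
      cf G V x s * W n (x + step e) (t - s) (fk G V y) := by
  simp only [W]
  refine Finset.sum_congr rfl fun e _ => ?_
  refine lintegral_congr fun s => ?_
  rw [← W_const_mul (cf_ne_top G V x s)]
  exact W_congr (fun l hl => fk_cons G V y x s l hl) n _ _

theorem wk_notin (G : Finset Z2) (V : Z2 → ℝ) (y x : Z2) (hx : x ∉ G) (n : ℕ) (t : ℝ) :
    W n x t (fk G V y) = 0 := by
  cases n with
  | zero => rw [wk_zero]; simp [cf, hx]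
  | succ n => rw [wk_succ]; simp [cf, hx]

/-- The total Feynman-Kac kernel (without the factor `e^{-4t}`). -/
noncomputable def U (G : Finset Z2) (V : Z2 → ℝ) (y x : Z2) (t : ℝ) : ℝ≥0∞ :=
  ∑' n, W n x t (fk G V y)

theorem measurable_W (G : Finset Z2) (V : Z2 → ℝ) (y x : Z2) (n : ℕ) :
    Measurable fun t => W n x t (fk G V y) := (MeasF.fk G V y).W n x

theorem measurable_U (G : Finset Z2) (V : Z2 → ℝ) (y x : Z2) :
    Measurable fun t => U G V y x t :=
  Measurable.ennreal_tsum fun n => measurable_W G V y x n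

theorem measurable_cf (G : Finset Z2) (V : Z2 → ℝ) (x : Z2) :
    Measurable fun t => cf G V x t := by
  unfold cf
  split_ifs
  · fun_prop
  · exact measurable_const

/-- Reversal of the time integration. -/
theorem lint_rev (f g : ℝ → ℝ≥0∞) (t : ℝ) :
    ∫⁻ s in Set.Icc (0 : ℝ) t, f s * g (t - s) =
      ∫⁻ r in Set.Icc (0 : ℝ) t, f (t - r) * g r := by
  rw [← lintegral_indicator measurableSet_Icc, ← lintegral_indicator measurableSet_Icc,
    ← lintegral_sub_left_eq_self _ t]
  refine lintegral_congr fun s => ?_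
  by_cases hs : s ∈ Set.Icc (0 : ℝ) t
  · have h2 : t - s ∈ Set.Icc (0 : ℝ) t := by
      constructor <;> [linarith [hs.2]; linarith [hs.1]]
    rw [Set.indicator_of_mem hs, Set.indicator_of_mem h2]
    simp
  · have h2 : t - s ∉ Set.Icc (0 : ℝ) t := by
      intro h
      exact hs ⟨by linarith [h.2], by linarith [h.1]⟩
    rw [Set.indicator_of_notMem hs, Set.indicator_of_notMem h2]

theorem U_eq (G : Finset Z2) (V : Z2 → ℝ) (y x : Z2) (t : ℝ) :
    U G V y x t = cf G V x t * (if x = y then 1 else 0) + ∑ e : Fin 4,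
      ∫⁻ r in Set.Icc (0 : ℝ) t, cf G V x (t - r) * U G V y (x + step e) r := by
  unfold U
  rw [tsum_eq_zero_add' ENNReal.summable, wk_zero]
  congr 1
  have h1 : ∀ n, W (n + 1) x t (fk G V y) = ∑ e : Fin 4, ∫⁻ r in Set.Icc (0 : ℝ) t,
      cf G V x (t - r) * W n (x + step e) r (fk G V y) := by
    intro n
    rw [wk_succ]
    refine Finset.sum_congr rfl fun e _ => ?_
    exact lint_rev (fun s => cf G V x s) (fun r => W n (x + step e) r (fk G V y)) t
  rw [tsum_congr h1, Summable.tsum_finsetSum fun _ _ => ENNReal.summable]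
  refine Finset.sum_congr rfl fun e _ => ?_
  rw [← lintegral_tsum]
  · refine lintegral_congr fun r => ?_
    rw [ENNReal.tsum_mul_left]
  · intro n
    refine Measurable.aemeasurable ?_
    refine Measurable.mul ?_ (measurable_W G V y _ n)
    exact (measurable_cf G V x).comp (by fun_prop)


/-! ### Finiteness -/

/-- A bound for the potential on `G`. -/
noncomputable def vb (G : Finset Z2) (V : Z2 → ℝ) : ℝ := ∑ x ∈ G, |V x|

theorem vb_nonneg (G : Finset Z2) (V : Z2 → ℝ) : 0 ≤ vb G V :=
  Finset.sum_nonneg fun _ _ => abs_nonneg _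

theorem abs_le_vb (G : Finset Z2) (V : Z2 → ℝ) {x : Z2} (hx : x ∈ G) : |V x| ≤ vb G V :=
  Finset.single_le_sum (f := fun x => |V x|) (fun _ _ => abs_nonneg _) hx

theorem cf_le (G : Finset Z2) (V : Z2 → ℝ) (x : Z2) (s : ℝ) :
    cf G V x s ≤ ENNReal.ofReal (Real.exp (vb G V * |s|)) := by
  unfold cf
  split_ifs with hx
  · refine ENNReal.ofReal_le_ofReal (Real.exp_le_exp.2 ?_)
    calc V x * s ≤ |V x * s| := le_abs_self _
      _ = |V x| * |s| := abs_mul _ _
      _ ≤ vb G V * |s| := mul_le_mul_of_nonneg_right (abs_le_vb G V hx) (abs_nonneg _)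
  · exact zero_le

theorem W_bound (G : Finset Z2) (V : Z2 → ℝ) (y : Z2) (n : ℕ) : ∀ (x : Z2) (t : ℝ), 0 ≤ t →
    W n x t (fk G V y) ≤
      ENNReal.ofReal (Real.exp (vb G V * t) * ((4 * t) ^ n / (n.factorial : ℝ))) := by
  induction n with
  | zero =>
    intro x t ht
    rw [wk_zero]
    have h1 := cf_le G V x t
    rw [abs_of_nonneg ht] at h1
    simp only [pow_zero, Nat.factorial_zero, Nat.cast_one, div_one, mul_one]
    split_ifs
    · simpa using h1
    · simp
  | succ n ih =>
    intro x t ht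
    rw [wk_succ]
    have hv := vb_nonneg G V
    have h1 : ∀ e : Fin 4, ∫⁻ s in Set.Icc (0 : ℝ) t, cf G V x s *
        W n (x + step e) (t - s) (fk G V y) ≤ ENNReal.ofReal (Real.exp (vb G V * t) *
          (4 ^ n * t ^ (n + 1) / ((n + 1).factorial : ℝ))) := by
      intro e
      have h2 : ∫⁻ s in Set.Icc (0 : ℝ) t, cf G V x s *
          W n (x + step e) (t - s) (fk G V y) ≤ ∫⁻ s in Set.Icc (0 : ℝ) t,
            ENNReal.ofReal (Real.exp (vb G V * t) * ((4 * (t - s)) ^ n / (n.factorial : ℝ))) := by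
        refine setLIntegral_mono' measurableSet_Icc fun s hs => ?_
        have h3 := cf_le G V x s
        rw [abs_of_nonneg hs.1] at h3
        refine (mul_le_mul' h3 (ih (x + step e) (t - s) (by linarith [hs.2]))).trans ?_
        rw [← ENNReal.ofReal_mul (Real.exp_pos _).le, ← mul_assoc, ← Real.exp_add]
        refine le_of_eq ?_
        congr 3
        ring_nf
      refine h2.trans ?_
      have hcont : Continuous fun s : ℝ =>
          Real.exp (vb G V * t) * ((4 * (t - s)) ^ n / (n.factorial : ℝ)) := by fun_prop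
      rw [← ofReal_integral_eq_lintegral_ofReal]
      · refine ENNReal.ofReal_le_ofReal (le_of_eq ?_)
        rw [integral_Icc_eq_integral_Ioc, ← intervalIntegral.integral_of_le ht,
          intervalIntegral.integral_const_mul, intervalIntegral.integral_div]
        congr 1
        have h4 : (fun s : ℝ => (4 * (t - s)) ^ n) = fun s => (4 : ℝ) ^ n * (t - s) ^ n := by
          funext s; rw [mul_pow]
        rw [h4, intervalIntegral.integral_const_mul,
          intervalIntegral.integral_comp_sub_left (fun s => s ^ n) t, sub_self, sub_zero,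
          integral_pow, Nat.factorial_succ]
        have h5 : (n.factorial : ℝ) ≠ 0 := by positivity
        push_cast
        field_simp
        simp
      · exact (hcont.continuousOn).integrableOn_compact isCompact_Icc
      · refine (ae_restrict_iff' measurableSet_Icc).2 (Filter.Eventually.of_forall fun s hs => ?_)
        have : 0 ≤ t - s := by linarith [hs.2]
        positivity
    refine (Finset.sum_le_sum fun e _ => h1 e).trans ?_
    rw [Finset.sum_const, Finset.card_univ, Fintype.card_fin, nsmul_eq_mul,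
      show ((4 : ℕ) : ℝ≥0∞) = ENNReal.ofReal 4 by simp, ← ENNReal.ofReal_mul (by norm_num)]
    refine ENNReal.ofReal_le_ofReal (le_of_eq ?_)
    rw [mul_pow, pow_succ]
    ring

theorem W_neg (F : Pth → ℝ≥0∞) (n : ℕ) (x : Z2) (t : ℝ) (ht : t < 0) :
    W (n + 1) x t F = 0 := by
  simp only [W]
  refine Finset.sum_eq_zero fun e _ => ?_
  rw [Set.Icc_eq_empty (by linarith)]
  simp

theorem U_le (G : Finset Z2) (V : Z2 → ℝ) (y x : Z2) (t : ℝ) :
    U G V y x t ≤ ENNReal.ofReal (Real.exp ((vb G V + 4) * |t|)) := by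
  have hv := vb_nonneg G V
  rcases le_or_gt 0 t with ht | ht
  · rw [abs_of_nonneg ht]
    refine (ENNReal.tsum_le_tsum fun n => W_bound G V y n x t ht).trans ?_
    have hs : HasSum (fun n : ℕ => Real.exp (vb G V * t) * ((4 * t) ^ n / (n.factorial : ℝ)))
        (Real.exp (vb G V * t) * Real.exp (4 * t)) := by
      refine HasSum.mul_left _ ?_
      have := NormedSpace.exp_series_hasSum_exp' (𝕂 := ℝ) (4 * t)
      rw [← Real.exp_eq_exp_ℝ] at this
      simpa [div_eq_inv_mul] using this
    rw [← ENNReal.ofReal_tsum_of_nonneg (fun n => by positivity) hs.summable, hs.tsum_eq,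
      ← Real.exp_add]
    refine ENNReal.ofReal_le_ofReal (Real.exp_le_exp.2 ?_)
    ring_nf
    exact le_refl _
  · unfold U
    rw [tsum_eq_zero_add' ENNReal.summable, wk_zero]
    have h1 : ∀ n, W (n + 1) x t (fk G V y) = 0 := fun n => W_neg _ n x t ht
    simp only [h1, tsum_zero, add_zero]
    have h2 : cf G V x t * (if x = y then 1 else 0) ≤ cf G V x t := by
      split_ifs <;> simp
    refine h2.trans ((cf_le G V x t).trans ?_)
    refine ENNReal.ofReal_le_ofReal (Real.exp_le_exp.2 ?_)
    have := abs_nonneg t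
    nlinarith

theorem U_ne_top (G : Finset Z2) (V : Z2 → ℝ) (y x : Z2) (t : ℝ) : U G V y x t ≠ ∞ :=
  ((U_le G V y x t).trans_lt ENNReal.ofReal_lt_top).ne

/-! ### The real kernel and its differential equation -/

/-- Real kernel. -/
noncomputable def p (G : Finset Z2) (V : Z2 → ℝ) (y x : Z2) (t : ℝ) : ℝ := (U G V y x t).toReal

theorem p_le (G : Finset Z2) (V : Z2 → ℝ) (y x : Z2) (t : ℝ) :
    p G V y x t ≤ Real.exp ((vb G V + 4) * |t|) :=
  ENNReal.toReal_le_of_le_ofReal (Real.exp_pos _).le (U_le G V y x t)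

theorem p_nonneg (G : Finset Z2) (V : Z2 → ℝ) (y x : Z2) (t : ℝ) : 0 ≤ p G V y x t :=
  ENNReal.toReal_nonneg

theorem p_notin (G : Finset Z2) (V : Z2 → ℝ) (y x : Z2) (hx : x ∉ G) (t : ℝ) :
    p G V y x t = 0 := by
  unfold p U
  simp [wk_notin G V y x hx]

/-- The integrand of the renewal equation. -/
noncomputable def gi (G : Finset Z2) (V : Z2 → ℝ) (y x z : Z2) (r : ℝ) : ℝ :=
  Real.exp (-(V x * r)) * p G V y z r

theorem gi_intervalIntegrable (G : Finset Z2) (V : Z2 → ℝ) (y x z : Z2) (a b : ℝ) :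
    IntervalIntegrable (gi G V y x z) volume a b := by
  have hc : Continuous fun r : ℝ => Real.exp (-(V x * r)) * Real.exp ((vb G V + 4) * |r|) := by
    fun_prop
  refine (hc.intervalIntegrable a b).mono_fun' ?_ ?_
  · refine Measurable.aestronglyMeasurable ?_
    exact Measurable.mul (by fun_prop) (measurable_U G V y z).ennreal_toReal
  · refine Filter.Eventually.of_forall fun r => ?_
    change ‖Real.exp (-(V x * r)) * p G V y z r‖ ≤
      Real.exp (-(V x * r)) * Real.exp ((vb G V + 4) * |r|)
    rw [Real.norm_eq_abs, abs_mul, abs_of_pos (Real.exp_pos _),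
      abs_of_nonneg (p_nonneg G V y z r)]
    exact mul_le_mul_of_nonneg_left (p_le G V y z r) (Real.exp_pos _).le

theorem p_eq (G : Finset Z2) (V : Z2 → ℝ) (y x : Z2) (hx : x ∈ G) (t : ℝ) (ht : 0 ≤ t) :
    p G V y x t = Real.exp (V x * t) * ((if x = y then 1 else 0) +
      ∑ e : Fin 4, ∫ r in (0 : ℝ)..t, gi G V y x (x + step e) r) := by
  have hcf : ∀ s, cf G V x s = ENNReal.ofReal (Real.exp (V x * s)) := fun s => by
    unfold cf; rw [if_pos hx]
  have hfin : ∀ e : Fin 4, ∫⁻ r in Set.Icc (0 : ℝ) t,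
      cf G V x (t - r) * U G V y (x + step e) r ≠ ∞ := by
    intro e h
    have h1 := U_ne_top G V y x t
    rw [U_eq] at h1
    apply h1
    rw [ENNReal.add_eq_top]
    right
    exact ENNReal.sum_eq_top.2 ⟨e, Finset.mem_univ _, h⟩
  have hint : ∀ e : Fin 4, (∫⁻ r in Set.Icc (0 : ℝ) t,
      cf G V x (t - r) * U G V y (x + step e) r).toReal =
      Real.exp (V x * t) * ∫ r in (0 : ℝ)..t, gi G V y x (x + step e) r := by
    intro e
    rw [← integral_toReal]
    · rw [integral_Icc_eq_integral_Ioc, ← intervalIntegral.integral_of_le ht,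
        ← intervalIntegral.integral_const_mul]
      refine intervalIntegral.integral_congr fun r _ => ?_
      unfold gi p
      rw [hcf]
      rw [ENNReal.toReal_mul, ENNReal.toReal_ofReal (Real.exp_pos _).le, ← mul_assoc,
        ← Real.exp_add]
      congr 2
      ring
    · refine Measurable.aemeasurable ?_
      refine Measurable.mul ?_ (measurable_U G V y _)
      exact (measurable_cf G V x).comp (by fun_prop)
    · refine Filter.Eventually.of_forall fun r => ?_
      exact ENNReal.mul_lt_top (cf_ne_top G V x _).lt_top (U_ne_top G V y _ _).lt_top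
  unfold p
  rw [U_eq, ENNReal.toReal_add, ENNReal.toReal_sum (fun e _ => hfin e), ENNReal.toReal_mul]
  · simp only [hint]
    rw [← Finset.mul_sum, mul_add, hcf, ENNReal.toReal_ofReal (Real.exp_pos _).le]
    congr 2
    split_ifs <;> simp
  · refine ENNReal.mul_ne_top (cf_ne_top G V x _) ?_
    split_ifs <;> simp
  · exact ENNReal.sum_ne_top.2 fun e _ => hfin e

theorem p_zero (G : Finset Z2) (V : Z2 → ℝ) (y x : Z2) (hx : x ∈ G) :
    p G V y x 0 = if x = y then 1 else 0 := by
  rw [p_eq G V y x hx 0 le_rfl]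
  simp

theorem p_continuousOn (G : Finset Z2) (V : Z2 → ℝ) (y x : Z2) :
    ContinuousOn (fun t => p G V y x t) (Set.Ici 0) := by
  by_cases hx : x ∈ G
  · have hc : Continuous fun t : ℝ => Real.exp (V x * t) * ((if x = y then 1 else 0) +
        ∑ e : Fin 4, ∫ r in (0 : ℝ)..t, gi G V y x (x + step e) r) := by
      refine Continuous.mul (by fun_prop) (continuous_const.add ?_)
      refine continuous_finsetSum _ fun e _ => ?_
      exact intervalIntegral.continuous_primitive
        (fun a b => gi_intervalIntegrable G V y x (x + step e) a b) 0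
    exact hc.continuousOn.congr fun t ht => p_eq G V y x hx t ht
  · have : (fun t => p G V y x t) = fun _ => 0 := by
      funext t; exact p_notin G V y x hx t
    rw [this]
    exact continuousOn_const

theorem p_hasDerivAt (G : Finset Z2) (V : Z2 → ℝ) (y x : Z2) (hx : x ∈ G) (t : ℝ)
    (ht : 0 < t) : HasDerivAt (fun t => p G V y x t)
      (V x * p G V y x t + ∑ e : Fin 4, p G V y (x + step e) t) t := by
  have hcont : ∀ z, ContinuousAt (fun t => p G V y z t) t := fun z =>
    (p_continuousOn G V y z).continuousAt (Ici_mem_nhds ht)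
  have hd : ∀ e : Fin 4, HasDerivAt (fun t => ∫ r in (0 : ℝ)..t, gi G V y x (x + step e) r)
      (gi G V y x (x + step e) t) t := by
    intro e
    refine intervalIntegral.integral_hasDerivAt_right
      (gi_intervalIntegrable G V y x (x + step e) 0 t) ?_ ?_
    · have hm : Measurable (gi G V y x (x + step e)) :=
        Measurable.mul (by fun_prop) (measurable_U G V y _).ennreal_toReal
      exact hm.stronglyMeasurable.stronglyMeasurableAtFilter
    · unfold gi
      exact ContinuousAt.mul (by fun_prop) (hcont _)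
  have h1 : HasDerivAt (fun t : ℝ => Real.exp (V x * t) * ((if x = y then 1 else 0) +
      ∑ e : Fin 4, ∫ r in (0 : ℝ)..t, gi G V y x (x + step e) r))
      (Real.exp (V x * t) * V x * ((if x = y then 1 else 0) +
        ∑ e : Fin 4, ∫ r in (0 : ℝ)..t, gi G V y x (x + step e) r) +
        Real.exp (V x * t) * (∑ e : Fin 4, gi G V y x (x + step e) t)) t := by
    refine HasDerivAt.mul ?_ ?_
    · have := ((hasDerivAt_id t).const_mul (V x)).exp
      simpa using this
    · have := (HasDerivAt.fun_sum (u := Finset.univ) fun e _ => hd e).const_add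
        (if x = y then (1 : ℝ) else 0)
      simpa using this
  have h2 : (fun t => p G V y x t) =ᶠ[𝓝 t] (fun t : ℝ => Real.exp (V x * t) *
      ((if x = y then 1 else 0) +
        ∑ e : Fin 4, ∫ r in (0 : ℝ)..t, gi G V y x (x + step e) r)) := by
    filter_upwards [Ioi_mem_nhds ht] with s hs
    exact p_eq G V y x hx s (le_of_lt hs)
  refine (h1.congr_of_eventuallyEq h2).congr_deriv ?_
  rw [p_eq G V y x hx t ht.le]
  unfold gi
  rw [Finset.mul_sum]
  have h3 : ∀ e : Fin 4, Real.exp (V x * t) * (Real.exp (-(V x * t)) *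
      p G V y (x + step e) t) = p G V y (x + step e) t := by
    intro e
    rw [← mul_assoc, ← Real.exp_add]
    simp
  simp only [h3]
  ring


/-! ### Energy estimates -/

/-- The kernel with the factor `e^{-4t}`. -/
noncomputable def q (G : Finset Z2) (V : Z2 → ℝ) (y x : Z2) (t : ℝ) : ℝ :=
  Real.exp (-4 * t) * p G V y x t

theorem K_eq (G : Finset Z2) (V : Z2 → ℝ) (y x : Z2) (t : ℝ) :
    K x t (fk G V y) = ENNReal.ofReal (q G V y x t) := by
  unfold K q
  rw [ENNReal.ofReal_mul (Real.exp_pos _).le]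
  congr 1
  unfold p
  rw [ENNReal.ofReal_toReal (U_ne_top G V y x t)]
  rfl

theorem q_notin (G : Finset Z2) (V : Z2 → ℝ) (y x : Z2) (hx : x ∉ G) (t : ℝ) :
    q G V y x t = 0 := by
  unfold q; rw [p_notin G V y x hx]; simp

theorem q_zero (G : Finset Z2) (V : Z2 → ℝ) (y x : Z2) (hx : x ∈ G) :
    q G V y x 0 = if x = y then 1 else 0 := by
  unfold q; rw [p_zero G V y x hx]; simp

theorem q_continuousOn (G : Finset Z2) (V : Z2 → ℝ) (y x : Z2) :
    ContinuousOn (fun t => q G V y x t) (Set.Ici 0) := by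
  unfold q
  exact ContinuousOn.mul (by fun_prop) (p_continuousOn G V y x)

theorem q_hasDerivAt (G : Finset Z2) (V : Z2 → ℝ) (y x : Z2) (hx : x ∈ G) (t : ℝ)
    (ht : 0 < t) : HasDerivAt (fun t => q G V y x t) (opA G V (fun z => q G V y z t) x) t := by
  have h1 : HasDerivAt (fun t : ℝ => Real.exp (-4 * t)) (Real.exp (-4 * t) * (-4)) t := by
    have := ((hasDerivAt_id t).const_mul (-4 : ℝ)).exp
    simpa using this
  refine (h1.mul (p_hasDerivAt G V y x hx t ht)).congr_deriv ?_
  unfold opA
  have h2 : ∀ e : Fin 4, (if x + step e ∈ G then q G V y (x + step e) t else 0) =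
      Real.exp (-4 * t) * p G V y (x + step e) t := by
    intro e
    split_ifs with h
    · rfl
    · rw [p_notin G V y _ h, mul_zero]
  simp only [h2]
  rw [← Finset.mul_sum]
  unfold q
  ring

/-- Energy estimate. -/
theorem energy (G : Finset Z2) (V : Z2 → ℝ) (c : ℝ) (h : Z2 → ℝ → ℝ)
    (hc : ∀ x ∈ G, ContinuousOn (h x) (Set.Ici 0))
    (hd : ∀ x ∈ G, ∀ t, 0 < t → HasDerivAt (h x) (opA G V (fun z => h z t) x) t)
    (hq : ∀ t, 0 < t → Q G V (fun z => h z t) ≤ c * nsq G (fun z => h z t)) (t : ℝ)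
    (ht : 0 ≤ t) :
    nsq G (fun z => h z t) ≤ Real.exp (2 * c * t) * nsq G (fun z => h z 0) := by
  have hD : ∀ t, 0 < t → HasDerivAt (fun t => Real.exp (-(2 * c * t)) * nsq G (fun z => h z t))
      (Real.exp (-(2 * c * t)) * (2 * (Q G V (fun z => h z t) - c * nsq G (fun z => h z t)))) t := by
    intro t ht
    have h1 : HasDerivAt (fun t : ℝ => Real.exp (-(2 * c * t)))
        (Real.exp (-(2 * c * t)) * (-(2 * c))) t := by
      have := (((hasDerivAt_id t).const_mul (2 * c)).neg).exp
      simpa using this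
    have h2 : HasDerivAt (fun t => nsq G (fun z => h z t)) (2 * Q G V (fun z => h z t)) t := by
      unfold nsq Q
      have := HasDerivAt.fun_sum (u := G) fun x hx => (hd x hx t ht).pow 2
      refine this.congr_deriv ?_
      rw [Finset.mul_sum]
      refine Finset.sum_congr rfl fun x _ => ?_
      simp
      ring
    refine (h1.mul h2).congr_deriv ?_
    ring
  have hanti : AntitoneOn (fun t => Real.exp (-(2 * c * t)) * nsq G (fun z => h z t))
      (Set.Ici 0) := by
    refine antitoneOn_of_deriv_nonpos (convex_Ici 0) ?_ ?_ ?_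
    · refine ContinuousOn.mul (by fun_prop) ?_
      unfold nsq
      exact continuousOn_finsetSum _ fun x hx => (hc x hx).pow 2
    · intro t ht
      rw [interior_Ici] at ht
      exact (hD t ht).differentiableAt.differentiableWithinAt
    · intro t ht
      rw [interior_Ici] at ht
      rw [(hD t ht).deriv]
      have h3 := hq t ht
      have h4 := Real.exp_pos (-(2 * c * t))
      nlinarith
  have h5 := hanti (Set.mem_Ici.2 le_rfl) (Set.mem_Ici.2 ht) ht
  simp only [mul_zero, neg_zero, Real.exp_zero, one_mul] at h5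
  have h6 := mul_le_mul_of_nonneg_left h5 (Real.exp_pos (2 * c * t)).le
  rw [← mul_assoc, ← Real.exp_add, add_neg_cancel, Real.exp_zero, one_mul] at h6
  exact h6

theorem sq_le_nsq (G : Finset Z2) (f : Z2 → ℝ) {x : Z2} (hx : x ∈ G) : f x ^ 2 ≤ nsq G f :=
  Finset.single_le_sum (f := fun x => f x ^ 2) (fun _ _ => sq_nonneg _) hx

theorem nsq_delta (G : Finset Z2) (y : Z2) (hy : y ∈ G) :
    nsq G (fun x => if x = y then 1 else 0) = 1 := by
  unfold nsq
  simp [hy]

theorem nsq_congr (G : Finset Z2) (f g : Z2 → ℝ) (h : ∀ x ∈ G, f x = g x) :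
    nsq G f = nsq G g :=
  Finset.sum_congr rfl fun x hx => by rw [h x hx]

/-- Symmetry of the operator. -/
theorem opA_symm (G : Finset Z2) (V : Z2 → ℝ) (f g : Z2 → ℝ) :
    ∑ x ∈ G, f x * opA G V g x = ∑ x ∈ G, opA G V f x * g x := by
  have key : ∀ (v w : Z2), v + w = 0 → ∀ f g : Z2 → ℝ,
      ∑ x ∈ G, f x * (if x + v ∈ G then g (x + v) else 0) =
      ∑ x ∈ G, (if x + w ∈ G then f (x + w) else 0) * g x := by
    intro v w hvw f g
    have hw : w = -v := by
      rw [add_comm] at hvw
      exact eq_neg_of_add_eq_zero_left hvw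
    subst hw
    have h1 : ∑ x ∈ G, f x * (if x + v ∈ G then g (x + v) else 0) =
        ∑ x ∈ G.filter (fun x => x + v ∈ G), f x * g (x + v) := by
      rw [Finset.sum_filter]
      refine Finset.sum_congr rfl fun x _ => ?_
      split_ifs <;> simp
    have h2 : ∑ x ∈ G, (if x + -v ∈ G then f (x + -v) else 0) * g x =
        ∑ x ∈ G.filter (fun x => x + -v ∈ G), f (x + -v) * g x := by
      rw [Finset.sum_filter]
      refine Finset.sum_congr rfl fun x _ => ?_
      split_ifs <;> simp
    rw [h1, h2]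
    refine Finset.sum_nbij' (fun x => x + v) (fun x => x + -v) ?_ ?_ ?_ ?_ ?_
    · intro x hx
      simp only [Finset.mem_filter] at hx ⊢
      refine ⟨hx.2, ?_⟩
      simpa using hx.1
    · intro x hx
      simp only [Finset.mem_filter] at hx ⊢
      refine ⟨hx.2, ?_⟩
      simpa using hx.1
    · intro x _; simp
    · intro x _; simp
    · intro x _; simp
  have h01 : step 0 + step 1 = 0 := by simp [step]
  have h10 : step 1 + step 0 = 0 := by simp [step]
  have h23 : step 2 + step 3 = 0 := by simp [step]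
  have h32 : step 3 + step 2 = 0 := by simp [step]
  have e0 := key _ _ h01 f g
  have e1 := key _ _ h10 f g
  have e2 := key _ _ h23 f g
  have e3 := key _ _ h32 f g
  have hl : ∑ x ∈ G, f x * opA G V g x =
      (∑ x ∈ G, f x * (if x + step 0 ∈ G then g (x + step 0) else 0)) +
      (∑ x ∈ G, f x * (if x + step 1 ∈ G then g (x + step 1) else 0)) +
      (∑ x ∈ G, f x * (if x + step 2 ∈ G then g (x + step 2) else 0)) +
      (∑ x ∈ G, f x * (if x + step 3 ∈ G then g (x + step 3) else 0)) +
      ∑ x ∈ G, (V x - 4) * f x * g x := by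
    simp only [← Finset.sum_add_distrib]
    refine Finset.sum_congr rfl fun x _ => ?_
    unfold opA
    rw [Fin.sum_univ_four]
    ring
  have hr : ∑ x ∈ G, opA G V f x * g x =
      (∑ x ∈ G, (if x + step 0 ∈ G then f (x + step 0) else 0) * g x) +
      (∑ x ∈ G, (if x + step 1 ∈ G then f (x + step 1) else 0) * g x) +
      (∑ x ∈ G, (if x + step 2 ∈ G then f (x + step 2) else 0) * g x) +
      (∑ x ∈ G, (if x + step 3 ∈ G then f (x + step 3) else 0) * g x) +
      ∑ x ∈ G, (V x - 4) * f x * g x := by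
    simp only [← Finset.sum_add_distrib]
    refine Finset.sum_congr rfl fun x _ => ?_
    unfold opA
    rw [Fin.sum_univ_four]
    ring
  rw [hl, hr, e0, e1, e2, e3]
  ring

theorem Q_congr (G : Finset Z2) (V : Z2 → ℝ) (f g : Z2 → ℝ) (h : ∀ x ∈ G, f x = g x) :
    Q G V f = Q G V g := by
  unfold Q
  refine Finset.sum_congr rfl fun x hx => ?_
  rw [h x hx]
  congr 1
  unfold opA
  rw [h x hx]
  congr 2
  refine Finset.sum_congr rfl fun e _ => ?_
  split_ifs with h1
  · exact h _ h1
  · rfl

end FK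

open FK

/-- Upper bound: the kernel is at most `exp (Λ t)` if `Λ` bounds the Rayleigh quotient. -/
theorem fk_upper (G : Finset Z2) (V : Z2 → ℝ) (Λ : ℝ)
    (hΛ : ∀ g : Z2 → ℝ, Q G V g ≤ Λ * nsq G g) (x y : Z2) (hx : x ∈ G) (hy : y ∈ G)
    (t : ℝ) (ht : 0 ≤ t) :
    K x t (fk G V y) ≤ ENNReal.ofReal (Real.exp (Λ * t)) := by
  rw [K_eq]
  refine ENNReal.ofReal_le_ofReal ?_
  have h1 := energy G V Λ (fun x t => q G V y x t) (fun x _ => q_continuousOn G V y x)
    (fun x hx t ht => q_hasDerivAt G V y x hx t ht) (fun t _ => hΛ _) t ht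
  have h2 : nsq G (fun z => q G V y z 0) = 1 := by
    rw [nsq_congr G _ (fun x => if x = y then 1 else 0) fun z hz => q_zero G V y z hz,
      nsq_delta G y hy]
  simp only [h2, mul_one] at h1
  have h3 := (sq_le_nsq G (fun z => q G V y z t) hx).trans h1
  have h4 : Real.exp (2 * Λ * t) = Real.exp (Λ * t) ^ 2 := by
    rw [← Real.exp_nat_mul]; congr 1; push_cast; ring
  simp only [h4] at h3
  exact le_of_abs_le (abs_le_of_sq_le_sq h3 (Real.exp_pos _).le)

/-- Lower bound in presence of a spectral gap. -/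
theorem fk_lower (G : Finset Z2) (V : Z2 → ℝ) (lam gap : ℝ) (φ : Z2 → ℝ) (hφ : nsq G φ = 1)
    (hgap : 0 ≤ gap)
    (heig : ∀ x ∈ G, opA G V φ x = -lam * φ x)
    (hg : ∀ g : Z2 → ℝ, ∑ x ∈ G, φ x * g x = 0 → Q G V g ≤ -(lam + gap) * nsq G g)
    (x y : Z2) (hx : x ∈ G) (hy : y ∈ G) (t : ℝ) (ht : 0 ≤ t) :
    ENNReal.ofReal (Real.exp (-lam * t) * (φ x * φ y - Real.exp (-gap * t))) ≤
      K x t (fk G V y) := by
  rw [K_eq]
  refine ENNReal.ofReal_le_ofReal ?_
  -- the component along the eigenfunction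
  have hα : ∀ t, 0 ≤ t → ∑ x ∈ G, φ x * q G V y x t = Real.exp (-lam * t) * φ y := by
    have hD : ∀ t, 0 < t → HasDerivAt (fun t => Real.exp (lam * t) *
        ∑ x ∈ G, φ x * q G V y x t) 0 t := by
      intro t ht
      have h1 : HasDerivAt (fun t : ℝ => Real.exp (lam * t)) (Real.exp (lam * t) * lam) t := by
        have := ((hasDerivAt_id t).const_mul lam).exp
        simpa using this
      have h2 : HasDerivAt (fun t => ∑ x ∈ G, φ x * q G V y x t)
          (∑ x ∈ G, φ x * opA G V (fun z => q G V y z t) x) t :=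
        HasDerivAt.fun_sum (u := G) fun x hx => (q_hasDerivAt G V y x hx t ht).const_mul (φ x)
      have h3 : ∑ x ∈ G, φ x * opA G V (fun z => q G V y z t) x =
          -lam * ∑ x ∈ G, φ x * q G V y x t := by
        rw [opA_symm, Finset.mul_sum]
        refine Finset.sum_congr rfl fun x hx => ?_
        rw [heig x hx]
        ring
      refine (h1.mul h2).congr_deriv ?_
      rw [h3]
      ring
    have hcont : ContinuousOn (fun t => Real.exp (lam * t) *
        ∑ x ∈ G, φ x * q G V y x t) (Set.Ici 0) := by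
      refine ContinuousOn.mul (by fun_prop) ?_
      exact continuousOn_finsetSum _ fun x hx => (q_continuousOn G V y x).const_smul (φ x)
    have hdiff : DifferentiableOn ℝ (fun t => Real.exp (lam * t) *
        ∑ x ∈ G, φ x * q G V y x t) (interior (Set.Ici 0)) := by
      intro t ht
      rw [interior_Ici] at ht
      exact (hD t ht).differentiableAt.differentiableWithinAt
    have hanti : AntitoneOn (fun t => Real.exp (lam * t) *
        ∑ x ∈ G, φ x * q G V y x t) (Set.Ici 0) := by
      refine antitoneOn_of_deriv_nonpos (convex_Ici 0) hcont hdiff ?_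
      intro t ht
      rw [interior_Ici] at ht
      rw [(hD t ht).deriv]
    have hmono : MonotoneOn (fun t => Real.exp (lam * t) *
        ∑ x ∈ G, φ x * q G V y x t) (Set.Ici 0) := by
      refine monotoneOn_of_deriv_nonneg (convex_Ici 0) hcont hdiff ?_
      intro t ht
      rw [interior_Ici] at ht
      rw [(hD t ht).deriv]
    intro t ht
    have h5 := hanti (Set.mem_Ici.2 le_rfl) (Set.mem_Ici.2 ht) ht
    have h6 := hmono (Set.mem_Ici.2 le_rfl) (Set.mem_Ici.2 ht) ht
    have h7 := le_antisymm h5 h6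
    simp only [mul_zero, Real.exp_zero, one_mul] at h7
    have h8 : ∑ x ∈ G, φ x * q G V y x 0 = φ y := by
      rw [Finset.sum_congr rfl fun x hx => by rw [q_zero G V y x hx]]
      simp [hy]
    rw [h8] at h7
    rw [← h7, ← mul_assoc, ← Real.exp_add]
    simp
  -- the orthogonal component
  let h : Z2 → ℝ → ℝ := fun x t => q G V y x t - Real.exp (-lam * t) * φ y * φ x
  have horth : ∀ t, 0 ≤ t → ∑ x ∈ G, φ x * h x t = 0 := by
    intro t ht
    have h1 : ∑ x ∈ G, φ x * h x t = (∑ x ∈ G, φ x * q G V y x t) -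
        Real.exp (-lam * t) * φ y * nsq G φ := by
      unfold nsq
      rw [Finset.mul_sum, ← Finset.sum_sub_distrib]
      refine Finset.sum_congr rfl fun x _ => ?_
      simp only [h]
      ring
    rw [h1, hα t ht, hφ]
    ring
  have hder : ∀ x ∈ G, ∀ t, 0 < t → HasDerivAt (h x) (opA G V (fun z => h z t) x) t := by
    intro x hx t ht
    have h1 : HasDerivAt (fun t : ℝ => Real.exp (-lam * t)) (Real.exp (-lam * t) * (-lam)) t := by
      have := ((hasDerivAt_id t).const_mul (-lam)).exp
      simpa using this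
    have h2 := (q_hasDerivAt G V y x hx t ht).sub ((h1.mul_const (φ y)).mul_const (φ x))
    refine h2.congr_deriv ?_
    have h3 : opA G V (fun z => h z t) x = opA G V (fun z => q G V y z t) x -
        Real.exp (-lam * t) * φ y * opA G V φ x := by
      unfold opA
      have h4 : ∀ e : Fin 4, (if x + step e ∈ G then h (x + step e) t else 0) =
          (if x + step e ∈ G then q G V y (x + step e) t else 0) -
          Real.exp (-lam * t) * φ y * (if x + step e ∈ G then φ (x + step e) else 0) := by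
        intro e
        split_ifs
        · rfl
        · ring
      simp only [h4]
      rw [Finset.sum_sub_distrib, ← Finset.mul_sum]
      simp only [h]
      ring
    rw [h3, heig x hx]
    ring
  have hcont : ∀ x ∈ G, ContinuousOn (h x) (Set.Ici 0) := fun x _ =>
    (q_continuousOn G V y x).sub (by fun_prop)
  have hen := energy G V (-(lam + gap)) h hcont hder
    (fun t ht => hg _ (horth t ht.le)) t ht
  have h0 : nsq G (fun z => h z 0) ≤ 1 := by
    have h1 : nsq G (fun z => h z 0) = 1 - 2 * φ y ^ 2 + φ y ^ 2 * nsq G φ := by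
      have h2 : ∀ z ∈ G, h z 0 ^ 2 = (if z = y then 1 else 0) -
          2 * φ y * (if z = y then φ z else 0) + φ y ^ 2 * φ z ^ 2 := by
        intro z hz
        simp only [h, mul_zero, Real.exp_zero, one_mul]
        rw [q_zero G V y z hz]
        split_ifs <;> ring
      unfold nsq
      rw [Finset.sum_congr rfl h2, Finset.sum_add_distrib, Finset.sum_sub_distrib,
        ← Finset.mul_sum, ← Finset.mul_sum]
      simp [hy]
      ring
    rw [h1, hφ]
    nlinarith [sq_nonneg (φ y)]
  have h1 : h x t ^ 2 ≤ Real.exp (-(lam + gap) * t) ^ 2 := by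
    have h2 := (sq_le_nsq G (fun z => h z t) hx).trans hen
    have h4 : Real.exp (2 * -(lam + gap) * t) = Real.exp (-(lam + gap) * t) ^ 2 := by
      rw [← Real.exp_nat_mul]; congr 1; push_cast; ring
    rw [h4] at h2
    have h5 := Real.exp_pos (-(lam + gap) * t)
    calc h x t ^ 2 ≤ _ := h2
      _ ≤ Real.exp (-(lam + gap) * t) ^ 2 * 1 :=
        mul_le_mul_of_nonneg_left h0 (by positivity)
      _ = _ := mul_one _
  have h2 := (abs_le_of_sq_le_sq' h1 (Real.exp_pos _).le).1
  simp only [h] at h2
  have h3 : Real.exp (-(lam + gap) * t) = Real.exp (-lam * t) * Real.exp (-gap * t) := by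
    rw [← Real.exp_add]; congr 1; ring
  rw [h3] at h2
  linarith

/-- Upper bound for the total mass (all endpoints). -/
theorem fk_upper_total (G : Finset Z2) (V : Z2 → ℝ) (Λ : ℝ)
    (hΛ : ∀ g : Z2 → ℝ, Q G V g ≤ Λ * nsq G g) (x : Z2) (hx : x ∈ G) (t : ℝ) (ht : 0 ≤ t) :
    K x t (fun l => ind (fun l => ∀ p ∈ l, p.1 ∈ G) l *
      ENNReal.ofReal (Real.exp ((l.map fun p => V p.1 * p.2).sum))) ≤
      ENNReal.ofReal (G.card * Real.exp (Λ * t)) := by
  have h1 : K x t (fun l => ind (fun l => ∀ p ∈ l, p.1 ∈ G) l *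
      ENNReal.ofReal (Real.exp ((l.map fun p => V p.1 * p.2).sum))) =
      K x t (fun l => ∑ y ∈ G, fk G V y l) := by
    unfold K
    congr 1
    refine tsum_congr fun n => ?_
    refine W_congr (fun l hl => ?_) n x t
    unfold fk
    rw [← Finset.sum_mul]
    congr 1
    unfold ind
    by_cases h : ∀ p ∈ l, p.1 ∈ G
    · rw [if_pos h]
      have hlast := List.getLast?_eq_some_getLast hl
      have hin : (l.getLast hl).1 ∈ G := h _ (List.getLast_mem hl)
      rw [Finset.sum_eq_single_of_mem _ hin]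
      · rw [if_pos]
        exact ⟨h, by rw [hlast]; rfl⟩
      · intro b _ hb
        rw [if_neg]
        rintro ⟨_, h2⟩
        rw [hlast] at h2
        simp only [Option.map_some, Option.some.injEq] at h2
        exact hb h2.symm
    · rw [if_neg h]
      symm
      refine Finset.sum_eq_zero fun y _ => ?_
      rw [if_neg]
      rintro ⟨h2, _⟩
      exact h h2
  rw [h1, K_finsum G _ (fun y _ => MeasF.fk G V y)]
  refine (Finset.sum_le_sum fun y hy => fk_upper G V Λ hΛ x y hx hy t ht).trans ?_
  rw [Finset.sum_const, nsmul_eq_mul, ENNReal.ofReal_mul (Nat.cast_nonneg _),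
    ENNReal.ofReal_natCast]

end Pool.Agent.WSQ
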