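import Pool.Agent.WSQ.Defs

/-!
# Module D2: filling a connected set, holes, perimeter of the bounding box
-/

open scoped BigOperators

namespace Pool.Agent.WSQ

namespace FillAux

/-- One step inside `S`. -/
def Rel (S : Set Z2) (u v : Z2) : Prop := (∃ e, v = u + step e) ∧ v ∈ S

/-- Reachability inside `S`. -/
def Rch (S : Set Z2) (u v : Z2) : Prop := Relation.ReflTransGen (Rel S) u v

/-- Reverse direction. -/
def rev : Fin 4 → Fin 4 := ![1, 0, 3, 2]

theorem step_rev (e : Fin 4) : step (rev e) = -step e := by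
  fin_cases e <;> simp [rev, step]

theorem rev_rev (e : Fin 4) : rev (rev e) = e := by
  fin_cases e <;> simp [rev]

theorem Rch.refl {S : Set Z2} (u : Z2) : Rch S u u := Relation.ReflTransGen.refl

theorem Rch.trans {S : Set Z2} {u v w : Z2} (h : Rch S u v) (h' : Rch S v w) : Rch S u w :=
  Relation.ReflTransGen.trans h h'

theorem Rch.mono {S T : Set Z2} (hST : S ⊆ T) {u v : Z2} (h : Rch S u v) : Rch T u v :=
  Relation.ReflTransGen.mono (fun _ _ hab => ⟨hab.1, hST hab.2⟩) u v h

theorem Rch.mem {S : Set Z2} {u v : Z2} (h : Rch S u v) (hu : u ∈ S) : v ∈ S := by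
  induction h with
  | refl => exact hu
  | tail _ h _ => exact h.2

theorem Rch.symm {S : Set Z2} {u v : Z2} (h : Rch S u v) (hu : u ∈ S) : Rch S v u := by
  induction h with
  | refl => exact Rch.refl _
  | @tail b c hab hbc ih =>
    obtain ⟨⟨e, he⟩, hc⟩ := hbc
    have hb : b ∈ S := Rch.mem hab hu
    refine Relation.ReflTransGen.head ⟨⟨rev e, ?_⟩, hb⟩ ih
    rw [he, step_rev]; simp

theorem Rch.step {S : Set Z2} {u v : Z2} (e : Fin 4) (h : v = u + step e) (hv : v ∈ S) :
    Rch S u v := Relation.ReflTransGen.single ⟨⟨e, h⟩, hv⟩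

/-- The part of the path from `u` stays in the component of `u`. -/
theorem Rch.comp {S : Set Z2} {u v : Z2} (h : Rch S u v) : Rch {z | Rch S u z} u v := by
  induction h with
  | refl => exact Rch.refl _
  | tail hab hbc ih =>
    exact ih.trans (Relation.ReflTransGen.single ⟨hbc.1, Relation.ReflTransGen.tail hab hbc⟩)

theorem conn_iff (S : Set Z2) : Conn S ↔ ∀ x ∈ S, ∀ y ∈ S, Rch S x y := Iff.rfl

/-- A set all of whose points are connected to one of its points is connected. -/
theorem conn_of {S : Set Z2} (o : Z2) (h : ∀ x ∈ S, Rch S x o) : Conn S := by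
  intro x hx y hy
  exact (h x hx).trans ((h y hy).symm hy)

/-- Horizontal segments. -/
theorem hor_pos {S : Set Z2} (b : ℤ) (a : ℤ) (n : ℕ)
    (h : ∀ k : ℤ, a ≤ k → k ≤ a + n → ((k, b) : Z2) ∈ S) : Rch S (a, b) (a + n, b) := by
  induction n with
  | zero => simpa using Rch.refl _
  | succ n ih =>
    refine (ih fun k hk hk' => h k hk (by push_cast; omega)).trans (Rch.step 0 ?_ ?_)
    · simp [step, add_assoc]
    · exact h _ (by omega) le_rfl

theorem ver_pos {S : Set Z2} (b : ℤ) (a : ℤ) (n : ℕ)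
    (h : ∀ k : ℤ, a ≤ k → k ≤ a + n → ((b, k) : Z2) ∈ S) : Rch S (b, a) (b, a + n) := by
  induction n with
  | zero => simpa using Rch.refl _
  | succ n ih =>
    refine (ih fun k hk hk' => h k hk (by push_cast; omega)).trans (Rch.step 2 ?_ ?_)
    · simp [step, add_assoc]
    · exact h _ (by omega) le_rfl

/-- Horizontal segment, any orientation. -/
theorem hor {S : Set Z2} (b a c : ℤ)
    (h : ∀ k : ℤ, (a ≤ k ∧ k ≤ c) ∨ (c ≤ k ∧ k ≤ a) → ((k, b) : Z2) ∈ S) :
    Rch S (a, b) (c, b) := by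
  rcases le_total a c with hac | hac
  · obtain ⟨n, rfl⟩ : ∃ n : ℕ, c = a + n := ⟨(c - a).toNat, by omega⟩
    exact hor_pos b a n fun k hk hk' => h k (Or.inl ⟨hk, hk'⟩)
  · obtain ⟨n, rfl⟩ : ∃ n : ℕ, a = c + n := ⟨(a - c).toNat, by omega⟩
    exact (hor_pos b c n fun k hk hk' => h k (Or.inr ⟨hk, hk'⟩)).symm
      (h c (Or.inr ⟨le_rfl, by omega⟩))

theorem ver {S : Set Z2} (b a c : ℤ)
    (h : ∀ k : ℤ, (a ≤ k ∧ k ≤ c) ∨ (c ≤ k ∧ k ≤ a) → ((b, k) : Z2) ∈ S) :
    Rch S (b, a) (b, c) := by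
  rcases le_total a c with hac | hac
  · obtain ⟨n, rfl⟩ : ∃ n : ℕ, c = a + n := ⟨(c - a).toNat, by omega⟩
    exact ver_pos b a n fun k hk hk' => h k (Or.inl ⟨hk, hk'⟩)
  · obtain ⟨n, rfl⟩ : ∃ n : ℕ, a = c + n := ⟨(a - c).toNat, by omega⟩
    exact (ver_pos b c n fun k hk hk' => h k (Or.inr ⟨hk, hk'⟩)).symm
      (h c (Or.inr ⟨le_rfl, by omega⟩))

/-- The whole lattice is connected. -/
theorem rch_univ (u v : Z2) : Rch Set.univ u v :=
  (hor u.2 u.1 v.1 fun _ _ => Set.mem_univ _).trans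
    (ver v.1 u.2 v.2 fun _ _ => Set.mem_univ _)

/-- First hitting: a path from `u` to a point of `R` hits `R` from the component of `u`
in `Rᶜ`. -/
theorem hit {R : Set Z2} {u v : Z2} (h : Rch Set.univ u v) (hv : v ∈ R) :
    ∃ r ∈ R, Rch ({z | Rch Rᶜ u z} ∪ R) u r := by
  by_contra hcon
  push Not at hcon
  have key : ∀ w, Rch Set.univ u w → Rch Rᶜ u w ∧ w ∉ R ∨ (∃ r ∈ R, Rch ({z | Rch Rᶜ u z} ∪ R) u r) := by
    intro w hw
    induction hw with
    | refl =>
      by_cases hu : u ∈ R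
      · exact Or.inr ⟨u, hu, Rch.refl _⟩
      · exact Or.inl ⟨Rch.refl _, hu⟩
    | @tail b c hab hbc ih =>
      rcases ih with ⟨ih1, ih2⟩ | ih
      · by_cases hc : c ∈ R
        · right
          refine ⟨c, hc, (Rch.mono Set.subset_union_left ih1.comp).trans ?_⟩
          exact Relation.ReflTransGen.single ⟨hbc.1, Or.inr hc⟩
        · left
          exact ⟨ih1.trans (Relation.ReflTransGen.single ⟨hbc.1, hc⟩), hc⟩
      · exact Or.inr ih
  rcases key v h with h1 | ⟨r, hr, h1⟩
  · exact h1.2 hv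
  · exact hcon r hr h1

/-- A finite set lies in a large box. -/
theorem exists_box (R : Finset Z2) : ∃ N : ℤ, 0 < N ∧ ∀ p ∈ R, -N < p.1 ∧ p.1 < N ∧ -N < p.2 ∧ p.2 < N := by
  classical
  induction R using Finset.induction_on with
  | empty => exact ⟨1, one_pos, by simp⟩
  | insert a s _ ih =>
    obtain ⟨N, hN, h⟩ := ih
    refine ⟨N + |a.1| + |a.2| + 1, by positivity, ?_⟩
    intro p hp
    have h1 := abs_nonneg a.1
    have h2 := abs_nonneg a.2
    rw [Finset.mem_insert] at hp
    rcases hp with rfl | hp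
    · have h3 := neg_abs_le p.1
      have h4 := neg_abs_le p.2
      have h5 := le_abs_self p.1
      have h6 := le_abs_self p.2
      refine ⟨?_, ?_, ?_, ?_⟩ <;> omega
    · have := h p hp
      refine ⟨?_, ?_, ?_, ?_⟩ <;> omega

/-- Outside of the box, everything is connected to the corner. -/
theorem far_conn {S : Set Z2} {N : ℤ}
    (hS : ∀ p : Z2, (p.1 ≤ -N ∨ N ≤ p.1 ∨ p.2 ≤ -N ∨ N ≤ p.2) → p ∈ S) (p : Z2)
    (hp : p.1 ≤ -N ∨ N ≤ p.1 ∨ p.2 ≤ -N ∨ N ≤ p.2) : Rch S p (N, N) := by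
  obtain ⟨a, b⟩ := p
  simp only at hp
  rcases hp with hp | hp | hp | hp
  · exact (ver a b N fun k _ => hS _ (Or.inl hp)).trans
      (hor N a N fun k _ => hS _ (Or.inr (Or.inr (Or.inr le_rfl))))
  · exact (ver a b N fun k _ => hS _ (Or.inr (Or.inl hp))).trans
      (hor N a N fun k _ => hS _ (Or.inr (Or.inr (Or.inr le_rfl))))
  · exact (hor b a N fun k _ => hS _ (Or.inr (Or.inr (Or.inl hp)))).trans
      (ver N b N fun k _ => hS _ (Or.inr (Or.inl le_rfl)))
  · exact (hor b a N fun k _ => hS _ (Or.inr (Or.inr (Or.inr hp)))).trans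
      (ver N b N fun k _ => hS _ (Or.inr (Or.inl le_rfl)))

/-- From any point of `S` one reaches `R` inside `S`, if `S` contains `R` and the component of the
point in `Rᶜ`. -/
theorem to_base {R S : Set Z2} (hR : Conn R) {r0 : Z2} (hr0 : r0 ∈ R) (hRS : R ⊆ S) (x : Z2)
    (hx : x ∉ R → ∀ z, Rch Rᶜ x z → z ∈ S) : Rch S x r0 := by
  by_cases hxR : x ∈ R
  · exact Rch.mono hRS (hR x hxR r0 hr0)
  · obtain ⟨r, hr, hxr⟩ := hit (R := R) (rch_univ x r0) hr0
    refine (Rch.mono ?_ hxr).trans (Rch.mono hRS (hR r hr r0 hr0))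
    rintro z (hz | hz)
    · exact hx hxR z hz
    · exact hRS hz

end FillAux

open FillAux

/-- Filling of a finite connected set `R`: complement of the unbounded component of `Rᶜ`. -/
theorem fill_exists (R : Finset Z2) (hR : Conn (R : Set Z2)) (hne : R.Nonempty) :
    ∃ G : Finset Z2, R ⊆ G ∧ Conn (G : Set Z2) ∧ Conn ((G : Set Z2)ᶜ) ∧
      (∀ x ∈ G, ∀ e, x + step e ∉ G → x ∈ R) ∧
      (∀ x0 x1 y0 y1 : ℤ, (∀ p ∈ R, x0 ≤ p.1 ∧ p.1 ≤ x1 ∧ y0 ≤ p.2 ∧ p.2 ≤ y1) →
        ∀ p ∈ G, x0 ≤ p.1 ∧ p.1 ≤ x1 ∧ y0 ≤ p.2 ∧ p.2 ≤ y1) ∧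
      (∀ B : Finset Z2, Conn (B : Set Z2) → B.Nonempty → Disjoint B R →
        Disjoint B G ∨ ∃ C : Finset Z2, B ⊆ C ∧ C ⊆ G \ R ∧ Conn (C : Set Z2) ∧
          Conn ((C : Set Z2)ᶜ) ∧ ∀ x ∈ C, ∀ e, x + step e ∉ C → x + step e ∈ R) := by
  classical
  obtain ⟨N, hN, hbox⟩ := exists_box R
  have hfar : ∀ p : Z2, (p.1 ≤ -N ∨ N ≤ p.1 ∨ p.2 ≤ -N ∨ N ≤ p.2) → p ∈ ((R : Set Z2)ᶜ) := by
    intro p hp hpR
    have := hbox p (by simpa using hpR)
    omega
  -- the unbounded component
  set U : Set Z2 := {z | z ∉ R ∧ Rch ((R : Set Z2)ᶜ) z (N, N)} with hU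
  have hUfar : ∀ p : Z2, (p.1 ≤ -N ∨ N ≤ p.1 ∨ p.2 ≤ -N ∨ N ≤ p.2) → p ∈ U := fun p hp =>
    ⟨by simpa using hfar p hp, far_conn hfar p hp⟩
  have hfin : (Uᶜ).Finite := by
    refine Set.Finite.subset (Finset.finite_toSet (Finset.Icc (-N) N ×ˢ Finset.Icc (-N) N)) ?_
    intro p hp
    by_contra hcon
    apply hp
    apply hUfar
    by_contra h'
    apply hcon
    simp only [Finset.coe_product, Finset.coe_Icc, Set.mem_prod, Set.mem_Icc]
    omega
  have hG : ∀ p, p ∈ hfin.toFinset ↔ p ∉ U := by intro p; simp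
  have hUcl : ∀ x, x ∉ R → ∀ y, Rch ((R : Set Z2)ᶜ) x y → y ∈ U → x ∈ U :=
    fun x hx y hxy hy => ⟨hx, hxy.trans hy.2⟩
  have hUcl' : ∀ x ∈ U, ∀ y, Rch ((R : Set Z2)ᶜ) x y → y ∈ U := by
    intro x hx y hxy
    have hxR : x ∈ ((R : Set Z2)ᶜ) := by simpa using hx.1
    exact ⟨by simpa using hxy.mem hxR, (hxy.symm hxR).trans hx.2⟩
  have hGco : ((hfin.toFinset : Finset Z2) : Set Z2)ᶜ = U := by ext p; simp
  have hRG : ∀ x ∈ R, x ∉ U := fun x hx h => h.1 hx
  obtain ⟨r0, hr0⟩ := hne
  refine ⟨hfin.toFinset, ?_, ?_, ?_, ?_, ?_, ?_⟩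
  · intro x hx
    rw [hG]
    exact hRG x hx
  · apply conn_of r0
    intro x hx
    have hx' : x ∉ U := (hG x).1 (by simpa using hx)
    refine to_base hR (by simpa using hr0) ?_ x ?_
    · intro z hz
      simp only [Finset.mem_coe]
      rw [hG]
      exact hRG z (by simpa using hz)
    · intro hxR z hz
      simp only [Finset.mem_coe]
      rw [hG]
      exact fun hzU => hx' (hUcl x (by simpa using hxR) z hz hzU)
  · rw [hGco]
    apply conn_of (N, N)
    intro x hx
    refine Rch.mono ?_ hx.2.comp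
    intro z hz
    exact hUcl' x hx z hz
  · intro x hx e hxe
    rw [hG] at hx hxe
    by_contra hxR
    apply hxe
    intro hU'
    apply hx
    refine hUcl x hxR _ (Rch.step e rfl ?_) hU'
    simpa using hU'.1
  · intro x0 x1 y0 y1 hb p hp
    rw [hG] at hp
    obtain ⟨a, b⟩ := p
    by_contra hcon
    apply hp
    have hcase : a < x0 ∨ x1 < a ∨ b < y0 ∨ y1 < b := by
      by_contra h'
      apply hcon
      simp only
      omega
    have hout : ∀ q : Z2, (q.1 < x0 ∨ x1 < q.1 ∨ q.2 < y0 ∨ y1 < q.2) → q ∈ ((R : Set Z2)ᶜ) := by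
      intro q hq hqR
      have := hb q (by simpa using hqR)
      omega
    have hpR : (a, b) ∉ R := by simpa using hout (a, b) hcase
    rcases hcase with h | h | h | h
    · refine hUcl _ hpR (min a (-N), b) (hor b a _ ?_) (hUfar _ (Or.inl (min_le_right _ _)))
      intro k hk
      exact hout _ (Or.inl (by simp only; omega))
    · refine hUcl _ hpR (max a N, b) (hor b a _ ?_) (hUfar _ (Or.inr (Or.inl (le_max_right _ _))))
      intro k hk
      exact hout _ (Or.inr (Or.inl (by simp only; omega)))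
    · refine hUcl _ hpR (a, min b (-N)) (ver a b _ ?_)
        (hUfar _ (Or.inr (Or.inr (Or.inl (min_le_right _ _)))))
      intro k hk
      exact hout _ (Or.inr (Or.inr (Or.inl (by simp only; omega))))
    · refine hUcl _ hpR (a, max b N) (ver a b _ ?_)
        (hUfar _ (Or.inr (Or.inr (Or.inr (le_max_right _ _)))))
      intro k hk
      exact hout _ (Or.inr (Or.inr (Or.inr (by simp only; omega))))
  · intro B hB hBne hBR
    by_cases hBU : ∃ b ∈ B, b ∈ U
    · left
      obtain ⟨b, hb, hbU⟩ := hBU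
      rw [Finset.disjoint_left]
      intro a ha haG
      rw [hG] at haG
      apply haG
      refine hUcl' b hbU a (Rch.mono ?_ (hB b (by simpa using hb) a (by simpa using ha)))
      intro z hz hzR
      exact Finset.disjoint_left.1 hBR (by simpa using hz) (by simpa using hzR)
    · right
      push Not at hBU
      obtain ⟨b, hb⟩ := hBne
      have hbR : b ∉ R := Finset.disjoint_left.1 hBR hb
      have hbR' : b ∈ ((R : Set Z2)ᶜ) := by simpa using hbR
      set C : Set Z2 := {z | Rch ((R : Set Z2)ᶜ) b z} with hC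
      have hCU : ∀ z ∈ C, z ∉ U := fun z hz hzU => hBU b hb (hUcl b hbR z hz hzU)
      have hCR : ∀ z ∈ C, z ∉ R := fun z hz => by simpa using Rch.mem hz hbR'
      have hCfin : C.Finite := hfin.subset fun z hz => hCU z hz
      refine ⟨hCfin.toFinset, ?_, ?_, ?_, ?_, ?_⟩
      · intro a ha
        rw [Set.Finite.mem_toFinset]
        refine Rch.mono ?_ (hB b (by simpa using hb) a (by simpa using ha))
        intro z hz hzR
        exact Finset.disjoint_left.1 hBR (by simpa using hz) (by simpa using hzR)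
      · intro a ha
        rw [Set.Finite.mem_toFinset] at ha
        rw [Finset.mem_sdiff, hG]
        exact ⟨hCU a ha, hCR a ha⟩
      · rw [Set.Finite.coe_toFinset]
        apply conn_of b
        intro x hx
        have := Rch.comp hx
        exact this.symm (Rch.refl b)
      · rw [Set.Finite.coe_toFinset]
        apply conn_of r0
        intro x hx
        refine to_base hR (by simpa using hr0) ?_ x ?_
        · intro z hz hzC
          exact hCR z hzC (by simpa using hz)
        · intro hxR z hz hzC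
          exact hx (Rch.trans hzC (hz.symm hxR))
      · intro x hx e hxe
        rw [Set.Finite.mem_toFinset] at hx hxe
        by_contra hcon
        exact hxe (Rch.trans hx (Rch.step e rfl (by simpa using hcon)))

namespace FillAux

/-- Number of boundary edges in direction `e`. -/
def bdir (G : Finset Z2) (e : Fin 4) : ℕ := (G.filter fun x => x + step e ∉ G).card

theorem bd_eq (G : Finset Z2) : bd G = ∑ e, bdir G e := by
  unfold bd deg bdir
  simp_rw [Finset.card_filter]
  rw [Finset.sum_comm]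

/-- Intermediate values of a coordinate along a connected set. -/
theorem ivt {G : Finset Z2} (π : Z2 → ℤ) (hπ : ∀ x e, |π (x + step e) - π x| ≤ 1)
    {p q : Z2} (hp : p ∈ G) (h : Rch (G : Set Z2) p q) :
    ∀ c, π p ≤ c → c ≤ π q → ∃ x ∈ G, π x = c := by
  induction h with
  | refl => intro c h1 h2; exact ⟨p, hp, le_antisymm h1 h2⟩
  | @tail b d hab hbd ih =>
    intro c h1 h2
    obtain ⟨⟨e, he⟩, hd⟩ := hbd
    by_cases hc : c ≤ π b
    · exact ih c h1 hc
    · have := hπ b e
      rw [← he, abs_le] at this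
      exact ⟨d, by simpa using hd, by omega⟩

/-- In every line which meets `G` there is a boundary edge in direction `e`. -/
theorem bdir_ge {G : Finset Z2} (π σ : Z2 → ℤ) (e : Fin 4) (hπe : ∀ x, π (x + step e) = π x)
    (hσ : ∀ x, σ (x + step e) = σ x + 1) (a b : ℤ)
    (h : ∀ c, a ≤ c → c ≤ b → ∃ x ∈ G, π x = c) : b - a + 1 ≤ (bdir G e : ℤ) := by
  classical
  have h1 : ∀ c ∈ Finset.Icc a b, ∃ x ∈ G, π x = c ∧ x + step e ∉ G := by
    intro c hc
    rw [Finset.mem_Icc] at hc
    obtain ⟨x, hx, hxc⟩ := h c hc.1 hc.2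
    obtain ⟨y, hy, hymax⟩ := Finset.exists_max_image (G.filter fun z => π z = c) σ
      ⟨x, by simp [hx, hxc]⟩
    rw [Finset.mem_filter] at hy
    refine ⟨y, hy.1, hy.2, fun hcon => ?_⟩
    have := hymax (y + step e) (by simp [hcon, hπe, hy.2])
    rw [hσ] at this
    omega
  choose! f hf using h1
  have h2 : (Finset.Icc a b).card ≤ bdir G e := by
    unfold bdir
    refine Finset.card_le_card_of_injOn f ?_ ?_
    · intro c hc
      have := hf c (by simpa using hc)
      simp [this.1, this.2.2]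
    · intro c hc d hd hcd
      rw [← (hf c (by simpa using hc)).2.1, ← (hf d (by simpa using hd)).2.1, hcd]
  rw [Int.card_Icc] at h2
  omega

end FillAux

/-- The edge boundary of a connected set is at least the perimeter of its bounding box. -/
theorem bd_ge_box (G : Finset Z2) (hG : Conn (G : Set Z2)) (p q p' q' : Z2) (hp : p ∈ G)
    (hq : q ∈ G) (hp' : p' ∈ G) (hq' : q' ∈ G) (hpq : p.1 ≤ q.1) (hpq' : p'.2 ≤ q'.2) :
    2 * ((q.1 - p.1 + 1) + (q'.2 - p'.2 + 1)) ≤ (bd G : ℤ) := by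
  have hx : ∀ c, p.1 ≤ c → c ≤ q.1 → ∃ x ∈ G, x.1 = c := by
    refine ivt (fun z => z.1) ?_ hp (hG p (by simpa using hp) q (by simpa using hq))
    intro x e
    fin_cases e <;> simp [step]
  have hy : ∀ c, p'.2 ≤ c → c ≤ q'.2 → ∃ x ∈ G, x.2 = c := by
    refine ivt (fun z => z.2) ?_ hp' (hG p' (by simpa using hp') q' (by simpa using hq'))
    intro x e
    fin_cases e <;> simp [step]
  have h0 := bdir_ge (G := G) (fun z => z.2) (fun z => z.1) 0 (by simp [step]) (by simp [step])
    _ _ hy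
  have h1 := bdir_ge (G := G) (fun z => z.2) (fun z => -z.1) 1 (by simp [step])
    (by intro x; simp [step]; ring) _ _ hy
  have h2 := bdir_ge (G := G) (fun z => z.1) (fun z => z.2) 2 (by simp [step]) (by simp [step])
    _ _ hx
  have h3 := bdir_ge (G := G) (fun z => z.1) (fun z => -z.2) 3 (by simp [step])
    (by intro x; simp [step]; ring) _ _ hx
  rw [bd_eq, Fin.sum_univ_four]
  push_cast
  linarith

/-- Removing a hole: the boundaries add up. -/
theorem bd_sdiff (G R C : Finset Z2) (hRG : R ⊆ G) (hCG : C ⊆ G \ R)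
    (hC : ∀ x ∈ C, ∀ e, x + step e ∉ C → x + step e ∈ R) :
    bd (G \ C) = bd G + bd C := by
  classical
  have hCG' : ∀ x ∈ C, x ∈ G ∧ x ∉ R := fun x hx => by simpa using hCG hx
  have key : ∀ e, bdir (G \ C) e = bdir G e + bdir C (rev e) := by
    intro e
    unfold bdir
    have h1 : ((G \ C).filter fun x => x + step e ∉ G \ C) =
        (G.filter fun x => x + step e ∉ G) ∪ ((G \ C).filter fun x => x + step e ∈ C) := by
      ext x
      simp only [Finset.mem_filter, Finset.mem_sdiff, Finset.mem_union, not_and, not_not]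
      constructor
      · rintro ⟨⟨hx1, hx2⟩, h⟩
        by_cases hG : x + step e ∈ G
        · exact Or.inr ⟨⟨hx1, hx2⟩, h hG⟩
        · exact Or.inl ⟨hx1, hG⟩
      · rintro (⟨hx1, hx2⟩ | ⟨⟨hx1, hx2⟩, h⟩)
        · refine ⟨⟨hx1, fun hxC => hx2 ?_⟩, fun h => absurd h hx2⟩
          exact hRG (hC x hxC e fun h' => hx2 (hCG' _ h').1)
        · exact ⟨⟨hx1, hx2⟩, fun _ => h⟩
    have h2 : Disjoint (G.filter fun x => x + step e ∉ G)
        ((G \ C).filter fun x => x + step e ∈ C) := by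
      rw [Finset.disjoint_left]
      intro x hx hx'
      rw [Finset.mem_filter] at hx hx'
      exact hx.2 (hCG' _ hx'.2).1
    have h3 : ((G \ C).filter fun x => x + step e ∈ C).card =
        (C.filter fun x => x + step (rev e) ∉ C).card := by
      refine Finset.card_bij' (fun x _ => x + step e) (fun x _ => x + step (rev e)) ?_ ?_ ?_ ?_
      · intro x hx
        simp only [Finset.mem_filter, Finset.mem_sdiff] at hx ⊢
        refine ⟨hx.2, ?_⟩
        rw [step_rev]
        simpa using hx.1.2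
      · intro x hx
        simp only [Finset.mem_filter, Finset.mem_sdiff] at hx ⊢
        refine ⟨⟨hRG (hC x hx.1 _ hx.2), hx.2⟩, ?_⟩
        rw [step_rev]
        simpa using hx.1
      · intro x _
        simp [step_rev]
      · intro x _
        simp [step_rev]
    rw [h1, Finset.card_union_of_disjoint h2, h3]
  rw [bd_eq, bd_eq, bd_eq]
  simp_rw [key]
  rw [Finset.sum_add_distrib]
  congr 1
  rw [Fin.sum_univ_four, Fin.sum_univ_four]
  simp only [rev]
  simp
  ring

end Pool.Agent.WSQ
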