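import Pool.Agent.WSQ.FK
import Pool.Agent.WSQ.Super
import Pool.Agent.WSQ.Meas

/-!
# Module F1: large deviation lower bound for a prescribed profile on a fixed finite set
-/

open MeasureTheory ProbabilityTheory Filter Topology
open scoped ENNReal BigOperators

namespace Pool.Agent.WSQ

/-- Dirichlet energy of `f` on `B` (with `f` extended by zero). -/
def dirE (B : Finset Z2) (f : Z2 → ℝ) : ℝ := -Q B (fun _ => 0) f

namespace FinL

/-- The opposite direction. -/
def opp : Fin 4 → Fin 4 := ![1, 0, 3, 2]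

lemma step_opp (e : Fin 4) : step (opp e) = -step e := by
  fin_cases e <;> simp [opp, step]

lemma opp_opp (e : Fin 4) : opp (opp e) = e := by
  fin_cases e <;> rfl

/-- Symmetrisation over directed edges inside `B`. -/
lemma sum_swap (B : Finset Z2) (F : Z2 → Z2 → ℝ) :
    ∑ x ∈ B, ∑ e : Fin 4, (if x + step e ∈ B then F x (x + step e) else 0) =
      ∑ x ∈ B, ∑ e : Fin 4, (if x + step e ∈ B then F (x + step e) x else 0) := by
  rw [← Finset.sum_product', ← Finset.sum_product']
  rw [← Finset.sum_filter, ← Finset.sum_filter]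
  refine Finset.sum_bij' (fun q _ => (q.1 + step q.2, opp q.2))
    (fun q _ => (q.1 + step q.2, opp q.2)) ?_ ?_ ?_ ?_ ?_
  · intro q hq
    rw [Finset.mem_filter, Finset.mem_product] at hq ⊢
    refine ⟨⟨hq.2, Finset.mem_univ _⟩, ?_⟩
    dsimp only
    rw [step_opp, add_neg_cancel_right]
    exact hq.1.1
  · intro q hq
    rw [Finset.mem_filter, Finset.mem_product] at hq ⊢
    refine ⟨⟨hq.2, Finset.mem_univ _⟩, ?_⟩
    dsimp only
    rw [step_opp, add_neg_cancel_right]
    exact hq.1.1
  · intro q _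
    dsimp only
    rw [step_opp, add_neg_cancel_right, opp_opp]
  · intro q _
    dsimp only
    rw [step_opp, add_neg_cancel_right, opp_opp]
  · intro q _
    dsimp only
    rw [step_opp, add_neg_cancel_right]

/-- The tilting potential. -/
noncomputable def pot (B : Finset Z2) (f : Z2 → ℝ) (x : Z2) : ℝ :=
  -opA B (fun _ => 0) f x / f x

lemma opA_pot {B : Finset Z2} {f : Z2 → ℝ} (hf : ∀ x ∈ B, 0 < f x) {x : Z2} (hx : x ∈ B) :
    opA B (pot B f) f x = 0 := by
  have h := (hf x hx).ne'
  have h1 : opA B (pot B f) f x = opA B (fun _ => 0) f x + pot B f x * f x := by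
    unfold opA
    ring
  rw [h1]
  unfold pot
  field_simp
  ring

/-- The energy of the ground state transform. -/
noncomputable def EE (B : Finset Z2) (f h : Z2 → ℝ) : ℝ :=
  (1 / 2) * ∑ x ∈ B, ∑ e : Fin 4,
    (if x + step e ∈ B then f x * f (x + step e) * (h x - h (x + step e)) ^ 2 else 0)

lemma EE_nonneg {B : Finset Z2} {f : Z2 → ℝ} (hf : ∀ x ∈ B, 0 < f x) (h : Z2 → ℝ) :
    0 ≤ EE B f h := by
  unfold EE
  refine mul_nonneg (by norm_num) (Finset.sum_nonneg fun x hx => Finset.sum_nonneg fun e _ => ?_)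
  split_ifs with he
  · exact mul_nonneg (mul_nonneg (hf x hx).le (hf _ he).le) (sq_nonneg _)
  · exact le_rfl

/-- Ground state identity. -/
lemma Q_pot {B : Finset Z2} {f : Z2 → ℝ} (hf : ∀ x ∈ B, 0 < f x) (g : Z2 → ℝ) :
    Q B (pot B f) g = -EE B f (fun x => g x / f x) := by
  set h : Z2 → ℝ := fun x => g x / f x with hh
  have hg : ∀ x ∈ B, g x = f x * h x := fun x hx => by
    rw [hh]
    have := (hf x hx).ne'
    field_simp
  have h1 : Q B (pot B f) g = ∑ x ∈ B, ∑ e : Fin 4,
      (if x + step e ∈ B then f x * f (x + step e) * (h x * h (x + step e)) -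
        f x * f (x + step e) * h x ^ 2 else 0) := by
    unfold Q
    refine Finset.sum_congr rfl fun x hx => ?_
    have e0 := opA_pot hf hx
    unfold opA at e0 ⊢
    have e1 : (-4 + pot B f x) * f x =
        -∑ e : Fin 4, (if x + step e ∈ B then f (x + step e) else 0) := by linarith
    have e2 : g x * ((∑ e : Fin 4, if x + step e ∈ B then g (x + step e) else 0) - 4 * g x +
        pot B f x * g x) = g x * (∑ e : Fin 4, if x + step e ∈ B then g (x + step e) else 0) +
        f x * h x ^ 2 * ((-4 + pot B f x) * f x) := by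
      rw [hg x hx]; ring
    rw [e2, e1, mul_neg, ← sub_eq_add_neg, Finset.mul_sum, Finset.mul_sum,
      ← Finset.sum_sub_distrib]
    refine Finset.sum_congr rfl fun e _ => ?_
    by_cases he : x + step e ∈ B
    · rw [if_pos he, if_pos he, if_pos he, hg x hx, hg _ he]; ring
    · rw [if_neg he, if_neg he, if_neg he]; ring
  have h2 := sum_swap B (fun x y => f x * f y * h x ^ 2)
  rw [h1]
  unfold EE
  have h3 : ∑ x ∈ B, ∑ e : Fin 4,
      (if x + step e ∈ B then f x * f (x + step e) * (h x - h (x + step e)) ^ 2 else 0) =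
      ∑ x ∈ B, ∑ e : Fin 4, (if x + step e ∈ B then f x * f (x + step e) * h x ^ 2 else 0) +
      ∑ x ∈ B, ∑ e : Fin 4,
        (if x + step e ∈ B then f (x + step e) * f x * h (x + step e) ^ 2 else 0) -
      2 * ∑ x ∈ B, ∑ e : Fin 4,
        (if x + step e ∈ B then f x * f (x + step e) * (h x * h (x + step e)) else 0) := by
    rw [Finset.mul_sum, ← Finset.sum_add_distrib, ← Finset.sum_sub_distrib]
    refine Finset.sum_congr rfl fun x _ => ?_
    rw [Finset.mul_sum, ← Finset.sum_add_distrib, ← Finset.sum_sub_distrib]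
    refine Finset.sum_congr rfl fun e _ => ?_
    by_cases he : x + step e ∈ B
    · simp only [if_pos he]; ring
    · simp only [if_neg he]; ring
  have h4 : ∑ x ∈ B, ∑ e : Fin 4,
      (if x + step e ∈ B then f x * f (x + step e) * (h x * h (x + step e)) -
        f x * f (x + step e) * h x ^ 2 else 0) =
      ∑ x ∈ B, ∑ e : Fin 4,
        (if x + step e ∈ B then f x * f (x + step e) * (h x * h (x + step e)) else 0) -
      ∑ x ∈ B, ∑ e : Fin 4, (if x + step e ∈ B then f x * f (x + step e) * h x ^ 2 else 0) := by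
    rw [← Finset.sum_sub_distrib]
    refine Finset.sum_congr rfl fun x _ => ?_
    rw [← Finset.sum_sub_distrib]
    refine Finset.sum_congr rfl fun e _ => ?_
    by_cases he : x + step e ∈ B
    · simp only [if_pos he]
    · simp only [if_neg he]; ring
  rw [h3, h4]
  linarith

lemma EE_shift (B : Finset Z2) (f h : Z2 → ℝ) (c : ℝ) :
    EE B f (fun x => h x + c) = EE B f h := by
  unfold EE
  congr 1
  refine Finset.sum_congr rfl fun x _ => Finset.sum_congr rfl fun e _ => ?_
  split_ifs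
  · ring
  · rfl

/-- A single edge is controlled by the energy. -/
lemma edge_le {B : Finset Z2} {f : Z2 → ℝ} (hf : ∀ x ∈ B, 0 < f x) (h : Z2 → ℝ) {x : Z2}
    {e : Fin 4} (hx : x ∈ B) (he : x + step e ∈ B) :
    (h x - h (x + step e)) ^ 2 ≤ (2 / (f x * f (x + step e))) * EE B f h := by
  have hpos : 0 < f x * f (x + step e) := mul_pos (hf x hx) (hf _ he)
  have hnn : ∀ y ∈ B, ∀ d : Fin 4, 0 ≤ (if y + step d ∈ B then
      f y * f (y + step d) * (h y - h (y + step d)) ^ 2 else 0) := by
    intro y hy d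
    split_ifs with hd
    · exact mul_nonneg (mul_nonneg (hf y hy).le (hf _ hd).le) (sq_nonneg _)
    · exact le_rfl
  have h1 : f x * f (x + step e) * (h x - h (x + step e)) ^ 2 ≤ 2 * EE B f h := by
    unfold EE
    have h2 : (if x + step e ∈ B then f x * f (x + step e) * (h x - h (x + step e)) ^ 2 else 0) ≤
        ∑ d : Fin 4, (if x + step d ∈ B then
          f x * f (x + step d) * (h x - h (x + step d)) ^ 2 else 0) :=
      Finset.single_le_sum (f := fun d : Fin 4 => (if x + step d ∈ B then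
          f x * f (x + step d) * (h x - h (x + step d)) ^ 2 else 0))
        (fun d _ => hnn x hx d) (Finset.mem_univ e)
    have h3 : ∑ d : Fin 4, (if x + step d ∈ B then
          f x * f (x + step d) * (h x - h (x + step d)) ^ 2 else 0) ≤
        ∑ y ∈ B, ∑ d : Fin 4, (if y + step d ∈ B then
          f y * f (y + step d) * (h y - h (y + step d)) ^ 2 else 0) :=
      Finset.single_le_sum (f := fun y => ∑ d : Fin 4, (if y + step d ∈ B then
          f y * f (y + step d) * (h y - h (y + step d)) ^ 2 else 0))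
        (fun y hy => Finset.sum_nonneg fun d _ => hnn y hy d) hx
    rw [if_pos he] at h2
    linarith
  rw [div_mul_eq_mul_div, le_div_iff₀ hpos]
  linarith

/-- Differences are controlled by the energy on a connected set. -/
lemma diff_le {B : Finset Z2} (hB : Conn (B : Set Z2)) {f : Z2 → ℝ} (hf : ∀ x ∈ B, 0 < f x)
    {x y : Z2} (hx : x ∈ B) (hy : y ∈ B) :
    ∃ C : ℝ, 0 ≤ C ∧ ∀ h : Z2 → ℝ, (h x - h y) ^ 2 ≤ C * EE B f h := by
  have hxy := hB x hx y hy
  have key : y ∈ B ∧ ∃ C : ℝ, 0 ≤ C ∧ ∀ h : Z2 → ℝ, (h x - h y) ^ 2 ≤ C * EE B f h := by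
    clear hy
    induction hxy with
    | refl => exact ⟨hx, 0, le_rfl, fun h => by simp⟩
    | @tail u v _ huv ih =>
      obtain ⟨huB, C, hC, hCh⟩ := ih
      obtain ⟨⟨e, rfl⟩, hv⟩ := huv
      have hv' : u + step e ∈ B := hv
      have hpos : 0 < f u * f (u + step e) := mul_pos (hf u huB) (hf _ hv')
      refine ⟨hv', 2 * C + 2 * (2 / (f u * f (u + step e))), by positivity, fun h => ?_⟩
      have h1 := hCh h
      have h2 := edge_le hf h huB hv'
      have h3 := EE_nonneg hf h
      nlinarith [sq_nonneg ((h x - h u) - (h u - h (u + step e)))]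
  exact key.2

lemma poincare {B : Finset Z2} (hB : Conn (B : Set Z2)) {f : Z2 → ℝ} (hf : ∀ x ∈ B, 0 < f x) :
    ∃ C : ℝ, 0 < C ∧ ∀ h : Z2 → ℝ, ∀ x ∈ B, ∀ y ∈ B, (h x - h y) ^ 2 ≤ C * EE B f h := by
  have h1 : ∀ q : Z2 × Z2, ∃ C : ℝ, 0 ≤ C ∧ (q.1 ∈ B → q.2 ∈ B → ∀ h : Z2 → ℝ,
      (h q.1 - h q.2) ^ 2 ≤ C * EE B f h) := by
    intro q
    by_cases hq : q.1 ∈ B ∧ q.2 ∈ B
    · obtain ⟨C, hC, hCh⟩ := diff_le hB hf hq.1 hq.2
      exact ⟨C, hC, fun _ _ => hCh⟩
    · exact ⟨0, le_rfl, fun h1 h2 => absurd ⟨h1, h2⟩ hq⟩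
  choose C hC hCh using h1
  refine ⟨∑ q ∈ B ×ˢ B, C q + 1, ?_, fun h x hx y hy => ?_⟩
  · have : 0 ≤ ∑ q ∈ B ×ˢ B, C q := Finset.sum_nonneg fun q _ => hC q
    linarith
  · have h2 := hCh (x, y) hx hy h
    have h3 : C (x, y) ≤ ∑ q ∈ B ×ˢ B, C q :=
      Finset.single_le_sum (f := C) (fun q _ => hC q) (Finset.mem_product.2 ⟨hx, hy⟩)
    have h4 := EE_nonneg hf h
    refine h2.trans (mul_le_mul_of_nonneg_right (by linarith) h4)

/-- Spectral gap on the orthogonal complement of `f`. -/
lemma gap_exists {B : Finset Z2} (hB : Conn (B : Set Z2)) (hne : B.Nonempty) {f : Z2 → ℝ}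
    (hf : ∀ x ∈ B, 0 < f x) :
    ∃ gap : ℝ, 0 < gap ∧ ∀ g : Z2 → ℝ, ∑ x ∈ B, f x * g x = 0 →
      Q B (pot B f) g ≤ -gap * nsq B g := by
  obtain ⟨C, hC, hCh⟩ := poincare hB hf
  have hN : 0 < nsq B f := by
    obtain ⟨x, hx⟩ := hne
    exact Finset.sum_pos (fun x hx => pow_pos (hf x hx) 2) ⟨x, hx⟩
  refine ⟨2 / (C * nsq B f), by positivity, fun g hg => ?_⟩
  rw [Q_pot hf]
  set h : Z2 → ℝ := fun x => g x / f x with hh
  have hgx : ∀ x ∈ B, g x = f x * h x := fun x hx => by
    rw [hh]
    have := (hf x hx).ne'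
    field_simp
  have h0 : ∑ x ∈ B, f x ^ 2 * h x = 0 := by
    rw [← hg]
    exact Finset.sum_congr rfl fun x hx => by rw [hgx x hx]; ring
  have h1 : nsq B g = ∑ x ∈ B, f x ^ 2 * h x ^ 2 := by
    unfold nsq
    exact Finset.sum_congr rfl fun x hx => by rw [hgx x hx]; ring
  have h2 : ∑ x ∈ B, ∑ y ∈ B, f x ^ 2 * f y ^ 2 * (h x - h y) ^ 2 = 2 * (nsq B f * nsq B g) := by
    have e1 : ∀ x ∈ B, ∑ y ∈ B, f x ^ 2 * f y ^ 2 * (h x - h y) ^ 2 =
        f x ^ 2 * h x ^ 2 * nsq B f + f x ^ 2 * nsq B g := by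
      intro x _
      have e2 : ∑ y ∈ B, f x ^ 2 * f y ^ 2 * (h x - h y) ^ 2 =
          f x ^ 2 * h x ^ 2 * (∑ y ∈ B, f y ^ 2) + f x ^ 2 * (∑ y ∈ B, f y ^ 2 * h y ^ 2) -
          2 * f x ^ 2 * h x * ∑ y ∈ B, f y ^ 2 * h y := by
        rw [Finset.mul_sum, Finset.mul_sum, Finset.mul_sum, ← Finset.sum_add_distrib,
          ← Finset.sum_sub_distrib]
        exact Finset.sum_congr rfl fun y _ => by ring
      rw [e2, h0, ← h1]
      unfold nsq
      ring
    rw [Finset.sum_congr rfl e1, Finset.sum_add_distrib, ← Finset.sum_mul, ← Finset.sum_mul,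
      ← h1]
    unfold nsq
    ring
  have h3 : ∑ x ∈ B, ∑ y ∈ B, f x ^ 2 * f y ^ 2 * (h x - h y) ^ 2 ≤
      C * EE B f h * (nsq B f * nsq B f) := by
    have e1 : C * EE B f h * (nsq B f * nsq B f) =
        ∑ x ∈ B, ∑ y ∈ B, f x ^ 2 * f y ^ 2 * (C * EE B f h) := by
      unfold nsq
      rw [Finset.sum_mul_sum, Finset.mul_sum]
      refine Finset.sum_congr rfl fun x _ => ?_
      rw [Finset.mul_sum]
      exact Finset.sum_congr rfl fun y _ => by ring
    rw [e1]
    refine Finset.sum_le_sum fun x hx => Finset.sum_le_sum fun y hy => ?_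
    exact mul_le_mul_of_nonneg_left (hCh h x hx y hy) (by positivity)
  rw [h2] at h3
  have h4 : 2 * nsq B g ≤ C * EE B f h * nsq B f := by
    have : nsq B f * (2 * nsq B g) ≤ nsq B f * (C * EE B f h * nsq B f) := by linarith
    exact le_of_mul_le_mul_left this hN
  have h5 : 2 / (C * nsq B f) * nsq B g ≤ EE B f h := by
    rw [div_mul_eq_mul_div, div_le_iff₀ (by positivity)]
    linarith
  linarith

/-- Rayleigh quotient bound for the potential perturbed at one site. -/
lemma rayleigh {B : Finset Z2} {f : Z2 → ℝ} (hf : ∀ x ∈ B, 0 < f x) (hne : B.Nonempty)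
    {gap : ℝ} (hgap : 0 < gap)
    (hg : ∀ g : Z2 → ℝ, ∑ x ∈ B, f x * g x = 0 → Q B (pot B f) g ≤ -gap * nsq B g)
    {x : Z2} (hx : x ∈ B) {η : ℝ} (hη : |η| ≤ gap / 4) (g : Z2 → ℝ) :
    Q B (fun z => pot B f z + η * (if z = x then 1 else 0)) g ≤
      (η * (f x ^ 2 / nsq B f) + 2 / gap * η ^ 2) * nsq B g := by
  have hN : 0 < nsq B f := by
    obtain ⟨x, hx⟩ := hne
    exact Finset.sum_pos (fun x hx => pow_pos (hf x hx) 2) ⟨x, hx⟩
  set N := nsq B f with hNdef
  -- coefficient of f
  set a : ℝ := (∑ z ∈ B, f z * g z) / N with ha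
  set k : Z2 → ℝ := fun z => g z - a * f z with hk
  have horth : ∑ z ∈ B, f z * k z = 0 := by
    have : ∑ z ∈ B, f z * k z = ∑ z ∈ B, f z * g z - a * N := by
      rw [hNdef]
      unfold nsq
      rw [Finset.mul_sum, ← Finset.sum_sub_distrib]
      exact Finset.sum_congr rfl fun z _ => by rw [hk]; ring
    rw [this, ha, div_mul_cancel₀ _ hN.ne', sub_self]
  have hQ1 : Q B (fun z => pot B f z + η * (if z = x then 1 else 0)) g =
      Q B (pot B f) g + η * g x ^ 2 := by
    unfold Q
    have e1 : ∀ z ∈ B, g z * opA B (fun z => pot B f z + η * (if z = x then 1 else 0)) g z =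
        g z * opA B (pot B f) g z + (if z = x then η * g z ^ 2 else 0) := by
      intro z _
      unfold opA
      by_cases hzx : z = x
      · simp only [if_pos hzx]; ring
      · simp only [if_neg hzx]; ring
    rw [Finset.sum_congr rfl e1, Finset.sum_add_distrib, Finset.sum_ite_eq' B x, if_pos hx]
  have hQ2 : Q B (pot B f) g = Q B (pot B f) k := by
    rw [Q_pot hf, Q_pot hf]
    congr 1
    have e1 : EE B f (fun z => g z / f z) = EE B f (fun z => k z / f z + a) := by
      unfold EE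
      congr 1
      refine Finset.sum_congr rfl fun z hz => Finset.sum_congr rfl fun e _ => ?_
      split_ifs with he
      · have h1 := (hf z hz).ne'
        have h2 := (hf _ he).ne'
        have e3 : g z / f z = k z / f z + a := by
          rw [hk]; field_simp; ring
        have e4 : g (z + step e) / f (z + step e) = k (z + step e) / f (z + step e) + a := by
          rw [hk]; field_simp; ring
        simp only [e3, e4]
      · rfl
    rw [e1, EE_shift]
  have hnsq : nsq B g = a ^ 2 * N + nsq B k := by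
    have : nsq B g = a ^ 2 * N + nsq B k + 2 * a * ∑ z ∈ B, f z * k z := by
      rw [hNdef]
      unfold nsq
      rw [Finset.mul_sum, Finset.mul_sum, ← Finset.sum_add_distrib, ← Finset.sum_add_distrib]
      exact Finset.sum_congr rfl fun z _ => by rw [hk]; ring
    rw [this, horth]
    ring
  have hkx : k x ^ 2 ≤ nsq B k :=
    Finset.single_le_sum (f := fun z => k z ^ 2) (fun z _ => sq_nonneg _) hx
  have hfx : f x ^ 2 ≤ N :=
    Finset.single_le_sum (f := fun z => f z ^ 2) (fun z _ => sq_nonneg _) hx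
  have hk0 : 0 ≤ nsq B k := Finset.sum_nonneg fun z _ => sq_nonneg _
  have hgx : g x = a * f x + k x := by rw [hk]; ring
  rw [hQ1, hQ2, hnsq, hgx]
  have h1 := hg k horth
  obtain ⟨hη1, hη2⟩ := abs_le.1 hη
  set q := f x ^ 2 / N with hq
  have hq1 : q ≤ 1 := by rw [hq, div_le_one hN]; exact hfx
  have hq0 : 0 ≤ q := by positivity
  have hqN : q * N = f x ^ 2 := by rw [hq]; field_simp
  -- cross term
  have hcross : η * (2 * (a * f x) * k x) ≤ 2 / gap * η ^ 2 * (a * f x) ^ 2 + gap / 2 * k x ^ 2 := by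
    have h2 : 0 ≤ (2 / gap) * (η * (a * f x) - gap / 2 * k x) ^ 2 := by positivity
    have h3 : (2 / gap) * (η * (a * f x) - gap / 2 * k x) ^ 2 =
        2 / gap * η ^ 2 * (a * f x) ^ 2 + gap / 2 * k x ^ 2 - η * (2 * (a * f x) * k x) := by
      field_simp
      ring
    linarith
  have hself : η * k x ^ 2 ≤ gap / 4 * nsq B k := by
    nlinarith [sq_nonneg (k x)]
  have hhalf : gap / 2 * k x ^ 2 ≤ gap / 2 * nsq B k := by
    nlinarith
  have hfx2 : 2 / gap * η ^ 2 * (a * f x) ^ 2 ≤ 2 / gap * η ^ 2 * (a ^ 2 * N) := by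
    have : (a * f x) ^ 2 ≤ a ^ 2 * N := by
      rw [mul_pow]
      exact mul_le_mul_of_nonneg_left hfx (sq_nonneg a)
    exact mul_le_mul_of_nonneg_left this (by positivity)
  have hlow : -(gap / 4) * nsq B k ≤ (η * q + 2 / gap * η ^ 2) * nsq B k := by
    refine mul_le_mul_of_nonneg_right ?_ hk0
    have h2 : -(gap / 4) ≤ η * q := by nlinarith
    have h3 : 0 ≤ 2 / gap * η ^ 2 := by positivity
    linarith
  have hmain : η * (a * f x) ^ 2 = η * q * (a ^ 2 * N) := by
    rw [mul_pow, ← hqN]; ring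
  nlinarith

/-- The exponent of the tilting functional. -/
lemma expo_eq {B : Finset Z2} (V : Z2 → ℝ) (l : Pth) (hl : ∀ p ∈ l, p.1 ∈ B) :
    (l.map fun p => V p.1 * p.2).sum = ∑ x ∈ B, V x * occ l x := by
  induction l with
  | nil => simp [occ]
  | cons p l ih =>
    have hp : p.1 ∈ B := hl p (by simp)
    rw [List.map_cons, List.sum_cons, ih fun q hq => hl q (List.mem_cons_of_mem _ hq)]
    have e1 : ∀ x ∈ B, V x * occ (p :: l) x = (if p.1 = x then V x * p.2 else 0) +
        V x * occ l x := by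
      intro x _
      unfold occ
      rw [List.map_cons, List.sum_cons]
      split_ifs <;> ring
    rw [Finset.sum_congr rfl e1, Finset.sum_add_distrib, Finset.sum_ite_eq B p.1, if_pos hp]

lemma expo_add (V : Z2 → ℝ) (η : ℝ) (x : Z2) (l : Pth) :
    (l.map fun p => (V p.1 + η * (if p.1 = x then 1 else 0)) * p.2).sum =
      (l.map fun p => V p.1 * p.2).sum + η * occ l x := by
  induction l with
  | nil => simp [occ]
  | cons p l ih =>
    unfold occ at ih ⊢
    rw [List.map_cons, List.sum_cons, ih, List.map_cons, List.sum_cons, List.map_cons,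
      List.sum_cons]
    split_ifs <;> ring

lemma occ_eq_zero {B : Finset Z2} {l : Pth} (hl : ∀ p ∈ l, p.1 ∈ B) {z : Z2} (hz : z ∉ B) :
    occ l z = 0 := by
  unfold occ
  refine List.sum_eq_zero fun y hy => ?_
  obtain ⟨p, hp, rfl⟩ := List.mem_map.1 hy
  rw [if_neg]
  rintro rfl
  exact hz (hl p hp)

/-- The energy is positive. -/
lemma dirE_pos {B : Finset Z2} (hne : B.Nonempty) {f : Z2 → ℝ} (hf : ∀ x ∈ B, 0 < f x) :
    0 < dirE B f := by
  -- rightmost point
  obtain ⟨x₀, hx₀, hmax⟩ := Finset.exists_max_image B (fun z => z.1) hne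
  have hout : x₀ + step 0 ∉ B := by
    intro h
    have := hmax _ h
    simp [step] at this
  have h1 : dirE B f = (1 / 2) * ∑ x ∈ B, ∑ e : Fin 4,
      (if x + step e ∈ B then (f x - f (x + step e)) ^ 2 else 0) +
      ∑ x ∈ B, ∑ e : Fin 4, (if x + step e ∈ B then 0 else f x ^ 2) := by
    have h2 := sum_swap B (fun x _ => f x ^ 2)
    have h3 : dirE B f = ∑ x ∈ B, ∑ e : Fin 4,
        (if x + step e ∈ B then f x ^ 2 - f x * f (x + step e) else f x ^ 2) := by
      unfold dirE Q opA
      rw [← Finset.sum_neg_distrib]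
      refine Finset.sum_congr rfl fun x _ => ?_
      have e1 : ∑ e : Fin 4, (if x + step e ∈ B then f x ^ 2 - f x * f (x + step e)
          else f x ^ 2) = ∑ e : Fin 4, (f x ^ 2 -
          f x * (if x + step e ∈ B then f (x + step e) else 0)) := by
        refine Finset.sum_congr rfl fun e _ => ?_
        split_ifs <;> ring
      rw [e1, Finset.sum_sub_distrib, ← Finset.mul_sum]
      simp only [Finset.sum_const, Finset.card_univ, Fintype.card_fin, nsmul_eq_mul]
      push_cast
      ring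
    have h4 : ∑ x ∈ B, ∑ e : Fin 4,
        (if x + step e ∈ B then f x ^ 2 - f x * f (x + step e) else f x ^ 2) =
        ∑ x ∈ B, ∑ e : Fin 4, (if x + step e ∈ B then f x ^ 2 else 0) -
        ∑ x ∈ B, ∑ e : Fin 4, (if x + step e ∈ B then f x * f (x + step e) else 0) +
        ∑ x ∈ B, ∑ e : Fin 4, (if x + step e ∈ B then 0 else f x ^ 2) := by
      rw [← Finset.sum_sub_distrib, ← Finset.sum_add_distrib]
      refine Finset.sum_congr rfl fun x _ => ?_
      rw [← Finset.sum_sub_distrib, ← Finset.sum_add_distrib]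
      refine Finset.sum_congr rfl fun e _ => ?_
      split_ifs <;> ring
    have h5 : ∑ x ∈ B, ∑ e : Fin 4,
        (if x + step e ∈ B then (f x - f (x + step e)) ^ 2 else 0) =
        ∑ x ∈ B, ∑ e : Fin 4, (if x + step e ∈ B then f x ^ 2 else 0) +
        ∑ x ∈ B, ∑ e : Fin 4, (if x + step e ∈ B then f (x + step e) ^ 2 else 0) -
        2 * ∑ x ∈ B, ∑ e : Fin 4, (if x + step e ∈ B then f x * f (x + step e) else 0) := by
      rw [Finset.mul_sum, ← Finset.sum_add_distrib, ← Finset.sum_sub_distrib]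
      refine Finset.sum_congr rfl fun x _ => ?_
      rw [Finset.mul_sum, ← Finset.sum_add_distrib, ← Finset.sum_sub_distrib]
      refine Finset.sum_congr rfl fun e _ => ?_
      split_ifs <;> ring
    rw [h3, h4, h5]
    linarith
  rw [h1]
  have h2 : 0 ≤ ∑ x ∈ B, ∑ e : Fin 4,
      (if x + step e ∈ B then (f x - f (x + step e)) ^ 2 else 0) :=
    Finset.sum_nonneg fun x _ => Finset.sum_nonneg fun e _ => by split_ifs <;> positivity
  have h3 : f x₀ ^ 2 ≤ ∑ x ∈ B, ∑ e : Fin 4, (if x + step e ∈ B then 0 else f x ^ 2) := by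
    have e1 : f x₀ ^ 2 ≤ ∑ e : Fin 4, (if x₀ + step e ∈ B then 0 else f x₀ ^ 2) := by
      have := Finset.single_le_sum (f := fun e : Fin 4 => (if x₀ + step e ∈ B then 0
        else f x₀ ^ 2)) (fun e _ => by split_ifs <;> positivity) (Finset.mem_univ (0 : Fin 4))
      simpa [hout] using this
    refine e1.trans ?_
    exact Finset.single_le_sum (f := fun x => ∑ e : Fin 4, (if x + step e ∈ B then 0
      else f x ^ 2)) (fun x _ => Finset.sum_nonneg fun e _ => by split_ifs <;> positivity) hx₀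
  have h4 := pow_pos (hf x₀ hx₀) 2
  linarith

lemma fk_of {B : Finset Z2} (W : Z2 → ℝ) {b : Z2} {l : Pth}
    (hl : (∀ p ∈ l, p.1 ∈ B) ∧ (l.getLast?.map Prod.fst) = some b) :
    fk B W b l = ENNReal.ofReal (Real.exp (l.map fun p => W p.1 * p.2).sum) := by
  unfold fk ind
  rw [if_pos hl, one_mul]

lemma fk_of_not {B : Finset Z2} (W : Z2 → ℝ) {b : Z2} {l : Pth}
    (hl : ¬ ((∀ p ∈ l, p.1 ∈ B) ∧ (l.getLast?.map Prod.fst) = some b)) :
    fk B W b l = 0 := by
  unfold fk ind
  rw [if_neg hl, zero_mul]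

lemma sum_pot {B : Finset Z2} {f : Z2 → ℝ} (hf : ∀ x ∈ B, 0 < f x) :
    ∑ x ∈ B, pot B f x * f x ^ 2 = dirE B f := by
  unfold dirE Q pot
  rw [← Finset.sum_neg_distrib]
  refine Finset.sum_congr rfl fun x hx => ?_
  have := (hf x hx).ne'
  field_simp

end FinL

open FinL in
theorem fin_lemma (B : Finset Z2) (hB : Conn (B : Set Z2)) (hne : B.Nonempty) (f : Z2 → ℝ)
    (hf : ∀ x ∈ B, 0 < f x) (hf0 : ∀ x, x ∉ B → f x = 0) (δ : ℝ) (hδ : 0 < δ) (hδ1 : δ < 1) :
    ∃ s0 : ℝ, 0 < s0 ∧ ∀ s : ℝ, s0 ≤ s → ∀ a ∈ B, ∀ b ∈ B,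
      Reach B a b (s * nsq B f) (fun x => (1 - δ) * s * f x ^ 2) (s * ((1 + δ) * dirE B f)) := by
  classical
  obtain ⟨gap, hgap, hg⟩ := gap_exists hB hne hf
  have hN : 0 < nsq B f := by
    obtain ⟨x, hx⟩ := hne
    exact Finset.sum_pos (fun x hx => pow_pos (hf x hx) 2) ⟨x, hx⟩
  have hD := dirE_pos hne hf
  -- minimum of f
  obtain ⟨xm, hxm, hmin⟩ := Finset.exists_min_image B f hne
  set fm := f xm with hfm
  have hfm0 : 0 < fm := hf xm hxm
  set N := nsq B f with hNdef
  set V := pot B f with hVdef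
  set M : ℝ := ∑ x ∈ B, |V x| * f x ^ 2 with hM
  have hM0 : 0 ≤ M := Finset.sum_nonneg fun x _ => by positivity
  -- the constants
  obtain ⟨δ', hδ'0, hδ'δ, hδ'M⟩ : ∃ δ' : ℝ, 0 < δ' ∧ δ' ≤ δ ∧ δ' * M ≤ δ * dirE B f / 2 := by
    refine ⟨min δ (δ * dirE B f / 2 / (M + 1)), ?_, min_le_left _ _, ?_⟩
    · exact lt_min hδ (by positivity)
    · calc min δ (δ * dirE B f / 2 / (M + 1)) * M ≤ (δ * dirE B f / 2 / (M + 1)) * M :=
            mul_le_mul_of_nonneg_right (min_le_right _ _) hM0
        _ ≤ (δ * dirE B f / 2 / (M + 1)) * (M + 1) := by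
            refine mul_le_mul_of_nonneg_left (by linarith) (by positivity)
        _ = δ * dirE B f / 2 := by field_simp
  obtain ⟨η, hη0, hηgap, hηq⟩ : ∃ η : ℝ, 0 < η ∧ η ≤ gap / 4 ∧
      2 / gap * η * N ≤ δ' * fm ^ 2 / 2 := by
    refine ⟨min (gap / 4) (δ' * fm ^ 2 / 2 / (2 / gap * N)), ?_, min_le_left _ _, ?_⟩
    · exact lt_min (by positivity) (by positivity)
    · calc 2 / gap * min (gap / 4) (δ' * fm ^ 2 / 2 / (2 / gap * N)) * N
          ≤ 2 / gap * (δ' * fm ^ 2 / 2 / (2 / gap * N)) * N := by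
            refine mul_le_mul_of_nonneg_right ?_ hN.le
            exact mul_le_mul_of_nonneg_left (min_le_right _ _) (by positivity)
        _ = δ' * fm ^ 2 / 2 := by field_simp
  set c1 : ℝ := η * (δ' * fm ^ 2 / 2) with hc1
  have hc10 : 0 < c1 := by positivity
  set c0 : ℝ := fm ^ 2 / N with hc0
  have hc00 : 0 < c0 := by positivity
  -- large s
  have t1 : Tendsto (fun s : ℝ => Real.exp (-(gap * N) * s)) atTop (𝓝 0) := by
    refine Real.tendsto_exp_atBot.comp ?_
    exact tendsto_id.const_mul_atTop_of_neg (by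
      have : 0 < gap * N := by positivity
      linarith)
  have t2 : Tendsto (fun s : ℝ => 2 * (B.card : ℝ) * Real.exp (-c1 * s)) atTop (𝓝 0) := by
    have : Tendsto (fun s : ℝ => Real.exp (-c1 * s)) atTop (𝓝 0) := by
      refine Real.tendsto_exp_atBot.comp ?_
      exact tendsto_id.const_mul_atTop_of_neg (by linarith)
    simpa using this.const_mul (2 * (B.card : ℝ))
  have t3 : Tendsto (fun s : ℝ => Real.exp (-(δ * dirE B f / 2) * s)) atTop (𝓝 0) := by
    refine Real.tendsto_exp_atBot.comp ?_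
    exact tendsto_id.const_mul_atTop_of_neg (by
      have : 0 < δ * dirE B f / 2 := by positivity
      linarith)
  have ev := ((t1.eventually (ge_mem_nhds (show (0 : ℝ) < c0 / 2 by positivity))).and
    ((t2.eventually (ge_mem_nhds (show (0 : ℝ) < c0 / 4 by positivity))).and
    ((t3.eventually (ge_mem_nhds (show (0 : ℝ) < c0 / 4 by positivity))).and
      (eventually_ge_atTop (1 : ℝ)))))
  obtain ⟨s0, hs0⟩ := eventually_atTop.1 ev
  refine ⟨max s0 1, by positivity, fun s hs a ha b hb => ?_⟩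
  obtain ⟨e1, e2, e3, e4⟩ := hs0 s (le_trans (le_max_left _ _) hs)
  have hs1 : 0 < s := by linarith
  have hT : 0 ≤ s * N := by positivity
  -- the functionals
  set Fg : Pth → ℝ≥0∞ := ind fun l => (∀ p ∈ l, p.1 ∈ B) ∧ (l.getLast?.map Prod.fst) = some b ∧
      ∀ z, (1 - δ) * s * f z ^ 2 ≤ occ l z with hFg
  set up : Z2 → Pth → ℝ≥0∞ := fun x l => ENNReal.ofReal (Real.exp (-(η * (1 + δ') * s * f x ^ 2))) *
      fk B (fun z => V z + η * (if z = x then 1 else 0)) b l with hup
  set lo : Z2 → Pth → ℝ≥0∞ := fun x l => ENNReal.ofReal (Real.exp (η * (1 - δ') * s * f x ^ 2)) *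
      fk B (fun z => V z + (-η) * (if z = x then 1 else 0)) b l with hlo
  set E : ℝ := Real.exp (s * dirE B f + s * (δ' * M)) with hE
  -- pointwise comparison
  have hpt : ∀ l : Pth, fk B V b l ≤ (∑ x ∈ B, (up x l + lo x l)) + ENNReal.ofReal E * Fg l := by
    intro l
    by_cases hl : (∀ p ∈ l, p.1 ∈ B) ∧ (l.getLast?.map Prod.fst) = some b
    · by_cases hgood : ∀ x ∈ B, (1 - δ') * s * f x ^ 2 ≤ occ l x ∧ occ l x ≤ (1 + δ') * s * f x ^ 2
      · have hFl : Fg l = 1 := by
          rw [hFg]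
          unfold ind
          rw [if_pos]
          refine ⟨hl.1, hl.2, fun z => ?_⟩
          by_cases hz : z ∈ B
          · refine le_trans ?_ (hgood z hz).1
            have : 0 ≤ s * f z ^ 2 := by positivity
            nlinarith
          · rw [hf0 z hz, occ_eq_zero hl.1 hz]; simp
        rw [hFl, mul_one]
        refine le_trans ?_ le_add_self
        rw [fk_of V hl]
        refine ENNReal.ofReal_le_ofReal ?_
        rw [hE, Real.exp_le_exp, expo_eq V l hl.1]
        have h1 : ∀ x ∈ B, V x * occ l x ≤ s * (V x * f x ^ 2) + s * (δ' * (|V x| * f x ^ 2)) := by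
          intro x hx
          obtain ⟨g1, g2⟩ := hgood x hx
          have h2 : |occ l x - s * f x ^ 2| ≤ δ' * s * f x ^ 2 := by
            rw [abs_le]
            constructor <;> nlinarith
          have h3 : V x * (occ l x - s * f x ^ 2) ≤ |V x| * (δ' * s * f x ^ 2) := by
            refine (le_abs_self _).trans ?_
            rw [abs_mul]
            exact mul_le_mul_of_nonneg_left h2 (abs_nonneg _)
          nlinarith
        refine (Finset.sum_le_sum h1).trans (le_of_eq ?_)
        rw [Finset.sum_add_distrib, ← Finset.mul_sum, ← Finset.mul_sum, ← Finset.mul_sum, hVdef,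
          sum_pot hf]
      · push Not at hgood
        obtain ⟨x, hx, hbad⟩ := hgood
        refine le_trans ?_ (le_add_right (Finset.single_le_sum (f := fun x => up x l + lo x l)
          (fun _ _ => zero_le) hx))
        by_cases hlow : (1 - δ') * s * f x ^ 2 ≤ occ l x
        · have h1 := hbad hlow
          refine le_trans ?_ le_self_add
          rw [hup]
          dsimp only
          rw [fk_of V hl, fk_of _ hl, ← ENNReal.ofReal_mul (Real.exp_pos _).le,
            ← Real.exp_add, expo_add]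
          refine ENNReal.ofReal_le_ofReal (Real.exp_le_exp.2 ?_)
          nlinarith
        · rw [not_le] at hlow
          refine le_trans ?_ le_add_self
          rw [hlo]
          dsimp only
          rw [fk_of V hl, fk_of _ hl, ← ENNReal.ofReal_mul (Real.exp_pos _).le,
            ← Real.exp_add, expo_add]
          refine ENNReal.ofReal_le_ofReal (Real.exp_le_exp.2 ?_)
          nlinarith
    · rw [fk_of_not V hl]
      exact zero_le
  -- apply K
  have hmup : ∀ x, MeasF (up x) := fun x => (MeasF.const _).mul (MeasF.fk _ _ _)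
  have hmlo : ∀ x, MeasF (lo x) := fun x => (MeasF.const _).mul (MeasF.fk _ _ _)
  have hmsum : MeasF (fun l => ∑ x ∈ B, (up x l + lo x l)) := fun n z =>
    Finset.measurable_sum _ fun x _ => ((hmup x).add (hmlo x)) n z
  have hK1 : K a (s * N) (fk B V b) ≤
      (∑ x ∈ B, (K a (s * N) (up x) + K a (s * N) (lo x))) +
        ENNReal.ofReal E * K a (s * N) Fg := by
    refine (K_mono a (s * N) hpt).trans (le_of_eq ?_)
    rw [K_add hmsum, K_finsum B _ (fun x _ => (hmup x).add (hmlo x)),
      K_const_mul _ _ _ ENNReal.ofReal_ne_top]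
    congr 1
    exact Finset.sum_congr rfl fun x _ => K_add (hmup x) a (s * N)
  -- tails
  have hfmx : ∀ x ∈ B, fm ^ 2 ≤ f x ^ 2 := fun x hx => pow_le_pow_left₀ hfm0.le (hmin x hx) 2
  have hKup : ∀ x ∈ B, K a (s * N) (up x) ≤ ENNReal.ofReal (Real.exp (-c1 * s)) := by
    intro x hx
    rw [hup, K_const_mul _ _ _ ENNReal.ofReal_ne_top]
    have h1 := fk_upper B (fun z => V z + η * (if z = x then 1 else 0))
      (η * (f x ^ 2 / N) + 2 / gap * η ^ 2)
      (fun g => rayleigh hf hne hgap hg hx (by rw [abs_of_pos hη0]; exact hηgap) g) a b ha hb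
      (s * N) hT
    refine (mul_le_mul_right h1 _).trans ?_
    rw [← ENNReal.ofReal_mul (Real.exp_pos _).le, ← Real.exp_add]
    refine ENNReal.ofReal_le_ofReal (Real.exp_le_exp.2 ?_)
    have h2 : (η * (f x ^ 2 / N) + 2 / gap * η ^ 2) * (s * N) =
        η * s * f x ^ 2 + η * s * (2 / gap * η * N) := by
      field_simp
    rw [h2, hc1]
    have h3 := hfmx x hx
    have h4 : η * s * (2 / gap * η * N) ≤ η * s * (δ' * fm ^ 2 / 2) :=
      mul_le_mul_of_nonneg_left hηq (by positivity)
    have h5 : η * s * (δ' * fm ^ 2) ≤ η * s * (δ' * f x ^ 2) :=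
      mul_le_mul_of_nonneg_left (mul_le_mul_of_nonneg_left h3 hδ'0.le) (by positivity)
    nlinarith
  have hKlo : ∀ x ∈ B, K a (s * N) (lo x) ≤ ENNReal.ofReal (Real.exp (-c1 * s)) := by
    intro x hx
    rw [hlo, K_const_mul _ _ _ ENNReal.ofReal_ne_top]
    have h1 := fk_upper B (fun z => V z + (-η) * (if z = x then 1 else 0))
      ((-η) * (f x ^ 2 / N) + 2 / gap * (-η) ^ 2)
      (fun g => rayleigh hf hne hgap hg hx (by rw [abs_neg, abs_of_pos hη0]; exact hηgap) g)
      a b ha hb (s * N) hT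
    refine (mul_le_mul_right h1 _).trans ?_
    rw [← ENNReal.ofReal_mul (Real.exp_pos _).le, ← Real.exp_add]
    refine ENNReal.ofReal_le_ofReal (Real.exp_le_exp.2 ?_)
    have h2 : ((-η) * (f x ^ 2 / N) + 2 / gap * (-η) ^ 2) * (s * N) =
        -(η * s * f x ^ 2) + η * s * (2 / gap * η * N) := by
      field_simp
    rw [h2, hc1]
    have h3 := hfmx x hx
    have h4 : η * s * (2 / gap * η * N) ≤ η * s * (δ' * fm ^ 2 / 2) :=
      mul_le_mul_of_nonneg_left hηq (by positivity)
    have h5 : η * s * (δ' * fm ^ 2) ≤ η * s * (δ' * f x ^ 2) :=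
      mul_le_mul_of_nonneg_left (mul_le_mul_of_nonneg_left h3 hδ'0.le) (by positivity)
    nlinarith
  -- lower bound for the total
  set φ : Z2 → ℝ := fun x => f x / Real.sqrt N with hφ
  have hsN : 0 < Real.sqrt N := Real.sqrt_pos.2 hN
  have hsq : Real.sqrt N ^ 2 = N := Real.sq_sqrt hN.le
  have hφ1 : nsq B φ = 1 := by
    have : nsq B φ = nsq B f / N := by
      unfold nsq
      rw [Finset.sum_div]
      refine Finset.sum_congr rfl fun x _ => ?_
      rw [hφ]
      dsimp only
      rw [div_pow, hsq]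
    rw [this, ← hNdef, div_self hN.ne']
  have hlow := fk_lower B V 0 gap φ hφ1 hgap.le (fun x hx => by
      have h1 : opA B V φ x = opA B V f x / Real.sqrt N := by
        unfold opA
        rw [hφ]
        dsimp only
        have e1 : (∑ e : Fin 4, if x + step e ∈ B then f (x + step e) / Real.sqrt N else 0) =
            (∑ e : Fin 4, if x + step e ∈ B then f (x + step e) else 0) / Real.sqrt N := by
          rw [Finset.sum_div]
          refine Finset.sum_congr rfl fun e _ => ?_
          split_ifs <;> simp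
        rw [e1]
        ring
      rw [h1, hVdef, opA_pot hf hx]
      simp) (fun g hgo => by
      have h1 : ∑ x ∈ B, f x * g x = 0 := by
        have : ∑ x ∈ B, φ x * g x = (∑ x ∈ B, f x * g x) / Real.sqrt N := by
          rw [Finset.sum_div]
          exact Finset.sum_congr rfl fun x _ => by rw [hφ]; ring
        rw [this] at hgo
        exact (div_eq_zero_iff.1 hgo).resolve_right hsN.ne'
      have := hg g h1
      rw [zero_add]
      exact this) a b ha hb (s * N) hT
  have hlow2 : ENNReal.ofReal (c0 / 2) ≤ K a (s * N) (fk B V b) := by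
    refine le_trans (ENNReal.ofReal_le_ofReal ?_) hlow
    rw [neg_zero, zero_mul, Real.exp_zero, one_mul]
    have h1 : c0 ≤ φ a * φ b := by
      rw [hφ, hc0]
      dsimp only
      rw [div_mul_div_comm, ← sq, hsq]
      refine div_le_div_of_nonneg_right ?_ hN.le
      rw [sq]
      exact mul_le_mul (hmin a ha) (hmin b hb) hfm0.le (hf a ha).le
    have h2 : Real.exp (-gap * (s * N)) ≤ c0 / 2 := by
      have : -gap * (s * N) = -(gap * N) * s := by ring
      rw [this]
      exact e1
    linarith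
  -- combine
  have hsum : (∑ x ∈ B, (K a (s * N) (up x) + K a (s * N) (lo x))) ≤
      ENNReal.ofReal (c0 / 4) := by
    calc (∑ x ∈ B, (K a (s * N) (up x) + K a (s * N) (lo x)))
        ≤ ∑ _x ∈ B, (ENNReal.ofReal (2 * Real.exp (-c1 * s))) := by
          refine Finset.sum_le_sum fun x hx => ?_
          refine (add_le_add (hKup x hx) (hKlo x hx)).trans (le_of_eq ?_)
          rw [← ENNReal.ofReal_add (Real.exp_pos _).le (Real.exp_pos _).le, two_mul]
      _ = ENNReal.ofReal (2 * (B.card : ℝ) * Real.exp (-c1 * s)) := by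
          rw [Finset.sum_const, nsmul_eq_mul, ← ENNReal.ofReal_natCast,
            ← ENNReal.ofReal_mul (Nat.cast_nonneg _)]
          congr 1
          ring
      _ ≤ ENNReal.ofReal (c0 / 4) := ENNReal.ofReal_le_ofReal e2
  have hfinal : ENNReal.ofReal (c0 / 4) ≤ ENNReal.ofReal E * K a (s * N) Fg := by
    have h1 : ENNReal.ofReal (c0 / 4) + ENNReal.ofReal (c0 / 4) ≤
        ENNReal.ofReal (c0 / 4) + ENNReal.ofReal E * K a (s * N) Fg := by
      rw [← ENNReal.ofReal_add (by positivity) (by positivity)]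
      have : c0 / 4 + c0 / 4 = c0 / 2 := by ring
      rw [this]
      exact hlow2.trans (hK1.trans (add_le_add hsum le_rfl))
    exact (ENNReal.add_le_add_iff_left ENNReal.ofReal_ne_top).1 h1
  unfold Reach
  change ENNReal.ofReal (Real.exp (-(s * ((1 + δ) * dirE B f)))) ≤ K a (s * N) Fg
  have hE0 : 0 < E := Real.exp_pos _
  have h1 : ENNReal.ofReal E * ENNReal.ofReal (Real.exp (-(s * ((1 + δ) * dirE B f)))) ≤
      ENNReal.ofReal E * K a (s * N) Fg := by
    refine le_trans ?_ hfinal
    rw [← ENNReal.ofReal_mul hE0.le, hE, ← Real.exp_add]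
    refine ENNReal.ofReal_le_ofReal ?_
    refine le_trans (Real.exp_le_exp.2 ?_) e3
    have : s * (δ' * M) ≤ s * (δ * dirE B f / 2) := mul_le_mul_of_nonneg_left hδ'M hs1.le
    nlinarith
  exact (ENNReal.mul_le_mul_iff_right (by simpa using hE0) ENNReal.ofReal_ne_top).1 h1

end Pool.Agent.WSQ
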