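import Pool.Agent.WSQ.Slice

/-!
# Module C2: gain in the slicing bound when a square in the bounding box is missed
-/

open scoped BigOperators

namespace Pool.Agent.WSQ

/-- If the set lies in an `a × b` box but misses the square of radius `r ≥ ρ (a+b)` around some
point of the box, the eigenvalue bound improves by `c / (a+b)²`, with `c` independent of `A`. -/
theorem slice_gain (ρ : ℝ) (hρ : 0 < ρ) :
    ∃ c : ℝ, 0 < c ∧ ∀ A : ℕ, 1 ≤ A → ∃ n0 : ℕ, ∀ (a b : ℕ) (_ : n0 ≤ a + b)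
      (_ : ρ * ((a : ℝ) + b) ≤ a) (_ : ρ * ((a : ℝ) + b) ≤ b) (θ : ℝ) (_ : 0 ≤ θ)
      (_ : θ ≤ 1 - 2 / ((A : ℝ) + 1)) (G : Finset Z2) (x0 y0 : ℤ)
      (_ : ∀ p ∈ G, x0 ≤ p.1 ∧ p.1 < x0 + a ∧ y0 ≤ p.2 ∧ p.2 < y0 + b)
      (q : Z2) (_ : x0 ≤ q.1 ∧ q.1 < x0 + a ∧ y0 ≤ q.2 ∧ q.2 < y0 + b)
      (r : ℕ) (_ : ρ * ((a : ℝ) + b) ≤ r)
      (_ : ∀ p ∈ G, ¬ (|p.1 - q.1| ≤ (r : ℤ) ∧ |p.2 - q.2| ≤ (r : ℤ))) (f : Z2 → ℝ),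
      Q G (fun x => θ * deg G x) f ≤
        -(mu A a + mu A b + c / ((a : ℝ) + b) ^ 2) * nsq G f := by
  sorry

end Pool.Agent.WSQ
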