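import Pool.Agent.WSQ.Upper

/-!
# Module H1: from `GoodSet` to Hausdorff distance
-/

open MeasureTheory ProbabilityTheory Filter Topology
open scoped ENNReal BigOperators

namespace Pool.Agent.WSQ

theorem toE_zero (p : Z2) : toE p 0 = (p.1 : ℝ) := by simp [toE]
theorem toE_one (p : Z2) : toE p 1 = (p.2 : ℝ) := by simp [toE]

/-- distance bound from coordinates -/
theorem dist_le_of_coord {u v : EuclideanSpace ℝ (Fin 2)} {r : ℝ} (hr : 0 ≤ r)
    (h0 : |u 0 - v 0| ≤ r / Real.sqrt 2) (h1 : |u 1 - v 1| ≤ r / Real.sqrt 2) :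
    dist u v ≤ r := by
  rw [EuclideanSpace.dist_eq, Fin.sum_univ_two, Real.dist_eq, Real.dist_eq]
  apply Real.sqrt_le_iff.mpr
  refine ⟨hr, ?_⟩
  have h2 : |u 0 - v 0| ^ 2 ≤ (r / Real.sqrt 2) ^ 2 := by gcongr
  have h3 : |u 1 - v 1| ^ 2 ≤ (r / Real.sqrt 2) ^ 2 := by gcongr
  have h4 : (r / Real.sqrt 2) ^ 2 = r ^ 2 / 2 := by
    rw [div_pow, Real.sq_sqrt (by norm_num)]
  rw [h4] at h2 h3
  linarith

/-- lower bound for the distance from coordinates -/
theorem le_dist_of_coord {u v : EuclideanSpace ℝ (Fin 2)} {r : ℝ} (hr : 0 ≤ r)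
    (h0 : r ≤ u 0 - v 0) (h1 : r ≤ u 1 - v 1) :
    Real.sqrt 2 * r ≤ dist u v := by
  rw [EuclideanSpace.dist_eq, Fin.sum_univ_two, Real.dist_eq, Real.dist_eq, sq_abs, sq_abs]
  apply Real.le_sqrt_of_sq_le
  rw [mul_pow, Real.sq_sqrt (by norm_num)]
  nlinarith

theorem near_of_good (ε : ℝ) (hε : 0 < ε) : ∃ ε' : ℝ, 0 < ε' ∧ ε' < 1 ∧ ∃ L0 : ℝ, 0 < L0 ∧
    ∀ (L : ℝ) (_ : L0 ≤ L) (R : Set Z2) (_ : R.Finite) (_ : GoodSet ε' L R),
      ∃ z : EuclideanSpace ℝ (Fin 2),
        Metric.hausdorffDist ((fun v => (Metric.diam (toE '' R))⁻¹ • v) '' (toE '' R))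
          ((fun v => z + v) '' unitSq) ≤ ε := by
  obtain ⟨ε', hε', hε'8, hε'10⟩ : ∃ ε' : ℝ, 0 < ε' ∧ ε' ≤ 1 / 8 ∧ 10 * ε' ≤ ε :=
    ⟨min (1 / 8) (ε / 10), by positivity, min_le_left _ _,
      by have := min_le_right (1 / 8 : ℝ) (ε / 10); linarith⟩
  refine ⟨ε', hε', by linarith, 1 / ε', by positivity, ?_⟩
  rintro L hL R hRfin ⟨x0, y0, a, b, ha1, ha2, hb1, hb2, hR, hq⟩
  have hεL : 1 ≤ ε' * L := by
    rw [div_le_iff₀ hε'] at hL
    linarith
  have hL8 : 8 ≤ L := by nlinarith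
  have hs2 : 0 < Real.sqrt 2 := by positivity
  have hs2sq : Real.sqrt 2 ^ 2 = 2 := Real.sq_sqrt (by norm_num)
  have ha0 : (1 : ℝ) ≤ a := by nlinarith
  have hb0 : (1 : ℝ) ≤ b := by nlinarith
  have ha0' : 1 ≤ a := by exact_mod_cast ha0
  have hb0' : 1 ≤ b := by exact_mod_cast hb0
  set D := Metric.diam (toE '' R) with hD
  have hbdd : Bornology.IsBounded (toE '' R) := (hRfin.image _).isBounded
  -- coordinates of points of `R`
  have hc : ∀ p ∈ R, (x0 : ℝ) ≤ p.1 ∧ (p.1 : ℝ) ≤ x0 + a - 1 ∧ (y0 : ℝ) ≤ p.2 ∧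
      (p.2 : ℝ) ≤ y0 + b - 1 := by
    intro p hp
    obtain ⟨h1, h2, h3, h4⟩ := hR p hp
    have h2' : p.1 ≤ x0 + a - 1 := by omega
    have h4' : p.2 ≤ y0 + b - 1 := by omega
    refine ⟨by exact_mod_cast h1, by exact_mod_cast h2', by exact_mod_cast h3,
      by exact_mod_cast h4'⟩
  -- upper bound for the diameter
  have hDu : D ≤ Real.sqrt 2 * ((1 + ε') * L) := by
    apply Metric.diam_le_of_forall_dist_le (by positivity)
    rintro _ ⟨p, hp, rfl⟩ _ ⟨p', hp', rfl⟩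
    obtain ⟨h1, h2, h3, h4⟩ := hc p hp
    obtain ⟨h1', h2', h3', h4'⟩ := hc p' hp'
    have e : Real.sqrt 2 * ((1 + ε') * L) / Real.sqrt 2 = (1 + ε') * L := by
      field_simp
    apply dist_le_of_coord (by positivity)
    · rw [e, toE_zero, toE_zero, abs_le]; constructor <;> linarith
    · rw [e, toE_one, toE_one, abs_le]; constructor <;> linarith
  -- lower bound for the diameter
  have hDl : Real.sqrt 2 * ((1 - 4 * ε') * L) ≤ D := by
    obtain ⟨p, hp, hp1, hp2⟩ := hq (x0, y0) ⟨le_rfl, by simp; omega, le_rfl, by simp; omega⟩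
    obtain ⟨p', hp', hp1', hp2'⟩ := hq (x0 + a - 1, y0 + b - 1)
      ⟨by simp; omega, by simp, by simp; omega, by simp⟩
    rw [abs_le] at hp1 hp2 hp1' hp2'
    push_cast at hp1' hp2'
    have h := le_dist_of_coord (u := toE p') (v := toE p) (r := (1 - 4 * ε') * L)
      (by nlinarith) (by rw [toE_zero, toE_zero]; linarith) (by rw [toE_one, toE_one]; linarith)
    exact h.trans (Metric.dist_le_diam_of_mem hbdd ⟨p', hp', rfl⟩ ⟨p, hp, rfl⟩)
  have hDpos : 0 < D := lt_of_lt_of_le (by have : 0 < (1 - 4 * ε') * L := by nlinarith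
                                           positivity) hDl
  -- `L ≤ √2 D` etc
  have hLD : (1 - 4 * ε') * L ≤ D / Real.sqrt 2 := by
    rw [le_div_iff₀ hs2]; linarith
  have hDL : D / Real.sqrt 2 ≤ (1 + ε') * L := by
    rw [div_le_iff₀ hs2]; linarith
  have hLD2 : L ≤ 2 * (D / Real.sqrt 2) := by nlinarith
  refine ⟨D⁻¹ • toE (x0, y0), ?_⟩
  apply Metric.hausdorffDist_le_of_mem_dist hε.le
  · rintro _ ⟨_, ⟨p, hp, rfl⟩, rfl⟩
    obtain ⟨h1, h2, h3, h4⟩ := hc p hp
    -- clip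
    set v : EuclideanSpace ℝ (Fin 2) := !₂[min ((p.1 - x0) / D) (1 / Real.sqrt 2),
      min ((p.2 - y0) / D) (1 / Real.sqrt 2)] with hv
    have hv0 : v 0 = min ((p.1 - x0) / D) (1 / Real.sqrt 2) := by simp [hv]
    have hv1 : v 1 = min ((p.2 - y0) / D) (1 / Real.sqrt 2) := by simp [hv]
    have clip : ∀ u : ℝ, 0 ≤ u → u ≤ (1 + ε') * L →
        |u / D - min (u / D) (1 / Real.sqrt 2)| ≤ ε / Real.sqrt 2 := by
      intro u hu0 hu1
      have hud : u / D ≤ 1 / Real.sqrt 2 + ε / Real.sqrt 2 := by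
        rw [div_le_iff₀ hDpos]
        have : (1 / Real.sqrt 2 + ε / Real.sqrt 2) * D = (1 + ε) * (D / Real.sqrt 2) := by ring
        rw [this]
        have h5 : 5 * ε' * L ≤ ε * (D / Real.sqrt 2) := by
          calc 5 * ε' * L ≤ 5 * ε' * (2 * (D / Real.sqrt 2)) := by gcongr
            _ = 10 * ε' * (D / Real.sqrt 2) := by ring
            _ ≤ ε * (D / Real.sqrt 2) := by gcongr
        nlinarith
      rcases le_total (u / D) (1 / Real.sqrt 2) with h | h
      · rw [min_eq_left h, sub_self, abs_zero]; positivity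
      · rw [min_eq_right h, abs_of_nonneg (by linarith)]; linarith
    refine ⟨_, ⟨v, ?_, rfl⟩, ?_⟩
    · intro i
      fin_cases i
      · change 0 ≤ v 0 ∧ v 0 ≤ _
        rw [hv0]
        exact ⟨le_min (div_nonneg (by linarith) hDpos.le) (by positivity), min_le_right _ _⟩
      · change 0 ≤ v 1 ∧ v 1 ≤ _
        rw [hv1]
        exact ⟨le_min (div_nonneg (by linarith) hDpos.le) (by positivity), min_le_right _ _⟩
    · apply dist_le_of_coord hε.le
      · have := clip (p.1 - x0) (by linarith) (by linarith)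
        simp only [PiLp.smul_apply, PiLp.add_apply, toE_zero, smul_eq_mul, hv0]
        convert this using 2
        field_simp
        ring
      · have := clip (p.2 - y0) (by linarith) (by linarith)
        simp only [PiLp.smul_apply, PiLp.add_apply, toE_one, smul_eq_mul, hv1]
        convert this using 2
        field_simp
        ring
  · rintro _ ⟨v, hv, rfl⟩
    -- nearest lattice point in the box
    have near : ∀ (u : ℝ) (n : ℕ), 0 ≤ u → u ≤ 1 / Real.sqrt 2 → 1 ≤ n → (1 - ε') * L ≤ n →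
        ∃ k : ℤ, 0 ≤ k ∧ k < n ∧ |(k : ℝ) - u * D| ≤ 3 * (ε' * L) := by
      intro u n hu0 hu1 hn hnL
      have huD : u * D ≤ (1 + ε') * L := by
        calc u * D ≤ 1 / Real.sqrt 2 * D := by gcongr
          _ = D / Real.sqrt 2 := by ring
          _ ≤ _ := hDL
      have hu0D : 0 ≤ u * D := by positivity
      have hn1 : (1 : ℝ) ≤ n := by exact_mod_cast hn
      rcases lt_or_ge ⌊u * D⌋ (n : ℤ) with h | h
      · refine ⟨⌊u * D⌋, Int.floor_nonneg.mpr hu0D, h, ?_⟩
        have h5 := Int.floor_le (u * D)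
        have h6 := Int.lt_floor_add_one (u * D)
        rw [abs_le]; constructor <;> linarith
      · refine ⟨(n : ℤ) - 1, by omega, by omega, ?_⟩
        have h7 : (n : ℝ) ≤ u * D := by
          have := Int.floor_le (u * D)
          have h8 : ((n : ℤ) : ℝ) ≤ (⌊u * D⌋ : ℝ) := by exact_mod_cast h
          push_cast at h8
          linarith
        push_cast
        rw [abs_le]; constructor <;> linarith
    obtain ⟨hv0, hv0'⟩ := hv 0
    obtain ⟨hv1, hv1'⟩ := hv 1
    obtain ⟨k, hk0, hk1, hk⟩ := near (v 0) a hv0 hv0' ha0' ha1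
    obtain ⟨l, hl0, hl1, hl⟩ := near (v 1) b hv1 hv1' hb0' hb1
    obtain ⟨p, hp, hp1, hp2⟩ := hq (x0 + k, y0 + l)
      ⟨by simp; omega, by simp; omega, by simp; omega, by simp; omega⟩
    push_cast at hp1 hp2
    have key : ∀ P X K V : ℝ, |P - (X + K)| ≤ ε' * L → |K - V * D| ≤ 3 * (ε' * L) →
        |D⁻¹ * X + V - D⁻¹ * P| ≤ ε / Real.sqrt 2 := by
      intro P X K V h5 h6
      have h7 : |P - X - V * D| ≤ 4 * (ε' * L) := by
        rw [abs_le] at h5 h6 ⊢
        constructor <;> linarith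
      have h8 : D⁻¹ * X + V - D⁻¹ * P = -((P - X - V * D) / D) := by
        field_simp; ring
      rw [h8, abs_neg, abs_div, abs_of_pos hDpos, div_le_iff₀ hDpos]
      have h9 : ε / Real.sqrt 2 * D = ε * (D / Real.sqrt 2) := by ring
      rw [h9]
      calc |P - X - V * D| ≤ 4 * (ε' * L) := h7
        _ ≤ 4 * (ε' * (2 * (D / Real.sqrt 2))) := by gcongr
        _ = 8 * ε' * (D / Real.sqrt 2) := by ring
        _ ≤ ε * (D / Real.sqrt 2) := by
          have : 8 * ε' ≤ ε := by linarith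
          gcongr
    refine ⟨_, ⟨_, ⟨p, hp, rfl⟩, rfl⟩, ?_⟩
    apply dist_le_of_coord hε.le
    · simp only [PiLp.smul_apply, PiLp.add_apply, toE_zero, smul_eq_mul]
      exact key _ _ _ _ hp1 hk
    · simp only [PiLp.smul_apply, PiLp.add_apply, toE_one, smul_eq_mul]
      exact key _ _ _ _ hp2 hl

end Pool.Agent.WSQ
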