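import Pool.Agent.WSQ.BoxLem
import Pool.Agent.WSQ.Fin

/-!
# Module G1: runs along the bottom side of a large box
-/

open MeasureTheory ProbabilityTheory Filter Topology
open scoped ENNReal BigOperators

namespace Pool.Agent.WSQ

namespace RunL

lemma mbx {m : ℕ} {z : Z2} :
    z ∈ box m ↔ (1 ≤ z.1 ∧ z.1 ≤ m) ∧ (1 ≤ z.2 ∧ z.2 ≤ m) := by
  unfold box
  rw [Finset.mem_product, Finset.mem_Icc, Finset.mem_Icc]

lemma comp {G : Finset Z2} {a b c : Z2} {T T' : ℝ} {g g' : Z2 → ℝ} {C C' : ℝ}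
    (h : ReachE G a b T g C) (h' : ReachE G b c T' g' C') :
    ReachE G a c (T + T') (fun z => g z + g' z) (C + C') := by
  obtain ⟨S, hS0, hS, hR⟩ := h
  obtain ⟨S', hS0', hS', hR'⟩ := h'
  exact ⟨S + S', by linarith, by linarith, hR.comp hS0 hS0' hR'⟩

lemma mono {G G' : Finset Z2} {a b : Z2} {T T' : ℝ} {g g' : Z2 → ℝ} {C C' : ℝ}
    (hG : G ⊆ G') (hT : T ≤ T') (hg : ∀ z, g' z ≤ g z) (hC : C ≤ C')
    (h : ReachE G a b T g C) : ReachE G' a b T' g' C' := by
  obtain ⟨S, hS0, hS, hR⟩ := h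
  exact ⟨S, hS0, hS.trans hT, hR.mono hG hg hC⟩

lemma refl {G : Finset Z2} {a : Z2} (ha : a ∈ G) : ReachE G a a 0 (fun _ => 0) 0 :=
  ⟨0, le_rfl, le_rfl, Reach.refl ha⟩

/-- Translate into a larger set. -/
lemma trans {G G' : Finset Z2} {a b a' b' : Z2} {T : ℝ} {g : Z2 → ℝ} {C : ℝ} (v : Z2)
    (hG : ∀ z ∈ G, z + v ∈ G') (ha : a + v = a') (hb : b + v = b') (h : ReachE G a b T g C) :
    ReachE G' a' b' T (fun z => g (z - v)) C := by
  obtain ⟨S, hS0, hS, hR⟩ := h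
  subst ha hb
  refine ⟨S, hS0, hS, (hR.translate v).mono ?_ (fun z => le_rfl) le_rfl⟩
  intro z hz
  obtain ⟨y, hy, rfl⟩ := Finset.mem_image.1 hz
  exact hG y hy

/-- Chaining. -/
lemma chain {G : Finset Z2} (p : ℕ → Z2) (T C : ℝ) (g : ℕ → Z2 → ℝ) (h0 : p 0 ∈ G) (n : ℕ)
    (h : ∀ j, j < n → ReachE G (p j) (p (j + 1)) T (g j) C) :
    ReachE G (p 0) (p n) (n * T) (fun z => ∑ j ∈ Finset.range n, g j z) (n * C) := by
  induction n with
  | zero => simpa using refl h0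
  | succ n ih =>
    have h1 := comp (ih fun j hj => h j (by omega)) (h n (by omega))
    refine mono (Finset.Subset.refl _) (le_of_eq ?_) (fun z => le_of_eq ?_) (le_of_eq ?_) h1
    · push_cast; ring
    · rw [Finset.sum_range_succ]
    · push_cast; ring

end RunL

open RunL

/-- Run at scale `r`: overlapping boxes of side `8r` along the bottom side; gives local time at
least `β` to all sites at height in `[2r, 4r]` whose nearest side is the bottom one. -/
theorem scale_run : ∃ C : ℝ, 0 < C ∧ ∀ r m : ℕ, 1 ≤ r → 8 * r ≤ m → ∀ β : ℝ, 0 ≤ β →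
    ReachE (box m) (1, 1) ((m : ℤ), 1)
      (C * (1 + β) * ((m : ℝ) / r + 2) * (r : ℝ) ^ (9 / 4 : ℝ))
      (fun z => if 2 * (r : ℤ) ≤ z.2 ∧ z.2 ≤ 4 * r ∧ z.2 ≤ z.1 ∧ z.1 ≤ m + 1 - z.2 then β else 0)
      (C * (1 + β) * ((m : ℝ) / r + 2) * (r : ℝ) ^ (1 / 4 : ℝ)) := by
  obtain ⟨C, hC, hbox⟩ := box_small
  refine ⟨C, hC, fun r m hr hm β hβ => ?_⟩
  have hb := hbox r hr β hβ
  set T : ℝ := C * (1 + β) * (r : ℝ) ^ (9 / 4 : ℝ) with hT
  set D : ℝ := C * (1 + β) * (r : ℝ) ^ (1 / 4 : ℝ) with hD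
  have hT0 : 0 ≤ T := by positivity
  have hD0 : 0 ≤ D := by positivity
  set g0 : Z2 → ℝ := fun z => if (2 * (r : ℤ) ≤ z.1 ∧ z.1 ≤ 6 * r + 1) ∧ 2 * (r : ℤ) ≤ z.2 ∧
    z.2 ≤ 6 * r + 1 then β else 0 with hg0
  have hg0n : ∀ z, 0 ≤ g0 z := fun z => by rw [hg0]; dsimp only; split_ifs <;> simp [hβ]
  set J : ℕ := m / r with hJ
  have hJ1 : J * r ≤ m := Nat.div_mul_le_self m r
  have hJ2 : m < (J + 1) * r := by
    have := Nat.lt_div_mul_add (a := m) (b := r) (by omega)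
    rw [add_mul, one_mul]
    exact this
  -- offsets
  set o : ℕ → ℕ := fun j => min (j * r) (m - 8 * r) with ho
  have ho1 : ∀ j, o j ≤ m - 8 * r := fun j => min_le_right _ _
  have ho2 : ∀ j, o j ≤ o (j + 1) := fun j => by
    rw [ho]; dsimp only; rw [add_mul, one_mul]; omega
  have ho3 : ∀ j, o (j + 1) ≤ o j + r := fun j => by
    rw [ho]; dsimp only; rw [add_mul, one_mul]; omega
  have hoJ : o J = m - 8 * r := by
    rw [ho]; dsimp only; rw [add_mul, one_mul] at hJ2; omega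
  have ho0 : o 0 = 0 := by rw [ho]; simp
  set p : ℕ → Z2 := fun j => ((o j : ℤ) + 1, 1) with hp
  have hbx : ∀ j, ∀ z ∈ box (8 * r), z + ((o j : ℤ), (0 : ℤ)) ∈ box m := by
    intro j z hz
    rw [mbx] at hz ⊢
    have := ho1 j
    simp only [Prod.fst_add, Prod.snd_add]
    push_cast at hz ⊢
    omega
  have hstep : ∀ j, j < J → ReachE (box m) (p j) (p (j + 1)) T
      (fun z => g0 (z - ((o j : ℤ), (0 : ℤ)))) D := by
    intro j _
    have h1 := ho2 j
    have h2 := ho3 j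
    refine RunL.trans (a := (1, 1)) (b := ((o (j + 1) : ℤ) - o j + 1, 1)) ((o j : ℤ), (0 : ℤ))
      (hbx j) ?_ ?_ (hb _ ?_ _ ?_)
    · rw [hp]; ext <;> simp [add_comm]
    · rw [hp]; ext <;> simp; ring
    · rw [mbx]; dsimp only; omega
    · rw [mbx]; dsimp only; omega
  have hlast : ReachE (box m) (p J) ((m : ℤ), 1) T
      (fun z => g0 (z - ((o J : ℤ), (0 : ℤ)))) D := by
    refine RunL.trans (a := (1, 1)) (b := (8 * (r : ℤ), 1)) ((o J : ℤ), (0 : ℤ))
      (hbx J) ?_ ?_ (hb _ ?_ _ ?_)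
    · rw [hp]; ext <;> simp [add_comm]
    · rw [hoJ, Nat.cast_sub hm]; ext <;> simp
    · rw [mbx]; dsimp only; omega
    · rw [mbx]; dsimp only; omega
  have h0 : p 0 ∈ box m := by
    rw [mbx, hp]; dsimp only; rw [ho0]; omega
  have hch := comp (chain p T D _ h0 J hstep) hlast
  have hp0 : p 0 = (1, 1) := by rw [hp]; dsimp only; rw [ho0]; simp
  rw [hp0] at hch
  have hr0 : (0 : ℝ) < r := by exact_mod_cast (show 0 < r by omega)
  have hJr : (J : ℝ) + 1 ≤ (m : ℝ) / r + 2 := by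
    have : (J : ℝ) ≤ (m : ℝ) / r := by
      rw [le_div_iff₀ hr0]
      exact_mod_cast hJ1
    linarith
  refine mono (Finset.Subset.refl _) ?_ (fun z => ?_) ?_ hch
  · calc (J : ℝ) * T + T = ((J : ℝ) + 1) * T := by ring
      _ ≤ ((m : ℝ) / r + 2) * T := mul_le_mul_of_nonneg_right hJr hT0
      _ = _ := by rw [hT]; ring
  · have hnn : 0 ≤ ∑ j ∈ Finset.range J, g0 (z - ((o j : ℤ), (0 : ℤ))) :=
      Finset.sum_nonneg fun j _ => hg0n _
    split_ifs with hz
    · by_cases hcase : (m : ℤ) - 6 * r ≤ z.1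
      · have h1 : g0 (z - ((o J : ℤ), (0 : ℤ))) = β := by
          rw [hg0]
          dsimp only
          rw [if_pos]
          rw [hoJ, Nat.cast_sub hm]
          simp only [Prod.fst_sub, Prod.snd_sub]
          push_cast
          omega
        rw [h1]
        linarith
      · -- block containing z
        have hz1 : 0 ≤ z.1 - 2 * r := by omega
        obtain ⟨w, hw⟩ := Int.eq_ofNat_of_zero_le hz1
        set j := w / r with hj
        have hj1 : j * r ≤ w := Nat.div_mul_le_self w r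
        have hj2 : w < j * r + r := Nat.lt_div_mul_add (by omega)
        have hw2 : w + 8 * r < m := by omega
        have hoj : o j = j * r := by
          rw [ho]; dsimp only; omega
        have hjJ : j < J := by
          by_contra hge
          rw [not_lt] at hge
          have := Nat.mul_le_mul_right r hge
          rw [add_mul, one_mul] at hJ2
          omega
        have h1 : g0 (z - ((o j : ℤ), (0 : ℤ))) = β := by
          rw [hg0]
          dsimp only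
          rw [if_pos]
          rw [hoj]
          simp only [Prod.fst_sub, Prod.snd_sub]
          have e1 : ((j * r : ℕ) : ℤ) ≤ w := by exact_mod_cast hj1
          have e2 : (w : ℤ) < ((j * r : ℕ) : ℤ) + r := by exact_mod_cast hj2
          omega
        have h2 : g0 (z - ((o j : ℤ), (0 : ℤ))) ≤
            ∑ j ∈ Finset.range J, g0 (z - ((o j : ℤ), (0 : ℤ))) :=
          Finset.single_le_sum (f := fun j => g0 (z - ((o j : ℤ), (0 : ℤ))))
            (fun j _ => hg0n _) (Finset.mem_range.2 hjJ)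
        rw [h1] at h2
        have := hg0n (z - ((o J : ℤ), (0 : ℤ)))
        linarith
    · have := hg0n (z - ((o J : ℤ), (0 : ℤ)))
      linarith
  · calc (J : ℝ) * D + D = ((J : ℝ) + 1) * D := by ring
      _ ≤ ((m : ℝ) / r + 2) * D := mul_le_mul_of_nonneg_right hJr hD0
      _ = _ := by rw [hD]; ring

namespace RunL

/-- Horizontal profile. -/
noncomputable def tri (W : ℕ) (u : ℤ) : ℝ := 1 - |(u : ℝ)| / W

/-- Vertical profile. -/
noncomputable def cc (z0 H : ℕ) (z : ℤ) : ℝ :=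
  if z ≤ 0 then 0 else if z ≤ z0 then 1 else ((z0 : ℝ) + H - z) / H

/-- Support of a block. -/
noncomputable def BB (W z0 H : ℕ) : Finset Z2 :=
  Finset.Icc (1 - (W : ℤ)) ((W : ℤ) - 1) ×ˢ Finset.Icc 1 ((z0 : ℤ) + H - 1)

/-- Profile of a block. -/
noncomputable def ff (W z0 H : ℕ) (x : Z2) : ℝ :=
  if x ∈ BB W z0 H then tri W x.1 * cc z0 H x.2 else 0

/-- Mass of the horizontal profile. -/
noncomputable def AW (W : ℕ) : ℝ := ∑ u ∈ Finset.Icc (1 - (W : ℤ)) ((W : ℤ) - 1), tri W u ^ 2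

lemma mem_BB {W z0 H : ℕ} {x : Z2} : x ∈ BB W z0 H ↔
    (1 - (W : ℤ) ≤ x.1 ∧ x.1 ≤ (W : ℤ) - 1) ∧ (1 ≤ x.2 ∧ x.2 ≤ (z0 : ℤ) + H - 1) := by
  unfold BB
  rw [Finset.mem_product, Finset.mem_Icc, Finset.mem_Icc]

lemma tri_pos {W : ℕ} {u : ℤ} (h1 : 1 - (W : ℤ) ≤ u) (h2 : u ≤ (W : ℤ) - 1) : 0 < tri W u := by
  have hW : (0 : ℝ) < W := by
    have : 0 < (W : ℤ) := by omega
    exact_mod_cast this
  have h3 : |u| < (W : ℤ) := abs_lt.2 ⟨by omega, by omega⟩
  have h4 : |(u : ℝ)| < W := by exact_mod_cast h3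
  unfold tri
  have : |(u : ℝ)| / W < 1 := (div_lt_one hW).2 h4
  linarith

lemma tri_zero (W : ℕ) : tri W 0 = 1 := by simp [tri]

lemma tri_end {W : ℕ} (hW : 1 ≤ W) {u : ℤ} (h : u = W ∨ u = -(W : ℤ)) : tri W u = 0 := by
  have hW : (0 : ℝ) < W := by exact_mod_cast (show 0 < W by omega)
  unfold tri
  rcases h with rfl | rfl
  · simp [hW.ne']
  · simp [hW.ne']

lemma tri_second {W : ℕ} (hW : 1 ≤ W) {u : ℤ} :
    2 * tri W u - tri W (u + 1) - tri W (u - 1) = if u = 0 then 2 / (W : ℝ) else 0 := by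
  have hW : (0 : ℝ) < W := by exact_mod_cast (show 0 < W by omega)
  unfold tri
  rcases lt_trichotomy u 0 with h | h | h
  · rw [if_neg h.ne]
    have h1 : ((u + 1 : ℤ) : ℝ) ≤ 0 := by exact_mod_cast (show u + 1 ≤ 0 by omega)
    have h2 : ((u - 1 : ℤ) : ℝ) ≤ 0 := by exact_mod_cast (show u - 1 ≤ 0 by omega)
    have h3 : (u : ℝ) ≤ 0 := by exact_mod_cast h.le
    rw [abs_of_nonpos h1, abs_of_nonpos h2, abs_of_nonpos h3]
    push_cast
    field_simp
    ring
  · subst h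
    simp
    field_simp
    ring
  · rw [if_neg h.ne']
    have h1 : 0 ≤ ((u + 1 : ℤ) : ℝ) := by exact_mod_cast (show 0 ≤ u + 1 by omega)
    have h2 : 0 ≤ ((u - 1 : ℤ) : ℝ) := by exact_mod_cast (show 0 ≤ u - 1 by omega)
    have h3 : 0 ≤ (u : ℝ) := by exact_mod_cast h.le
    rw [abs_of_nonneg h1, abs_of_nonneg h2, abs_of_nonneg h3]
    push_cast
    field_simp
    ring

lemma cc_one {z0 H : ℕ} {z : ℤ} (h1 : 1 ≤ z) (h2 : z ≤ z0) : cc z0 H z = 1 := by
  unfold cc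
  rw [if_neg (by omega), if_pos h2]

lemma cc_lin {z0 H : ℕ} (hz0 : 1 ≤ z0) (hH : 1 ≤ H) {z : ℤ} (h1 : (z0 : ℤ) ≤ z) :
    cc z0 H z = ((z0 : ℝ) + H - z) / H := by
  have hH' : (0 : ℝ) < H := by exact_mod_cast (show 0 < H by omega)
  unfold cc
  rw [if_neg (by omega)]
  split_ifs with h
  · have : z = z0 := by omega
    subst this
    simp [hH'.ne']
  · rfl

lemma cc_pos {z0 H : ℕ} (hH : 1 ≤ H) {z : ℤ} (h1 : 1 ≤ z) (h2 : z ≤ (z0 : ℤ) + H - 1) :
    0 < cc z0 H z := by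
  have hH' : (0 : ℝ) < H := by exact_mod_cast (show 0 < H by omega)
  unfold cc
  rw [if_neg (by omega)]
  split_ifs with h
  · exact one_pos
  · refine div_pos ?_ hH'
    have : (z : ℝ) ≤ (z0 : ℝ) + H - 1 := by exact_mod_cast h2
    linarith

lemma cc_le_one {z0 H : ℕ} (hH : 1 ≤ H) (z : ℤ) : cc z0 H z ≤ 1 := by
  have hH' : (0 : ℝ) < H := by exact_mod_cast (show 0 < H by omega)
  unfold cc
  split_ifs with h h'
  · exact zero_le_one
  · exact le_rfl
  · rw [div_le_one hH']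
    have : (z0 : ℝ) < z := by exact_mod_cast (not_le.1 h')
    linarith

lemma cc_zero (z0 H : ℕ) : cc z0 H 0 = 0 := by simp [cc]

lemma cc_end {z0 H : ℕ} (hz0 : 1 ≤ z0) (hH : 1 ≤ H) : cc z0 H ((z0 : ℤ) + H) = 0 := by
  rw [cc_lin hz0 hH (by omega)]
  push_cast
  simp

lemma cc_second {z0 H : ℕ} (hz0 : 1 ≤ z0) (hH : 1 ≤ H) {z : ℤ} (h1 : 1 ≤ z) :
    2 * cc z0 H z - cc z0 H (z + 1) - cc z0 H (z - 1) =
      (if z = 1 then 1 else 0) + (if z = z0 then 1 / (H : ℝ) else 0) := by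
  have hH' : (0 : ℝ) < H := by exact_mod_cast (show 0 < H by omega)
  rcases lt_trichotomy z z0 with h | h | h
  · rw [if_neg h.ne, cc_one h1 h.le, cc_one (by omega) (by omega)]
    by_cases h2 : z = 1
    · rw [if_pos h2, h2, sub_self, cc_zero]; norm_num
    · rw [if_neg h2, cc_one (by omega) (by omega)]; norm_num
  · rw [if_pos h, cc_one h1 h.le, cc_lin (z := z + 1) hz0 hH (by omega)]
    have e1 : (z : ℝ) = z0 := by exact_mod_cast h
    by_cases h2 : z = 1
    · rw [if_pos h2]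
      have e2 : z - 1 = 0 := by omega
      rw [e2, cc_zero]
      push_cast
      rw [e1]
      field_simp
      ring
    · rw [if_neg h2, cc_one (by omega) (by omega)]
      push_cast
      rw [e1]
      field_simp
      ring
  · rw [if_neg h.ne', if_neg (by omega), cc_lin hz0 hH h.le, cc_lin hz0 hH (by omega),
      cc_lin hz0 hH (by omega)]
    push_cast
    field_simp
    ring

lemma ff_pos {W z0 H : ℕ} (hH : 1 ≤ H) {x : Z2} (hx : x ∈ BB W z0 H) : 0 < ff W z0 H x := by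
  unfold ff
  rw [if_pos hx]
  rw [mem_BB] at hx
  exact mul_pos (tri_pos hx.1.1 hx.1.2) (cc_pos hH hx.2.1 hx.2.2)

lemma ff_zero {W z0 H : ℕ} {x : Z2} (hx : x ∉ BB W z0 H) : ff W z0 H x = 0 := by
  unfold ff
  rw [if_neg hx]

/-- Rectangles are connected. -/
lemma conn_rect (a b c d : ℤ) :
    Conn ((Finset.Icc a b ×ˢ Finset.Icc c d : Finset Z2) : Set Z2) := by
  intro x hx y hy
  obtain ⟨n, hn⟩ : ∃ n : ℕ, (|x.1 - y.1| + |x.2 - y.2|).toNat = n := ⟨_, rfl⟩
  rw [Finset.mem_coe, Finset.mem_product, Finset.mem_Icc, Finset.mem_Icc] at hy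
  induction n generalizing x with
  | zero =>
    have h1 := abs_nonneg (x.1 - y.1)
    have h2 := abs_nonneg (x.2 - y.2)
    have h3 : |x.1 - y.1| = 0 := by omega
    have h4 : |x.2 - y.2| = 0 := by omega
    rw [abs_eq_zero] at h3 h4
    have : x = y := Prod.ext (by omega) (by omega)
    rw [this]
  | succ n ih =>
    have hx' := hx
    rw [Finset.mem_coe, Finset.mem_product, Finset.mem_Icc, Finset.mem_Icc] at hx'
    have key : ∃ e : Fin 4, x + step e ∈ ((Finset.Icc a b ×ˢ Finset.Icc c d : Finset Z2) : Set Z2) ∧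
        (|(x + step e).1 - y.1| + |(x + step e).2 - y.2|).toNat = n := by
      rcases lt_trichotomy x.1 y.1 with h | h | h
      · refine ⟨0, ?_, ?_⟩
        · rw [Finset.mem_coe, Finset.mem_product, Finset.mem_Icc, Finset.mem_Icc]
          simp only [step, Prod.fst_add, Prod.snd_add, Matrix.cons_val_zero]
          omega
        · simp only [step, Prod.fst_add, Prod.snd_add, Matrix.cons_val_zero]
          rw [abs_of_nonpos (by omega)]
          rw [abs_of_nonpos (by omega)] at hn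
          rw [add_zero]
          omega
      · rcases lt_trichotomy x.2 y.2 with h' | h' | h'
        · refine ⟨2, ?_, ?_⟩
          · rw [Finset.mem_coe, Finset.mem_product, Finset.mem_Icc, Finset.mem_Icc]
            simp only [step, Prod.fst_add, Prod.snd_add, Matrix.cons_val]
            omega
          · simp only [step, Prod.fst_add, Prod.snd_add, Matrix.cons_val]
            rw [h] at hn ⊢
            rw [sub_self, abs_zero] at hn
            rw [add_zero, sub_self, abs_zero, abs_of_nonpos (by omega)]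
            rw [abs_of_nonpos (by omega)] at hn
            omega
        · rw [h, h', sub_self, sub_self, abs_zero] at hn
          simp at hn
        · refine ⟨3, ?_, ?_⟩
          · rw [Finset.mem_coe, Finset.mem_product, Finset.mem_Icc, Finset.mem_Icc]
            simp only [step, Prod.fst_add, Prod.snd_add, Matrix.cons_val]
            omega
          · simp only [step, Prod.fst_add, Prod.snd_add, Matrix.cons_val]
            rw [h] at hn ⊢
            rw [sub_self, abs_zero] at hn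
            rw [add_zero, sub_self, abs_zero, abs_of_nonneg (by omega)]
            rw [abs_of_nonneg (by omega)] at hn
            omega
      · refine ⟨1, ?_, ?_⟩
        · rw [Finset.mem_coe, Finset.mem_product, Finset.mem_Icc, Finset.mem_Icc]
          simp only [step, Prod.fst_add, Prod.snd_add, Matrix.cons_val]
          omega
        · simp only [step, Prod.fst_add, Prod.snd_add, Matrix.cons_val]
          rw [abs_of_nonneg (by omega)]
          rw [abs_of_nonneg (by omega)] at hn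
          rw [add_zero]
          omega
    obtain ⟨e, he, hen⟩ := key
    exact Relation.ReflTransGen.head ⟨⟨e, rfl⟩, he⟩ (ih _ he hen)

/-- The value at a neighbour. -/
lemma nb {W z0 H : ℕ} (hW : 1 ≤ W) (hz0 : 1 ≤ z0) (hH : 1 ≤ H) {x y : Z2} (hx : x ∈ BB W z0 H)
    (hy : (y.1 = x.1 + 1 ∧ y.2 = x.2) ∨ (y.1 = x.1 - 1 ∧ y.2 = x.2) ∨
      (y.1 = x.1 ∧ y.2 = x.2 + 1) ∨ (y.1 = x.1 ∧ y.2 = x.2 - 1)) :
    (if y ∈ BB W z0 H then ff W z0 H y else 0) = tri W y.1 * cc z0 H y.2 := by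
  by_cases h : y ∈ BB W z0 H
  · rw [if_pos h]
    unfold ff
    rw [if_pos h]
  · rw [if_neg h]
    rw [mem_BB] at h hx
    have h1 : (y.1 = W ∨ y.1 = -(W : ℤ)) ∨ y.2 = 0 ∨ y.2 = (z0 : ℤ) + H := by omega
    rcases h1 with h1 | h1 | h1
    · rw [tri_end hW h1, zero_mul]
    · rw [h1, cc_zero, mul_zero]
    · rw [h1, cc_end hz0 hH, mul_zero]

lemma dirE_ff {W z0 H : ℕ} (hW : 1 ≤ W) (hz0 : 1 ≤ z0) (hH : 1 ≤ H) :
    dirE (BB W z0 H) (ff W z0 H) =
      2 / (W : ℝ) * (∑ z ∈ Finset.Icc 1 ((z0 : ℤ) + H - 1), cc z0 H z ^ 2) +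
      AW W * (1 + 1 / (H : ℝ)) := by
  have h1 : ∀ x ∈ BB W z0 H, ff W z0 H x * opA (BB W z0 H) (fun _ => 0) (ff W z0 H) x =
      -((if x.1 = 0 then 2 / (W : ℝ) else 0) * cc z0 H x.2 ^ 2 +
        tri W x.1 ^ 2 * ((if x.2 = 1 then 1 else 0) + (if x.2 = z0 then 1 / (H : ℝ) else 0))) := by
    intro x hx
    unfold opA
    rw [Fin.sum_univ_four, nb hW hz0 hH (y := x + step 0) hx (by simp [step]),
      nb hW hz0 hH (y := x + step 1) hx (by simp [step]; omega),
      nb hW hz0 hH (y := x + step 2) hx (by simp [step]),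
      nb hW hz0 hH (y := x + step 3) hx (by simp [step]; omega)]
    have e0 : ff W z0 H x = tri W x.1 * cc z0 H x.2 := by
      unfold ff
      rw [if_pos hx]
    have e1 : (x + step 0).1 = x.1 + 1 ∧ (x + step 0).2 = x.2 := by simp [step]
    have e2 : (x + step 1).1 = x.1 - 1 ∧ (x + step 1).2 = x.2 := by simp [step]; omega
    have e3 : (x + step 2).1 = x.1 ∧ (x + step 2).2 = x.2 + 1 := by simp [step]
    have e4 : (x + step 3).1 = x.1 ∧ (x + step 3).2 = x.2 - 1 := by simp [step]; omega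
    rw [e0, e1.1, e1.2, e2.1, e2.2, e3.1, e3.2, e4.1, e4.2]
    have t1 := tri_second hW (u := x.1)
    have hx' := mem_BB.1 hx
    have t2 := cc_second hz0 hH (z := x.2) hx'.2.1
    have t3 : tri W x.1 * (2 * tri W x.1 - tri W (x.1 + 1) - tri W (x.1 - 1)) =
        (if x.1 = 0 then 2 / (W : ℝ) else 0) := by
      rw [t1]
      split_ifs with h
      · rw [h, tri_zero, one_mul]
      · rw [mul_zero]
    have t4 : cc z0 H x.2 * (2 * cc z0 H x.2 - cc z0 H (x.2 + 1) - cc z0 H (x.2 - 1)) =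
        (if x.2 = 1 then 1 else 0) + (if x.2 = z0 then 1 / (H : ℝ) else 0) := by
      rw [t2]
      by_cases h : x.2 ≤ z0
      · rw [cc_one hx'.2.1 h, one_mul]
      · rw [if_neg (by omega), if_neg (by omega), add_zero, mul_zero]
    rw [← t3, ← t4]
    ring
  have h2 : dirE (BB W z0 H) (ff W z0 H) = ∑ x ∈ BB W z0 H,
      ((if x.1 = 0 then 2 / (W : ℝ) else 0) * cc z0 H x.2 ^ 2 +
        tri W x.1 ^ 2 * ((if x.2 = 1 then 1 else 0) + (if x.2 = z0 then 1 / (H : ℝ) else 0))) := by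
    unfold dirE Q
    rw [Finset.sum_congr rfl h1, Finset.sum_neg_distrib, neg_neg]
  rw [h2]
  unfold BB AW
  rw [Finset.sum_product]
  have h3 : ∀ u ∈ Finset.Icc (1 - (W : ℤ)) ((W : ℤ) - 1),
      ∑ z ∈ Finset.Icc 1 ((z0 : ℤ) + H - 1), ((if u = 0 then 2 / (W : ℝ) else 0) * cc z0 H z ^ 2 +
        tri W u ^ 2 * ((if z = 1 then 1 else 0) + (if z = z0 then 1 / (H : ℝ) else 0))) =
      (if u = 0 then 2 / (W : ℝ) * (∑ z ∈ Finset.Icc 1 ((z0 : ℤ) + H - 1), cc z0 H z ^ 2) else 0) +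
        tri W u ^ 2 * (1 + 1 / (H : ℝ)) := by
    intro u _
    have m1 : (1 : ℤ) ∈ Finset.Icc 1 ((z0 : ℤ) + H - 1) := by rw [Finset.mem_Icc]; omega
    have m2 : (z0 : ℤ) ∈ Finset.Icc 1 ((z0 : ℤ) + H - 1) := by rw [Finset.mem_Icc]; omega
    rw [Finset.sum_add_distrib, ← Finset.mul_sum, ← Finset.mul_sum, Finset.sum_add_distrib,
      Finset.sum_ite_eq', Finset.sum_ite_eq', if_pos m1, if_pos m2, ite_mul, zero_mul]
  dsimp only
  rw [Finset.sum_congr rfl h3, Finset.sum_add_distrib, ← Finset.sum_mul, Finset.sum_ite_eq',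
    if_pos (by rw [Finset.mem_Icc]; omega)]

lemma AW_ge {W : ℕ} (hW : 1 ≤ W) : 1 ≤ AW W := by
  have h1 : tri W 0 ^ 2 ≤ AW W :=
    Finset.single_le_sum (f := fun u => tri W u ^ 2) (fun u _ => sq_nonneg _)
      (Finset.mem_Icc.2 (by omega))
  rw [tri_zero, one_pow] at h1
  exact h1

lemma dirE_ff_le {W z0 H : ℕ} (hW : 1 ≤ W) (hz0 : 1 ≤ z0) (hH : 1 ≤ H) :
    dirE (BB W z0 H) (ff W z0 H) ≤
      AW W * (1 + 1 / (H : ℝ) + 2 * ((z0 : ℝ) + H) / W) := by
  have hW' : (0 : ℝ) < W := by exact_mod_cast (show 0 < W by omega)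
  rw [dirE_ff hW hz0 hH]
  have h1 : ∑ z ∈ Finset.Icc 1 ((z0 : ℤ) + H - 1), cc z0 H z ^ 2 ≤ (z0 : ℝ) + H := by
    calc ∑ z ∈ Finset.Icc 1 ((z0 : ℤ) + H - 1), cc z0 H z ^ 2
        ≤ ∑ _z ∈ Finset.Icc 1 ((z0 : ℤ) + H - 1), (1 : ℝ) := by
          refine Finset.sum_le_sum fun z hz => ?_
          rw [Finset.mem_Icc] at hz
          exact pow_le_one₀ (cc_pos hH hz.1 hz.2).le (cc_le_one hH z)
      _ = ((Finset.Icc 1 ((z0 : ℤ) + H - 1)).card : ℝ) := by simp
      _ ≤ (z0 : ℝ) + H := by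
          rw [Int.card_Icc]
          have : ((z0 : ℤ) + H - 1 + 1 - 1).toNat ≤ z0 + H := by omega
          exact_mod_cast this
  have h2 := AW_ge hW
  have h3 : 2 / (W : ℝ) * (∑ z ∈ Finset.Icc 1 ((z0 : ℤ) + H - 1), cc z0 H z ^ 2) ≤
      2 * ((z0 : ℝ) + H) / W := by
    rw [div_mul_eq_mul_div]
    gcongr
  have h4 : 2 * ((z0 : ℝ) + H) / W ≤ AW W * (2 * ((z0 : ℝ) + H) / W) :=
    le_mul_of_one_le_left (by positivity) h2
  linarith

/-- A site of the middle part is covered by all blocks. -/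
lemma block_sum {W z0 H m : ℕ} (hH : 1 ≤ H) {z : Z2}
    (h1 : 1 ≤ z.2) (h2 : z.2 ≤ z0) (h3 : 2 * (W : ℤ) ≤ z.1) (h4 : z.1 + 2 * (W : ℤ) ≤ m + 1) :
    AW W ≤ ∑ i ∈ Finset.range (m + 2 - 2 * W),
      ff W z0 H (z - (((W : ℤ) + (i : ℤ)), (0 : ℤ))) ^ 2 := by
  set φ : ℤ → ℕ := fun v => (z.1 - W - v).toNat with hφ
  have hφ1 : ∀ v ∈ Finset.Icc (1 - (W : ℤ)) ((W : ℤ) - 1), ((φ v : ℕ) : ℤ) = z.1 - W - v := by
    intro v hv
    rw [Finset.mem_Icc] at hv
    rw [hφ]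
    exact Int.toNat_of_nonneg (by omega)
  have hinj : Set.InjOn φ (Finset.Icc (1 - (W : ℤ)) ((W : ℤ) - 1) : Finset ℤ) := by
    intro v hv w hw hvw
    have e1 := hφ1 v hv
    have e2 := hφ1 w hw
    rw [hvw] at e1
    omega
  have h5 : AW W = ∑ v ∈ Finset.Icc (1 - (W : ℤ)) ((W : ℤ) - 1),
      ff W z0 H (z - (((W : ℤ) + ((φ v : ℕ) : ℤ)), (0 : ℤ))) ^ 2 := by
    unfold AW
    refine Finset.sum_congr rfl fun v hv => ?_
    rw [hφ1 v hv]
    have hv' := Finset.mem_Icc.1 hv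
    have e1 : z - ((W : ℤ) + (z.1 - W - v), (0 : ℤ)) = (v, z.2) := by
      ext
      · simp; ring
      · simp
    rw [e1]
    unfold ff
    rw [if_pos (by rw [mem_BB]; dsimp only; omega), cc_one h1 h2, mul_one]
  rw [h5, ← Finset.sum_image (g := φ)
    (f := fun i : ℕ => ff W z0 H (z - (((W : ℤ) + (i : ℤ)), (0 : ℤ))) ^ 2) hinj]
  refine Finset.sum_le_sum_of_subset_of_nonneg ?_ (fun i _ _ => sq_nonneg _)
  intro i hi
  obtain ⟨v, hv, rfl⟩ := Finset.mem_image.1 hi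
  have e1 := hφ1 v hv
  rw [Finset.mem_Icc] at hv
  rw [Finset.mem_range]
  omega

end RunL

/-- Run in the boundary layer: gives local time at least `β` to all sites of height at most `z0`
whose nearest side is the bottom one, at cost `(1+η) β` per unit length. -/
theorem fin_run (η : ℝ) (hη : 0 < η) (z0 : ℕ) (hz0 : 1 ≤ z0) :
    ∃ β0 : ℝ, 0 < β0 ∧ ∀ β : ℝ, β0 ≤ β → ∃ C : ℝ, 0 < C ∧ ∃ m0 : ℕ, ∀ m : ℕ, m0 ≤ m →
      ReachE (box m) (1, 1) ((m : ℤ), 1) (C * m)
        (fun z => if 1 ≤ z.2 ∧ z.2 ≤ (z0 : ℤ) ∧ z.2 ≤ z.1 ∧ z.1 ≤ m + 1 - z.2 then β else 0)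
        ((1 + η) * β * m + C) := by
  -- constants
  set e1 : ℝ := min η 1 with he1
  have e10 : 0 < e1 := lt_min hη one_pos
  have e11 : e1 ≤ 1 := min_le_right _ _
  have e1η : e1 ≤ η := min_le_left _ _
  set δ : ℝ := e1 / 16 with hδ
  have hδ0 : 0 < δ := by positivity
  have hδ1 : δ < 1 := by rw [hδ]; linarith
  obtain ⟨H, hH⟩ := exists_nat_ge (4 / e1)
  have hH0 : (0 : ℝ) < H := lt_of_lt_of_le (by positivity) hH
  have hH1 : 1 ≤ H := by exact_mod_cast Nat.pos_of_ne_zero (by rintro rfl; simp at hH0)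
  obtain ⟨W, hW⟩ := exists_nat_ge (8 * ((z0 : ℝ) + H) / e1 + 2)
  have hW2 : (2 : ℝ) ≤ W := by
    have : 0 ≤ 8 * ((z0 : ℝ) + H) / e1 := by positivity
    linarith
  have hW2' : 2 ≤ W := by exact_mod_cast hW2
  have hW1 : 1 ≤ W := by omega
  have hW0 : (0 : ℝ) < W := by linarith
  have hWH : z0 + H ≤ W := by
    have f1 : (z0 : ℝ) + H ≤ 8 * ((z0 : ℝ) + H) / e1 := by
      rw [le_div_iff₀ e10]
      have : 0 ≤ (z0 : ℝ) + H := by positivity
      nlinarith
    have f2 : (z0 : ℝ) + H ≤ W := by linarith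
    exact_mod_cast f2
  have hrate : (1 + δ) / (1 - δ) * (1 + 1 / (H : ℝ) + 2 * ((z0 : ℝ) + H) / W) ≤ 1 + η := by
    have f1 : (1 + δ) / (1 - δ) ≤ 1 + e1 / 4 := by
      rw [div_le_iff₀ (by linarith)]
      rw [hδ]
      nlinarith
    have f2 : 1 / (H : ℝ) ≤ e1 / 4 := by
      rw [div_le_iff₀ hH0]
      rw [div_le_iff₀ e10] at hH
      linarith
    have f3 : 2 * ((z0 : ℝ) + H) / W ≤ e1 / 4 := by
      rw [div_le_iff₀ hW0]
      have : 8 * ((z0 : ℝ) + H) / e1 ≤ W := by linarith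
      rw [div_le_iff₀ e10] at this
      linarith
    have f4 : 1 + 1 / (H : ℝ) + 2 * ((z0 : ℝ) + H) / W ≤ 1 + e1 / 2 := by linarith
    calc (1 + δ) / (1 - δ) * (1 + 1 / (H : ℝ) + 2 * ((z0 : ℝ) + H) / W)
        ≤ (1 + e1 / 4) * (1 + e1 / 2) :=
          mul_le_mul f1 f4 (by positivity) (by linarith)
      _ ≤ 1 + η := by nlinarith
  set A : ℝ := AW W with hA
  have hA1 : 1 ≤ A := AW_ge hW1
  set q : ℕ := max (2 * W) (z0 + 1) with hq
  have hq1 : 2 * W ≤ q := le_max_left _ _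
  have hq2 : z0 + 1 ≤ q := le_max_right _ _
  have hBne : (BB W z0 H).Nonempty := ⟨(0, 1), by rw [mem_BB]; dsimp only; omega⟩
  have hqne : (box q).Nonempty := ⟨(1, 1), by rw [mbx]; dsimp only; omega⟩
  obtain ⟨s0, hs0, hfin⟩ := fin_lemma (BB W z0 H) (conn_rect _ _ _ _) hBne (ff W z0 H)
    (fun x hx => ff_pos hH1 hx) (fun x hx => ff_zero hx) δ hδ0 hδ1
  obtain ⟨s1, hs1, hcor⟩ := fin_lemma (box q) (conn_rect _ _ _ _) hqne
    (fun x => if x ∈ box q then 1 else 0)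
    (fun x hx => by rw [if_pos hx]; exact one_pos) (fun x hx => if_neg hx) δ hδ0 hδ1
  refine ⟨max (max ((1 - δ) * A * s0) ((1 - δ) * s1)) 1, lt_max_of_lt_right one_pos,
    fun β hβ => ?_⟩
  have hβ1 : (1 - δ) * A * s0 ≤ β := le_trans (le_trans (le_max_left _ _) (le_max_left _ _)) hβ
  have hβ2 : (1 - δ) * s1 ≤ β := le_trans (le_trans (le_max_right _ _) (le_max_left _ _)) hβ
  have hβ3 : 1 ≤ β := le_trans (le_max_right _ _) hβ
  have h1δ : 0 < 1 - δ := by linarith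
  set s : ℝ := β / ((1 - δ) * A) with hs
  set s' : ℝ := β / (1 - δ) with hs'
  have hss0 : s0 ≤ s := by
    rw [hs, le_div_iff₀ (mul_pos h1δ (by linarith))]
    linarith
  have hss1 : s1 ≤ s' := by
    rw [hs', le_div_iff₀ h1δ]
    linarith
  set T1 : ℝ := s * nsq (BB W z0 H) (ff W z0 H) with hT1
  set D1 : ℝ := s * ((1 + δ) * dirE (BB W z0 H) (ff W z0 H)) with hD1
  set T2 : ℝ := s' * nsq (box q) (fun x => if x ∈ box q then 1 else 0) with hT2
  set D2 : ℝ := s' * ((1 + δ) * dirE (box q) (fun x => if x ∈ box q then 1 else 0)) with hD2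
  have hs00 : 0 < s := lt_of_lt_of_le hs0 hss0
  have hs10 : 0 < s' := lt_of_lt_of_le hs1 hss1
  have hT10 : 0 ≤ T1 := mul_nonneg hs00.le (Finset.sum_nonneg fun x _ => sq_nonneg _)
  have hT20 : 0 ≤ T2 := mul_nonneg hs10.le (Finset.sum_nonneg fun x _ => sq_nonneg _)
  have hD1β : D1 ≤ (1 + η) * β := by
    have f1 := dirE_ff_le hW1 hz0 hH1
    have f2 : D1 ≤ s * ((1 + δ) * (A * (1 + 1 / (H : ℝ) + 2 * ((z0 : ℝ) + H) / W))) := by
      rw [hD1]
      gcongr
    have f3 : s * ((1 + δ) * (A * (1 + 1 / (H : ℝ) + 2 * ((z0 : ℝ) + H) / W))) =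
        β * ((1 + δ) / (1 - δ) * (1 + 1 / (H : ℝ) + 2 * ((z0 : ℝ) + H) / W)) := by
      rw [hs]
      have : A ≠ 0 := by linarith
      have : 1 - δ ≠ 0 := h1δ.ne'
      field_simp
    rw [f3] at f2
    have f4 := mul_le_mul_of_nonneg_left hrate (by linarith : (0 : ℝ) ≤ β)
    linarith
  have hD2a := abs_nonneg D2
  refine ⟨2 * T2 + T1 + 2 * |D2| + 1, by linarith, q + 2 * W + 1, fun m hm => ?_⟩
  have hmq : q + 2 * W + 1 ≤ m := hm
  obtain ⟨n, hn⟩ : ∃ n : ℕ, n = m + 2 - 2 * W := ⟨_, rfl⟩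
  have hnm : n ≤ m := by omega
  -- the chain of blocks
  set p : ℕ → Z2 := fun i => ((W : ℤ) + i, 1) with hp
  have hBbox : ∀ i : ℕ, i < n → ∀ z ∈ BB W z0 H, z + ((W : ℤ) + (i : ℤ), (0 : ℤ)) ∈ box m := by
    intro i hi z hz
    rw [mem_BB] at hz
    rw [mbx]
    simp only [Prod.fst_add, Prod.snd_add]
    omega
  have hstep : ∀ i, i < n → ReachE (box m) (p i) (p (i + 1)) T1
      (fun z => (1 - δ) * s * ff W z0 H (z - ((W : ℤ) + (i : ℤ), (0 : ℤ))) ^ 2) D1 := by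
    intro i hi
    refine RunL.trans (a := (0, 1)) (b := (1, 1)) ((W : ℤ) + (i : ℤ), (0 : ℤ)) (hBbox i hi) ?_ ?_
      ⟨T1, hT10, le_rfl, hfin s hss0 _ ?_ _ ?_⟩
    · rw [hp]; ext <;> simp
    · rw [hp]; ext <;> simp; ring
    · rw [mem_BB]; dsimp only; omega
    · rw [mem_BB]; dsimp only; omega
  have hp0 : p 0 ∈ box m := by rw [mbx, hp]; dsimp only; omega
  have hchain := chain p T1 D1 _ hp0 n hstep
  -- the corners
  have hc1 : ReachE (box m) (1, 1) (p 0) T2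
      (fun z => (1 - δ) * s' * (if z - (0, 0) ∈ box q then (1 : ℝ) else 0) ^ 2) D2 := by
    refine RunL.trans (a := (1, 1)) (b := ((W : ℤ), 1)) (0, 0) ?_ ?_ ?_
      ⟨T2, hT20, le_rfl, hcor s' hss1 _ ?_ _ ?_⟩
    · intro z hz
      rw [mbx] at hz ⊢
      simp only [Prod.fst_add, Prod.snd_add]
      omega
    · simp
    · rw [hp]; ext <;> simp
    · rw [mbx]; dsimp only; omega
    · rw [mbx]; dsimp only; omega
  have hc2 : ReachE (box m) (p n) ((m : ℤ), 1) T2
      (fun z => (1 - δ) * s' * (if z - ((m : ℤ) - q, 0) ∈ box q then (1 : ℝ) else 0) ^ 2) D2 := by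
    refine RunL.trans (a := ((q : ℤ) + 2 - W, 1)) (b := ((q : ℤ), 1)) ((m : ℤ) - q, 0) ?_ ?_ ?_
      ⟨T2, hT20, le_rfl, hcor s' hss1 _ ?_ _ ?_⟩
    · intro z hz
      rw [mbx] at hz ⊢
      simp only [Prod.fst_add, Prod.snd_add]
      omega
    · rw [hp]
      have : (n : ℤ) = m + 2 - 2 * W := by omega
      ext
      · simp only [Prod.fst_add]
        omega
      · simp
    · ext
      · simp
      · simp
    · rw [mbx]; dsimp only; omega
    · rw [mbx]; dsimp only; omega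
  have hall := comp (comp hc1 hchain) hc2
  have hm1 : (1 : ℝ) ≤ m := by exact_mod_cast (show 1 ≤ m by omega)
  have hnmR : (n : ℝ) ≤ m := by exact_mod_cast hnm
  refine mono (Finset.Subset.refl _) ?_ (fun z => ?_) ?_ hall
  · have f1 : (n : ℝ) * T1 ≤ m * T1 := mul_le_mul_of_nonneg_right hnmR hT10
    have f2 : T2 ≤ m * T2 := le_mul_of_one_le_left hT20 hm1
    have f3 : 0 ≤ |D2| * m := mul_nonneg hD2a (by linarith)
    have f4 : (2 * T2 + T1 + 2 * |D2| + 1) * (m : ℝ) =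
        2 * (m * T2) + m * T1 + 2 * (|D2| * m) + m := by ring
    rw [f4]
    linarith
  · have g1 : 0 ≤ (1 - δ) * s' * (if z - (0, 0) ∈ box q then (1 : ℝ) else 0) ^ 2 :=
      mul_nonneg (mul_nonneg h1δ.le hs10.le) (sq_nonneg _)
    have g2 : 0 ≤ (1 - δ) * s' *
        (if z - ((m : ℤ) - q, 0) ∈ box q then (1 : ℝ) else 0) ^ 2 :=
      mul_nonneg (mul_nonneg h1δ.le hs10.le) (sq_nonneg _)
    have g3 : 0 ≤ ∑ i ∈ Finset.range n,
        (1 - δ) * s * ff W z0 H (z - ((W : ℤ) + (i : ℤ), (0 : ℤ))) ^ 2 :=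
      Finset.sum_nonneg fun i _ => mul_nonneg (mul_nonneg h1δ.le hs00.le) (sq_nonneg _)
    have hs'β : (1 - δ) * s' = β := by
      rw [hs']
      field_simp
    by_cases hz : 1 ≤ z.2 ∧ z.2 ≤ (z0 : ℤ) ∧ z.2 ≤ z.1 ∧ z.1 ≤ m + 1 - z.2
    · rw [if_pos hz]
      by_cases hz1 : z.1 ≤ q
      · have g4 : (1 - δ) * s' * (if z - (0, 0) ∈ box q then (1 : ℝ) else 0) ^ 2 = β := by
          rw [if_pos, one_pow, mul_one, hs'β]
          rw [mbx]
          simp only [Prod.fst_sub, Prod.snd_sub]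
          omega
        linarith
      · by_cases hz2 : (m : ℤ) - q + 1 ≤ z.1
        · have g4 : (1 - δ) * s' *
              (if z - ((m : ℤ) - q, 0) ∈ box q then (1 : ℝ) else 0) ^ 2 = β := by
            rw [if_pos, one_pow, mul_one, hs'β]
            rw [mbx]
            simp only [Prod.fst_sub, Prod.snd_sub]
            omega
          linarith
        · have g4 := block_sum (m := m) (W := W) (z0 := z0) (H := H) (z := z) hH1 hz.1
            hz.2.1 (by omega) (by omega)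
          rw [← hn] at g4
          have g5 : β ≤ ∑ i ∈ Finset.range n,
              (1 - δ) * s * ff W z0 H (z - ((W : ℤ) + (i : ℤ), (0 : ℤ))) ^ 2 := by
            rw [← Finset.mul_sum]
            have g6 : β = (1 - δ) * s * A := by
              rw [hs]
              have : A ≠ 0 := by linarith
              have : 1 - δ ≠ 0 := h1δ.ne'
              field_simp
            calc β = (1 - δ) * s * A := g6
              _ ≤ _ := mul_le_mul_of_nonneg_left g4 (mul_nonneg h1δ.le hs00.le)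
          linarith
    · rw [if_neg hz]
      linarith
  · have f1 : (n : ℝ) * D1 ≤ n * ((1 + η) * β) := mul_le_mul_of_nonneg_left hD1β (Nat.cast_nonneg n)
    have f2 : (n : ℝ) * ((1 + η) * β) ≤ m * ((1 + η) * β) :=
      mul_le_mul_of_nonneg_right hnmR (mul_nonneg (by linarith) (by linarith))
    have f3 := le_abs_self D2
    have f4 : (m : ℝ) * ((1 + η) * β) = (1 + η) * β * m := by ring
    rw [f4] at f2
    linarith

end Pool.Agent.WSQ
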