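import Pool.Agent.WSQ.Upper4

/-!
# Module E1, part 5: exponent for admissible pairs
-/

open Filter Topology
open scoped BigOperators

namespace Pool.Agent.WSQ

theorem num_case1 (κ ε P : ℝ) (hκ : 0 < κ) (hκ4 : κ ≤ 1) (hκ1 : κ ≤ ε ^ 2 / 12) (hP : 0 < P) :
    (1 + 3 * κ / 4) * (6 * P) ≤ (1 - 2 * (κ / 16)) * ((6 + ε ^ 2 / 2) * P) := by
  have h1 : (1 + 3 * κ / 4) ≤ (1 - 2 * (κ / 16)) * (1 + κ) := by nlinarith
  have h2 : (1 + κ) * (6 * P) ≤ (6 + ε ^ 2 / 2) * P := by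
    have : (1 + κ) * 6 ≤ 6 + ε ^ 2 / 2 := by linarith
    calc (1 + κ) * (6 * P) = ((1 + κ) * 6) * P := by ring
      _ ≤ _ := mul_le_mul_of_nonneg_right this hP.le
  calc (1 + 3 * κ / 4) * (6 * P) ≤ ((1 - 2 * (κ / 16)) * (1 + κ)) * (6 * P) := by gcongr
    _ = (1 - 2 * (κ / 16)) * ((1 + κ) * (6 * P)) := by ring
    _ ≤ _ := mul_le_mul_of_nonneg_left h2 (by linarith)

theorem num_case2 (κ P : ℝ) (hκ : 0 < κ) (hP : 0 < P) :
    (1 + 3 * κ / 4) * (6 * P) ≤ (1 - 2 * (κ / 16)) * (6 * P) + κ * (6 * P) := by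
  have : 0 < κ * P := mul_pos hκ hP
  nlinarith

theorem num_case3 (κ ε P : ℝ) (hκ : 0 < κ) (hκ4 : κ ≤ 1) (hκ3 : κ ≤ ε / 3) (hP : 0 < P) :
    (1 + 3 * κ / 4) * (6 * P) ≤
      (1 - 2 * (κ / 16)) * (6 * P) + (1 - 2 * (κ / 16)) * (4 * ε * P) := by
  have h1 : (1 + 3 * κ / 4) ≤ (1 - 2 * (κ / 16)) * (1 + κ) := by nlinarith
  have h2 : κ * (6 * P) ≤ 4 * ε * P := by
    have : κ * 6 ≤ 4 * ε := by linarith
    calc κ * (6 * P) = (κ * 6) * P := by ring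
      _ ≤ _ := mul_le_mul_of_nonneg_right this hP.le
  calc (1 + 3 * κ / 4) * (6 * P) ≤ ((1 - 2 * (κ / 16)) * (1 + κ)) * (6 * P) := by gcongr
    _ = (1 - 2 * (κ / 16)) * (6 * P) + (1 - 2 * (κ / 16)) * (κ * (6 * P)) := by ring
    _ ≤ _ := by
      have : 0 ≤ 1 - 2 * (κ / 16) := by linarith
      have := mul_le_mul_of_nonneg_left h2 this
      linarith

theorem case2_aux (c2 κ β L t s : ℝ) (hc2 : 0 < c2) (hκ2 : κ ≤ c2 / (96 * Real.pi ^ 2))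
    (hβ : 0 < β) (hL : 0 < L) (ht : t = β * L ^ 3 / Real.pi ^ 2) (hs0 : 0 < s)
    (hs : s ≤ 4 * L) : κ * (6 * (β * L)) ≤ c2 / s ^ 2 * t := by
  have htpos : 0 < t := by rw [ht]; positivity
  have h2 : c2 / (4 * L) ^ 2 * t ≤ c2 / s ^ 2 * t := by gcongr
  refine le_trans ?_ h2
  have h3 : c2 / (4 * L) ^ 2 * t = c2 / (96 * Real.pi ^ 2) * (6 * (β * L)) := by
    rw [ht]; field_simp; ring
  rw [h3]
  gcongr

theorem adm_bound (ε : ℝ) (hε : 0 < ε) (hε1 : ε < 1) :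
    ∃ κ : ℝ, 0 < κ ∧ κ ≤ 1 ∧ ∀ A : ℕ, 1 ≤ A → ∃ L1 : ℝ, 0 < L1 ∧
      ∀ (β L t : ℝ), 0 < β → L1 ≤ L → t = β * L ^ 3 / Real.pi ^ 2 →
      ∀ r : ℕ, ε * L < r + 1 → ∀ G C : Finset Z2, Adm ε L r G C →
        ∃ Λ : ℝ, (∀ g : Z2 → ℝ, Q (G \ C) (fun x => (1 - 2 / ((A : ℝ) + 1)) * deg (G \ C) x) g ≤
          Λ * nsq (G \ C) g) ∧
          (1 + 3 * κ / 4) * (6 * (β * L)) ≤
            (1 - 2 * (κ / 16)) * (β * ((bd G : ℝ) + bd C)) - Λ * t := by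
  have hρ : 0 < min (ε / 8) ((1 - ε) / 4) := lt_min (by linarith) (by linarith)
  have hρ1 : min (ε / 8) ((1 - ε) / 4) ≤ ε / 8 := min_le_left _ _
  have hρ2 : min (ε / 8) ((1 - ε) / 4) ≤ (1 - ε) / 4 := min_le_right _ _
  generalize min (ε / 8) ((1 - ε) / 4) = ρ at hρ hρ1 hρ2
  obtain ⟨c2, hc2, hgain⟩ := slice_gain ρ hρ
  obtain ⟨κ, hκ, hκ1, hκ2, hκ3, hκ4⟩ : ∃ κ : ℝ, 0 < κ ∧ κ ≤ ε ^ 2 / 12 ∧
      κ ≤ c2 / (96 * Real.pi ^ 2) ∧ κ ≤ ε / 3 ∧ κ ≤ 1 :=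
    ⟨min (min (ε ^ 2 / 12) (c2 / (96 * Real.pi ^ 2))) (min (ε / 3) 1),
      lt_min (lt_min (by positivity) (by positivity)) (lt_min (by positivity) one_pos),
      (min_le_left _ _).trans (min_le_left _ _), (min_le_left _ _).trans (min_le_right _ _),
      (min_le_right _ _).trans (min_le_left _ _), (min_le_right _ _).trans (min_le_right _ _)⟩
  refine ⟨κ, hκ, hκ4, ?_⟩
  intro A hA
  obtain ⟨n0, hn0⟩ := hgain A hA
  obtain ⟨L1, hL1, hnum⟩ := mu_est2 A hA (κ / 16) (by positivity) (by linarith)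
  refine ⟨max L1 (max (n0 / (1 - ε)) (2 / ε)), lt_max_of_lt_left hL1, ?_⟩
  intro β L t hβ hL ht r hr G C hadm
  have hLL1 : L1 ≤ L := (le_max_left _ _).trans hL
  have hLn0 : (n0 : ℝ) / (1 - ε) ≤ L := ((le_max_left _ _).trans (le_max_right _ _)).trans hL
  have hLε : 2 / ε ≤ L := ((le_max_right _ _).trans (le_max_right _ _)).trans hL
  have hLpos : 0 < L := lt_of_lt_of_le hL1 hLL1
  have htpos : 0 < t := by rw [ht]; positivity
  have h1ε : 0 < 1 - ε := by linarith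
  rw [div_le_iff₀ h1ε] at hLn0
  rw [div_le_iff₀ hε] at hLε
  have hβL : 0 < β * L := mul_pos hβ hLpos
  obtain ⟨x0, y0, a, b, ha, hb, hbox, hbd, h0, hG, hGc, hCG, hbdd, hcase⟩ := hadm
  have hθ0 : (0 : ℝ) ≤ 1 - 2 / ((A : ℝ) + 1) := by
    have : (1 : ℝ) ≤ A := by exact_mod_cast hA
    rw [sub_nonneg, div_le_one (by positivity)]
    linarith
  have hbd' : (2 : ℝ) * (a + b) ≤ bd G := by exact_mod_cast hbd
  have hbox' : ∀ p ∈ G \ C, x0 ≤ p.1 ∧ p.1 < x0 + a ∧ y0 ≤ p.2 ∧ p.2 < y0 + b := fun p hp =>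
    hbox p (Finset.mem_sdiff.1 hp).1
  have hδ2 : 0 < 1 - 2 * (κ / 16) := by linarith
  obtain ⟨hnum1, hnum2⟩ := hnum β L t hβ hLL1 ht a b ha hb
  have hbC : (0 : ℝ) ≤ bd C := Nat.cast_nonneg _
  have hmono : (1 - 2 * (κ / 16)) * (β * (2 * (a + b))) ≤
      (1 - 2 * (κ / 16)) * (β * ((bd G : ℝ) + bd C)) := by
    gcongr
    linarith
  rcases hcase with ⟨hC, hdim⟩ | ⟨hdim, hC, q, hq, hmiss⟩ | ⟨hdim, q, hq, hqC, hCc, hCcc, hbdC⟩
  · -- bad dimensions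
    refine ⟨-(mu A a + mu A b), fun g => slice_bound A a b hA _ hθ0 le_rfl (G \ C) x0 y0 hbox' g, ?_⟩
    have h1 := hnum2 ε hε hε1 hdim
    have h2 := num_case1 κ ε (β * L) hκ hκ4 hκ1 hβL
    have h3 : (1 - 2 * (κ / 16)) * ((6 + ε ^ 2 / 2) * (β * L)) =
      (1 - 2 * (κ / 16)) * ((6 + ε ^ 2 / 2) * β * L) := by ring
    linarith
  · -- missed square in the outer component
    obtain ⟨hd1, hd2, hd3, hd4⟩ := hdim
    have hεL : ε * L ≤ L := by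
      have := mul_le_mul_of_nonneg_right hε1.le hLpos.le
      linarith
    have hab : (a : ℝ) + b ≤ 4 * L := by linarith
    have hab0 : (0 : ℝ) < (a : ℝ) + b := by
      have : (1 : ℝ) ≤ a := by exact_mod_cast ha
      have : (0 : ℝ) ≤ b := Nat.cast_nonneg _
      linarith
    have hρab : ρ * ((a : ℝ) + b) ≤ (1 - ε) * L := by
      calc ρ * ((a : ℝ) + b) ≤ (1 - ε) / 4 * (4 * L) := by gcongr
        _ = (1 - ε) * L := by ring
    have hρr : ρ * ((a : ℝ) + b) ≤ r := by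
      have h1 : ρ * ((a : ℝ) + b) ≤ ε / 8 * (4 * L) := by gcongr
      linarith
    have hn : n0 ≤ a + b := by
      have : (n0 : ℝ) ≤ (a : ℝ) + b := by linarith
      exact_mod_cast this
    refine ⟨-(mu A a + mu A b + c2 / ((a : ℝ) + b) ^ 2), fun g => ?_, ?_⟩
    · refine hn0 a b hn (hρab.trans hd1) (hρab.trans hd3) _ hθ0 le_rfl (G \ C) x0 y0 hbox' q hq r
        hρr ?_ g
      intro p hp
      exact hmiss p (Finset.mem_sdiff.1 hp).1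
    · have h1 := case2_aux c2 κ β L t _ hc2 hκ2 hβ hLpos ht hab0 hab
      have h4 := num_case2 κ (β * L) hκ hβL
      have h6 : (1 - 2 * (κ / 16)) * (β * ((bd G : ℝ) + bd C)) -
          -(mu A a + mu A b + c2 / ((a : ℝ) + b) ^ 2) * t =
          (1 - 2 * (κ / 16)) * (β * ((bd G : ℝ) + bd C)) +
          ((mu A a + mu A b) * t + c2 / ((a : ℝ) + b) ^ 2 * t) := by ring
      rw [h6]
      have h7 : (1 - 2 * (κ / 16)) * (6 * (β * L)) = (1 - 2 * (κ / 16)) * (6 * β * L) := by ring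
      linarith
  · -- hole
    refine ⟨-(mu A a + mu A b), fun g => slice_bound A a b hA _ hθ0 le_rfl (G \ C) x0 y0 hbox' g, ?_⟩
    have h1 : (4 : ℝ) * (2 * r + 1) ≤ bd C := by exact_mod_cast hbdC
    have h2 : 4 * ε * L ≤ bd C := by linarith
    have h3 : (1 - 2 * (κ / 16)) * (β * (2 * (a + b))) + (1 - 2 * (κ / 16)) * (β * (4 * ε * L)) ≤
        (1 - 2 * (κ / 16)) * (β * ((bd G : ℝ) + bd C)) := by
      rw [← mul_add, ← mul_add]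
      gcongr
    have h4 := num_case3 κ ε (β * L) hκ hκ4 hκ3 hβL
    have h7 : (1 - 2 * (κ / 16)) * (6 * (β * L)) = (1 - 2 * (κ / 16)) * (6 * β * L) := by ring
    have h8 : (1 - 2 * (κ / 16)) * (4 * ε * (β * L)) = (1 - 2 * (κ / 16)) * (β * (4 * ε * L)) := by
      ring
    linarith

end Pool.Agent.WSQ
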