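import Pool.Agent.WSQ.Upper2
import Pool.Agent.WSQ.Upper5

/-!
# Module E1: the upper bound
-/

open MeasureTheory ProbabilityTheory Filter Topology
open scoped ENNReal BigOperators

namespace Pool.Agent.WSQ

theorem card_le_sq (G C : Finset Z2) (x0 y0 : ℤ) (a b : ℕ) (hbox : ∀ p ∈ G, InBox x0 y0 a b p)
    (hbd : 2 * (a + b) ≤ bd G) : (((G \ C).card : ℕ) : ℝ) ≤
      Real.exp (2 * ((bd G : ℝ) + bd C)) := by
  classical
  have h1 : (G \ C).card ≤ a * b := by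
    have h2 : G \ C ⊆ Finset.Ico x0 (x0 + a) ×ˢ Finset.Ico y0 (y0 + b) := by
      intro p hp
      have := hbox p (Finset.mem_sdiff.1 hp).1
      unfold InBox at this
      simp only [Finset.mem_product, Finset.mem_Ico]
      exact ⟨⟨this.1, this.2.1⟩, this.2.2.1, this.2.2.2⟩
    refine (Finset.card_le_card h2).trans ?_
    rw [Finset.card_product]
    simp
  have h3 : ((a * b : ℕ) : ℝ) ≤ (bd G : ℝ) ^ 2 := by
    have h4 : a * b ≤ bd G ^ 2 := by nlinarith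
    exact_mod_cast h4
  have h5 : (bd G : ℝ) ≤ Real.exp (bd G) := by
    have := Real.add_one_le_exp (bd G : ℝ)
    linarith
  have h6 : (bd G : ℝ) ^ 2 ≤ Real.exp (2 * (bd G : ℝ)) := by
    rw [two_mul, Real.exp_add, sq]
    exact mul_le_mul h5 h5 (Nat.cast_nonneg _) (Real.exp_nonneg _)
  have h7 : Real.exp (2 * (bd G : ℝ)) ≤ Real.exp (2 * ((bd G : ℝ) + bd C)) := by
    apply Real.exp_le_exp.2
    have : (0 : ℝ) ≤ bd C := Nat.cast_nonneg _
    linarith
  calc (((G \ C).card : ℕ) : ℝ) ≤ ((a * b : ℕ) : ℝ) := by exact_mod_cast h1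
    _ ≤ _ := h3.trans (h6.trans h7)

theorem pair_num (κ θ β n Λ t lg M : ℝ) (hβ : 0 < β) (hθ : 1 - κ / 16 ≤ θ) (hn : 0 ≤ n)
    (hlg : 2 + lg ≤ κ / 16 * β) (hM : M ≤ (1 - 2 * (κ / 16)) * (β * n) - Λ * t) :
    2 * n + (-(θ * β * n) + Λ * t) ≤ -(n * lg) + -M := by
  have h1 : (1 - κ / 16) * β * n ≤ θ * β * n := by gcongr
  have h2 : (2 + lg) * n ≤ κ / 16 * β * n := by gcongr
  linarith

/-- The upper bound: on the conditioning event, a range which is not close to a filled square of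
side `side β t` has probability at most `exp (-(1+c) rate β t^{1/3})`. -/
theorem upper_bound (ε : ℝ) (hε : 0 < ε) (hε1 : ε < 1) :
    ∃ c : ℝ, 0 < c ∧ ∃ β0 : ℝ, 0 < β0 ∧ ∀ β : ℝ, β0 ≤ β → ∀ᶠ t : ℝ in atTop,
      law (EvE β t ∩ {ω | ¬ GoodSet ε (side β t) (visited ω t)}) ≤
        ENNReal.ofReal (Real.exp (-((1 + c) * rate β * t ^ (1 / 3 : ℝ)))) := by
  classical
  obtain ⟨κ, hκ, hκ4, hadm⟩ := adm_bound ε hε hε1
  obtain ⟨C0, hC0, hcount⟩ := contour_count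
  have hC0' : (1 : ℝ) ≤ C0 := by exact_mod_cast hC0
  obtain ⟨A, hA1, hA2⟩ : ∃ A : ℕ, 1 ≤ A ∧ 2 / ((A : ℝ) + 1) ≤ κ / 16 := by
    obtain ⟨A, hA⟩ := exists_nat_ge (32 / κ)
    have hA0 : (0 : ℝ) < A := lt_of_lt_of_le (by positivity) hA
    refine ⟨A, by exact_mod_cast hA0, ?_⟩
    rw [div_le_iff₀ (by positivity)]
    rw [div_le_iff₀ hκ] at hA
    nlinarith
  obtain ⟨L1, hL1, hexp⟩ := hadm A hA1
  have hlog : 0 ≤ Real.log (4 * C0) := Real.log_nonneg (by linarith)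
  refine ⟨κ / 2, by positivity, 16 / κ * (2 + Real.log (4 * C0)), by positivity, ?_⟩
  intro β hβ
  have hβpos : 0 < β := lt_of_lt_of_le (by positivity) hβ
  have hβ2 : 2 + Real.log (4 * C0) ≤ κ / 16 * β := by
    have := mul_le_mul_of_nonneg_left hβ (show 0 ≤ κ / 16 by positivity)
    calc 2 + Real.log (4 * C0) = κ / 16 * (16 / κ * (2 + Real.log (4 * C0))) := by
          field_simp
      _ ≤ _ := this
  -- eventually the polynomial factor is small
  have hpoly : ∀ᶠ L : ℝ in atTop, 2 * ((4 * L + 3) ^ 2 + 1) * Real.exp (-(κ / 4 * (6 * (β * L)))) ≤ 1 := by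
    have h1 : Tendsto (fun L : ℝ => 2 * ((4 * L + 3) ^ 2 + 1) *
        Real.exp (-(κ / 4 * (6 * (β * L))))) atTop (𝓝 0) := by
      have hb : 0 < κ / 4 * (6 * β) := by positivity
      have h0 := Real.tendsto_pow_mul_exp_neg_atTop_nhds_zero 0
      have h1 := Real.tendsto_pow_mul_exp_neg_atTop_nhds_zero 1
      have h2 := Real.tendsto_pow_mul_exp_neg_atTop_nhds_zero 2
      have hlin : Tendsto (fun L : ℝ => κ / 4 * (6 * β) * L) atTop atTop :=
        Tendsto.const_mul_atTop hb tendsto_id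
      have g0 := (h0.comp hlin).const_mul 20
      have g1 := (h1.comp hlin).const_mul (48 / (κ / 4 * (6 * β)))
      have g2 := (h2.comp hlin).const_mul (32 / (κ / 4 * (6 * β)) ^ 2)
      have g := (g0.add g1).add g2
      simp only [mul_zero, add_zero] at g
      refine g.congr fun L => ?_
      simp only [Function.comp]
      have : -(κ / 4 * (6 * β) * L) = -(κ / 4 * (6 * (β * L))) := by ring
      rw [this]
      field_simp
      ring
    exact (h1.eventually (ge_mem_nhds one_pos)).mono fun L hL => hL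
  have hside := tendsto_side hβpos
  filter_upwards [eventually_gt_atTop (0 : ℝ), hside.eventually_ge_atTop L1,
    hside.eventually_ge_atTop 1, hside.eventually hpoly] with t ht hL hL1' hpol
  have hLpos : 0 < side β t := sideU_pos hβpos ht
  have hcube := sideU_cube hβpos ht
  have hrate := rate_eq (t := t) hβpos
  generalize side β t = L at *
  have hβL : 0 < β * L := mul_pos hβpos hLpos
  -- radius
  obtain ⟨r, hr1, hr2⟩ : ∃ r : ℕ, (r : ℝ) ≤ ε * L ∧ ε * L < r + 1 :=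
    ⟨⌊ε * L⌋₊, Nat.floor_le (by positivity), Nat.lt_floor_add_one _⟩
  have hM := union_bound C0 hC0 hcount β t
    (EvE β t ∩ {ω | ¬ GoodSet ε L (visited ω t)})
    (Finset.Icc (-(⌈2 * L⌉₊ : ℤ)) ⌈2 * L⌉₊ ×ˢ Finset.Icc (-(⌈2 * L⌉₊ : ℤ)) ⌈2 * L⌉₊)
    ((1 + 3 * κ / 4) * (6 * (β * L))) (Adm ε L r) ?_ ?_ ?_
  · -- conclude
    refine hM.trans (ENNReal.ofReal_le_ofReal ?_)
    have hcard : (((Finset.Icc (-(⌈2 * L⌉₊ : ℤ)) ⌈2 * L⌉₊ ×ˢ
        Finset.Icc (-(⌈2 * L⌉₊ : ℤ)) ⌈2 * L⌉₊ : Finset Z2).card : ℕ) : ℝ) ≤ (4 * L + 3) ^ 2 := by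
      rw [Finset.card_product, Int.card_Icc]
      have h1 : ((⌈2 * L⌉₊ : ℤ) + 1 - (-(⌈2 * L⌉₊ : ℤ))).toNat = 2 * ⌈2 * L⌉₊ + 1 := by omega
      rw [h1]
      push_cast
      have h2 : (⌈2 * L⌉₊ : ℝ) < 2 * L + 1 := Nat.ceil_lt_add_one (by positivity)
      have h3 : (2 : ℝ) * ⌈2 * L⌉₊ + 1 ≤ 4 * L + 3 := by linarith
      have h4 : (0 : ℝ) ≤ 2 * ⌈2 * L⌉₊ + 1 := by positivity
      calc ((2 : ℝ) * ⌈2 * L⌉₊ + 1) * (2 * ⌈2 * L⌉₊ + 1) ≤ (4 * L + 3) * (4 * L + 3) := by gcongr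
        _ = _ := by ring
    have hE : (1 + 3 * κ / 4) * (6 * (β * L)) =
        (1 + κ / 2) * (6 * β * L) + κ / 4 * (6 * (β * L)) := by ring
    have h5 : (1 + κ / 2) * rate β * t ^ (1 / 3 : ℝ) = (1 + κ / 2) * (6 * β * L) := by
      rw [← hrate]; ring
    rw [h5, hE, neg_add, Real.exp_add]
    calc 2 * ((((Finset.Icc (-(⌈2 * L⌉₊ : ℤ)) ⌈2 * L⌉₊ ×ˢ
        Finset.Icc (-(⌈2 * L⌉₊ : ℤ)) ⌈2 * L⌉₊ : Finset Z2).card : ℕ) : ℝ) + 1) *
        (Real.exp (-((1 + κ / 2) * (6 * β * L))) * Real.exp (-(κ / 4 * (6 * (β * L)))))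
        ≤ 2 * ((4 * L + 3) ^ 2 + 1) *
        (Real.exp (-((1 + κ / 2) * (6 * β * L))) * Real.exp (-(κ / 4 * (6 * (β * L))))) := by
          gcongr
      _ = Real.exp (-((1 + κ / 2) * (6 * β * L))) *
          (2 * ((4 * L + 3) ^ 2 + 1) * Real.exp (-(κ / 4 * (6 * (β * L))))) := by ring
      _ ≤ Real.exp (-((1 + κ / 2) * (6 * β * L))) * 1 := by gcongr
      _ = _ := by rw [mul_one]
  · -- inclusion
    filter_upwards [visited_ae t ht] with ω hω hX
    obtain ⟨hfin, hconn, h0, -⟩ := hω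
    obtain ⟨hE, hbad⟩ := hX
    obtain ⟨G, C, hA, hRS, hdeg⟩ := exists_adm ε L r hr1 hfin.toFinset (by simpa using hconn)
      (by simpa using h0) (by simpa using hbad)
    refine ⟨G, C, hA, ?_, ?_⟩
    · intro z hz
      exact hRS (by simpa using hz)
    · intro z hz
      split_ifs with h
      · exact hE z (by simpa using hdeg z hz h)
      · exact ENNReal.toReal_nonneg
  · -- structure of admissible pairs
    intro G C hA
    obtain ⟨x0, y0, a, b, ha, hb, hbox, hbd, h0, hG, hGc, hCG, hbdd, hcase⟩ := hA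
    refine ⟨(Finset.mem_sdiff.1 h0).1, hG, hGc, ?_⟩
    rcases hcase with ⟨hC, -⟩ | ⟨-, hC, -⟩ | ⟨hdim, q, hq, hqC, hCc, hCcc, -⟩
    · exact Or.inl hC
    · exact Or.inl hC
    · refine Or.inr ⟨q, ?_, hqC, hCc, hCcc⟩
      obtain ⟨hd1, hd2, hd3, hd4⟩ := hdim
      have h00 := hbox 0 (Finset.mem_sdiff.1 h0).1
      unfold InBox at h00 hq
      have h3 : (a : ℝ) ≤ ⌈2 * L⌉₊ := by
        refine le_trans ?_ (Nat.le_ceil _)
        nlinarith
      have h4 : (b : ℝ) ≤ ⌈2 * L⌉₊ := by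
        refine le_trans ?_ (Nat.le_ceil _)
        nlinarith
      have h3' : (a : ℤ) ≤ ⌈2 * L⌉₊ := by exact_mod_cast h3
      have h4' : (b : ℤ) ≤ ⌈2 * L⌉₊ := by exact_mod_cast h4
      simp only [Prod.fst_zero, Prod.snd_zero] at h00
      simp only [Finset.mem_product, Finset.mem_Icc]
      omega
  · -- probability of each pair
    intro G C hA
    obtain ⟨Λ, hΛ, hbound⟩ := hexp β L t hβpos hL hcube r hr2 G C hA
    obtain ⟨x0, y0, a, b, ha, hb, hbox, hbd, h0, hG, hGc, hCG, hbdd, hcase⟩ := hA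
    have hθ0 : (0 : ℝ) ≤ 1 - 2 / ((A : ℝ) + 1) := by
      have : (1 : ℝ) ≤ A := by exact_mod_cast hA1
      rw [sub_nonneg, div_le_one (by positivity)]
      linarith
    refine (law_EvS_le (G \ C) (1 - 2 / ((A : ℝ) + 1)) β Λ t hθ0 hβpos.le ht.le h0 hΛ).trans ?_
    refine ENNReal.ofReal_le_ofReal ?_
    have hc := card_le_sq G C x0 y0 a b hbox hbd
    have h4C : (0 : ℝ) < 4 * C0 := by linarith
    have h1 : (((4 * C0 : ℝ) ^ (bd G + bd C))⁻¹ : ℝ) =
        Real.exp (-(((bd G : ℝ) + bd C) * Real.log (4 * C0))) := by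
      rw [Real.exp_neg]
      congr 1
      rw [← Nat.cast_add, ← Real.log_pow, Real.exp_log (by positivity)]
    rw [h1, ← Real.exp_add]
    calc ((G \ C).card : ℝ) * Real.exp (-((1 - 2 / ((A : ℝ) + 1)) * β * bd (G \ C)) + Λ * t)
        ≤ Real.exp (2 * ((bd G : ℝ) + bd C)) *
          Real.exp (-((1 - 2 / ((A : ℝ) + 1)) * β * bd (G \ C)) + Λ * t) := by gcongr
      _ = Real.exp (2 * ((bd G : ℝ) + bd C) +
          (-((1 - 2 / ((A : ℝ) + 1)) * β * bd (G \ C)) + Λ * t)) := by rw [← Real.exp_add]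
      _ ≤ _ := by
          apply Real.exp_le_exp.2
          rw [hbdd]
          push_cast
          exact pair_num κ _ β _ Λ t _ _ hβpos (by linarith) (by positivity) hβ2 hbound

end Pool.Agent.WSQ
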