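import Pool.Agent.WSQ.Bridge
import Pool.Agent.WSQ.Runs
import Pool.Agent.WSQ.Upper

/-!
# Module G2: the lower bound
-/

open MeasureTheory ProbabilityTheory Filter Topology
open scoped ENNReal BigOperators

namespace Pool.Agent.WSQ

theorem ReachE.comp {G : Finset Z2} {a b c : Z2} {T T' : ℝ} {g g' : Z2 → ℝ} {C C' : ℝ}
    (h : ReachE G a b T g C) (h' : ReachE G b c T' g' C') :
    ReachE G a c (T + T') (fun z => g z + g' z) (C + C') := by
  obtain ⟨s, hs0, hs, h⟩ := h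
  obtain ⟨s', hs0', hs', h'⟩ := h'
  exact ⟨s + s', by linarith, by linarith, h.comp hs0 hs0' h'⟩

theorem ReachE.mono {G : Finset Z2} {a b : Z2} {T T' : ℝ} {g g' : Z2 → ℝ} {C C' : ℝ}
    (hT : T ≤ T') (hg : ∀ z, g' z ≤ g z) (hC : C ≤ C') (h : ReachE G a b T g C) :
    ReachE G a b T' g' C' := by
  obtain ⟨s, hs0, hs, h⟩ := h
  exact ⟨s, hs0, hs.trans hT, h.mono (Finset.Subset.refl _) hg hC⟩

theorem ReachE.rotate {m : ℕ} {a b : Z2} {T : ℝ} {g : Z2 → ℝ} {C : ℝ}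
    (h : ReachE (box m) a b T g C) :
    ReachE (box m) (rot m a) (rot m b) T (fun z => g (rotInv m z)) C := by
  obtain ⟨s, hs0, hs, h⟩ := h
  exact ⟨s, hs0, hs, h.rotate⟩

/-- Sum of the four rotated copies of a function. -/
def rotsum (m : ℕ) (g : Z2 → ℝ) (z : Z2) : ℝ :=
  g z + g (rotInv m z) + g (rotInv m (rotInv m z)) + g (rotInv m (rotInv m (rotInv m z)))

/-- Every site of the box has a rotated copy whose nearest side is the bottom one. -/
theorem rot_cases {m : ℕ} {z : Z2} (hz : z ∈ box m) : ∃ w : Z2,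
    w.2 ≤ w.1 ∧ w.1 ≤ (m : ℤ) + 1 - w.2 ∧ 1 ≤ w.2 ∧ w.2 ≤ (m : ℤ) ∧
    w.2 ≤ z.1 ∧ w.2 ≤ z.2 ∧ w.2 ≤ (m : ℤ) + 1 - z.1 ∧ w.2 ≤ (m : ℤ) + 1 - z.2 ∧
    ∀ g : Z2 → ℝ, (∀ z, 0 ≤ g z) → g w ≤ rotsum m g z := by
  obtain ⟨x, y⟩ := z
  simp only [box, Finset.mem_product, Finset.mem_Icc] at hz
  obtain ⟨⟨h1, h2⟩, h3, h4⟩ := hz
  rcases le_total y x with h | h <;> rcases le_total (x + y) ((m : ℤ) + 1) with h' | h'
  · refine ⟨(x, y), ?_⟩
    dsimp only
    refine ⟨h, by linarith, h3, h4, h, le_rfl, by linarith, by linarith, ?_⟩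
    intro g hg
    have := hg (rotInv m (x, y))
    have := hg (rotInv m (rotInv m (x, y)))
    have := hg (rotInv m (rotInv m (rotInv m (x, y))))
    unfold rotsum
    linarith
  · refine ⟨rotInv m (x, y), ?_⟩
    simp only [rotInv]
    refine ⟨by linarith, by linarith, by linarith, by linarith, by linarith, by linarith,
      by linarith, by linarith, ?_⟩
    intro g hg
    have := hg (x, y)
    have := hg (rotInv m (rotInv m (x, y)))
    have := hg (rotInv m (rotInv m (rotInv m (x, y))))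
    unfold rotsum
    simp only [rotInv] at *
    linarith
  · refine ⟨rotInv m (rotInv m (rotInv m (x, y))), ?_⟩
    simp only [rotInv]
    refine ⟨by linarith, by linarith, by linarith, by linarith, by linarith, by linarith,
      by linarith, by linarith, ?_⟩
    intro g hg
    have := hg (x, y)
    have := hg (rotInv m (rotInv m (x, y)))
    have := hg (rotInv m (x, y))
    unfold rotsum
    simp only [rotInv] at *
    linarith
  · refine ⟨rotInv m (rotInv m (x, y)), ?_⟩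
    simp only [rotInv]
    refine ⟨by linarith, by linarith, by linarith, by linarith, by linarith, by linarith,
      by linarith, by linarith, ?_⟩
    intro g hg
    have := hg (x, y)
    have := hg (rotInv m (rotInv m (rotInv m (x, y))))
    have := hg (rotInv m (x, y))
    unfold rotsum
    simp only [rotInv] at *
    linarith

/-- Four rotated copies of a run along the bottom side form a loop. -/
theorem ReachE.loop {m : ℕ} {T : ℝ} {g : Z2 → ℝ} {C : ℝ}
    (h : ReachE (box m) (1, 1) ((m : ℤ), 1) T g C) :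
    ReachE (box m) (1, 1) (1, 1) (4 * T) (rotsum m g) (4 * C) := by
  have h1 := h.rotate
  have h2 := h1.rotate
  have h3 := h2.rotate
  have e1 : rot m (1, 1) = ((m : ℤ), 1) := by simp [rot]
  have e2 : rot m ((m : ℤ), 1) = ((m : ℤ), (m : ℤ)) := by simp [rot]
  have e3 : rot m ((m : ℤ), (m : ℤ)) = (1, (m : ℤ)) := by simp [rot]
  have e4 : rot m (1, (m : ℤ)) = (1, 1) := by simp [rot]
  rw [e1, e2] at h1
  rw [e1, e2, e3] at h2
  rw [e1, e2, e3, e4] at h3
  have := ((h.comp h1).comp h2).comp h3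
  refine this.mono (by linarith) (fun z => le_rfl) (by linarith)

/-- Concatenation of finitely many loops. -/
theorem ReachE.chain {G : Finset Z2} {a : Z2} (ha : a ∈ G) (K : ℕ) (T C : ℕ → ℝ)
    (g : ℕ → Z2 → ℝ) (h : ∀ k < K, ReachE G a a (T k) (g k) (C k)) :
    ReachE G a a (∑ k ∈ Finset.range K, T k) (fun z => ∑ k ∈ Finset.range K, g k z)
      (∑ k ∈ Finset.range K, C k) := by
  induction K with
  | zero => 
    simp only [Finset.range_zero, Finset.sum_empty]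
    exact ⟨0, le_rfl, le_rfl, Reach.refl ha⟩
  | succ K ih =>
    simp only [Finset.sum_range_succ]
    exact (ih (fun k hk => h k (by omega))).comp (h K (by omega))

/-- Geometric series bound for the costs. -/
theorem geo_cost (r0 : ℕ) (hr0 : 1 ≤ r0) (K : ℕ) :
    ∑ k ∈ Finset.range K, ((r0 * 2 ^ k : ℕ) : ℝ) ^ (-(3 / 4) : ℝ) ≤
      5 / 2 * (r0 : ℝ) ^ (-(3 / 4) : ℝ) := by
  have hr : (0 : ℝ) < r0 := by exact_mod_cast hr0
  have h2 : (2 : ℝ) ^ (-(3 / 4) : ℝ) ≤ 3 / 5 := by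
    have h := Real.rpow_le_rpow_left_iff (x := 2) (y := -(3/4 : ℝ)) (z := -(3/4 : ℝ)) (by norm_num)
    have h8 : ((2 : ℝ) ^ (-(3 / 4) : ℝ)) ^ 4 ≤ (3 / 5 : ℝ) ^ 4 := by
      rw [← Real.rpow_natCast, ← Real.rpow_mul (by norm_num)]
      norm_num
    exact le_of_pow_le_pow_left₀ (by norm_num) (by norm_num) h8
  have hterm : ∀ k : ℕ, ((r0 * 2 ^ k : ℕ) : ℝ) ^ (-(3 / 4) : ℝ) ≤
      (r0 : ℝ) ^ (-(3 / 4) : ℝ) * (3 / 5) ^ k := by
    intro k
    push_cast
    rw [Real.mul_rpow (by positivity) (by positivity)]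
    gcongr
    rw [← Real.rpow_natCast (2 : ℝ) k, ← Real.rpow_mul (by norm_num), mul_comm,
      Real.rpow_mul (by norm_num), Real.rpow_natCast]
    exact pow_le_pow_left₀ (by positivity) h2 k
  calc ∑ k ∈ Finset.range K, ((r0 * 2 ^ k : ℕ) : ℝ) ^ (-(3 / 4) : ℝ)
      ≤ ∑ k ∈ Finset.range K, (r0 : ℝ) ^ (-(3 / 4) : ℝ) * (3 / 5) ^ k :=
        Finset.sum_le_sum fun k _ => hterm k
    _ = (r0 : ℝ) ^ (-(3 / 4) : ℝ) * ∑ k ∈ Finset.range K, (3 / 5 : ℝ) ^ k := by
        rw [Finset.mul_sum]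
    _ ≤ (r0 : ℝ) ^ (-(3 / 4) : ℝ) * (5 / 2) := by
        gcongr
        rw [geom_sum_eq (by norm_num)]
        have : (0 : ℝ) < (3 / 5) ^ K := by positivity
        rw [div_le_iff_of_neg (by norm_num)]
        linarith
    _ = _ := by ring

/-- Arithmetic conditions that hold for all large `m`. -/
theorem large_m (r0 : ℕ) (δ β A B D c0 : ℝ) (hδ : 0 < δ) (hβ : 0 < β) (hA : 0 ≤ A) (hB : 0 ≤ B)
    (hc0 : 0 < c0) : ∃ m0 : ℕ, ∀ m : ℕ, m0 ≤ m →
      1024 ≤ m ∧ (2 * r0 : ℝ) ≤ (m : ℝ) ^ (4 / 5 : ℝ) ∧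
      D + 6 * Real.log ((m : ℝ) + 1) ≤ 2 * δ * β * m ∧
      A * m + B * (m : ℝ) ^ 2 * ((Nat.log 2 m : ℝ) + 1) ≤ c0 * (m : ℝ) ^ 3 := by
  have hlog : ∀ ε : ℝ, 0 < ε → ∀ᶠ x : ℝ in atTop, Real.log x ≤ ε * x := by
    intro ε hε
    have h := Real.isLittleO_log_id_atTop.bound hε
    filter_upwards [h, eventually_ge_atTop (1 : ℝ)] with x hx hx1
    have h1 : 0 ≤ Real.log x := Real.log_nonneg hx1
    simp only [id, Real.norm_eq_abs, abs_of_nonneg h1, abs_of_nonneg (by linarith : (0:ℝ) ≤ x)]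
      at hx
    exact hx
  have e1 : ∀ᶠ x : ℝ in atTop, (2 * r0 : ℝ) ≤ x ^ (4 / 5 : ℝ) :=
    (tendsto_rpow_atTop (by norm_num : (0 : ℝ) < 4 / 5)).eventually_ge_atTop _
  have e2 : ∀ᶠ x : ℝ in atTop, D + 6 * Real.log (x + 1) ≤ 2 * δ * β * x := by
    have hp : 0 < δ * β := mul_pos hδ hβ
    have h1 : ∀ᶠ x : ℝ in atTop, Real.log (x + 1) ≤ (δ * β / 6) * (x + 1) :=
      (tendsto_atTop_add_const_right _ _ tendsto_id).eventually (hlog _ (by positivity))
    filter_upwards [h1, eventually_ge_atTop ((D + δ * β) / (δ * β))] with x h1 h2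
    rw [div_le_iff₀ hp] at h2
    nlinarith
  have e3 : ∀ᶠ x : ℝ in atTop, A * x + B * x ^ 2 * (Real.log x / Real.log 2 + 1) ≤ c0 * x ^ 3 := by
    have hl2 : 0 < Real.log 2 := Real.log_pos (by norm_num)
    have h1 := hlog (c0 * Real.log 2 / (4 * (B + 1))) (by positivity)
    filter_upwards [h1, eventually_ge_atTop (1 : ℝ), eventually_ge_atTop (4 * A / c0),
      eventually_ge_atTop (4 * B / c0)] with x h1 h2 h3 h4
    have hx : 0 < x := by linarith
    rw [div_le_iff₀ hc0] at h3 h4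
    have k1 : Real.log x / Real.log 2 ≤ c0 * x / (4 * (B + 1)) := by
      rw [div_le_iff₀ hl2]
      calc Real.log x ≤ c0 * Real.log 2 / (4 * (B + 1)) * x := h1
        _ = _ := by ring
    have k2 : B * (c0 * x / (4 * (B + 1))) ≤ c0 * x / 4 := by
      rw [mul_div_assoc', div_le_div_iff₀ (by positivity) (by norm_num)]
      nlinarith [mul_pos hc0 hx]
    have k3 : B * x ^ 2 * (Real.log x / Real.log 2 + 1) ≤ x ^ 2 * (c0 * x / 4 + c0 * x / 4) := by
      calc B * x ^ 2 * (Real.log x / Real.log 2 + 1)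
          = x ^ 2 * (B * (Real.log x / Real.log 2) + B) := by ring
        _ ≤ x ^ 2 * (c0 * x / 4 + c0 * x / 4) := by
            gcongr
            · exact (mul_le_mul_of_nonneg_left k1 hB).trans k2
            · linarith
    have k4 : A * x ≤ c0 * x ^ 3 / 4 := by
      have : A ≤ x * c0 / 4 := by linarith
      have h5 : A * x ≤ x * c0 / 4 * x := by gcongr
      have h6 : x * c0 / 4 * x ≤ c0 * x ^ 3 / 4 := by
        have : x ^ 2 ≤ x ^ 3 := by nlinarith [sq_nonneg x, mul_pos hx hx]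
        nlinarith
      linarith
    have hx3 : 0 < c0 * x ^ 3 := by positivity
    nlinarith
  have e := (e1.and (e2.and e3)).natCast_atTop
  obtain ⟨m0, hm0⟩ := Filter.eventually_atTop.mp e
  refine ⟨max m0 1024, fun m hm => ?_⟩
  obtain ⟨h1, h2, h3⟩ := hm0 m (le_trans (le_max_left _ _) hm)
  refine ⟨le_trans (le_max_right _ _) hm, h1, h2, le_trans ?_ h3⟩
  have hlg : (Nat.log 2 m : ℝ) ≤ Real.log m / Real.log 2 := by
    have := Real.natLog_le_logb m 2
    rwa [Real.logb] at this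
  gcongr

theorem pow45_le {m : ℕ} (hm : 1024 ≤ m) : 4 * (m : ℝ) ^ (4 / 5 : ℝ) ≤ m := by
  have hm' : (1024 : ℝ) ≤ m := by exact_mod_cast hm
  have h0 : (0 : ℝ) < m := by linarith
  have h1 : (m : ℝ) = (m : ℝ) ^ (4 / 5 : ℝ) * (m : ℝ) ^ (1 / 5 : ℝ) := by
    rw [← Real.rpow_add h0]
    norm_num
  have h2 : (4 : ℝ) ≤ (m : ℝ) ^ (1 / 5 : ℝ) := by
    have : (4 : ℝ) = (1024 : ℝ) ^ (1 / 5 : ℝ) := by
      rw [show (1024 : ℝ) = 4 ^ (5 : ℝ) by norm_num, ← Real.rpow_mul (by norm_num)]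
      norm_num
    rw [this]
    exact Real.rpow_le_rpow (by norm_num) hm' (by norm_num)
  nlinarith [Real.rpow_pos_of_pos h0 (4 / 5 : ℝ)]

theorem lamBox_nonneg (m : ℕ) : 0 ≤ lamBox m := by
  unfold lamBox
  linarith [Real.cos_le_one (Real.pi / ((m : ℝ) + 1))]

/-- All four sides and all scales together: from the corner back to the corner, local time at
least `β` on the whole box. -/
theorem box_full (δ : ℝ) (hδ : 0 < δ) : ∃ β0 : ℝ, 0 < β0 ∧ ∀ β : ℝ, β0 ≤ β → ∀ c0 : ℝ, 0 < c0 →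
    ∃ m0 : ℕ, ∀ m : ℕ, m0 ≤ m → ∀ t : ℝ, c0 * (m : ℝ) ^ 3 ≤ t →
      Reach (box m) (1, 1) (1, 1) t (fun z => if z ∈ box m then β else 0)
        (4 * (1 + δ) * β * m + lamBox m * t) := by
  obtain ⟨C1, hC1, hscale⟩ := scale_run
  -- choice of the first scale
  obtain ⟨r0, hr01, hr0⟩ : ∃ r0 : ℕ, 1 ≤ r0 ∧
      (r0 : ℝ) ^ (-(3 / 4) : ℝ) ≤ δ / (60 * C1) := by
    have h : Tendsto (fun x : ℝ => x ^ (-(3 / 4) : ℝ)) atTop (𝓝 0) :=
      tendsto_rpow_neg_atTop (by norm_num)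
    have h1 : ∀ᶠ x : ℝ in atTop, x ^ (-(3 / 4) : ℝ) < δ / (60 * C1) :=
      h.eventually_lt_const (by positivity)
    obtain ⟨n0, hn0⟩ := Filter.eventually_atTop.mp h1.natCast_atTop
    exact ⟨max n0 1, le_max_right _ _, (hn0 _ (le_max_left _ _)).le⟩
  have hr0pos : (0 : ℝ) < r0 := by exact_mod_cast hr01
  obtain ⟨β1, hβ1, hfin⟩ := fin_run (δ / 4) (by positivity) (2 * r0) (by omega)
  refine ⟨max β1 1, by positivity, ?_⟩
  intro β hβ c0 hc0
  have hββ1 : β1 ≤ β := le_trans (le_max_left _ _) hβ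
  have hβone : 1 ≤ β := le_trans (le_max_right _ _) hβ
  have hβ0 : 0 < β := by linarith
  obtain ⟨C2, hC2, m1, hfin⟩ := hfin β hββ1
  obtain ⟨m2, hbulk⟩ := box_bulk β (c0 / 2) hβ0.le (by positivity)
  obtain ⟨m3, hm3⟩ := large_m r0 δ β (4 * C2) (12 * C1 * (1 + β)) (4 * C2) (c0 / 2) hδ hβ0
    (by positivity) (by positivity) (by positivity)
  refine ⟨max m1 (max m2 m3), ?_⟩
  intro m hm t ht
  have hmm1 : m1 ≤ m := le_trans (le_max_left _ _) hm
  have hmm2 : m2 ≤ m := le_trans (le_trans (le_max_left _ _) (le_max_right _ _)) hm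
  have hmm3 : m3 ≤ m := le_trans (le_trans (le_max_right _ _) (le_max_right _ _)) hm
  obtain ⟨h1024, hr45, hcost, htime⟩ := hm3 m hmm3
  have hm0 : (0 : ℝ) < m := by
    have : 0 < m := by omega
    exact_mod_cast this
  have hmone : (1 : ℝ) ≤ m := by
    have : 1 ≤ m := by omega
    exact_mod_cast this
  have hp45 := pow45_le h1024
  have hp45pos : (0 : ℝ) < (m : ℝ) ^ (4 / 5 : ℝ) := Real.rpow_pos_of_pos hm0 _
  set n : ℕ := ⌊(m : ℝ) ^ (4 / 5 : ℝ)⌋₊ with hn
  have hn_le : (n : ℝ) ≤ (m : ℝ) ^ (4 / 5 : ℝ) := Nat.floor_le hp45pos.le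
  have hn_lt : (m : ℝ) ^ (4 / 5 : ℝ) < n + 1 := Nat.lt_floor_add_one _
  have hn_r0 : 2 * r0 ≤ n := by
    apply Nat.le_floor
    push_cast
    exact hr45
  have hnm : n ≤ m := by
    have : (n : ℝ) ≤ m := by linarith
    exact_mod_cast this
  set q : ℕ := n / (2 * r0) with hq
  have hq0 : q ≠ 0 := by
    have : 0 < q := Nat.div_pos hn_r0 (by omega)
    omega
  set Kn : ℕ := Nat.log 2 q + 1 with hKn
  -- properties of the scales
  have hscl : ∀ k < Kn, 2 * (r0 * 2 ^ k) ≤ n := by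
    intro k hk
    have h1 : 2 ^ k ≤ q := (Nat.pow_le_pow_right (by norm_num) (by omega)).trans
      (Nat.pow_log_le_self 2 hq0)
    calc 2 * (r0 * 2 ^ k) = 2 ^ k * (2 * r0) := by ring
      _ ≤ q * (2 * r0) := Nat.mul_le_mul_right _ h1
      _ ≤ n := Nat.div_mul_le_self _ _
  -- loops
  have L1 := (hfin m hmm1).loop
  have hcorner : ((1, 1) : Z2) ∈ box m := by
    have : (1 : ℤ) ≤ m := by
      have : 1 ≤ m := by omega
      exact_mod_cast this
    simp [box, this]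
  have L2 := ReachE.chain hcorner Kn
    (fun k => 4 * (C1 * (1 + β) * 3 * m * m))
    (fun k => 4 * (C1 * (1 + β) * (3 * m) * ((r0 * 2 ^ k : ℕ) : ℝ) ^ (-(3 / 4) : ℝ)))
    (fun k => rotsum m (fun z => if 2 * ((r0 * 2 ^ k : ℕ) : ℤ) ≤ z.2 ∧
      z.2 ≤ 4 * ((r0 * 2 ^ k : ℕ) : ℤ) ∧ z.2 ≤ z.1 ∧ z.1 ≤ m + 1 - z.2 then β else 0))
    (by
      intro k hk
      have hk2 := hscl k hk
      set r : ℕ := r0 * 2 ^ k with hr
      have hrpos : 1 ≤ r := by
        have : 0 < r0 * 2 ^ k := by positivity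
        omega
      have hrR : (0 : ℝ) < r := by exact_mod_cast hrpos
      have hrn : 2 * (r : ℝ) ≤ n := by exact_mod_cast hk2
      have h8 : 8 * r ≤ m := by
        have : 8 * (r : ℝ) ≤ m := by linarith
        exact_mod_cast this
      have hrm : (r : ℝ) ≤ m := by linarith
      have hr45' : (r : ℝ) ≤ (m : ℝ) ^ (4 / 5 : ℝ) := by linarith
      have hfrac : (m : ℝ) / r + 2 ≤ 3 * m / r := by
        rw [div_add' _ _ _ hrR.ne']
        gcongr
        linarith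
      have L := hscale r m hrpos h8 β hβ0.le
      refine L.loop.mono ?_ (fun z => le_rfl) ?_
      · have e1 : (m : ℝ) / r * (r : ℝ) ^ (9 / 4 : ℝ) = m * (r : ℝ) ^ (5 / 4 : ℝ) := by
          rw [div_mul_eq_mul_div, mul_div_assoc]
          congr 1
          rw [div_eq_iff hrR.ne', ← Real.rpow_add_one hrR.ne']
          norm_num
        have e2 : (r : ℝ) ^ (5 / 4 : ℝ) ≤ m := by
          calc (r : ℝ) ^ (5 / 4 : ℝ) ≤ ((m : ℝ) ^ (4 / 5 : ℝ)) ^ (5 / 4 : ℝ) :=
                Real.rpow_le_rpow hrR.le hr45' (by norm_num)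
            _ = m := by
                rw [← Real.rpow_mul hm0.le]
                norm_num
        calc 4 * (C1 * (1 + β) * ((m : ℝ) / r + 2) * (r : ℝ) ^ (9 / 4 : ℝ))
            ≤ 4 * (C1 * (1 + β) * (3 * m / r) * (r : ℝ) ^ (9 / 4 : ℝ)) := by gcongr
          _ = 4 * (C1 * (1 + β) * 3 * ((m : ℝ) / r * (r : ℝ) ^ (9 / 4 : ℝ))) := by ring
          _ = 4 * (C1 * (1 + β) * 3 * (m * (r : ℝ) ^ (5 / 4 : ℝ))) := by rw [e1]
          _ ≤ 4 * (C1 * (1 + β) * 3 * (m * m)) := by gcongr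
          _ = _ := by ring
      · have e1 : (m : ℝ) / r * (r : ℝ) ^ (1 / 4 : ℝ) = m * (r : ℝ) ^ (-(3 / 4) : ℝ) := by
          rw [div_mul_eq_mul_div, mul_div_assoc]
          congr 1
          rw [div_eq_iff hrR.ne', ← Real.rpow_add_one hrR.ne']
          norm_num
        calc 4 * (C1 * (1 + β) * ((m : ℝ) / r + 2) * (r : ℝ) ^ (1 / 4 : ℝ))
            ≤ 4 * (C1 * (1 + β) * (3 * m / r) * (r : ℝ) ^ (1 / 4 : ℝ)) := by gcongr
          _ = 4 * (C1 * (1 + β) * 3 * ((m : ℝ) / r * (r : ℝ) ^ (1 / 4 : ℝ))) := by ring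
          _ = 4 * (C1 * (1 + β) * 3 * (m * (r : ℝ) ^ (-(3 / 4) : ℝ))) := by rw [e1]
          _ = _ := by ring)
  obtain ⟨s, hs0, hs, L3⟩ := L1.comp L2
  -- total time used
  have hsT : s ≤ c0 / 2 * (m : ℝ) ^ 3 := by
    refine hs.trans ?_
    rw [Finset.sum_const, Finset.card_range, nsmul_eq_mul]
    have hK : (Kn : ℝ) ≤ (Nat.log 2 m : ℝ) + 1 := by
      have h1 : q ≤ m := (Nat.div_le_self _ _).trans hnm
      have h2 : Nat.log 2 q ≤ Nat.log 2 m := Nat.log_mono_right h1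
      have : Kn ≤ Nat.log 2 m + 1 := by omega
      exact_mod_cast this
    calc 4 * (C2 * m) + (Kn : ℝ) * (4 * (C1 * (1 + β) * 3 * m * m))
        ≤ 4 * (C2 * m) + ((Nat.log 2 m : ℝ) + 1) * (4 * (C1 * (1 + β) * 3 * m * m)) := by gcongr
      _ = 4 * C2 * m + 12 * C1 * (1 + β) * (m : ℝ) ^ 2 * ((Nat.log 2 m : ℝ) + 1) := by ring
      _ ≤ _ := htime
  have hts : c0 / 2 * (m : ℝ) ^ 3 ≤ t - s := by linarith
  have hts0 : 0 ≤ t - s := le_trans (by positivity) hts
  have L4 := hbulk m hmm2 (t - s) hts (1, 1) hcorner (1, 1) hcorner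
  have L5 := L3.comp hs0 hts0 L4
  rw [add_sub_cancel] at L5
  refine L5.mono (Finset.Subset.refl _) ?_ ?_
  · -- coverage
    intro z
    have nn1 : ∀ w : Z2, (0 : ℝ) ≤ (fun z : Z2 => if 1 ≤ z.2 ∧ z.2 ≤ ((2 * r0 : ℕ) : ℤ) ∧
        z.2 ≤ z.1 ∧ z.1 ≤ m + 1 - z.2 then β else 0) w := by
      intro w
      dsimp only
      split_ifs <;> linarith
    have nn2 : ∀ k : ℕ, ∀ w : Z2, (0 : ℝ) ≤ (fun z : Z2 => if 2 * ((r0 * 2 ^ k : ℕ) : ℤ) ≤ z.2 ∧
        z.2 ≤ 4 * ((r0 * 2 ^ k : ℕ) : ℤ) ∧ z.2 ≤ z.1 ∧ z.1 ≤ m + 1 - z.2 then β else 0) w := by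
      intro k w
      dsimp only
      split_ifs <;> linarith
    have rn : ∀ g : Z2 → ℝ, (∀ w, 0 ≤ g w) → ∀ w, 0 ≤ rotsum m g w := by
      intro g hg w
      unfold rotsum
      have := hg w
      have := hg (rotInv m w)
      have := hg (rotInv m (rotInv m w))
      have := hg (rotInv m (rotInv m (rotInv m w)))
      linarith
    have n1 := rn _ nn1 z
    have n2 : 0 ≤ ∑ k ∈ Finset.range Kn, rotsum m (fun z : Z2 =>
        if 2 * ((r0 * 2 ^ k : ℕ) : ℤ) ≤ z.2 ∧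
        z.2 ≤ 4 * ((r0 * 2 ^ k : ℕ) : ℤ) ∧ z.2 ≤ z.1 ∧ z.1 ≤ m + 1 - z.2 then β else 0) z :=
      Finset.sum_nonneg fun k _ => rn _ (nn2 k) z
    have n3 : 0 ≤ (if (m : ℝ) ^ (4 / 5 : ℝ) ≤ z.1 ∧ (z.1 : ℝ) ≤ m + 1 - (m : ℝ) ^ (4 / 5 : ℝ) ∧
          (m : ℝ) ^ (4 / 5 : ℝ) ≤ z.2 ∧ (z.2 : ℝ) ≤ m + 1 - (m : ℝ) ^ (4 / 5 : ℝ)
          then β else 0) := by
      split_ifs <;> linarith
    by_cases hz : z ∈ box m
    · rw [if_pos hz]
      obtain ⟨w, hw1, hw2, hw3, hw4, hw5, hw6, hw7, hw8, hwg⟩ := rot_cases hz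
      by_cases hc1 : w.2 ≤ ((2 * r0 : ℕ) : ℤ)
      · have := hwg _ nn1
        rw [if_pos ⟨hw3, hc1, hw1, hw2⟩] at this
        linarith
      · by_cases hc2 : w.2 ≤ (n : ℤ)
        · -- intermediate scale
          obtain ⟨h, hh⟩ : ∃ h : ℕ, w.2 = h := ⟨w.2.toNat, by omega⟩
          rw [hh] at hc1 hc2
          have hc1' : 2 * r0 < h := by exact_mod_cast not_le.mp hc1
          have hc2' : h ≤ n := by exact_mod_cast hc2
          set k : ℕ := Nat.log 2 (h / (2 * r0)) with hk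
          have hq' : h / (2 * r0) ≠ 0 := by
            have : 0 < h / (2 * r0) := Nat.div_pos hc1'.le (by omega)
            omega
          have hkK : k < Kn := by
            have : k ≤ Nat.log 2 q := Nat.log_mono_right (Nat.div_le_div_right hc2')
            omega
          have hlow : 2 * (r0 * 2 ^ k) ≤ h := by
            calc 2 * (r0 * 2 ^ k) = 2 ^ k * (2 * r0) := by ring
              _ ≤ (h / (2 * r0)) * (2 * r0) :=
                Nat.mul_le_mul_right _ (Nat.pow_log_le_self 2 hq')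
              _ ≤ h := Nat.div_mul_le_self _ _
          have hhigh : h ≤ 4 * (r0 * 2 ^ k) := by
            have h1 : h / (2 * r0) < 2 ^ (k + 1) := Nat.lt_pow_succ_log_self (by norm_num) _
            have h2 : h < 2 ^ (k + 1) * (2 * r0) := by
              rwa [Nat.div_lt_iff_lt_mul (by omega)] at h1
            have h3 : 2 ^ (k + 1) * (2 * r0) = 4 * (r0 * 2 ^ k) := by ring
            omega
          have := hwg _ (nn2 k)
          rw [if_pos ⟨by rw [hh]; exact_mod_cast hlow, by rw [hh]; exact_mod_cast hhigh,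
            hw1, hw2⟩] at this
          have hle : rotsum m (fun z : Z2 =>
              if 2 * ((r0 * 2 ^ k : ℕ) : ℤ) ≤ z.2 ∧
              z.2 ≤ 4 * ((r0 * 2 ^ k : ℕ) : ℤ) ∧ z.2 ≤ z.1 ∧ z.1 ≤ m + 1 - z.2 then β else 0) z ≤
              ∑ k ∈ Finset.range Kn, rotsum m (fun z : Z2 =>
              if 2 * ((r0 * 2 ^ k : ℕ) : ℤ) ≤ z.2 ∧
              z.2 ≤ 4 * ((r0 * 2 ^ k : ℕ) : ℤ) ∧ z.2 ≤ z.1 ∧
                z.1 ≤ m + 1 - z.2 then β else 0) z :=
            Finset.single_le_sum (f := fun k => rotsum m (fun z : Z2 =>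
              if 2 * ((r0 * 2 ^ k : ℕ) : ℤ) ≤ z.2 ∧
              z.2 ≤ 4 * ((r0 * 2 ^ k : ℕ) : ℤ) ∧ z.2 ≤ z.1 ∧
                z.1 ≤ m + 1 - z.2 then β else 0) z)
              (fun k _ => rn _ (nn2 k) z) (Finset.mem_range.mpr hkK)
          linarith
        · -- bulk
          have hb : (m : ℝ) ^ (4 / 5 : ℝ) ≤ w.2 := by
            have : (n : ℤ) + 1 ≤ w.2 := by omega
            have : (n : ℝ) + 1 ≤ w.2 := by exact_mod_cast this
            linarith
          have b1 : (w.2 : ℝ) ≤ z.1 := by exact_mod_cast hw5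
          have b2 : (w.2 : ℝ) ≤ z.2 := by exact_mod_cast hw6
          have b3 : (w.2 : ℝ) ≤ (m : ℝ) + 1 - z.1 := by exact_mod_cast hw7
          have b4 : (w.2 : ℝ) ≤ (m : ℝ) + 1 - z.2 := by exact_mod_cast hw8
          rw [if_pos ⟨by linarith, by linarith, by linarith, by linarith⟩]
          linarith
    · rw [if_neg hz]
      linarith
  · -- total cost
    rw [← Finset.mul_sum, ← Finset.mul_sum]
    have hgeo := geo_cost r0 hr01 Kn
    have hlam := lamBox_nonneg m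
    have k1 : C1 * (1 + β) * (3 * m) * ∑ k ∈ Finset.range Kn,
        ((r0 * 2 ^ k : ℕ) : ℝ) ^ (-(3 / 4) : ℝ) ≤ δ * β * m / 4 := by
      calc C1 * (1 + β) * (3 * m) * ∑ k ∈ Finset.range Kn,
            ((r0 * 2 ^ k : ℕ) : ℝ) ^ (-(3 / 4) : ℝ)
          ≤ C1 * (2 * β) * (3 * m) * (5 / 2 * (δ / (60 * C1))) := by
            gcongr
            · linarith
            · exact hgeo.trans (by gcongr)
        _ = δ * β * m / 4 := by
            field_simp
            ring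
    have k2 : lamBox m * (t - s) ≤ lamBox m * t := by
      gcongr
      linarith
    nlinarith

theorem lamBox_le (m : ℕ) : lamBox m ≤ 2 * Real.pi ^ 2 / ((m : ℝ) + 1) ^ 2 := by
  unfold lamBox
  have h := Real.one_sub_sq_div_two_le_cos (x := Real.pi / ((m : ℝ) + 1))
  have e : (Real.pi / ((m : ℝ) + 1)) ^ 2 / 2 = (2 * Real.pi ^ 2 / ((m : ℝ) + 1) ^ 2) / 4 := by
    rw [div_pow]
    ring
  linarith

theorem side_pos {β t : ℝ} (hβ : 0 < β) (ht : 0 < t) : 0 < side β t := by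
  unfold side
  have := Real.pi_pos
  positivity

theorem side_cube {β t : ℝ} (hβ : 0 < β) (ht : 0 < t) :
    side β t ^ 3 = Real.pi ^ 2 / β * t := by
  unfold side
  have := Real.pi_pos
  rw [mul_pow, ← Real.rpow_natCast ((Real.pi ^ 2 / β) ^ (1 / 3 : ℝ)),
    ← Real.rpow_natCast (t ^ (1 / 3 : ℝ)), ← Real.rpow_mul (by positivity),
    ← Real.rpow_mul ht.le]
  norm_num

theorem cost_eq {β t : ℝ} (hβ : 0 < β) (ht : 0 < t) :
    4 * β * side β t + 2 * Real.pi ^ 2 * t / side β t ^ 2 = rate β * t ^ (1 / 3 : ℝ) := by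
  have hs := side_pos hβ ht
  have hpi := Real.pi_pos
  have h3 := side_cube hβ ht
  -- second term equals `2 β side`
  have h2 : 2 * Real.pi ^ 2 * t / side β t ^ 2 = 2 * β * side β t := by
    rw [div_eq_iff (by positivity)]
    have : 2 * β * side β t * side β t ^ 2 = 2 * β * side β t ^ 3 := by ring
    rw [this, h3]
    field_simp
  rw [h2]
  have h4 : β * side β t = Real.pi ^ (2 / 3 : ℝ) * β ^ (2 / 3 : ℝ) * t ^ (1 / 3 : ℝ) := by
    unfold side
    rw [Real.div_rpow (by positivity) hβ.le]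
    have e1 : (Real.pi ^ 2) ^ (1 / 3 : ℝ) = Real.pi ^ (2 / 3 : ℝ) := by
      rw [← Real.rpow_natCast, ← Real.rpow_mul hpi.le]
      norm_num
    have e2 : β / β ^ (1 / 3 : ℝ) = β ^ (2 / 3 : ℝ) := by
      rw [div_eq_iff (by positivity), ← Real.rpow_add hβ]
      norm_num
    rw [e1, ← e2]
    ring
  unfold rate
  linear_combination 6 * h4

theorem lower_bound (δ : ℝ) (hδ : 0 < δ) :
    ∃ β0 : ℝ, 0 < β0 ∧ ∀ β : ℝ, β0 ≤ β → ∀ᶠ t : ℝ in atTop,
      ENNReal.ofReal (Real.exp (-((1 + δ) * rate β * t ^ (1 / 3 : ℝ)))) ≤ law (EvE β t) := by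
  obtain ⟨β0, hβ0, hbox⟩ := box_full δ hδ
  refine ⟨β0, hβ0, ?_⟩
  intro β hβ
  have hβpos : 0 < β := lt_of_lt_of_le hβ0 hβ
  have hpi := Real.pi_pos
  obtain ⟨m0, hm0⟩ := hbox β hβ (β / Real.pi ^ 2) (by positivity)
  have hside : Tendsto (fun t : ℝ => side β t) atTop atTop := by
    unfold side
    exact (tendsto_rpow_atTop (by norm_num)).const_mul_atTop (by positivity)
  filter_upwards [hside.eventually_ge_atTop ((m0 : ℝ) + 1), eventually_gt_atTop 0] with t h1 ht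
  have hs := side_pos hβpos ht
  set m : ℕ := ⌊side β t⌋₊ with hm
  have hms : (m : ℝ) ≤ side β t := Nat.floor_le hs.le
  have hsm : side β t < m + 1 := Nat.lt_floor_add_one _
  have hm0m : m0 ≤ m := by
    have : (m0 : ℝ) < m + 1 := by linarith
    have : m0 < m + 1 := by exact_mod_cast this
    omega
  have hmcube : β / Real.pi ^ 2 * (m : ℝ) ^ 3 ≤ t := by
    calc β / Real.pi ^ 2 * (m : ℝ) ^ 3 ≤ β / Real.pi ^ 2 * side β t ^ 3 := by gcongr
      _ = t := by
          rw [side_cube hβpos ht]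
          field_simp
  have hR := hm0 m hm0m t hmcube
  have hR' := hR.translate (-1, -1)
  have e0 : ((1, 1) : Z2) + (-1, -1) = 0 := by ext <;> simp
  rw [e0] at hR'
  unfold Reach at hR'
  set S : Finset Z2 := (box m).image fun z => z + (-1, -1) with hS
  -- the event
  have hev : {ω | (∀ z ∈ visited ω t, z ∈ S) ∧ ∀ z ∈ S, β ≤ localTime ω t z} ⊆ EvE β t := by
    intro ω hω x hx
    exact hω.2 x (hω.1 x hx)
  refine le_trans ?_ (measure_mono hev)
  rw [law_event S (fun _ => β) t ht.le]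
  refine le_trans ?_ (le_trans hR' ?_)
  · -- comparison of the exponents
    apply ENNReal.ofReal_le_ofReal
    apply Real.exp_le_exp.mpr
    rw [neg_le_neg_iff]
    have hlam := lamBox_le m
    have k1 : lamBox m * t ≤ 2 * Real.pi ^ 2 * t / side β t ^ 2 := by
      calc lamBox m * t ≤ 2 * Real.pi ^ 2 / ((m : ℝ) + 1) ^ 2 * t := by gcongr
        _ ≤ 2 * Real.pi ^ 2 / side β t ^ 2 * t := by gcongr
        _ = _ := by ring
    have k2 : 4 * (1 + δ) * β * m ≤ (1 + δ) * (4 * β * side β t) := by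
      calc 4 * (1 + δ) * β * m ≤ 4 * (1 + δ) * β * side β t := by gcongr
        _ = _ := by ring
    have k3 : 2 * Real.pi ^ 2 * t / side β t ^ 2 ≤
        (1 + δ) * (2 * Real.pi ^ 2 * t / side β t ^ 2) := by
      have : 0 ≤ 2 * Real.pi ^ 2 * t / side β t ^ 2 := by positivity
      nlinarith
    have k4 := cost_eq hβpos ht
    calc 4 * (1 + δ) * β * m + lamBox m * t
        ≤ (1 + δ) * (4 * β * side β t) + (1 + δ) * (2 * Real.pi ^ 2 * t / side β t ^ 2) := by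
          linarith
      _ = (1 + δ) * (4 * β * side β t + 2 * Real.pi ^ 2 * t / side β t ^ 2) := by ring
      _ = (1 + δ) * rate β * t ^ (1 / 3 : ℝ) := by rw [k4]; ring
  · apply K_mono
    intro l
    unfold ind
    split_ifs with h2 h3 h3
    · exact le_rfl
    · exfalso
      apply h3
      refine ⟨h2.1, ?_⟩
      intro z hz
      have h4 := h2.2.2 z
      have h5 : z - (-1, -1) ∈ box m := by
        rw [hS, Finset.mem_image] at hz
        obtain ⟨w, hw, rfl⟩ := hz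
        simpa using hw
      simp only [if_pos h5] at h4
      exact h4
    · exact zero_le
    · exact le_rfl

end Pool.Agent.WSQ
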