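import Pool.Agent.WSQ.Lower
import Pool.Agent.WSQ.Haus

/-!
# Main theorem
-/

open MeasureTheory ProbabilityTheory Filter Topology
open scoped ENNReal BigOperators

namespace Pool.Agent.WSQ

/-- conditional probability of the complement, for a null measurable event and an arbitrary set -/
theorem one_sub_le_cond {Ω : Type*} [MeasurableSpace Ω] (μ : Measure Ω) [IsProbabilityMeasure μ]
    {E B : Set Ω} (hE : NullMeasurableSet E μ) (hE0 : μ E ≠ 0) :
    1 - μ (E ∩ Bᶜ) / μ E ≤ (μ[|E]) B := by
  have : IsProbabilityMeasure (μ[|E]) := cond_isProbabilityMeasure hE0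
  have h1 : (1 : ℝ≥0∞) ≤ (μ[|E]) B + (μ[|E]) Bᶜ := by
    rw [← measure_univ (μ := μ[|E]), ← Set.union_compl_self B]
    exact measure_union_le _ _
  have h2 : (μ[|E]) Bᶜ = μ (E ∩ Bᶜ) / μ E := by
    unfold ProbabilityTheory.cond
    rw [Measure.smul_apply, Measure.restrict_apply₀' hE, smul_eq_mul, Set.inter_comm, mul_comm]
    rfl
  rw [← h2]
  exact tsub_le_iff_right.mpr h1

/-- For every `ε > 0` and all large `β`, conditionally on the event that every visited site has
local time at least `β`, the rescaled range is within Hausdorff distance `ε` of a translate of the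
axis-parallel square of unit diameter, with probability tending to one. -/
theorem main (ε : ℝ) (hε : 0 < ε) : ∃ β0 : ℝ, 0 < β0 ∧ ∀ β : ℝ, β0 ≤ β →
    Tendsto (fun t : ℝ => (law[|EvE β t]) (NearSquare ε t)) atTop (𝓝 1) := by
  obtain ⟨ε', hε', hε'1, L0, hL0, hgood⟩ := near_of_good ε hε
  obtain ⟨c, hc, β1, hβ1, hup⟩ := upper_bound ε' hε' hε'1
  obtain ⟨β2, hβ2, hlow⟩ := lower_bound (c / 2) (by positivity)
  refine ⟨max β1 β2, by positivity, ?_⟩
  intro β hβ
  have hβ1' : β1 ≤ β := le_trans (le_max_left _ _) hβ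
  have hβ2' : β2 ≤ β := le_trans (le_max_right _ _) hβ
  have hβ0 : 0 < β := lt_of_lt_of_le hβ1 hβ1'
  have hrate : 0 < rate β := by unfold rate; positivity
  -- the side tends to infinity
  have hpow : Tendsto (fun t : ℝ => t ^ (1 / 3 : ℝ)) atTop atTop :=
    tendsto_rpow_atTop (by norm_num)
  have hside : Tendsto (fun t : ℝ => side β t) atTop atTop := by
    unfold side
    exact hpow.const_mul_atTop (by positivity)
  have hsideL : ∀ᶠ t : ℝ in atTop, L0 ≤ side β t := hside.eventually_ge_atTop L0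
  -- the lower bound for the conditional probability
  have key : ∀ᶠ t : ℝ in atTop,
      1 - ENNReal.ofReal (Real.exp (-(c / 2 * rate β * t ^ (1 / 3 : ℝ)))) ≤
        (law[|EvE β t]) (NearSquare ε t) := by
    filter_upwards [hup β hβ1', hlow β hβ2', hsideL, eventually_gt_atTop 0] with t h1 h2 h3 ht
    have hE0 : law (EvE β t) ≠ 0 := by
      intro h
      rw [h] at h2
      have := ENNReal.ofReal_pos.mpr (Real.exp_pos (-((1 + c / 2) * rate β * t ^ (1 / 3 : ℝ))))
      exact absurd h2 (not_le.mpr this)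
    refine le_trans ?_ (one_sub_le_cond law (nullMeasurable_EvE β t ht) hE0)
    refine tsub_le_tsub_left ?_ _
    -- `E ∩ Nearᶜ ⊆ (E ∩ ¬ Good) ∪ null`
    have hsub : law (EvE β t ∩ (NearSquare ε t)ᶜ) ≤
        law (EvE β t ∩ {ω | ¬ GoodSet ε' (side β t) (visited ω t)}) := by
      apply measure_mono_ae
      filter_upwards [visited_ae t ht] with ω hω hmem
      refine ⟨hmem.1, ?_⟩
      intro hg
      apply hmem.2
      exact hgood (side β t) h3 (visited ω t) hω.1 hg
    rw [ENNReal.div_le_iff hE0 (measure_ne_top _ _)]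
    refine hsub.trans (h1.trans ?_)
    calc ENNReal.ofReal (Real.exp (-((1 + c) * rate β * t ^ (1 / 3 : ℝ))))
        = ENNReal.ofReal (Real.exp (-(c / 2 * rate β * t ^ (1 / 3 : ℝ)))) *
          ENNReal.ofReal (Real.exp (-((1 + c / 2) * rate β * t ^ (1 / 3 : ℝ)))) := by
          rw [← ENNReal.ofReal_mul (Real.exp_pos _).le, ← Real.exp_add]
          congr 2
          ring
      _ ≤ _ := by gcongr
  -- the limit
  have hlim : Tendsto (fun t : ℝ =>
      1 - ENNReal.ofReal (Real.exp (-(c / 2 * rate β * t ^ (1 / 3 : ℝ))))) atTop (𝓝 1) := by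
    have h1 : Tendsto (fun t : ℝ => Real.exp (-(c / 2 * rate β * t ^ (1 / 3 : ℝ)))) atTop
        (𝓝 0) := by
      apply Real.tendsto_exp_neg_atTop_nhds_zero.comp
      exact hpow.const_mul_atTop (by positivity)
    have h2 := ENNReal.tendsto_ofReal h1
    rw [ENNReal.ofReal_zero] at h2
    have h3 := ENNReal.Tendsto.sub (tendsto_const_nhds (x := (1 : ℝ≥0∞))) h2
      (Or.inl ENNReal.one_ne_top)
    simpa using h3
  refine tendsto_of_tendsto_of_tendsto_of_le_of_le' hlim tendsto_const_nhds key ?_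
  filter_upwards [hlow β hβ2'] with t h2
  have hE0 : law (EvE β t) ≠ 0 := by
    intro h
    rw [h] at h2
    have := ENNReal.ofReal_pos.mpr (Real.exp_pos (-((1 + c / 2) * rate β * t ^ (1 / 3 : ℝ))))
    exact absurd h2 (not_le.mpr this)
  have : IsProbabilityMeasure (law[|EvE β t]) := cond_isProbabilityMeasure hE0
  exact prob_le_one

end Pool.Agent.WSQ
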