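import Pool.Agent.WSQ.Defs

/-!
# Module C1: eigenvalue bound by row and column slicing
-/

open scoped BigOperators

namespace Pool.Agent.WSQ

/-- Reference one-dimensional eigenvalue: `2 - 2 cos (π / (a + 1 + 2A))`. -/
noncomputable def mu (A a : ℕ) : ℝ := 2 - 2 * Real.cos (Real.pi / ((a : ℝ) + 1 + 2 * A))

/-- Two-dimensional slicing bound: a finite set inside an `a × b` box, with the potential
`θ * deg`, has top eigenvalue at most `-(mu A a + mu A b)`. -/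
theorem slice_bound (A a b : ℕ) (hA : 1 ≤ A) (θ : ℝ) (hθ0 : 0 ≤ θ)
    (hθ : θ ≤ 1 - 2 / ((A : ℝ) + 1)) (G : Finset Z2) (x0 y0 : ℤ)
    (hG : ∀ p ∈ G, x0 ≤ p.1 ∧ p.1 < x0 + a ∧ y0 ≤ p.2 ∧ p.2 < y0 + b) (f : Z2 → ℝ) :
    Q G (fun x => θ * deg G x) f ≤ -(mu A a + mu A b) * nsq G f := by
  sorry

/-- Lower bound for the reference eigenvalue. -/
theorem mu_lower (A : ℕ) (δ : ℝ) (hδ : 0 < δ) :
    ∃ a0 : ℕ, ∀ a : ℕ, a0 ≤ a → (1 - δ) * Real.pi ^ 2 / (a : ℝ) ^ 2 ≤ mu A a := by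
  sorry

theorem mu_anti (A a a' : ℕ) (h : a ≤ a') : mu A a' ≤ mu A a := by
  sorry

theorem mu_pos (A a : ℕ) (hA : 1 ≤ A) : 0 < mu A a := by
  sorry

end Pool.Agent.WSQ
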