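import Pool.Agent.WSQ.Bridge
import Pool.Agent.WSQ.FK
import Pool.Agent.WSQ.Super

/-!
# Module E1, part 1: bound for one fixed outer set
-/

open MeasureTheory ProbabilityTheory Filter Topology
open scoped ENNReal BigOperators

namespace Pool.Agent.WSQ

/-- Linear functionals of the path in terms of the occupation. -/
theorem sum_map_eq_occ (V : Z2 → ℝ) (S : Finset Z2) (l : Pth) (hl : ∀ p ∈ l, p.1 ∈ S) :
    (l.map fun p => V p.1 * p.2).sum = ∑ z ∈ S, V z * occ l z := by
  induction l with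
  | nil => simp [occ]
  | cons p l ih =>
    have h2 := ih fun q hq => hl q (by simp [hq])
    have h1 : p.1 ∈ S := hl p (by simp)
    simp only [List.map_cons, List.sum_cons, h2, occ_cons, mul_add, Finset.sum_add_distrib]
    congr 1
    simp [h1]

/-- Bound for one fixed outer set. -/
theorem prob_le (S : Finset Z2) (θ β Λ t : ℝ) (hθ : 0 ≤ θ) (hβ : 0 ≤ β) (ht : 0 ≤ t)
    (h0 : (0 : Z2) ∈ S)
    (hΛ : ∀ g : Z2 → ℝ, Q S (fun x => θ * deg S x) g ≤ Λ * nsq S g) :
    K 0 t (ind fun l => (∀ p ∈ l, p.1 ∈ S) ∧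
        ∀ z ∈ S, (if 0 < deg S z then β else 0) ≤ occ l z) ≤
      ENNReal.ofReal (S.card * Real.exp (-(θ * β * bd S) + Λ * t)) := by
  classical
  have h1 : K 0 t (ind fun l => (∀ p ∈ l, p.1 ∈ S) ∧
        ∀ z ∈ S, (if 0 < deg S z then β else 0) ≤ occ l z) ≤
      K 0 t (fun l => ENNReal.ofReal (Real.exp (-(θ * β * bd S))) *
        (ind (fun l => ∀ p ∈ l, p.1 ∈ S) l *
        ENNReal.ofReal (Real.exp ((l.map fun p => θ * deg S p.1 * p.2).sum)))) := by
    refine K_mono' 0 t ht ?_
    intro l hl _ _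
    unfold ind
    by_cases h : (∀ p ∈ l, p.1 ∈ S) ∧ ∀ z ∈ S, (if 0 < deg S z then β else 0) ≤ occ l z
    · rw [if_pos h, if_pos h.1, one_mul, ← ENNReal.ofReal_mul (Real.exp_nonneg _), ← Real.exp_add]
      rw [← ENNReal.ofReal_one]
      refine ENNReal.ofReal_le_ofReal ?_
      rw [sum_map_eq_occ (fun z => θ * deg S z) S l h.1]
      refine Real.one_le_exp ?_
      have : θ * β * bd S ≤ ∑ z ∈ S, θ * deg S z * occ l z := by
        unfold bd
        push_cast
        rw [Finset.mul_sum]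
        refine Finset.sum_le_sum fun z hz => ?_
        rcases Nat.eq_zero_or_pos (deg S z) with h0 | h0
        · simp [h0]
        · have h3 := h.2 z hz
          rw [if_pos h0] at h3
          have h4 : (0 : ℝ) ≤ θ * deg S z := mul_nonneg hθ (Nat.cast_nonneg _)
          calc θ * β * deg S z = θ * deg S z * β := by ring
            _ ≤ θ * deg S z * occ l z := mul_le_mul_of_nonneg_left h3 h4
      linarith
    · rw [if_neg h]
      exact bot_le
  refine h1.trans ?_
  rw [K_const_mul 0 t _ ENNReal.ofReal_ne_top]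
  refine (mul_le_mul_right (fk_upper_total S (fun x => θ * deg S x) Λ hΛ 0 h0 t ht) _).trans ?_
  rw [← ENNReal.ofReal_mul (Real.exp_nonneg _)]
  refine ENNReal.ofReal_le_ofReal (le_of_eq ?_)
  rw [Real.exp_add]; ring

end Pool.Agent.WSQ
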