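import Pool.Agent.WSQ.Upper1
import Pool.Agent.WSQ.Contour

/-!
# Module E1, part 2: union bound over contours
-/

open MeasureTheory ProbabilityTheory Filter Topology
open scoped ENNReal BigOperators

namespace Pool.Agent.WSQ

/-- Event: the range stays in `S` and the inner boundary sites of `S` have local time `≥ β`. -/
def EvS (β t : ℝ) (S : Finset Z2) : Set Om :=
  {ω | (∀ z ∈ visited ω t, z ∈ S) ∧ ∀ z ∈ S, (if 0 < deg S z then β else 0) ≤ localTime ω t z}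

theorem law_EvS_le (S : Finset Z2) (θ β Λ t : ℝ) (hθ : 0 ≤ θ) (hβ : 0 ≤ β) (ht : 0 ≤ t)
    (h0 : (0 : Z2) ∈ S)
    (hΛ : ∀ g : Z2 → ℝ, Q S (fun x => θ * deg S x) g ≤ Λ * nsq S g) :
    law (EvS β t S) ≤ ENNReal.ofReal (S.card * Real.exp (-(θ * β * bd S) + Λ * t)) := by
  unfold EvS
  rw [law_event S (fun z => if 0 < deg S z then β else 0) t ht]
  exact prob_le S θ β Λ t hθ hβ ht h0 hΛ

theorem union_bound (C0 : ℕ) (hC0 : 1 ≤ C0)
    (hcount : ∀ (ℓ : ℕ) (p : Z2), ∃ S : Finset (Finset Z2), S.card ≤ C0 ^ ℓ ∧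
      ∀ G : Finset Z2, p ∈ G → Conn (G : Set Z2) → Conn ((G : Set Z2)ᶜ) → bd G ≤ ℓ → G ∈ S)
    (β t : ℝ) (X : Set Om) (Bt : Finset Z2) (M : ℝ) (Adm : Finset Z2 → Finset Z2 → Prop)
    (hX : ∀ᵐ ω ∂law, ω ∈ X → ∃ G C, Adm G C ∧ ω ∈ EvS β t (G \ C))
    (hAdm : ∀ G C, Adm G C → (0 : Z2) ∈ G ∧ Conn (G : Set Z2) ∧ Conn ((G : Set Z2)ᶜ) ∧
      (C = ∅ ∨ ∃ q ∈ Bt, q ∈ C ∧ Conn (C : Set Z2) ∧ Conn ((C : Set Z2)ᶜ)))
    (hP : ∀ G C, Adm G C → law (EvS β t (G \ C)) ≤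
      ENNReal.ofReal (((4 * C0 : ℝ) ^ (bd G + bd C))⁻¹ * Real.exp (-M))) :
    law X ≤ ENNReal.ofReal (2 * (Bt.card + 1) * Real.exp (-M)) := by
  classical
  choose S hScard hS using hcount
  -- index set
  let U : ℕ × ℕ → Set Om := fun k =>
    ⋃ G ∈ S k.1 0, ⋃ C ∈ insert ∅ (Bt.biUnion fun q => S k.2 q),
      if Adm G C ∧ bd G = k.1 ∧ bd C = k.2 then EvS β t (G \ C) else ∅
  have h1 : law X ≤ law (⋃ k, U k) := by
    refine measure_mono_ae ?_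
    filter_upwards [hX] with ω hω hωX
    obtain ⟨G, C, hA, hE⟩ := hω hωX
    obtain ⟨h0, hG, hGc, hC⟩ := hAdm G C hA
    refine Set.mem_iUnion.2 ⟨(bd G, bd C), ?_⟩
    refine Set.mem_iUnion₂.2 ⟨G, hS _ _ G h0 hG hGc le_rfl, ?_⟩
    refine Set.mem_iUnion₂.2 ⟨C, ?_, ?_⟩
    · rcases hC with hC | ⟨q, hq, hqC, hCc, hCcc⟩
      · simp [hC]
      · refine Finset.mem_insert_of_mem (Finset.mem_biUnion.2 ⟨q, hq, ?_⟩)
        exact hS _ _ C hqC hCc hCcc le_rfl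
    · rw [if_pos ⟨hA, rfl, rfl⟩]
      exact hE
  refine h1.trans ((measure_iUnion_le U).trans ?_)
  have h2 : ∀ k : ℕ × ℕ, law (U k) ≤
      ENNReal.ofReal ((Bt.card + 1) * Real.exp (-M)) * ((4 : ℝ≥0∞)⁻¹ ^ k.1 * (4 : ℝ≥0∞)⁻¹ ^ k.2) := by
    intro k
    have h3 : law (U k) ≤ ∑ G ∈ S k.1 0, ∑ C ∈ insert ∅ (Bt.biUnion fun q => S k.2 q),
        ENNReal.ofReal (((4 * C0 : ℝ) ^ (k.1 + k.2))⁻¹ * Real.exp (-M)) := by
      refine (measure_biUnion_finset_le _ _).trans (Finset.sum_le_sum fun G _ => ?_)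
      refine (measure_biUnion_finset_le _ _).trans (Finset.sum_le_sum fun C _ => ?_)
      split_ifs with h
      · rw [← h.2.1, ← h.2.2]
        exact hP G C h.1
      · simp
    refine h3.trans ?_
    rw [Finset.sum_const, Finset.sum_const, smul_smul, nsmul_eq_mul]
    have h4 : ((insert ∅ (Bt.biUnion fun q => S k.2 q)).card : ℕ) ≤ (Bt.card + 1) * C0 ^ k.2 := by
      refine (Finset.card_insert_le _ _).trans ?_
      have : (Bt.biUnion fun q => S k.2 q).card ≤ Bt.card * C0 ^ k.2 :=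
        Finset.card_biUnion_le_card_mul _ _ _ fun q _ => hScard _ _
      have h5 : 1 ≤ C0 ^ k.2 := Nat.one_le_pow _ _ hC0
      nlinarith
    have h6 : (((S k.1 0).card * (insert ∅ (Bt.biUnion fun q => S k.2 q)).card : ℕ) : ℝ) ≤
        (C0 : ℝ) ^ k.1 * ((Bt.card + 1) * (C0 : ℝ) ^ k.2) := by
      have : ((S k.1 0).card * (insert ∅ (Bt.biUnion fun q => S k.2 q)).card : ℕ) ≤
          C0 ^ k.1 * ((Bt.card + 1) * C0 ^ k.2) := Nat.mul_le_mul (hScard _ _) h4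
      exact_mod_cast this
    rw [show ((((S k.1 0).card * (insert ∅ (Bt.biUnion fun q => S k.2 q)).card : ℕ)) : ℝ≥0∞) =
      ENNReal.ofReal (((S k.1 0).card * (insert ∅ (Bt.biUnion fun q => S k.2 q)).card : ℕ) : ℝ) from
        (ENNReal.ofReal_natCast _).symm]
    rw [← ENNReal.ofReal_mul (Nat.cast_nonneg _)]
    have h7 : (4 : ℝ≥0∞)⁻¹ ^ k.1 * (4 : ℝ≥0∞)⁻¹ ^ k.2 =
        ENNReal.ofReal ((4 : ℝ)⁻¹ ^ (k.1 + k.2)) := by
      rw [ENNReal.ofReal_pow (by norm_num), ENNReal.ofReal_inv_of_pos (by norm_num), pow_add]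
      norm_num
    rw [h7, ← ENNReal.ofReal_mul (by positivity)]
    refine ENNReal.ofReal_le_ofReal ?_
    have hCpos : (0 : ℝ) < C0 := by exact_mod_cast hC0
    calc (((S k.1 0).card * (insert ∅ (Bt.biUnion fun q => S k.2 q)).card : ℕ) : ℝ) *
          (((4 * C0 : ℝ) ^ (k.1 + k.2))⁻¹ * Real.exp (-M))
        ≤ ((C0 : ℝ) ^ k.1 * ((Bt.card + 1) * (C0 : ℝ) ^ k.2)) *
          (((4 * C0 : ℝ) ^ (k.1 + k.2))⁻¹ * Real.exp (-M)) := by gcongr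
      _ = (Bt.card + 1) * Real.exp (-M) * (4 : ℝ)⁻¹ ^ (k.1 + k.2) := by
          rw [mul_pow, mul_inv, pow_add (C0 : ℝ), inv_pow]
          field_simp
  refine (ENNReal.tsum_le_tsum h2).trans ?_
  rw [ENNReal.tsum_mul_left, ENNReal.tsum_prod (f := fun a b : ℕ => (4 : ℝ≥0∞)⁻¹ ^ a * 4⁻¹ ^ b)]
  simp only [ENNReal.tsum_mul_left, ENNReal.tsum_mul_right, ENNReal.tsum_geometric]
  have h8 : ((1 : ℝ≥0∞) - 4⁻¹)⁻¹ = ENNReal.ofReal (4 / 3) := by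
    have : (1 : ℝ≥0∞) - 4⁻¹ = ENNReal.ofReal (3 / 4) := by
      rw [show (1 : ℝ≥0∞) = ENNReal.ofReal 1 by simp,
        show (4 : ℝ≥0∞)⁻¹ = ENNReal.ofReal (1 / 4) by
          rw [ENNReal.ofReal_div_of_pos (by norm_num)]; norm_num,
        ← ENNReal.ofReal_sub _ (by norm_num)]
      norm_num
    rw [this, ← ENNReal.ofReal_inv_of_pos (by norm_num)]
    norm_num
  rw [h8, ← ENNReal.ofReal_mul (by norm_num), ← ENNReal.ofReal_mul (by positivity)]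
  refine ENNReal.ofReal_le_ofReal ?_
  have : 0 < Real.exp (-M) := Real.exp_pos _
  have h9 : (0 : ℝ) ≤ (Bt.card + 1) * Real.exp (-M) := by positivity
  nlinarith

end Pool.Agent.WSQ
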