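import Pool.Agent.WSQ.UpperDefs
import Pool.Agent.WSQ.Fill

/-!
# Module E1, part 3: a bad range produces an admissible pair (outer set, hole)
-/

open scoped BigOperators

namespace Pool.Agent.WSQ

/-- Both dimensions are `(1 ± ε) L`. -/
def DimOK (ε L : ℝ) (a b : ℕ) : Prop :=
  (1 - ε) * L ≤ a ∧ (a : ℝ) ≤ (1 + ε) * L ∧ (1 - ε) * L ≤ b ∧ (b : ℝ) ≤ (1 + ε) * L

/-- `q` lies in the box with corner `(x0,y0)` and dimensions `a × b`. -/
def InBox (x0 y0 : ℤ) (a b : ℕ) (q : Z2) : Prop :=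
  x0 ≤ q.1 ∧ q.1 < x0 + a ∧ y0 ≤ q.2 ∧ q.2 < y0 + b

/-- Admissible pairs. -/
def Adm (ε L : ℝ) (r : ℕ) (G C : Finset Z2) : Prop :=
  ∃ (x0 y0 : ℤ) (a b : ℕ), 1 ≤ a ∧ 1 ≤ b ∧ (∀ p ∈ G, InBox x0 y0 a b p) ∧
    2 * (a + b) ≤ bd G ∧ (0 : Z2) ∈ G \ C ∧ Conn (G : Set Z2) ∧ Conn ((G : Set Z2)ᶜ) ∧
    C ⊆ G ∧ bd (G \ C) = bd G + bd C ∧
    ((C = ∅ ∧ ¬ DimOK ε L a b) ∨
      (DimOK ε L a b ∧ C = ∅ ∧ ∃ q, InBox x0 y0 a b q ∧
        ∀ p ∈ G, ¬ (|p.1 - q.1| ≤ (r : ℤ) ∧ |p.2 - q.2| ≤ (r : ℤ))) ∨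
      (DimOK ε L a b ∧ ∃ q, InBox x0 y0 a b q ∧ q ∈ C ∧ Conn (C : Set Z2) ∧
        Conn ((C : Set Z2)ᶜ) ∧ 4 * (2 * r + 1) ≤ bd C))

/-- Horizontal segments are connected. -/
theorem conn_step_trans {S : Set Z2} {x y z : Z2}
    (h1 : Relation.ReflTransGen (fun u v => (∃ e, v = u + step e) ∧ v ∈ S) x y)
    (h2 : Relation.ReflTransGen (fun u v => (∃ e, v = u + step e) ∧ v ∈ S) y z) :
    Relation.ReflTransGen (fun u v => (∃ e, v = u + step e) ∧ v ∈ S) x z := h1.trans h2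

theorem rect_path_right (S : Set Z2) (n : ℕ) : ∀ x : Z2,
    (∀ k : ℕ, k ≤ n → (x.1 + k, x.2) ∈ S) →
    Relation.ReflTransGen (fun u v => (∃ e, v = u + step e) ∧ v ∈ S) x (x.1 + n, x.2) := by
  induction n with
  | zero => intro x _; simpa using Relation.ReflTransGen.refl
  | succ n ih =>
    intro x h
    refine Relation.ReflTransGen.tail (ih x fun k hk => h k (by omega)) ⟨⟨0, ?_⟩, ?_⟩
    · simp [step]; push_cast; ring
    · exact_mod_cast h (n + 1) le_rfl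

theorem rect_path_left (S : Set Z2) (n : ℕ) : ∀ x : Z2,
    (∀ k : ℕ, k ≤ n → (x.1 - k, x.2) ∈ S) →
    Relation.ReflTransGen (fun u v => (∃ e, v = u + step e) ∧ v ∈ S) x (x.1 - n, x.2) := by
  induction n with
  | zero => intro x _; simpa using Relation.ReflTransGen.refl
  | succ n ih =>
    intro x h
    refine Relation.ReflTransGen.tail (ih x fun k hk => h k (by omega)) ⟨⟨1, ?_⟩, ?_⟩
    · simp [step]; push_cast; ring
    · exact_mod_cast h (n + 1) le_rfl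

theorem rect_path_up (S : Set Z2) (n : ℕ) : ∀ x : Z2,
    (∀ k : ℕ, k ≤ n → (x.1, x.2 + k) ∈ S) →
    Relation.ReflTransGen (fun u v => (∃ e, v = u + step e) ∧ v ∈ S) x (x.1, x.2 + n) := by
  induction n with
  | zero => intro x _; simpa using Relation.ReflTransGen.refl
  | succ n ih =>
    intro x h
    refine Relation.ReflTransGen.tail (ih x fun k hk => h k (by omega)) ⟨⟨2, ?_⟩, ?_⟩
    · simp [step]; push_cast; ring
    · exact_mod_cast h (n + 1) le_rfl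

theorem rect_path_down (S : Set Z2) (n : ℕ) : ∀ x : Z2,
    (∀ k : ℕ, k ≤ n → (x.1, x.2 - k) ∈ S) →
    Relation.ReflTransGen (fun u v => (∃ e, v = u + step e) ∧ v ∈ S) x (x.1, x.2 - n) := by
  induction n with
  | zero => intro x _; simpa using Relation.ReflTransGen.refl
  | succ n ih =>
    intro x h
    refine Relation.ReflTransGen.tail (ih x fun k hk => h k (by omega)) ⟨⟨3, ?_⟩, ?_⟩
    · simp [step]; push_cast; ring
    · exact_mod_cast h (n + 1) le_rfl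

theorem conn_rect (x0 x1 y0 y1 : ℤ) :
    Conn ((Finset.Icc x0 x1 ×ˢ Finset.Icc y0 y1 : Finset Z2) : Set Z2) := by
  intro x hx y hy
  simp only [Finset.coe_product, Finset.coe_Icc, Set.mem_prod, Set.mem_Icc] at hx hy
  -- first move horizontally to (y.1, x.2), then vertically
  have h1 : Relation.ReflTransGen (fun u v => (∃ e, v = u + step e) ∧
      v ∈ ((Finset.Icc x0 x1 ×ˢ Finset.Icc y0 y1 : Finset Z2) : Set Z2)) x (y.1, x.2) := by
    rcases le_total x.1 y.1 with h | h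
    · obtain ⟨n, hn⟩ := Int.eq_ofNat_of_zero_le (sub_nonneg.2 h)
      have := rect_path_right ((Finset.Icc x0 x1 ×ˢ Finset.Icc y0 y1 : Finset Z2) : Set Z2) n x
        (fun k hk => by
          simp only [Finset.coe_product, Finset.coe_Icc, Set.mem_prod, Set.mem_Icc]
          omega)
      rwa [show (x.1 + (n : ℤ), x.2) = (y.1, x.2) by ext <;> simp; omega] at this
    · obtain ⟨n, hn⟩ := Int.eq_ofNat_of_zero_le (sub_nonneg.2 h)
      have := rect_path_left ((Finset.Icc x0 x1 ×ˢ Finset.Icc y0 y1 : Finset Z2) : Set Z2) n x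
        (fun k hk => by
          simp only [Finset.coe_product, Finset.coe_Icc, Set.mem_prod, Set.mem_Icc]
          omega)
      rwa [show (x.1 - (n : ℤ), x.2) = (y.1, x.2) by ext <;> simp; omega] at this
  have h2 : Relation.ReflTransGen (fun u v => (∃ e, v = u + step e) ∧
      v ∈ ((Finset.Icc x0 x1 ×ˢ Finset.Icc y0 y1 : Finset Z2) : Set Z2)) (y.1, x.2) y := by
    rcases le_total x.2 y.2 with h | h
    · obtain ⟨n, hn⟩ := Int.eq_ofNat_of_zero_le (sub_nonneg.2 h)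
      have := rect_path_up ((Finset.Icc x0 x1 ×ˢ Finset.Icc y0 y1 : Finset Z2) : Set Z2) n
        (y.1, x.2) (fun k hk => by
          simp only [Finset.coe_product, Finset.coe_Icc, Set.mem_prod, Set.mem_Icc]
          omega)
      rwa [show ((y.1, x.2).1, (y.1, x.2).2 + (n : ℤ)) = y by ext <;> simp; omega] at this
    · obtain ⟨n, hn⟩ := Int.eq_ofNat_of_zero_le (sub_nonneg.2 h)
      have := rect_path_down ((Finset.Icc x0 x1 ×ˢ Finset.Icc y0 y1 : Finset Z2) : Set Z2) n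
        (y.1, x.2) (fun k hk => by
          simp only [Finset.coe_product, Finset.coe_Icc, Set.mem_prod, Set.mem_Icc]
          omega)
      rwa [show ((y.1, x.2).1, (y.1, x.2).2 - (n : ℤ)) = y by ext <;> simp; omega] at this
  exact h1.trans h2

theorem step_neg (e : Fin 4) : ∃ e', ∀ z : Z2, z + step e + step e' = z := by
  fin_cases e
  · exact ⟨1, fun z => by ext <;> simp [step]⟩
  · exact ⟨0, fun z => by ext <;> simp [step]⟩
  · exact ⟨3, fun z => by ext <;> simp [step]⟩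
  · exact ⟨2, fun z => by ext <;> simp [step]⟩

theorem exists_adm (ε L : ℝ) (r : ℕ) (hr : (r : ℝ) ≤ ε * L) (R : Finset Z2)
    (hR : Conn (R : Set Z2)) (h0 : (0 : Z2) ∈ R) (hbad : ¬ GoodSet ε L (R : Set Z2)) :
    ∃ G C : Finset Z2, Adm ε L r G C ∧ R ⊆ G \ C ∧ ∀ z ∈ G \ C, 0 < deg (G \ C) z → z ∈ R := by
  classical
  have hne : R.Nonempty := ⟨0, h0⟩
  obtain ⟨G, hRG, hG, hGc, hGR, hGbox, hGB⟩ := fill_exists R hR hne
  -- extreme points
  obtain ⟨p, hp, hpmin⟩ := R.exists_min_image (fun z => z.1) hne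
  obtain ⟨q, hq, hqmax⟩ := R.exists_max_image (fun z => z.1) hne
  obtain ⟨p', hp', hpmin'⟩ := R.exists_min_image (fun z => z.2) hne
  obtain ⟨q', hq', hqmax'⟩ := R.exists_max_image (fun z => z.2) hne
  have hpq : p.1 ≤ q.1 := hpmin q hq
  have hpq' : p'.2 ≤ q'.2 := hpmin' q' hq'
  obtain ⟨a, ha⟩ := Int.eq_ofNat_of_zero_le (show 0 ≤ q.1 - p.1 + 1 by omega)
  obtain ⟨b, hb⟩ := Int.eq_ofNat_of_zero_le (show 0 ≤ q'.2 - p'.2 + 1 by omega)
  have hRbox : ∀ z ∈ R, p.1 ≤ z.1 ∧ z.1 ≤ q.1 ∧ p'.2 ≤ z.2 ∧ z.2 ≤ q'.2 := fun z hz =>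
    ⟨hpmin z hz, hqmax z hz, hpmin' z hz, hqmax' z hz⟩
  have hGbox' : ∀ z ∈ G, InBox p.1 p'.2 a b z := by
    intro z hz
    have := hGbox p.1 q.1 p'.2 q'.2 hRbox z hz
    unfold InBox
    omega
  have hbdG : 2 * (a + b) ≤ bd G := by
    have := bd_ge_box G hG p q p' q' (hRG hp) (hRG hq) (hRG hp') (hRG hq') hpq hpq'
    rw [ha, hb] at this
    exact_mod_cast this
  have ha1 : 1 ≤ a := by omega
  have hb1 : 1 ≤ b := by omega
  by_cases hdim : DimOK ε L a b
  · -- the dimensions are fine: some square is missed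
    have hmiss : ∃ c : Z2, InBox p.1 p'.2 a b c ∧
        ∀ z ∈ R, ¬ (|(z.1 : ℝ) - c.1| ≤ ε * L ∧ |(z.2 : ℝ) - c.2| ≤ ε * L) := by
      by_contra hcon
      push_neg at hcon
      refine hbad ⟨p.1, p'.2, a, b, hdim.1, hdim.2.1, hdim.2.2.1, hdim.2.2.2, ?_, ?_⟩
      · intro z hz
        exact hGbox' z (hRG (by exact_mod_cast hz))
      · intro c hc
        obtain ⟨z, hz, h1, h2⟩ := hcon c hc
        exact ⟨z, by exact_mod_cast hz, h1, h2⟩
    obtain ⟨c, hc, hcR⟩ := hmiss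
    let B : Finset Z2 := Finset.Icc (c.1 - r) (c.1 + r) ×ˢ Finset.Icc (c.2 - r) (c.2 + r)
    have hBmem : ∀ z : Z2, z ∈ B ↔ |z.1 - c.1| ≤ (r : ℤ) ∧ |z.2 - c.2| ≤ (r : ℤ) := by
      intro z
      simp only [B, Finset.mem_product, Finset.mem_Icc, abs_le]
      omega
    have hBR : Disjoint B R := by
      rw [Finset.disjoint_left]
      intro z hzB hzR
      rw [hBmem] at hzB
      refine hcR z hzR ⟨?_, ?_⟩
      · refine le_trans ?_ hr
        exact_mod_cast hzB.1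
      · refine le_trans ?_ hr
        exact_mod_cast hzB.2
    have hcB : c ∈ B := by rw [hBmem]; simp
    rcases hGB B (conn_rect _ _ _ _) ⟨c, hcB⟩ hBR with hdis | ⟨C, hBC, hCG, hCc, hCcc, hCR⟩
    · refine ⟨G, ∅, ⟨p.1, p'.2, a, b, ha1, hb1, hGbox', hbdG, by simpa using hRG h0, hG, hGc,
        Finset.empty_subset _, by simp [bd], Or.inr (Or.inl ⟨hdim, rfl, c, hc, ?_⟩)⟩, by simpa, ?_⟩
      · intro z hz hzc
        exact (Finset.disjoint_left.1 hdis) ((hBmem z).2 hzc) hz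
      · intro z hz hdeg
        rw [Finset.sdiff_empty] at hz hdeg
        obtain ⟨e, he⟩ := Finset.card_pos.1 hdeg
        exact hGR z hz e (Finset.mem_filter.1 he).2
    · have h0C : (0 : Z2) ∉ C := fun h => (Finset.mem_sdiff.1 (hCG h)).2 h0
      refine ⟨G, C, ⟨p.1, p'.2, a, b, ha1, hb1, hGbox', hbdG,
        Finset.mem_sdiff.2 ⟨hRG h0, h0C⟩, hG, hGc,
        fun z hz => (Finset.mem_sdiff.1 (hCG hz)).1, bd_sdiff G R C hRG hCG hCR,
        Or.inr (Or.inr ⟨hdim, c, hc, hBC hcB, hCc, hCcc, ?_⟩)⟩, ?_, ?_⟩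
      · have h1 : (c.1 - (r : ℤ), c.2 - (r : ℤ)) ∈ C := hBC (by rw [hBmem]; simp)
        have h2 : (c.1 + (r : ℤ), c.2 + (r : ℤ)) ∈ C := hBC (by rw [hBmem]; simp)
        have := bd_ge_box C hCc _ _ _ _ h1 h2 h1 h2 (by simp; omega) (by simp; omega)
        simp only at this
        have h3 : (4 * (2 * (r : ℤ) + 1)) ≤ (bd C : ℤ) := by
          refine le_trans (le_of_eq ?_) this
          ring
        exact_mod_cast h3
      · intro z hz
        exact Finset.mem_sdiff.2 ⟨hRG hz, fun h => (Finset.mem_sdiff.1 (hCG h)).2 hz⟩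
      · intro z hz hdeg
        obtain ⟨e, he⟩ := Finset.card_pos.1 hdeg
        have he2 : z + step e ∉ G \ C := (Finset.mem_filter.1 he).2
        rw [Finset.mem_sdiff, not_and_or, not_not] at he2
        obtain ⟨hzG, hzC⟩ := Finset.mem_sdiff.1 hz
        rcases he2 with he2 | he2
        · exact hGR z hzG e he2
        · obtain ⟨e', he'⟩ := step_neg e
          have := hCR (z + step e) he2 e' (by rw [he']; exact hzC)
          rwa [he'] at this
  · refine ⟨G, ∅, ⟨p.1, p'.2, a, b, ha1, hb1, hGbox', hbdG, by simpa using hRG h0, hG, hGc,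
        Finset.empty_subset _, by simp [bd], Or.inl ⟨rfl, hdim⟩⟩, by simpa, ?_⟩
    intro z hz hdeg
    rw [Finset.sdiff_empty] at hz hdeg
    obtain ⟨e, he⟩ := Finset.card_pos.1 hdeg
    exact hGR z hz e (Finset.mem_filter.1 he).2

end Pool.Agent.WSQ
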