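import Pool.Agent.WSQ.UpperDefs
import Pool.Agent.WSQ.Upper3
import Pool.Agent.WSQ.Gap

/-!
# Module E1, part 4: numerics
-/

open Filter Topology
open scoped BigOperators

namespace Pool.Agent.WSQ

theorem sideU_pos {β t : ℝ} (hβ : 0 < β) (ht : 0 < t) : 0 < side β t := by
  unfold side; positivity

theorem sideU_cube {β t : ℝ} (hβ : 0 < β) (ht : 0 < t) :
    t = β * side β t ^ 3 / Real.pi ^ 2 := by
  unfold side
  have h1 : ((Real.pi ^ 2 / β) ^ (1 / 3 : ℝ)) ^ 3 = Real.pi ^ 2 / β := by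
    rw [← Real.rpow_natCast, ← Real.rpow_mul (by positivity)]; norm_num
  have h2 : (t ^ (1 / 3 : ℝ)) ^ 3 = t := by
    rw [← Real.rpow_natCast, ← Real.rpow_mul (by positivity)]; norm_num
  rw [mul_pow, h1, h2]
  field_simp

theorem rate_eq {β t : ℝ} (hβ : 0 < β) : rate β * t ^ (1 / 3 : ℝ) = 6 * β * side β t := by
  unfold rate side
  have h1 : Real.pi ^ (2 / 3 : ℝ) * β ^ (2 / 3 : ℝ) = β * (Real.pi ^ 2 / β) ^ (1 / 3 : ℝ) := by
    rw [Real.div_rpow (by positivity) hβ.le, ← Real.rpow_natCast Real.pi 2,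
      ← Real.rpow_mul Real.pi_pos.le]
    have h2 : β ^ (2 / 3 : ℝ) * β ^ (1 / 3 : ℝ) = β := by
      rw [← Real.rpow_add hβ]; norm_num
    have h3 : (0 : ℝ) < β ^ (1 / 3 : ℝ) := by positivity
    have h4 : ((2 : ℕ) : ℝ) * (1 / 3) = 2 / 3 := by norm_num
    rw [h4]
    field_simp
    rw [h2]
  calc 6 * Real.pi ^ (2 / 3 : ℝ) * β ^ (2 / 3 : ℝ) * t ^ (1 / 3 : ℝ)
      = 6 * (Real.pi ^ (2 / 3 : ℝ) * β ^ (2 / 3 : ℝ)) * t ^ (1 / 3 : ℝ) := by ring
    _ = _ := by rw [h1]; ring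

theorem tendsto_side {β : ℝ} (hβ : 0 < β) : Tendsto (fun t => side β t) atTop atTop := by
  unfold side
  exact Tendsto.const_mul_atTop (by positivity) (tendsto_rpow_atTop (by norm_num))

/-- `2x + L³/x² ≥ 3L`. -/
theorem g_ge (L x : ℝ) (hL : 0 < L) (hx : 0 < x) : 3 * L ≤ 2 * x + L ^ 3 / x ^ 2 := by
  have h : 2 * x + L ^ 3 / x ^ 2 - 3 * L = (x - L) ^ 2 * (2 * x + L) / x ^ 2 := by
    field_simp; ring
  have : 0 ≤ (x - L) ^ 2 * (2 * x + L) / x ^ 2 := by positivity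
  linarith

theorem g_gap (ε L x : ℝ) (hε : 0 < ε) (hε1 : ε < 1) (hL : 0 < L) (hx : 0 < x)
    (h : ¬ ((1 - ε) * L ≤ x ∧ x ≤ (1 + ε) * L)) :
    (3 + ε ^ 2 / 2) * L ≤ 2 * x + L ^ 3 / x ^ 2 := by
  have h1 : 2 * x + L ^ 3 / x ^ 2 - 3 * L = (x - L) ^ 2 * (2 * x + L) / x ^ 2 := by
    field_simp; ring
  have h2 : ε ^ 2 / 2 * L ≤ (x - L) ^ 2 * (2 * x + L) / x ^ 2 := by
    rw [le_div_iff₀ (by positivity)]
    by_cases h3 : (1 - ε) * L ≤ x
    · have h4 : (1 + ε) * L < x := by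
        by_contra h5
        exact h ⟨h3, not_lt.1 h5⟩
      have h5 : ε * x ≤ (1 + ε) * (x - L) := by nlinarith
      have h6 : ε * x ≤ 2 * (x - L) := by
        have : 0 ≤ x - L := by nlinarith
        nlinarith
      have h7 : (ε * x) ^ 2 ≤ (2 * (x - L)) ^ 2 :=
        pow_le_pow_left₀ (by positivity) h6 2
      have h8 : L ≤ x := by nlinarith
      nlinarith [sq_nonneg (x - L), mul_nonneg (sq_nonneg (x - L)) hL.le,
        mul_le_mul_of_nonneg_right h7 hL.le, mul_le_mul_of_nonneg_left h8 (sq_nonneg (x - L))]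
    · push_neg at h3
      have h5 : ε * L ≤ L - x := by linarith
      have h6 : (ε * L) ^ 2 ≤ (L - x) ^ 2 := pow_le_pow_left₀ (by positivity) h5 2
      have h7 : x ≤ L := by nlinarith
      have h8 : x ^ 2 ≤ L ^ 2 := pow_le_pow_left₀ hx.le h7 2
      have h9 : (x - L) ^ 2 = (L - x) ^ 2 := by ring
      rw [h9]
      have h10 : ε ^ 2 / 2 * L * x ^ 2 ≤ ε ^ 2 * L * L ^ 2 := by
        have : ε ^ 2 * L * x ^ 2 ≤ ε ^ 2 * L * L ^ 2 := by gcongr
        have : 0 ≤ ε ^ 2 * L * x ^ 2 := by positivity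
        linarith
      have h11 : ε ^ 2 * L * L ^ 2 ≤ (L - x) ^ 2 * (2 * x + L) := by
        have : (ε * L) ^ 2 * L ≤ (L - x) ^ 2 * (2 * x + L) := by
          refine mul_le_mul h6 (by linarith) hL.le (sq_nonneg _)
        nlinarith
      linarith
  linarith

/-- Core numerical estimate (one dimension). -/
theorem mu_est (A : ℕ) (hA : 1 ≤ A) (δ : ℝ) (hδ : 0 < δ) (hδ1 : δ < 1 / 4) :
    ∃ L1 : ℝ, 0 < L1 ∧ ∀ (β L t : ℝ), 0 < β → L1 ≤ L → t = β * L ^ 3 / Real.pi ^ 2 →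
      ∀ a : ℕ, 1 ≤ a →
        (8 * β * L ≤ (1 - 2 * δ) * (2 * β * a) + mu A a * t) ∨
        ((1 - 2 * δ) * (β * (2 * a + L ^ 3 / (a : ℝ) ^ 2)) ≤
          (1 - 2 * δ) * (2 * β * a) + mu A a * t) := by
  obtain ⟨a0, ha0⟩ := mu_lower A δ hδ
  have hm0 : 0 < mu A a0 := mu_pos A a0 hA
  refine ⟨Real.sqrt (8 * Real.pi ^ 2 / mu A a0) + 1, by positivity, ?_⟩
  intro β L t hβ hL ht a ha
  have hLpos : 0 < L := lt_of_lt_of_le (by positivity) hL
  have htpos : 0 < t := by rw [ht]; positivity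
  have ha' : (0 : ℝ) < a := by exact_mod_cast ha
  have hδ2 : 0 < 1 - 2 * δ := by linarith
  rcases le_total a0 a with h | h
  · right
    have h1 := ha0 a h
    have h2 : (1 - 2 * δ) * (β * (L ^ 3 / (a : ℝ) ^ 2)) ≤ mu A a * t := by
      have h3 : (1 - 2 * δ) * (β * (L ^ 3 / (a : ℝ) ^ 2)) =
          (1 - 2 * δ) * Real.pi ^ 2 / (a : ℝ) ^ 2 * t := by
        rw [ht]; field_simp
      rw [h3]
      refine mul_le_mul_of_nonneg_right (le_trans ?_ h1) htpos.le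
      gcongr
      linarith
    have h4 : (1 - 2 * δ) * (β * (2 * a + L ^ 3 / (a : ℝ) ^ 2)) =
        (1 - 2 * δ) * (2 * β * a) + (1 - 2 * δ) * (β * (L ^ 3 / (a : ℝ) ^ 2)) := by ring
    linarith
  · left
    have h1 : mu A a0 ≤ mu A a := mu_anti A a a0 h
    have h2 : 8 * Real.pi ^ 2 / mu A a0 ≤ L ^ 2 := by
      have h3 : Real.sqrt (8 * Real.pi ^ 2 / mu A a0) ≤ L := by linarith
      have h4 := pow_le_pow_left₀ (Real.sqrt_nonneg _) h3 2
      rwa [Real.sq_sqrt (by positivity)] at h4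
    rw [div_le_iff₀ hm0] at h2
    have h3 : 8 * β * L ≤ mu A a0 * t := by
      rw [ht]
      have : 8 * β * L * Real.pi ^ 2 ≤ mu A a0 * (β * L ^ 3) := by nlinarith [mul_pos hβ hLpos]
      rw [mul_div_assoc', le_div_iff₀ (by positivity)]
      exact this
    have h4 : mu A a0 * t ≤ mu A a * t := mul_le_mul_of_nonneg_right h1 htpos.le
    have h5 : 0 ≤ (1 - 2 * δ) * (2 * β * a) := by positivity
    linarith

/-- Two-dimensional numerical estimate without using the quality of the dimensions. -/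
theorem mu_est2 (A : ℕ) (hA : 1 ≤ A) (δ : ℝ) (hδ : 0 < δ) (hδ1 : δ < 1 / 4) :
    ∃ L1 : ℝ, 0 < L1 ∧ ∀ (β L t : ℝ), 0 < β → L1 ≤ L → t = β * L ^ 3 / Real.pi ^ 2 →
      ∀ a b : ℕ, 1 ≤ a → 1 ≤ b →
        (1 - 2 * δ) * (6 * β * L) ≤
          (1 - 2 * δ) * (β * (2 * (a + b))) + (mu A a + mu A b) * t ∧
        (∀ ε : ℝ, 0 < ε → ε < 1 → ¬ DimOK ε L a b →
          (1 - 2 * δ) * ((6 + ε ^ 2 / 2) * β * L) ≤
            (1 - 2 * δ) * (β * (2 * (a + b))) + (mu A a + mu A b) * t) := by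
  obtain ⟨L1, hL1, h⟩ := mu_est A hA δ hδ hδ1
  refine ⟨L1, hL1, ?_⟩
  intro β L t hβ hL ht a b ha hb
  have hLpos : 0 < L := lt_of_lt_of_le hL1 hL
  have htpos : 0 < t := by rw [ht]; positivity
  have hβL : 0 < β * L := mul_pos hβ hLpos
  have ha' : (0 : ℝ) < a := by exact_mod_cast ha
  have hb' : (0 : ℝ) < b := by exact_mod_cast hb
  have hδ2 : 0 < 1 - 2 * δ := by linarith
  have hma := mul_pos (mu_pos A a hA) htpos
  have hmb := mul_pos (mu_pos A b hA) htpos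
  have hpa : 0 ≤ (1 - 2 * δ) * (2 * β * a) := by positivity
  have hpb : 0 ≤ (1 - 2 * δ) * (2 * β * b) := by positivity
  have hE := h β L t hβ hL ht a ha
  have hF := h β L t hβ hL ht b hb
  have hsplit : (1 - 2 * δ) * (β * (2 * (a + b))) + (mu A a + mu A b) * t =
      ((1 - 2 * δ) * (2 * β * a) + mu A a * t) + ((1 - 2 * δ) * (2 * β * b) + mu A b * t) := by
    ring
  have hg1 := g_ge L a hLpos ha'
  have hg2 := g_ge L b hLpos hb'
  have hga : (1 - 2 * δ) * (3 * β * L) ≤ (1 - 2 * δ) * (β * (2 * a + L ^ 3 / (a : ℝ) ^ 2)) := by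
    have : (1 - 2 * δ) * (3 * β * L) = (1 - 2 * δ) * (β * (3 * L)) := by ring
    rw [this]
    gcongr
  have hgb : (1 - 2 * δ) * (3 * β * L) ≤ (1 - 2 * δ) * (β * (2 * b + L ^ 3 / (b : ℝ) ^ 2)) := by
    have : (1 - 2 * δ) * (3 * β * L) = (1 - 2 * δ) * (β * (3 * L)) := by ring
    rw [this]
    gcongr
  have hsmall : ∀ κ : ℝ, 0 ≤ κ → κ ≤ 1 → (1 - 2 * δ) * ((6 + κ / 2) * β * L) ≤ 8 * β * L := by
    intro κ h0 h1
    have h2 : (1 - 2 * δ) * (6 + κ / 2) ≤ 8 := by nlinarith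
    calc (1 - 2 * δ) * ((6 + κ / 2) * β * L) = ((1 - 2 * δ) * (6 + κ / 2)) * (β * L) := by ring
      _ ≤ 8 * (β * L) := mul_le_mul_of_nonneg_right h2 hβL.le
      _ = 8 * β * L := by ring
  constructor
  · rw [hsplit]
    have h0 := hsmall 0 le_rfl zero_le_one
    rcases hE with hE | hE
    · have : (1 - 2 * δ) * (6 * β * L) ≤ 8 * β * L := by simpa using h0
      linarith
    · rcases hF with hF | hF
      · have : (1 - 2 * δ) * (6 * β * L) ≤ 8 * β * L := by simpa using h0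
        linarith
      · have : (1 - 2 * δ) * (6 * β * L) = (1 - 2 * δ) * (3 * β * L) + (1 - 2 * δ) * (3 * β * L) := by
          ring
        linarith
  · intro ε hε hε1 hdim
    rw [hsplit]
    have h0 := hsmall (ε ^ 2) (by positivity) (by nlinarith)
    rcases hE with hE | hE
    · linarith
    · rcases hF with hF | hF
      · linarith
      · have hbad : ¬ ((1 - ε) * L ≤ a ∧ (a : ℝ) ≤ (1 + ε) * L) ∨
            ¬ ((1 - ε) * L ≤ b ∧ (b : ℝ) ≤ (1 + ε) * L) := by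
          by_contra hcon
          rw [not_or, not_not, not_not] at hcon
          exact hdim ⟨hcon.1.1, hcon.1.2, hcon.2.1, hcon.2.2⟩
        have h6 : (1 - 2 * δ) * ((6 + ε ^ 2 / 2) * β * L) =
            (1 - 2 * δ) * (β * ((3 + ε ^ 2 / 2) * L)) + (1 - 2 * δ) * (3 * β * L) := by ring
        rcases hbad with hbad | hbad
        · have h7 := g_gap ε L a hε hε1 hLpos ha' hbad
          have h8 : (1 - 2 * δ) * (β * ((3 + ε ^ 2 / 2) * L)) ≤
              (1 - 2 * δ) * (β * (2 * a + L ^ 3 / (a : ℝ) ^ 2)) := by gcongr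
          linarith
        · have h7 := g_gap ε L b hε hε1 hLpos hb' hbad
          have h8 : (1 - 2 * δ) * (β * ((3 + ε ^ 2 / 2) * L)) ≤
              (1 - 2 * δ) * (β * (2 * b + L ^ 3 / (b : ℝ) ^ 2)) := by gcongr
          linarith

end Pool.Agent.WSQ
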