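import Pool.Agent.WSQ.Defs

/-!
# Definitions for the upper bound
-/

namespace Pool.Agent.WSQ

/-- Side length of the optimal square, `(π²/β)^{1/3} t^{1/3}`. -/
noncomputable def side (β t : ℝ) : ℝ := (Real.pi ^ 2 / β) ^ (1 / 3 : ℝ) * t ^ (1 / 3 : ℝ)

/-- The rate `6 π^{2/3} β^{2/3}`. -/
noncomputable def rate (β : ℝ) : ℝ := 6 * Real.pi ^ (2 / 3 : ℝ) * β ^ (2 / 3 : ℝ)

/-- The set fills its bounding box up to scale `ε L`, and both sides of the box are `(1 ± ε) L`. -/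
def GoodSet (ε L : ℝ) (R : Set Z2) : Prop :=
  ∃ (x0 y0 : ℤ) (a b : ℕ), (1 - ε) * L ≤ a ∧ (a : ℝ) ≤ (1 + ε) * L ∧
    (1 - ε) * L ≤ b ∧ (b : ℝ) ≤ (1 + ε) * L ∧
    (∀ p ∈ R, x0 ≤ p.1 ∧ p.1 < x0 + a ∧ y0 ≤ p.2 ∧ p.2 < y0 + b) ∧
    ∀ q : Z2, (x0 ≤ q.1 ∧ q.1 < x0 + a ∧ y0 ≤ q.2 ∧ q.2 < y0 + b) →
      ∃ p ∈ R, |(p.1 : ℝ) - q.1| ≤ ε * L ∧ |(p.2 : ℝ) - q.2| ≤ ε * L

end Pool.Agent.WSQ
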